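import Pool.Agent.H182R2.CB.Defs

/-!
A0a: basic facts on signed systems.
-/

namespace Pool.Agent.H182R2.CB

section A

variable {X : Type*} [NormedAddCommGroup X] [NormedSpace ℝ X] {G E : Type*} [Group G]
  {ρ : G →* Equiv.Perm E} {σ : G}

theorem A0a_inj (S : SignedSystem X ρ σ) (e e' : E) (h : S.c e = S.c e') : e = e' := by
  by_contra hne
  have h1 := S.bio e
  by_cases h2 : e = ρ σ e'
  · have h3 : S.c e (S.v e) = - S.c e' (S.v e) := by
      have h4 := S.neg e' (S.v e)
      rwa [← h2] at h4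
    rw [← h] at h3
    linarith
  · have h3 := S.bio' e' e hne h2
    rw [← h] at h3
    linarith

/-- A0a. `c` is injective and `ρ σ` is a fixed-point-free involution commuting with everything. -/
theorem A0a_basic (S : SignedSystem X ρ σ) :
    (∀ e e', S.c e = S.c e' → e = e') ∧ (∀ e, ρ σ e ≠ e) ∧ (∀ e, ρ σ (ρ σ e) = e) ∧
      (∀ g e, ρ g (ρ σ e) = ρ σ (ρ g e)) ∧ (∀ e, S.c e (S.v (ρ σ e)) = -1) ∧
      (∀ e e', |S.c e (S.v e')| = 0 ∨ |S.c e (S.v e')| = 1) := by
  have hneg : ∀ e, S.c e (S.v (ρ σ e)) = -1 := by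
    intro e
    have h1 := S.bio (ρ σ e)
    rw [S.neg] at h1
    linarith
  refine ⟨A0a_inj S, ?_, ?_, ?_, hneg, ?_⟩
  · intro e h
    have h1 := S.neg e (S.v e)
    rw [h, S.bio] at h1
    norm_num at h1
  · intro e
    apply A0a_inj S
    ext x
    rw [S.neg, S.neg, neg_neg]
  · intro g e
    apply A0a_inj S
    ext x
    obtain ⟨y, hy, -⟩ := S.op g⁻¹ x
    simp only [inv_inv] at hy
    rw [← hy, S.neg, hy, S.neg]
  · intro e e'
    by_cases h1 : e' = e
    · right
      rw [h1, S.bio, abs_one]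
    · by_cases h2 : e' = ρ σ e
      · right
        rw [h2, hneg, abs_neg, abs_one]
      · left
        rw [S.bio' e e' h1 h2, abs_zero]

end A

end Pool.Agent.H182R2.CB
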