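import Pool.Agent.H182R2.CB.Defs

set_option autoImplicit false

namespace Pool.Agent.H182R2.CB

variable {X : Type*} [NormedAddCommGroup X] [NormedSpace ℝ X] {G E : Type*} [Group G]
  {ρ : G →* Equiv.Perm E} {σ : G}

/-- A0b. -/
theorem A0b_phi (S : SignedSystem X ρ σ) (s : E → E → ℝ)
    (hsσ : ∀ e e', s (ρ σ e) (ρ σ e') = s e e') (i : E × E) (x : X) :
    S.phi s (ρ σ i.1, ρ σ i.2) x = - S.phi s i x := by
  unfold SignedSystem.phi
  have h1 : (ρ σ i.2 = ρ σ i.1 ∨ ρ σ i.2 = ρ σ (ρ σ i.1)) ↔ (i.2 = i.1 ∨ i.2 = ρ σ i.1) := by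
    rw [(ρ σ).injective.eq_iff, (ρ σ).injective.eq_iff]
  by_cases h : i.2 = i.1 ∨ i.2 = ρ σ i.1
  · simp only [if_pos h, if_pos (h1.mpr h)]
    exact S.neg _ _
  · simp only [if_neg h, if_neg (fun h' => h (h1.mp h'))]
    simp only [ContinuousLinearMap.add_apply, ContinuousLinearMap.smul_apply, smul_eq_mul, S.neg,
      hsσ]
    ring

end Pool.Agent.H182R2.CB
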