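import Mathlib

/-!
# Combinatorial Banach spaces and displayability: definitions

MP_7f333f_an.  All spaces are real.
-/

namespace Pool.Agent.H182R2.CB

/-- A regular family of finite subsets of `ℕ`: hereditary, spreading and compact (as a subset of
the Cantor space of `0/1` sequences). -/
structure IsRegularFamily (𝓕 : Set (Finset ℕ)) : Prop where
  hereditary : ∀ F ∈ 𝓕, ∀ G ⊆ F, G ∈ 𝓕
  spreading : ∀ F ∈ 𝓕, ∀ φ : ℕ → ℕ, StrictMonoOn φ (F : Set ℕ) → (∀ i ∈ F, i ≤ φ i) →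
    F.image φ ∈ 𝓕
  compact : IsCompact {χ : ℕ → Bool | ∃ F ∈ 𝓕, ∀ i, χ i = true ↔ i ∈ F}

/-- `X` with the sequence `e` is (isometric to) the combinatorial space of the family `𝓕`, with
its unit vector basis: the norm of a finite combination `∑ a_k e_k` is
`sup_{F ∈ 𝓕} ∑_{k ∈ F} |a_k|`, and such combinations are dense. -/
structure IsCombinatorialSpace (𝓕 : Set (Finset ℕ)) (X : Type*) [NormedAddCommGroup X]
    [NormedSpace ℝ X] (e : ℕ → X) : Prop where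
  norm_eq : ∀ a : ℕ →₀ ℝ,
    ‖Finsupp.linearCombination ℝ e a‖ = ⨆ F : 𝓕, ∑ k ∈ (F : Finset ℕ), |a k|
  dense : Dense (Submodule.span ℝ (Set.range e) : Set X)

/-- The group of surjective linear isometries of `X` for the (semi)norm `N`. -/
def isomGroup (X : Type*) [AddCommGroup X] [Module ℝ X] (N : Seminorm ℝ X) :
    Subgroup (X ≃ₗ[ℝ] X) where
  carrier := {T | ∀ x, N (T x) = N x}
  mul_mem' := by
    intro a b ha hb x
    show N (a (b x)) = N x
    rw [ha, hb]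
  one_mem' := fun x => rfl
  inv_mem' := by
    intro a ha x
    have h := ha (a.symm x)
    rw [LinearEquiv.apply_symm_apply] at h
    exact h.symm

/-- A group `G` is displayable on `X` if it is isomorphic to the isometry group of `X` under some
equivalent norm. -/
def Displayable (X : Type*) [NormedAddCommGroup X] [NormedSpace ℝ X] (G : Type*) [Group G] :
    Prop :=
  ∃ N : Seminorm ℝ X, (∃ m M : ℝ, 0 < m ∧ ∀ x, m * ‖x‖ ≤ N x ∧ N x ≤ M * ‖x‖) ∧
    Nonempty (G ≃* isomGroup X N)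

/-- The set of permutations of `ℕ` that are pointwise limits of elements of `G` lies in `G`:
`G` is a closed subgroup of `SYM(ℕ)`. -/
def IsClosedPerm (G : Subgroup (Equiv.Perm ℕ)) : Prop :=
  ∀ π : Equiv.Perm ℕ, (∀ s : Finset ℕ, ∃ g ∈ G, ∀ i ∈ s, g i = π i) → π ∈ G

/-- The family `{F : nF ∈ 𝓕}`. -/
def dil (n : ℕ) (𝓕 : Set (Finset ℕ)) : Set (Finset ℕ) :=
  {F | F.image (fun k => n * k) ∈ 𝓕}

/-- Splitting data: a `c₀` part (indices `Sum.inl k`) and the rest (indices `Sum.inr j`). -/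
structure Splitting (Y : Type*) [NormedAddCommGroup Y] [NormedSpace ℝ Y] (J : Type*) where
  K : ℝ
  hK : 1 ≤ K
  c : ℕ ⊕ J → Y →L[ℝ] ℝ
  v : ℕ ⊕ J → Y
  c_bound : ∀ i x, |c i x| ≤ K * ‖x‖
  v_bound : ∀ i, ‖v i‖ ≤ K
  bio : ∀ i, c i (v i) = 1
  bio' : ∀ i j, i ≠ j → c i (v j) = 0
  total : ∀ x, (∀ i, c i x = 0) → x = 0
  null : ∀ x, ∀ ε : ℝ, 0 < ε → {i | ε ≤ |c i x|}.Finite
  lift : ∀ (f : ℕ → ℝ) (M : ℝ), (∀ ε : ℝ, 0 < ε → {k | ε ≤ |f k|}.Finite) →
    (∀ k, |f k| ≤ M) →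
    ∃ x : Y, (∀ k, c (Sum.inl k) x = f k) ∧ (∀ j, c (Sum.inr j) x = 0) ∧ ‖x‖ ≤ K * M

/-- A signed system of coordinates on `X` permuted by `G` through `ρ`; the element `σ` acts as
the negation. -/
structure SignedSystem (X : Type*) [NormedAddCommGroup X] [NormedSpace ℝ X] {G E : Type*}
    [Group G] (ρ : G →* Equiv.Perm E) (σ : G) where
  K : ℝ
  hK : 1 ≤ K
  c : E → X →L[ℝ] ℝ
  v : E → X
  c_bound : ∀ e x, |c e x| ≤ K * ‖x‖
  v_bound : ∀ e, ‖v e‖ ≤ K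
  neg : ∀ e x, c (ρ σ e) x = - c e x
  bio : ∀ e, c e (v e) = 1
  bio' : ∀ e e', e' ≠ e → e' ≠ ρ σ e → c e (v e') = 0
  total : ∀ x, (∀ e, c e x = 0) → x = 0
  null : ∀ x, ∀ ε : ℝ, 0 < ε → {e | ε ≤ |c e x|}.Finite
  op : ∀ (g : G) (x : X), ∃ y : X, (∀ e, c e y = c (ρ g⁻¹ e) x) ∧ ‖y‖ ≤ K * ‖x‖

/-- The odd `Y`-valued functions on `Θ`. -/
def oddSpace (Y : Type*) [NormedAddCommGroup Y] [NormedSpace ℝ Y] {Θ : Type*} (ν : Θ → Θ) :
    Submodule ℝ (Θ → Y) where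
  carrier := {f | ∀ t, f (ν t) = - f t}
  add_mem' := by
    intro a b ha hb t
    simp only [Pi.add_apply, ha t, hb t, neg_add]
  zero_mem' := by intro t; simp
  smul_mem' := by
    intro r a ha t
    simp only [Pi.smul_apply, ha t, smul_neg]

/-- The action on `(ℕ × Θ) ⊕ (J × Θ)`. -/
def sumAct {G Θ : Type*} [Group G] (ρ : G →* Equiv.Perm (ℕ × Θ)) (θ : G →* Equiv.Perm Θ)
    (J : Type*) : G →* Equiv.Perm ((ℕ × Θ) ⊕ (J × Θ)) where
  toFun g := Equiv.sumCongr (ρ g) (Equiv.prodCongr (Equiv.refl J) (θ g))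
  map_one' := by
    ext x
    rcases x with x | x <;> simp
  map_mul' := by
    intro g h
    ext x
    rcases x with x | ⟨x, y⟩ <;> simp

open Classical in
/-- The norming functionals: `c_e` and `(3/4)(c_e + c_e') + s(e,e')(c_e - c_e')`. -/
noncomputable def SignedSystem.phi {X : Type*} [NormedAddCommGroup X] [NormedSpace ℝ X]
    {G E : Type*} [Group G] {ρ : G →* Equiv.Perm E} {σ : G} (S : SignedSystem X ρ σ)
    (s : E → E → ℝ) (i : E × E) : X →L[ℝ] ℝ :=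
  if i.2 = i.1 ∨ i.2 = ρ σ i.1 then S.c i.1
  else (3 / 4 + s i.1 i.2) • S.c i.1 + (3 / 4 - s i.1 i.2) • S.c i.2

end Pool.Agent.H182R2.CB
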