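import Mathlib
import Pool.Agent.H182R2.CB.Defs

/-! # A1: the operators `T g` -/

set_option autoImplicit false

namespace Pool.Agent.H182R2.CB

variable {X : Type*} [NormedAddCommGroup X] [NormedSpace ℝ X] {G E : Type*} [Group G]
  {ρ : G →* Equiv.Perm E} {σ : G}

theorem A1_ext (S : SignedSystem X ρ σ) (x y : X) (h : ∀ e, S.c e x = S.c e y) : x = y := by
  rw [← sub_eq_zero]
  apply S.total
  intro e
  rw [map_sub, h e, sub_self]

/-- A1. The operators `T g`. -/
theorem A1_T (S : SignedSystem X ρ σ) :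
    ∃ T : G →* (X ≃ₗ[ℝ] X), (∀ g e x, S.c e (T g x) = S.c (ρ g⁻¹ e) x) ∧
      ∀ g x, ‖T g x‖ ≤ S.K * ‖x‖ := by
  choose T₀ hT hK using S.op
  have hinv : ∀ g x, T₀ g⁻¹ (T₀ g x) = x := by
    intro g x
    apply A1_ext S
    intro e
    rw [hT, hT, inv_inv, ← Equiv.Perm.mul_apply, ← map_mul, inv_mul_cancel, map_one,
      Equiv.Perm.one_apply]
  let T₁ : G → (X ≃ₗ[ℝ] X) := fun g =>
    { toFun := T₀ g
      invFun := T₀ g⁻¹
      map_add' := by
        intro x y
        apply A1_ext S
        intro e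
        rw [hT, map_add, map_add, hT, hT]
      map_smul' := by
        intro r x
        apply A1_ext S
        intro e
        rw [hT, map_smul, RingHom.id_apply, map_smul, hT]
      left_inv := hinv g
      right_inv := by
        intro x
        have := hinv g⁻¹ x
        rwa [inv_inv] at this }
  have hT1 : ∀ g x, T₁ g x = T₀ g x := fun _ _ => rfl
  refine ⟨MonoidHom.mk' T₁ ?_, ?_, ?_⟩
  · intro g h
    apply LinearEquiv.ext
    intro x
    change T₀ (g * h) x = T₀ g (T₀ h x)
    apply A1_ext S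
    intro e
    rw [hT, hT, hT, mul_inv_rev, map_mul, Equiv.Perm.mul_apply]
  · intro g e x
    exact hT g x e
  · intro g x
    exact hK g x

end Pool.Agent.H182R2.CB
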