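import Pool.Agent.H182R2.CB.Defs

namespace Pool.Agent.H182R2.CB

open Finset

section A

variable {X : Type*} [NormedAddCommGroup X] [NormedSpace ℝ X] {G E : Type*} [Group G]
  {ρ : G →* Equiv.Perm E} {σ : G}

/-- the supremum of a family of seminorms -/
noncomputable def A2_sup {ι : Type*} (f : ι → Seminorm ℝ X) (C : ℝ)
    (hC : ∀ i x, f i x ≤ C * ‖x‖) : Seminorm ℝ X :=
  Seminorm.of (fun x => ⨆ i, f i x)
    (by
      intro x y
      rcases isEmpty_or_nonempty ι with h | h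
      · simp only [Real.iSup_of_isEmpty, add_zero, le_refl]
      · apply ciSup_le
        intro i
        have hb : ∀ x, BddAbove (Set.range fun i => f i x) := by
          intro x
          refine ⟨C * ‖x‖, ?_⟩
          rintro _ ⟨i, rfl⟩
          exact hC i x
        exact (map_add_le_add (f i) x y).trans
          (add_le_add (le_ciSup (hb x) i) (le_ciSup (hb y) i)))
    (by
      intro a x
      rw [Real.mul_iSup_of_nonneg (norm_nonneg a)]
      congr 1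
      funext i
      exact map_smul_eq_mul (f i) a x)

theorem A2_sup_apply {ι : Type*} (f : ι → Seminorm ℝ X) (C : ℝ)
    (hC : ∀ i x, f i x ≤ C * ‖x‖) (x : X) : A2_sup f C hC x = ⨆ i, f i x := rfl

theorem A2_le_sup {ι : Type*} (f : ι → Seminorm ℝ X) (C : ℝ)
    (hC : ∀ i x, f i x ≤ C * ‖x‖) (i : ι) (x : X) : f i x ≤ A2_sup f C hC x := by
  have hb : BddAbove (Set.range fun i => f i x) := by
    refine ⟨C * ‖x‖, ?_⟩
    rintro _ ⟨i, rfl⟩
    exact hC i x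
  exact le_ciSup hb i

theorem A2_sup_le {ι : Type*} (f : ι → Seminorm ℝ X) (C : ℝ)
    (hC : ∀ i x, f i x ≤ C * ‖x‖) (x : X) (M : ℝ) (hM : 0 ≤ M) (h : ∀ i, f i x ≤ M) :
    A2_sup f C hC x ≤ M :=
  Real.iSup_le h hM

theorem A2_inj (S : SignedSystem X ρ σ) (e e' : E) (h : ∀ x, S.c e x = S.c e' x) : e = e' := by
  by_contra hne
  by_cases h1 : e = ρ σ e'
  · have h2 := S.neg e' (S.v e)
    rw [← h1, ← h, S.bio e] at h2
    norm_num at h2
  · have h2 := S.bio' e' e hne h1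
    rw [← h, S.bio e] at h2
    norm_num at h2

theorem A2_comm (S : SignedSystem X ρ σ) (T : G →* (X ≃ₗ[ℝ] X))
    (hT : ∀ g e x, S.c e (T g x) = S.c (ρ g⁻¹ e) x) (g : G) (e : E) :
    ρ g⁻¹ (ρ σ e) = ρ σ (ρ g⁻¹ e) := by
  apply A2_inj S
  intro x
  rw [S.neg, ← hT, S.neg, hT]

theorem A2_phi (S : SignedSystem X ρ σ) (s : E → E → ℝ)
    (hsinv : ∀ g e e', s (ρ g e) (ρ g e') = s e e')
    (T : G →* (X ≃ₗ[ℝ] X)) (hT : ∀ g e x, S.c e (T g x) = S.c (ρ g⁻¹ e) x)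
    (g : G) (i : E × E) (x : X) :
    S.phi s i (T g x) = S.phi s (ρ g⁻¹ i.1, ρ g⁻¹ i.2) x := by
  have h1 : (ρ g⁻¹ i.2 = ρ g⁻¹ i.1 ∨ ρ g⁻¹ i.2 = ρ σ (ρ g⁻¹ i.1)) ↔
      (i.2 = i.1 ∨ i.2 = ρ σ i.1) := by
    rw [← A2_comm S T hT, (ρ g⁻¹).injective.eq_iff, (ρ g⁻¹).injective.eq_iff]
  unfold SignedSystem.phi
  by_cases h : i.2 = i.1 ∨ i.2 = ρ σ i.1
  · rw [if_pos h, if_pos (h1.2 h)]
    exact hT g i.1 x
  · rw [if_neg h, if_neg (fun h' => h (h1.1 h'))]
    simp only [add_apply, smul_apply]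
    rw [hT, hT, hsinv]

theorem A2_phi_le (S : SignedSystem X ρ σ) (s : E → E → ℝ)
    (hs01 : ∀ e e', 0 < s e e' ∧ s e e' < 1 / 40) (i : E × E) (x : X) :
    |S.phi s i x| ≤ 3 / 2 * S.K * ‖x‖ := by
  have hK := S.hK
  have hx := norm_nonneg x
  have hKx : 0 ≤ S.K * ‖x‖ := by positivity
  unfold SignedSystem.phi
  split_ifs with h
  · have := S.c_bound i.1 x
    nlinarith
  · have h1 := S.c_bound i.1 x
    have h2 := S.c_bound i.2 x
    have h3 := hs01 i.1 i.2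
    simp only [add_apply, smul_apply, smul_eq_mul]
    refine (abs_add_le _ _).trans ?_
    rw [abs_mul, abs_mul, abs_of_nonneg (by linarith : 0 ≤ 3 / 4 + s i.1 i.2),
      abs_of_nonneg (by linarith : 0 ≤ 3 / 4 - s i.1 i.2)]
    have h4 := mul_le_mul_of_nonneg_left h1 (by linarith : 0 ≤ 3 / 4 + s i.1 i.2)
    have h5 := mul_le_mul_of_nonneg_left h2 (by linarith : 0 ≤ 3 / 4 - s i.1 i.2)
    nlinarith

/-- A2. The three seminorms. -/
theorem A2_norms (S : SignedSystem X ρ σ) (s : E → E → ℝ)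
    (hs01 : ∀ e e', 0 < s e e' ∧ s e e' < 1 / 40)
    (hsinv : ∀ g e e', s (ρ g e) (ρ g e') = s e e')
    (Q : Finset E) (hQ : ∀ g, ∀ e ∈ Q, ρ g e ∈ Q)
    (T : G →* (X ≃ₗ[ℝ] X)) (hT : ∀ g e x, S.c e (T g x) = S.c (ρ g⁻¹ e) x)
    (hTK : ∀ g x, ‖T g x‖ ≤ S.K * ‖x‖) :
    ∃ p q r : Seminorm ℝ X, (∀ x, ‖x‖ ≤ p x) ∧ (∀ x, p x ≤ S.K * ‖x‖) ∧
      (∀ g x, p (T g x) = p x) ∧ (∀ x, q x ^ 2 = ∑ e ∈ Q, (S.c e x) ^ 2) ∧
      (∀ g x, q (T g x) = q x) ∧ (∀ i x, |S.phi s i x| ≤ r x) ∧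
      (∀ (x : X) (M : ℝ), 0 ≤ M → (∀ i, |S.phi s i x| ≤ M) → r x ≤ M) ∧
      (∀ g x, r (T g x) = r x) := by
  have hK := S.hK
  -- p
  let fp : G → Seminorm ℝ X := fun g => (normSeminorm ℝ X).comp (T g).toLinearMap
  have hfp : ∀ g x, fp g x = ‖T g x‖ := fun g x => rfl
  have hfpC : ∀ g x, fp g x ≤ S.K * ‖x‖ := fun g x => hTK g x
  -- q
  let L : X →ₗ[ℝ] EuclideanSpace ℝ Q :=
    { toFun := fun x => WithLp.toLp 2 fun e : Q => S.c e x
      map_add' := by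
        intro x y
        ext e
        simp
      map_smul' := by
        intro a x
        ext e
        simp }
  let q : Seminorm ℝ X := (normSeminorm ℝ (EuclideanSpace ℝ Q)).comp L
  have hq : ∀ x, q x ^ 2 = ∑ e ∈ Q, (S.c e x) ^ 2 := by
    intro x
    have h1 : q x = ‖L x‖ := rfl
    rw [h1, EuclideanSpace.norm_sq_eq, ← Finset.sum_coe_sort Q]
    apply Finset.sum_congr rfl
    intro e _
    rw [Real.norm_eq_abs, sq_abs]
    rfl
  -- r
  let fr : E × E → Seminorm ℝ X := fun i => (normSeminorm ℝ ℝ).comp (S.phi s i).toLinearMap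
  have hfr : ∀ i x, fr i x = |S.phi s i x| := fun i x => rfl
  have hfrC : ∀ i x, fr i x ≤ (3 / 2 * S.K) * ‖x‖ := fun i x => A2_phi_le S s hs01 i x
  refine ⟨A2_sup fp S.K hfpC, q, A2_sup fr (3 / 2 * S.K) hfrC, ?_, ?_, ?_, hq, ?_, ?_, ?_, ?_⟩
  · intro x
    have h1 := A2_le_sup fp S.K hfpC 1 x
    rw [hfp, map_one] at h1
    exact h1
  · intro x
    exact A2_sup_le fp S.K hfpC x _ (by positivity) (fun g => hfpC g x)
  · intro g x
    rw [A2_sup_apply, A2_sup_apply]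
    apply Equiv.iSup_congr (Equiv.mulRight g)
    intro g'
    rw [hfp, hfp]
    simp only [Equiv.coe_mulRight, map_mul]
    rfl
  · intro g x
    have h1 : q (T g x) ^ 2 = q x ^ 2 := by
      rw [hq, hq]
      apply Finset.sum_nbij' (fun e => ρ g⁻¹ e) (fun e => ρ g e)
      · intro e he
        exact hQ _ e he
      · intro e he
        exact hQ _ e he
      · intro e _
        simp
      · intro e _
        simp
      · intro e _
        rw [hT]
    have h2 : 0 ≤ q (T g x) := apply_nonneg q _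
    have h3 : 0 ≤ q x := apply_nonneg q _
    exact (pow_left_inj₀ h2 h3 two_ne_zero).1 h1
  · intro i x
    exact A2_le_sup fr _ hfrC i x
  · intro x M hM h
    exact A2_sup_le fr _ hfrC x M hM h
  · intro g x
    rw [A2_sup_apply, A2_sup_apply]
    apply Equiv.iSup_congr (Equiv.prodCongr (ρ g⁻¹) (ρ g⁻¹))
    intro i
    rw [hfr, hfr, A2_phi S s hsinv T hT]
    rfl

end A

end Pool.Agent.H182R2.CB
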