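import Pool.Agent.H182R2.CB.Defs

/-!
A3: facets.
-/

namespace Pool.Agent.H182R2.CB

section A3

variable {X : Type*} [NormedAddCommGroup X] [NormedSpace ℝ X] {G E : Type*} [Group G]
  {ρ : G →* Equiv.Perm E} {σ : G}

theorem A3_ne (S : SignedSystem X ρ σ) (e : E) : ρ σ e ≠ e := by
  intro h
  have h1 := S.neg e (S.v e)
  rw [h, S.bio] at h1
  norm_num at h1

theorem A3_inj (S : SignedSystem X ρ σ) (e e' : E) (h : ∀ x, S.c e x = S.c e' x) : e = e' := by
  by_contra hne
  by_cases h1 : e' = ρ σ e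
  · subst h1
    have h2 := h (S.v e)
    rw [S.neg, S.bio] at h2
    norm_num at h2
  · have h2 := S.bio' e e' (fun h3 => hne h3.symm) h1
    rw [h, S.bio] at h2
    norm_num at h2

theorem A3_invol (S : SignedSystem X ρ σ) (e : E) : ρ σ (ρ σ e) = e := by
  refine A3_inj S _ _ fun x => ?_
  rw [S.neg, S.neg, neg_neg]

theorem A3_val (S : SignedSystem X ρ σ) (g e : E) :
    (g = e ∧ S.c g (S.v e) = 1) ∨ (g = ρ σ e ∧ S.c g (S.v e) = -1) ∨
      (g ≠ e ∧ g ≠ ρ σ e ∧ S.c g (S.v e) = 0) := by
  by_cases h1 : g = e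
  · left; subst h1; exact ⟨rfl, S.bio _⟩
  · by_cases h2 : g = ρ σ e
    · right; left
      refine ⟨h2, ?_⟩
      rw [h2, S.neg, S.bio]
    · right; right
      refine ⟨h1, h2, S.bio' g e (fun h => h1 h.symm) fun h => h2 ?_⟩
      rw [h, A3_invol S]

/-- **A3.** -/
theorem A3_facet (S : SignedSystem X ρ σ) (s : E → E → ℝ)
    (hs01 : ∀ e e', 0 < s e e' ∧ s e e' < 1 / 40)
    (hsσ : ∀ e e', s (ρ σ e) (ρ σ e') = s e e') (i : E × E) :
    ∃ (x : X) (η : ℝ), 0 < η ∧ S.phi s i x = 1 ∧ ‖x‖ ≤ 2 * S.K ∧ (∀ e, |S.c e x| ≤ 1) ∧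
      ∀ j, (∀ y, S.phi s j y = S.phi s i y) ∨ (∀ y, S.phi s j y = - S.phi s i y) ∨
        |S.phi s j x| ≤ 1 - η := by
  have hK := S.hK
  -- values of phi
  have hdeg : ∀ (j : E × E) (y : X), (j.2 = j.1 ∨ j.2 = ρ σ j.1) → S.phi s j y = S.c j.1 y := by
    intro j y hj
    unfold SignedSystem.phi
    rw [if_pos hj]
  have hnon : ∀ (j : E × E) (y : X), ¬ (j.2 = j.1 ∨ j.2 = ρ σ j.1) →
      S.phi s j y = (3 / 4 + s j.1 j.2) * S.c j.1 y + (3 / 4 - s j.1 j.2) * S.c j.2 y := by
    intro j y hj
    unfold SignedSystem.phi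
    rw [if_neg hj]
    rfl
  by_cases hi : i.2 = i.1 ∨ i.2 = ρ σ i.1
  · refine ⟨S.v i.1, 9 / 40, by norm_num, ?_, ?_, ?_, ?_⟩
    · rw [hdeg i _ hi, S.bio]
    · linarith [S.v_bound i.1]
    · intro g
      rcases A3_val S g i.1 with ⟨-, h⟩ | ⟨-, h⟩ | ⟨-, -, h⟩ <;> rw [h] <;> norm_num
    · intro j
      by_cases hj : j.2 = j.1 ∨ j.2 = ρ σ j.1
      · rcases A3_val S j.1 i.1 with ⟨h, -⟩ | ⟨h, -⟩ | ⟨-, -, h⟩
        · left; intro y
          rw [hdeg j _ hj, hdeg i _ hi, h]
        · right; left; intro y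
          rw [hdeg j _ hj, hdeg i _ hi, h, S.neg]
        · right; right
          rw [hdeg j _ hj, h]
          norm_num
      · right; right
        rw [hnon j _ hj]
        obtain ⟨p1, p2⟩ := hs01 j.1 j.2
        push Not at hj
        rcases A3_val S j.1 i.1 with ⟨h1, h⟩ | ⟨h1, h⟩ | ⟨h1, h1', h⟩ <;>
        rcases A3_val S j.2 i.1 with ⟨h2, h'⟩ | ⟨h2, h'⟩ | ⟨h2, h2', h'⟩ <;> rw [h, h', abs_le]
        · exact absurd (h2.trans h1.symm) hj.1
        · exact absurd (h2.trans (by rw [h1])) hj.2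
        · constructor <;> linarith
        · exact absurd (h2.trans (by rw [h1, A3_invol S])) hj.2
        · exact absurd (h2.trans h1.symm) hj.1
        · constructor <;> linarith
        · constructor <;> linarith
        · constructor <;> linarith
        · constructor <;> linarith
  · obtain ⟨e, f⟩ := i
    simp only at hi
    set s0 := s e f with hs0
    obtain ⟨q1, q2⟩ := hs01 e f
    rw [← hs0] at q1 q2
    set lam : ℝ := 1 / (21 / 16 + s0 / 4) with hlam
    have hden : 0 < 21 / 16 + s0 / 4 := by linarith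
    have hl0 : 0 < lam := by rw [hlam]; positivity
    have hl1 : lam * (21 / 16 + s0 / 4) = 1 := by rw [hlam]; field_simp
    have hls : 0 < lam * s0 := mul_pos hl0 q1
    have hlle : lam ≤ 16 / 21 := by nlinarith
    set x : X := lam • (S.v e + (3 / 4 : ℝ) • S.v f) with hx
    have hcx : ∀ g, S.c g x = lam * (S.c g (S.v e) + 3 / 4 * S.c g (S.v f)) := by
      intro g
      rw [hx, map_smul, map_add, map_smul, smul_eq_mul, smul_eq_mul]
    push Not at hi
    have hef : e ≠ f := fun h => hi.1 h.symm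
    have heσf : e ≠ ρ σ f := fun h => hi.2 (by rw [h, A3_invol S])
    have htri : ∀ g, (g = e ∧ S.c g x = lam) ∨ (g = ρ σ e ∧ S.c g x = -lam) ∨
        (g = f ∧ S.c g x = 3 / 4 * lam) ∨ (g = ρ σ f ∧ S.c g x = -(3 / 4 * lam)) ∨
        (g ≠ e ∧ g ≠ ρ σ e ∧ g ≠ f ∧ g ≠ ρ σ f ∧ S.c g x = 0) := by
      intro g
      rw [hcx]
      rcases A3_val S g e with ⟨h1, h⟩ | ⟨h1, h⟩ | ⟨h1, h1', h⟩ <;>
      rcases A3_val S g f with ⟨h2, h'⟩ | ⟨h2, h'⟩ | ⟨h2, h2', h'⟩ <;> rw [h, h']
      · exact absurd (h1.symm.trans h2) hef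
      · exact absurd (h1.symm.trans h2) heσf
      · left; exact ⟨h1, by ring⟩
      · exact absurd (h2.symm.trans h1) hi.2
      · exfalso
        have h3 : ρ σ e = ρ σ f := h1.symm.trans h2
        exact hef ((ρ σ).injective h3)
      · right; left; exact ⟨h1, by ring⟩
      · right; right; left; exact ⟨h2, by ring⟩
      · right; right; right; left; exact ⟨h2, by ring⟩
      · right; right; right; right; exact ⟨h1, h1', h2, h2', by ring⟩
    refine ⟨x, lam * s0 / 4, by positivity, ?_, ?_, ?_, ?_⟩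
    · rw [hnon (e, f) _ (by simp only; push Not; exact hi)]
      simp only
      rw [← hs0]
      rcases htri e with ⟨-, he⟩ | ⟨h, -⟩ | ⟨h, -⟩ | ⟨h, -⟩ | ⟨h, -⟩
      · rcases htri f with ⟨h, -⟩ | ⟨h, -⟩ | ⟨-, hf⟩ | ⟨h, -⟩ | ⟨-, -, h, -⟩
        · exact absurd h hi.1
        · exact absurd h hi.2
        · rw [he, hf]; linarith
        · exact absurd h.symm (A3_ne S f)
        · exact absurd rfl h
      · exact absurd h.symm (A3_ne S e)
      · exact absurd h hef
      · exact absurd h heσf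
      · exact absurd rfl h
    · rw [hx, norm_smul, Real.norm_of_nonneg hl0.le]
      have h1 : ‖S.v e + (3 / 4 : ℝ) • S.v f‖ ≤ 7 / 4 * S.K := by
        refine (norm_add_le _ _).trans ?_
        rw [norm_smul, Real.norm_of_nonneg (by norm_num)]
        linarith [S.v_bound e, S.v_bound f]
      have h0 : (0 : ℝ) ≤ S.K := by linarith
      calc lam * ‖S.v e + (3 / 4 : ℝ) • S.v f‖ ≤ 16 / 21 * (7 / 4 * S.K) :=
            mul_le_mul hlle h1 (norm_nonneg _) (by norm_num)
        _ ≤ 2 * S.K := by linarith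
    · intro g
      rcases htri g with ⟨-, h⟩ | ⟨-, h⟩ | ⟨-, h⟩ | ⟨-, h⟩ | ⟨-, -, -, -, h⟩ <;>
        rw [h, abs_le] <;> constructor <;> linarith
    · intro j
      have hη : 1 - lam * s0 / 4 = 21 / 16 * lam := by linarith
      rw [hη]
      by_cases hj : j.2 = j.1 ∨ j.2 = ρ σ j.1
      · right; right
        rw [hdeg j _ hj]
        rcases htri j.1 with ⟨-, h⟩ | ⟨-, h⟩ | ⟨-, h⟩ | ⟨-, h⟩ | ⟨-, -, -, -, h⟩ <;>
          rw [h, abs_le] <;> constructor <;> linarith
      · obtain ⟨a, b⟩ := j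
        obtain ⟨p1, p2⟩ := hs01 a b
        have p3 : 0 < s a b * lam := mul_pos p1 hl0
        have p4 : s a b * lam < 1 / 40 * lam := mul_lt_mul_of_pos_right p2 hl0
        have hphi := fun y => hnon (a, b) y hj
        simp only at hj hphi
        push Not at hj
        rcases htri a with ⟨h1, h⟩ | ⟨h1, h⟩ | ⟨h1, h⟩ | ⟨h1, h⟩ | ⟨h1, h1', h1'', h1''', h⟩ <;>
        rcases htri b with ⟨h2, h'⟩ | ⟨h2, h'⟩ | ⟨h2, h'⟩ | ⟨h2, h'⟩ | ⟨h2, h2', h2'', h2''', h'⟩
        -- a = e
        · exact absurd (h2.trans h1.symm) hj.1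
        · exact absurd (h2.trans (by rw [h1])) hj.2
        · left; rw [h1, h2]; intro y; rfl
        · right; right; rw [hphi, h, h', abs_le]; constructor <;> linarith
        · right; right; rw [hphi, h, h', abs_le]; constructor <;> linarith
        -- a = τ e
        · exact absurd (h2.trans (by rw [h1, A3_invol S])) hj.2
        · exact absurd (h2.trans h1.symm) hj.1
        · right; right; rw [hphi, h, h', abs_le]; constructor <;> linarith
        · right; left; intro y
          rw [hphi, hnon (e, f) _ (by simp only; push Not; exact hi), h1, h2, hsσ, S.neg, S.neg]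
          ring
        · right; right; rw [hphi, h, h', abs_le]; constructor <;> linarith
        -- a = f
        · right; right; rw [hphi, h, h', abs_le]; constructor <;> linarith
        · right; right; rw [hphi, h, h', abs_le]; constructor <;> linarith
        · exact absurd (h2.trans h1.symm) hj.1
        · exact absurd (h2.trans (by rw [h1])) hj.2
        · right; right; rw [hphi, h, h', abs_le]; constructor <;> linarith
        -- a = τ f
        · right; right; rw [hphi, h, h', abs_le]; constructor <;> linarith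
        · right; right; rw [hphi, h, h', abs_le]; constructor <;> linarith
        · exact absurd (h2.trans (by rw [h1, A3_invol S])) hj.2
        · exact absurd (h2.trans h1.symm) hj.1
        · right; right; rw [hphi, h, h', abs_le]; constructor <;> linarith
        -- a different
        · right; right; rw [hphi, h, h', abs_le]; constructor <;> linarith
        · right; right; rw [hphi, h, h', abs_le]; constructor <;> linarith
        · right; right; rw [hphi, h, h', abs_le]; constructor <;> linarith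
        · right; right; rw [hphi, h, h', abs_le]; constructor <;> linarith
        · right; right; rw [hphi, h, h', abs_le]; constructor <;> linarith

end A3

end Pool.Agent.H182R2.CB
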