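import Pool.Agent.H182R2.CB.Defs
import Pool.Agent.H182R2.CB.A0a

namespace Pool.Agent.H182R2.CB

open Pool.Agent.H182R2.CB

variable {X : Type*} [NormedAddCommGroup X] [NormedSpace ℝ X] {G E : Type*} [Group G]
  {ρ : G →* Equiv.Perm E} {σ : G}

theorem A4a_smooth (S : SignedSystem X ρ σ) (Q : Finset E) (hQ : ∀ g, ∀ e ∈ Q, ρ g e ∈ Q)
    (e₀ e₁ : E) (he₀ : e₀ ∈ Q) (he₁ : e₁ ∈ Q) (h01 : e₁ ≠ e₀) (h01' : e₁ ≠ ρ σ e₀)
    (p q : Seminorm ℝ X) (hq : ∀ x, q x ^ 2 = ∑ e ∈ Q, (S.c e x) ^ 2)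
    (ψ : X →ₗ[ℝ] ℝ) (U : Set X) (hU : IsOpen U) (hne : U.Nonempty) (δ : ℝ) (hδ : 0 < δ) :
    ¬ ∀ x ∈ U, δ * (p x + q x) = ψ x := by
  classical
  intro hU'
  obtain ⟨hcinj, hσ1, hσ2, hσc, hcv, -⟩ := A0a_basic S
  -- approach along a line stays in U
  have hline : ∀ x ∈ U, ∀ y : X, ∃ τ : ℝ, 0 < τ ∧ ∀ t : ℝ, |t| ≤ τ → x + t • y ∈ U := by
    intro x hx y
    obtain ⟨ε, hε, hball⟩ := Metric.isOpen_iff.mp hU x hx
    refine ⟨ε / (2 * (‖y‖ + 1)), by positivity, fun t ht => hball ?_⟩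
    rw [Metric.mem_ball, dist_eq_norm]
    have : x + t • y - x = t • y := by abel
    rw [this, norm_smul, Real.norm_eq_abs]
    calc |t| * ‖y‖ ≤ ε / (2 * (‖y‖ + 1)) * (‖y‖ + 1) := by
          gcongr
          linarith
      _ = ε / 2 := by field_simp
      _ < ε := by linarith
  obtain ⟨x₀, hx₀⟩ := hne
  -- a point with nonzero (c₀,c₁)
  obtain ⟨x₁, hx₁, hne1⟩ : ∃ x₁ ∈ U, S.c e₀ x₁ ≠ 0 ∨ S.c e₁ x₁ ≠ 0 := by
    by_cases hc : S.c e₀ x₀ ≠ 0 ∨ S.c e₁ x₀ ≠ 0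
    · exact ⟨x₀, hx₀, hc⟩
    · push Not at hc
      obtain ⟨τ, hτ, hτU⟩ := hline x₀ hx₀ (S.v e₀)
      refine ⟨x₀ + τ • S.v e₀, hτU τ (by rw [abs_of_pos hτ]), Or.inl ?_⟩
      rw [map_add, map_smul, S.bio, hc.1]
      simpa using hτ.ne'
  set a := S.c e₀ x₁ with ha
  set b := S.c e₁ x₁ with hb
  set h : X := (-b) • S.v e₀ + a • S.v e₁ with hh
  have hv : ∀ e e', S.c e (S.v e') = if e = e' then 1 else if e = ρ σ e' then -1 else 0 := by
    intro e e'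
    split_ifs with h1 h2
    · rw [h1]; exact S.bio e'
    · have := S.neg e' (S.v e')
      rw [h2, this, S.bio]
    · refine S.bio' e e' (fun h3 => h1 h3.symm) ?_
      intro h3
      apply h2
      rw [h3, hσ2]
  have hsum : ∀ e' ∈ Q, ∑ e ∈ Q, S.c e x₁ * S.c e (S.v e') = 2 * S.c e' x₁ := by
    intro e' he'
    have hne : e' ≠ ρ σ e' := fun h3 => hσ1 e' h3.symm
    have h4 : ρ σ e' ∈ Q := hQ σ e' he'
    rw [← Finset.add_sum_erase Q _ he', ← Finset.add_sum_erase (Q.erase e') _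
      (Finset.mem_erase.mpr ⟨fun h3 => hne h3.symm, h4⟩)]
    rw [Finset.sum_eq_zero]
    · rw [S.bio, hv (ρ σ e') e', if_neg (fun h3 => hne h3.symm), if_pos rfl, S.neg]
      ring
    · intro e he
      rw [Finset.mem_erase, Finset.mem_erase] at he
      rw [hv, if_neg he.2.1, if_neg he.1, mul_zero]
  have horth : ∑ e ∈ Q, S.c e x₁ * S.c e h = 0 := by
    have : ∀ e ∈ Q, S.c e x₁ * S.c e h =
        (-b) * (S.c e x₁ * S.c e (S.v e₀)) + a * (S.c e x₁ * S.c e (S.v e₁)) := by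
      intro e _
      rw [hh, map_add, map_smul, map_smul]
      simp only [smul_eq_mul]
      ring
    rw [Finset.sum_congr rfl this, Finset.sum_add_distrib, ← Finset.mul_sum, ← Finset.mul_sum,
      hsum e₀ he₀, hsum e₁ he₁]
    ring
  have hqt : ∀ t : ℝ, q (x₁ + t • h) ^ 2 = q x₁ ^ 2 + t ^ 2 * q h ^ 2 := by
    intro t
    rw [hq, hq, hq, Finset.mul_sum]
    have : ∀ e ∈ Q, (S.c e (x₁ + t • h)) ^ 2 =
        (S.c e x₁ ^ 2 + t ^ 2 * S.c e h ^ 2) + 2 * t * (S.c e x₁ * S.c e h) := by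
      intro e _
      rw [map_add, map_smul]
      simp only [smul_eq_mul]
      ring
    rw [Finset.sum_congr rfl this, Finset.sum_add_distrib, ← Finset.mul_sum, horth,
      Finset.sum_add_distrib]
    ring
  have hqh : 0 < q h ^ 2 := by
    rw [hq]
    have h0 : S.c e₀ h = -b := by
      rw [hh, map_add, map_smul, map_smul, S.bio, S.bio' e₀ e₁ h01 h01']
      simp
    have h1 : S.c e₁ h = a := by
      rw [hh, map_add, map_smul, map_smul, S.bio, S.bio' e₁ e₀ (fun h3 => h01 h3.symm) ?_]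
      · simp
      · intro h3
        apply h01'
        rw [h3, hσ2]
    rcases hne1 with hn | hn
    · calc 0 < (S.c e₁ h) ^ 2 := by rw [h1]; positivity
        _ ≤ _ := Finset.single_le_sum (f := fun e => (S.c e h) ^ 2)
          (fun e _ => sq_nonneg _) he₁
    · calc 0 < (S.c e₀ h) ^ 2 := by rw [h0]; simpa using (by positivity : 0 < b ^ 2)
        _ ≤ _ := Finset.single_le_sum (f := fun e => (S.c e h) ^ 2)
          (fun e _ => sq_nonneg _) he₀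
  obtain ⟨τ, hτ, hτU⟩ := hline x₁ hx₁ h
  have e1 := hU' x₁ hx₁
  have e2 := hU' _ (hτU τ (by rw [abs_of_pos hτ]))
  have e3 := hU' _ (hτU (-τ) (by rw [abs_neg, abs_of_pos hτ]))
  have hqgt : ∀ t : ℝ, t ≠ 0 → q x₁ < q (x₁ + t • h) := by
    intro t ht
    have h5 : 0 < t ^ 2 * q h ^ 2 := by positivity
    apply lt_of_pow_lt_pow_left₀ 2 (apply_nonneg q _)
    rw [hqt]
    linarith
  have g1 := hqgt τ hτ.ne'
  have g2 := hqgt (-τ) (neg_ne_zero.mpr hτ.ne')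
  have hp : 2 * p x₁ ≤ p (x₁ + τ • h) + p (x₁ + (-τ) • h) := by
    have : (x₁ + τ • h) + (x₁ + (-τ) • h) = (2 : ℝ) • x₁ := by
      rw [two_smul, neg_smul]; abel
    have h6 := map_add_le_add p (x₁ + τ • h) (x₁ + (-τ) • h)
    rw [this, map_smul_eq_mul] at h6
    simpa using h6
  have hψ : ψ (x₁ + τ • h) + ψ (x₁ + (-τ) • h) = 2 * ψ x₁ := by
    simp only [map_add, map_smul, smul_eq_mul]
    ring
  rw [← e1, ← e2, ← e3] at hψ
  nlinarith

end Pool.Agent.H182R2.CB
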