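import Pool.Agent.H182R2.CB.Defs
import Pool.Agent.H182R2.CB.A0a

namespace Pool.Agent.H182R2.CB

open Pool.Agent.H182R2.CB

variable {X : Type*} [NormedAddCommGroup X] [NormedSpace ℝ X] {G E : Type*} [Group G]
  {ρ : G →* Equiv.Perm E} {σ : G}

theorem A4b_phi_abs (S : SignedSystem X ρ σ) (s : E → E → ℝ)
    (hs01 : ∀ e e', 0 < s e e' ∧ s e e' < 1 / 40) (i : E × E) (x : X) :
    (S.phi s i x = S.c i.1 x ∧ (i.2 = i.1 ∨ i.2 = ρ σ i.1)) ∨
      |S.phi s i x| ≤ (3 / 4 + s i.1 i.2) * |S.c i.1 x| + (3 / 4 - s i.1 i.2) * |S.c i.2 x| := by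
  obtain ⟨h0, h1⟩ := hs01 i.1 i.2
  unfold SignedSystem.phi
  split_ifs with h
  · exact Or.inl ⟨rfl, h⟩
  · right
    change |(3 / 4 + s i.1 i.2) * S.c i.1 x + (3 / 4 - s i.1 i.2) * S.c i.2 x| ≤ _
    calc |(3 / 4 + s i.1 i.2) * S.c i.1 x + (3 / 4 - s i.1 i.2) * S.c i.2 x|
        ≤ |(3 / 4 + s i.1 i.2) * S.c i.1 x| + |(3 / 4 - s i.1 i.2) * S.c i.2 x| := abs_add_le _ _
      _ = (3 / 4 + s i.1 i.2) * |S.c i.1 x| + (3 / 4 - s i.1 i.2) * |S.c i.2 x| := by
          rw [abs_mul, abs_mul, abs_of_pos (by linarith : (0:ℝ) < 3 / 4 + s i.1 i.2),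
            abs_of_pos (by linarith : (0:ℝ) < 3 / 4 - s i.1 i.2)]

theorem A4b_phi_le (S : SignedSystem X ρ σ) (s : E → E → ℝ)
    (hs01 : ∀ e e', 0 < s e e' ∧ s e e' < 1 / 40) (i : E × E) (x : X) :
    |S.phi s i x| ≤ 3 / 2 * (S.K * ‖x‖) := by
  have hK : 0 ≤ S.K * ‖x‖ := mul_nonneg (le_trans zero_le_one S.hK) (norm_nonneg _)
  obtain ⟨h0, h1⟩ := hs01 i.1 i.2
  have ha := S.c_bound i.1 x
  have hb := S.c_bound i.2 x
  rcases A4b_phi_abs S s hs01 i x with ⟨h, _⟩ | h
  · rw [h]; linarith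
  · refine h.trans ?_
    calc (3 / 4 + s i.1 i.2) * |S.c i.1 x| + (3 / 4 - s i.1 i.2) * |S.c i.2 x|
        ≤ (3 / 4 + s i.1 i.2) * (S.K * ‖x‖) + (3 / 4 - s i.1 i.2) * (S.K * ‖x‖) := by
          gcongr
          linarith
      _ = 3 / 2 * (S.K * ‖x‖) := by ring

theorem A4b_union {ι : Type*} (I : Finset ι) (W : ι → Submodule ℝ X)
    (hcl : ∀ i ∈ I, IsClosed (W i : Set X)) (B : Set X) (hB : IsOpen B) (hne : B.Nonempty)
    (hcov : ∀ x ∈ B, ∃ i ∈ I, x ∈ W i) : ∃ i ∈ I, W i = ⊤ := by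
  classical
  by_contra hcon
  push Not at hcon
  have hint : ∀ i ∈ I, interior (W i : Set X) = ∅ := by
    intro i hi
    by_contra h
    have hne' : (interior (W i : Set X)).Nonempty := Set.nonempty_iff_ne_empty.mpr h
    exact hcon i hi (Submodule.eq_top_of_nonempty_interior' _ hne')
  have key : ∀ J : Finset ι, J ⊆ I → IsClosed (⋃ i ∈ J, (W i : Set X)) ∧
      interior (⋃ i ∈ J, (W i : Set X)) = ∅ := by
    intro J
    induction J using Finset.induction_on with
    | empty => intro _; simp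
    | insert a J ha ih =>
      intro hJ
      obtain ⟨h1, h2⟩ := ih (fun x hx => hJ (Finset.mem_insert_of_mem hx))
      have haI : a ∈ I := hJ (Finset.mem_insert_self a J)
      have hset : (⋃ i ∈ insert a J, (W i : Set X)) = (W a : Set X) ∪ ⋃ i ∈ J, (W i : Set X) := by
        simp
      rw [hset]
      refine ⟨(hcl a haI).union h1, ?_⟩
      rw [interior_union_isClosed_of_interior_empty (hcl a haI) h2]
      exact hint a haI
  obtain ⟨-, h2⟩ := key I (Finset.Subset.refl I)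
  have hsub : B ⊆ interior (⋃ i ∈ I, (W i : Set X)) := by
    apply interior_maximal _ hB
    intro x hx
    obtain ⟨i, hi, hxi⟩ := hcov x hx
    simp only [Set.mem_iUnion]
    exact ⟨i, hi, hxi⟩
  rw [h2] at hsub
  obtain ⟨x, hx⟩ := hne
  exact hsub hx

theorem A4b_facets [Nonempty E] (S : SignedSystem X ρ σ) (s : E → E → ℝ)
    (hs01 : ∀ e e', 0 < s e e' ∧ s e e' < 1 / 40) (r : Seminorm ℝ X)
    (hr1 : ∀ i x, |S.phi s i x| ≤ r x)
    (hr2 : ∀ (x : X) (M : ℝ), 0 ≤ M → (∀ i, |S.phi s i x| ≤ M) → r x ≤ M)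
    (ψ : X →L[ℝ] ℝ) (U : Set X) (hU : IsOpen U) (hne : U.Nonempty) (h : ∀ x ∈ U, r x = ψ x) :
    ∃ i, (∀ x, ψ x = S.phi s i x) ∨ (∀ x, ψ x = - S.phi s i x) := by
  classical
  obtain ⟨hcinj, hσ1, hσ2, hσc, hcv, -⟩ := A0a_basic S
  have hK0 : (0 : ℝ) < S.K := lt_of_lt_of_le zero_lt_one S.hK
  have hdiag : ∀ e x, S.phi s (e, e) x = S.c e x := by
    intro e x
    unfold SignedSystem.phi
    rw [if_pos (Or.inl rfl)]
  have hcr : ∀ e x, |S.c e x| ≤ r x := fun e x => by
    have := hr1 (e, e) x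
    rwa [hdiag] at this
  have hrB : ∀ x, r x ≤ 3 / 2 * (S.K * ‖x‖) := fun x =>
    hr2 x _ (by positivity) (fun i => A4b_phi_le S s hs01 i x)
  -- a nonzero point of U
  obtain ⟨e₀⟩ := ‹Nonempty E›
  have hv0 : S.v e₀ ≠ 0 := by
    intro h0
    have := S.bio e₀
    rw [h0, map_zero] at this
    exact zero_ne_one this
  obtain ⟨x₁, hx₁, hx₁0⟩ : ∃ x ∈ U, x ≠ 0 := by
    obtain ⟨x, hx⟩ := hne
    by_cases hx0 : x = 0
    · subst hx0
      obtain ⟨ε, hε, hball⟩ := Metric.isOpen_iff.mp hU 0 hx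
      refine ⟨(ε / (2 * ‖S.v e₀‖)) • S.v e₀, hball ?_, ?_⟩
      · rw [Metric.mem_ball, dist_zero_right, norm_smul, Real.norm_eq_abs]
        have hpos : 0 < ‖S.v e₀‖ := norm_pos_iff.mpr hv0
        rw [abs_of_pos (by positivity)]
        have : ε / (2 * ‖S.v e₀‖) * ‖S.v e₀‖ = ε / 2 := by field_simp
        rw [this]; linarith
      · have hpos : 0 < ‖S.v e₀‖ := norm_pos_iff.mpr hv0
        exact smul_ne_zero (by positivity) hv0
    · exact ⟨x, hx, hx0⟩
  set R := r x₁ with hR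
  have hR0 : 0 < R := by
    have hR0' : 0 ≤ R := apply_nonneg r x₁
    rcases hR0'.lt_or_eq with h1 | h1
    · exact h1
    · exfalso
      apply hx₁0
      apply S.total
      intro e
      have := hcr e x₁
      rw [← hR, ← h1] at this
      exact abs_eq_zero.mp (le_antisymm this (abs_nonneg _))
  -- finite set of large coordinates
  have hA : {e | 1 / 10 * R ≤ |S.c e x₁|}.Finite := S.null x₁ _ (by positivity)
  set A : Finset E := hA.toFinset with hAdef
  have hmemA : ∀ e, e ∈ A ↔ 1 / 10 * R ≤ |S.c e x₁| := by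
    intro e; rw [hAdef]; simp
  have hAσ : ∀ e, e ∈ A → ρ σ e ∈ A := by
    intro e he
    rw [hmemA] at he ⊢
    rw [S.neg, abs_neg]; exact he
  have hsmall : ∀ i : E × E, i ∉ A ×ˢ A → |S.phi s i x₁| ≤ 9 / 10 * R := by
    intro i hi
    obtain ⟨h0, h1⟩ := hs01 i.1 i.2
    have hc1 := hcr i.1 x₁
    have hc2 := hcr i.2 x₁
    rcases A4b_phi_abs S s hs01 i x₁ with ⟨h3, h4⟩ | h3
    · rw [h3]
      by_contra hlt
      push Not at hlt
      apply hi
      have hi1 : i.1 ∈ A := by rw [hmemA]; linarith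
      have hi2 : i.2 ∈ A := by
        rcases h4 with h4 | h4
        · rw [h4]; exact hi1
        · rw [h4]; exact hAσ _ hi1
      exact Finset.mem_product.mpr ⟨hi1, hi2⟩
    · refine h3.trans ?_
      rw [Finset.mem_product, not_and_or, hmemA, hmemA] at hi
      push Not at hi
      have hn1 := abs_nonneg (S.c i.1 x₁)
      have hn2 := abs_nonneg (S.c i.2 x₁)
      rcases hi with hi | hi
      · calc (3 / 4 + s i.1 i.2) * |S.c i.1 x₁| + (3 / 4 - s i.1 i.2) * |S.c i.2 x₁|
            ≤ (31 / 40) * (1 / 10 * R) + (3 / 4) * R := by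
              apply add_le_add
              · apply mul_le_mul _ hi.le hn1 (by norm_num)
                linarith
              · apply mul_le_mul _ hc2 hn2 (by norm_num)
                linarith
          _ ≤ 9 / 10 * R := by linarith
      · calc (3 / 4 + s i.1 i.2) * |S.c i.1 x₁| + (3 / 4 - s i.1 i.2) * |S.c i.2 x₁|
            ≤ (31 / 40) * R + (3 / 4) * (1 / 10 * R) := by
              apply add_le_add
              · apply mul_le_mul _ hc1 hn1 (by norm_num)
                linarith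
              · apply mul_le_mul _ hi.le hn2 (by norm_num)
                linarith
          _ ≤ 9 / 10 * R := by linarith
  -- the ball
  set L : ℝ := 3 / 2 * S.K with hL
  have hL0 : 0 < L := by positivity
  obtain ⟨ε, hε, hball⟩ := Metric.isOpen_iff.mp hU x₁ hx₁
  set ρ' : ℝ := min ε (R / (40 * L)) with hρ'
  have hρ'0 : 0 < ρ' := lt_min hε (by positivity)
  have hφ : ∀ y ∈ Metric.ball x₁ ρ', ∀ i, |S.phi s i y - S.phi s i x₁| ≤ R / 40 := by
    intro y hy i
    rw [← map_sub]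
    refine (A4b_phi_le S s hs01 i _).trans ?_
    rw [Metric.mem_ball, dist_eq_norm] at hy
    have h5 : ‖y - x₁‖ ≤ R / (40 * L) := (hy.le).trans (min_le_right _ _)
    calc 3 / 2 * (S.K * ‖y - x₁‖) = L * ‖y - x₁‖ := by rw [hL]; ring
      _ ≤ L * (R / (40 * L)) := by gcongr
      _ = R / 40 := by field_simp
  have hcov : ∀ y ∈ Metric.ball x₁ ρ', ∃ i ∈ A ×ˢ A, |S.phi s i y| = r y := by
    intro y hy
    have hry : 39 / 40 * R ≤ r y := by
      -- r x₁ ≤ r y + R/40
      have h6 : R ≤ r y + R / 40 := by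
        rw [hR]
        apply hr2 x₁ _ (by have := apply_nonneg r y; positivity)
        intro i
        have h7 := hφ y hy i
        have h8 := hr1 i y
        have : |S.phi s i x₁| ≤ |S.phi s i y| + |S.phi s i y - S.phi s i x₁| := by
          calc |S.phi s i x₁| = |S.phi s i y - (S.phi s i y - S.phi s i x₁)| := by ring_nf
            _ ≤ _ := abs_sub _ _
        rw [← hR]
        linarith
      linarith
    by_contra hcon
    push Not at hcon
    -- maximum over A × A of |φ|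
    have hlt : ∀ i ∈ A ×ˢ A, |S.phi s i y| < r y := fun i hi =>
      lt_of_le_of_ne (hr1 i y) (hcon i hi)
    obtain ⟨M', hM'0, hM'1, hM'2⟩ : ∃ M' : ℝ, 37 / 40 * R ≤ M' ∧ M' < r y ∧
        ∀ i ∈ A ×ˢ A, |S.phi s i y| ≤ M' := by
      by_cases hAn : (A ×ˢ A).Nonempty
      · obtain ⟨j, hj, hjmax⟩ := Finset.exists_max_image (A ×ˢ A) (fun i => |S.phi s i y|) hAn
        refine ⟨max (37 / 40 * R) |S.phi s j y|, le_max_left _ _, ?_, ?_⟩
        · apply max_lt _ (hlt j hj)
          linarith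
        · intro i hi
          exact (hjmax i hi).trans (le_max_right _ _)
      · refine ⟨37 / 40 * R, le_rfl, by linarith, ?_⟩
        intro i hi
        exact absurd ⟨i, hi⟩ hAn
    have : r y ≤ M' := by
      apply hr2 y M' (by linarith)
      intro i
      by_cases hi : i ∈ A ×ˢ A
      · exact hM'2 i hi
      · have h7 := hφ y hy i
        have h8 := hsmall i hi
        have : |S.phi s i y| ≤ |S.phi s i x₁| + |S.phi s i y - S.phi s i x₁| := by
          calc |S.phi s i y| = |S.phi s i x₁ + (S.phi s i y - S.phi s i x₁)| := by ring_nf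
            _ ≤ _ := abs_add_le _ _
        linarith
    linarith
  -- subspaces
  let W : (E × E) × Bool → Submodule ℝ X := fun i =>
    LinearMap.ker ((ψ - (if i.2 then (1 : ℝ) else -1) • S.phi s i.1 : X →L[ℝ] ℝ) : X →ₗ[ℝ] ℝ)
  obtain ⟨i, -, hi⟩ := A4b_union ((A ×ˢ A) ×ˢ (Finset.univ : Finset Bool)) W
    (fun i _ => (ψ - (if i.2 then (1 : ℝ) else -1) • S.phi s i.1).isClosed_ker)
    (Metric.ball x₁ ρ') Metric.isOpen_ball ⟨x₁, Metric.mem_ball_self hρ'0⟩ (by
      intro y hy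
      obtain ⟨i, hi, hiy⟩ := hcov y hy
      have hyU : y ∈ U := hball (Metric.ball_subset_ball (min_le_left _ _) hy)
      rw [h y hyU] at hiy
      rcases abs_choice (S.phi s i y) with h9 | h9
      · refine ⟨(i, true), by simp [Finset.mem_product.mp hi], ?_⟩
        show (ψ - (if true = true then (1 : ℝ) else -1) • S.phi s i) y = 0
        rw [h9] at hiy
        simp [hiy]
      · refine ⟨(i, false), by simp [Finset.mem_product.mp hi], ?_⟩
        show (ψ - (if false = true then (1 : ℝ) else -1) • S.phi s i) y = 0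
        rw [h9] at hiy
        simp [← hiy])
  refine ⟨i.1, ?_⟩
  have hall : ∀ x, ψ x = (if i.2 then (1 : ℝ) else -1) * S.phi s i.1 x := by
    intro x
    have hx : x ∈ W i := by rw [hi]; trivial
    have hx' : (ψ - (if i.2 then (1 : ℝ) else -1) • S.phi s i.1) x = 0 := hx
    have : ψ x - (if i.2 then (1 : ℝ) else -1) * S.phi s i.1 x = 0 := hx'
    linarith
  rcases hb : i.2 with _ | _
  · right
    intro x
    rw [hall, hb]
    simp
  · left
    intro x
    rw [hall, hb]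
    simp

end Pool.Agent.H182R2.CB
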