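import Pool.Agent.H182R2.CB.A0a

/-!
A5: a linear bijection permuting the norming functionals permutes the coordinates.
-/

namespace Pool.Agent.H182R2.CB

section A5

variable {X : Type*} [NormedAddCommGroup X] [NormedSpace ℝ X] {G E : Type*} [Group G]
  {ρ : G →* Equiv.Perm E} {σ : G}

/-- equal up to `σ` -/
def A5_R (ρ : G →* Equiv.Perm E) (σ : G) (f e : E) : Prop := f = e ∨ f = ρ σ e

theorem A5_R_symm (S : SignedSystem X ρ σ) {f e : E} (h : A5_R ρ σ f e) : A5_R ρ σ e f := by
  rcases h with h | h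
  · exact Or.inl h.symm
  · right
    rw [h, (A0a_basic S).2.2.1]

theorem A5_R_trans (S : SignedSystem X ρ σ) {f e g : E} (h : A5_R ρ σ f e) (h' : A5_R ρ σ e g) :
    A5_R ρ σ f g := by
  rcases h with h | h <;> rcases h' with h' | h'
  · exact Or.inl (h.trans h')
  · exact Or.inr (h.trans h')
  · right; rw [h, h']
  · left; rw [h, h', (A0a_basic S).2.2.1]

theorem A5_zero (S : SignedSystem X ρ σ) {f e : E} (h : ¬ A5_R ρ σ f e) : S.c e (S.v f) = 0 :=
  S.bio' e f (fun h1 => h (Or.inl h1)) (fun h1 => h (Or.inr h1))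

theorem A5_phi_deg (S : SignedSystem X ρ σ) (s : E → E → ℝ) {a b : E} (h : A5_R ρ σ b a) (x : X) :
    S.phi s (a, b) x = S.c a x := by
  unfold SignedSystem.phi
  have h' : (a, b).2 = (a, b).1 ∨ (a, b).2 = ρ σ (a, b).1 := h
  rw [if_pos h']

theorem A5_phi_non (S : SignedSystem X ρ σ) (s : E → E → ℝ) {a b : E} (h : ¬ A5_R ρ σ b a)
    (x : X) :
    S.phi s (a, b) x = (3 / 4 + s a b) * S.c a x + (3 / 4 - s a b) * S.c b x := by
  unfold SignedSystem.phi
  have h' : ¬ ((a, b).2 = (a, b).1 ∨ (a, b).2 = ρ σ (a, b).1) := h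
  rw [if_neg h']
  rfl

/-- the support of a norming functional -/
theorem A5_supp (S : SignedSystem X ρ σ) (s : E → E → ℝ) (i : E × E) (f : E)
    (h : S.phi s i (S.v f) ≠ 0) : A5_R ρ σ f i.1 ∨ A5_R ρ σ f i.2 := by
  obtain ⟨a, b⟩ := i
  by_contra hcon
  push Not at hcon
  apply h
  by_cases hd : A5_R ρ σ b a
  · rw [A5_phi_deg S s hd]
    exact A5_zero S hcon.1
  · rw [A5_phi_non S s hd, A5_zero S hcon.1, A5_zero S hcon.2]
    simp

/-- three point lemma -/
theorem A5_three (S : SignedSystem X ρ σ) (s : E → E → ℝ) (i : E × E) (f g k : E)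
    (h1 : ¬ A5_R ρ σ f g) (h2 : ¬ A5_R ρ σ f k) (h3 : ¬ A5_R ρ σ g k)
    (hf : S.phi s i (S.v f) ≠ 0) (hg : S.phi s i (S.v g) ≠ 0) : S.phi s i (S.v k) = 0 := by
  by_contra hk
  rcases A5_supp S s i f hf with a | a <;> rcases A5_supp S s i g hg with b | b <;>
    rcases A5_supp S s i k hk with c | c
  · exact h1 (A5_R_trans S a (A5_R_symm S b))
  · exact h1 (A5_R_trans S a (A5_R_symm S b))
  · exact h2 (A5_R_trans S a (A5_R_symm S c))
  · exact h3 (A5_R_trans S b (A5_R_symm S c))
  · exact h3 (A5_R_trans S b (A5_R_symm S c))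
  · exact h2 (A5_R_trans S a (A5_R_symm S c))
  · exact h1 (A5_R_trans S a (A5_R_symm S b))
  · exact h1 (A5_R_trans S a (A5_R_symm S b))

theorem A5_fst (S : SignedSystem X ρ σ) (s : E → E → ℝ) {a b : E} (h : ¬ A5_R ρ σ b a) :
    S.phi s (a, b) (S.v a) = 3 / 4 + s a b := by
  rw [A5_phi_non S s h, S.bio, A5_zero S (fun h' => h (A5_R_symm S h'))]
  ring

theorem A5_snd (S : SignedSystem X ρ σ) (s : E → E → ℝ) {a b : E} (h : ¬ A5_R ρ σ b a) :
    S.phi s (a, b) (S.v b) = 3 / 4 - s a b := by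
  rw [A5_phi_non S s h, S.bio, A5_zero S h]
  ring

theorem A5_fst' (S : SignedSystem X ρ σ) (s : E → E → ℝ) {a b : E} (h : ¬ A5_R ρ σ b a) :
    S.phi s (a, b) (S.v (ρ σ a)) = - (3 / 4 + s a b) := by
  have h2 : ¬ A5_R ρ σ (ρ σ a) b := fun h' =>
    h (A5_R_symm S (A5_R_trans S (A5_R_symm S (Or.inr rfl)) h'))
  rw [A5_phi_non S s h, (A0a_basic S).2.2.2.2.1, A5_zero S h2]
  ring

theorem A5_snd' (S : SignedSystem X ρ σ) (s : E → E → ℝ) {a b : E} (h : ¬ A5_R ρ σ b a) :
    S.phi s (a, b) (S.v (ρ σ b)) = - (3 / 4 - s a b) := by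
  have h2 : ¬ A5_R ρ σ (ρ σ b) a := fun h' =>
    h (A5_R_trans S (A5_R_symm S (Or.inr rfl)) h')
  rw [A5_phi_non S s h, (A0a_basic S).2.2.2.2.1, A5_zero S h2]
  ring

/-- Claim 1 -/
theorem A5_claim [Infinite E] (S : SignedSystem X ρ σ) (s : E → E → ℝ)
    (hs01 : ∀ e e', 0 < s e e' ∧ s e e' < 1 / 40) (T : X ≃ₗ[ℝ] X)
    (h1 : ∀ i, ∃ j, ∀ x, S.phi s i (T x) = S.phi s j x) (e : E) :
    ∃ k, ∀ x, S.c e (T x) = S.c k x := by
  classical
  obtain ⟨⟨k, l⟩, hm⟩ := h1 (e, e)
  have hm' : ∀ x, S.c e (T x) = S.phi s (k, l) x := fun x => by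
    rw [← hm, A5_phi_deg S s (Or.inl rfl)]
  by_cases hkl : A5_R ρ σ l k
  · exact ⟨k, fun x => by rw [hm', A5_phi_deg S s hkl]⟩
  exfalso
  have hAk : 0 < S.phi s (k, l) (S.v k) := by
    rw [A5_fst S s hkl]
    have := (hs01 k l).1
    linarith
  have hAl : 0 < S.phi s (k, l) (S.v l) := by
    rw [A5_snd S s hkl]
    have := (hs01 k l).2
    linarith
  -- the images of the other coordinates
  have hex : ∀ e' : E, ∃ m' : E × E, ∀ x, S.c e' (T x) = S.phi s m' x := by
    intro e'
    obtain ⟨m', h⟩ := h1 (e', e')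
    exact ⟨m', fun x => by rw [← h, A5_phi_deg S s (Or.inl rfl)]⟩
  choose M hM using hex
  -- main step
  have main : ∀ e', ¬ A5_R ρ σ e' e → ∀ f, S.phi s (M e') (S.v f) ≠ 0 →
      A5_R ρ σ f k ∨ A5_R ρ σ f l := by
    intro e' he' f hf
    by_contra hcon
    push Not at hcon
    obtain ⟨hfk, hfl⟩ := hcon
    have hAf : S.phi s (k, l) (S.v f) = 0 := by
      by_contra hne
      rcases A5_supp S s _ f hne with h | h
      · exact hfk h
      · exact hfl h
    have aux : ∀ u w, ¬ A5_R ρ σ u w → ¬ A5_R ρ σ f u → ¬ A5_R ρ σ f w →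
        0 < S.phi s (k, l) (S.v u) → 0 < S.phi s (k, l) (S.v w) →
        S.phi s (M e') (S.v u) ≠ 0 := by
      intro u w huw hfu hfw hu hw hu0
      -- with `e'`
      have he'' : ¬ A5_R ρ σ (ρ σ e') e := fun h =>
        he' (A5_R_trans S (A5_R_symm S (Or.inr rfl)) h)
      have hq1 : (3 / 4 + s e e') * S.phi s (k, l) (S.v w) +
          (3 / 4 - s e e') * S.phi s (M e') (S.v w) = 0 := by
        obtain ⟨j, hj⟩ := h1 (e, e')
        have hj' : ∀ x, S.phi s j x = (3 / 4 + s e e') * S.phi s (k, l) x +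
            (3 / 4 - s e e') * S.phi s (M e') x := fun x => by
          rw [← hj, A5_phi_non S s he', hm', hM]
        rw [← hj']
        apply A5_three S s j f u w hfu hfw huw
        · rw [hj', hAf, mul_zero, zero_add]
          refine mul_ne_zero ?_ hf
          have := (hs01 e e').2
          linarith
        · rw [hj', hu0, mul_zero, add_zero]
          refine mul_ne_zero ?_ hu.ne'
          have := (hs01 e e').1
          linarith
      have hq2 : (3 / 4 + s e (ρ σ e')) * S.phi s (k, l) (S.v w) -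
          (3 / 4 - s e (ρ σ e')) * S.phi s (M e') (S.v w) = 0 := by
        obtain ⟨j, hj⟩ := h1 (e, ρ σ e')
        have hj' : ∀ x, S.phi s j x = (3 / 4 + s e (ρ σ e')) * S.phi s (k, l) x -
            (3 / 4 - s e (ρ σ e')) * S.phi s (M e') x := fun x => by
          rw [← hj, A5_phi_non S s he'', S.neg, hm', hM]
          ring
        rw [← hj']
        apply A5_three S s j f u w hfu hfw huw
        · rw [hj', hAf, mul_zero, zero_sub, neg_ne_zero]
          refine mul_ne_zero ?_ hf
          have := (hs01 e (ρ σ e')).2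
          linarith
        · rw [hj', hu0, mul_zero, sub_zero]
          refine mul_ne_zero ?_ hu.ne'
          have := (hs01 e (ρ σ e')).1
          linarith
      have a1 : 0 < (3 / 4 + s e e') * S.phi s (k, l) (S.v w) := by
        have := (hs01 e e').1
        positivity
      have a2 : 0 < (3 / 4 + s e (ρ σ e')) * S.phi s (k, l) (S.v w) := by
        have := (hs01 e (ρ σ e')).1
        positivity
      have b1 : (3 / 4 - s e e') * S.phi s (M e') (S.v w) < 0 := by linarith
      have b2 : 0 < (3 / 4 - s e (ρ σ e')) * S.phi s (M e') (S.v w) := by linarith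
      have c1 : S.phi s (M e') (S.v w) < 0 := by
        by_contra hc
        push Not at hc
        have : 0 ≤ 3 / 4 - s e e' := by
          have := (hs01 e e').2
          linarith
        have := mul_nonneg this hc
        linarith
      have c2 : 0 < S.phi s (M e') (S.v w) := by
        by_contra hc
        push Not at hc
        have : 0 ≤ 3 / 4 - s e (ρ σ e') := by
          have := (hs01 e (ρ σ e')).2
          linarith
        have := mul_nonpos_of_nonneg_of_nonpos this hc
        linarith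
      linarith
    have hlk : ¬ A5_R ρ σ k l := fun h => hkl (A5_R_symm S h)
    have g1 := aux k l hlk hfk hfl hAk hAl
    have g2 := aux l k hkl hfl hfk hAl hAk
    exact hf (A5_three S s (M e') k l f hlk (fun h => hfk (A5_R_symm S h))
      (fun h => hfl (A5_R_symm S h)) g1 g2)
  -- the map `M` is injective into a finite set
  set S4 : Set E := {k, ρ σ k, l, ρ σ l} with hS4
  have hS4f : S4.Finite := by
    rw [hS4]
    exact (Set.finite_singleton _).insert _ |>.insert _ |>.insert _
  have hmem : ∀ f, A5_R ρ σ f k ∨ A5_R ρ σ f l → f ∈ S4 := by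
    intro f hf
    rw [hS4]
    simp only [Set.mem_insert_iff, Set.mem_singleton_iff]
    rcases hf with (h | h) | (h | h)
    · exact Or.inl h
    · exact Or.inr (Or.inl h)
    · exact Or.inr (Or.inr (Or.inl h))
    · exact Or.inr (Or.inr (Or.inr h))
  have hmaps : Set.MapsTo M {e' | ¬ A5_R ρ σ e' e} (S4 ×ˢ S4) := by
    intro e' he'
    have hmain := main e' he'
    generalize M e' = m' at hmain
    obtain ⟨a, b⟩ := m'
    by_cases hab : A5_R ρ σ b a
    · have h3 : A5_R ρ σ a k ∨ A5_R ρ σ a l := by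
        apply hmain
        rw [A5_phi_deg S s hab, S.bio]
        exact one_ne_zero
      refine ⟨hmem _ h3, hmem _ ?_⟩
      rcases h3 with h3 | h3
      · exact Or.inl (A5_R_trans S hab h3)
      · exact Or.inr (A5_R_trans S hab h3)
    · refine ⟨hmem _ (hmain a ?_), hmem _ (hmain b ?_)⟩
      · rw [A5_fst S s hab]
        have := (hs01 a b).1
        linarith
      · rw [A5_snd S s hab]
        have := (hs01 a b).2
        linarith
  have hinf : {e' | ¬ A5_R ρ σ e' e}.Infinite := by
    have hfin : {e' | A5_R ρ σ e' e}.Finite := by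
      apply Set.Finite.subset ((Set.finite_singleton (ρ σ e)).insert e)
      intro e' he'
      exact he'
    exact hfin.infinite_compl
  obtain ⟨e1, -, e2, -, hne, heq⟩ := hinf.exists_ne_map_eq_of_mapsTo hmaps (hS4f.prod hS4f)
  apply hne
  apply A0a_inj S
  ext x
  obtain ⟨y, rfl⟩ := T.surjective x
  rw [hM, hM, heq]

/-- A5. A linear bijection permuting the norming functionals permutes the coordinates. -/
theorem A5_perm [Infinite E] (S : SignedSystem X ρ σ) (s : E → E → ℝ)
    (hs01 : ∀ e e', 0 < s e e' ∧ s e e' < 1 / 40) (T : X ≃ₗ[ℝ] X)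
    (h1 : ∀ i, ∃ j, ∀ x, S.phi s i (T x) = S.phi s j x)
    (h2 : ∀ i, ∃ j, ∀ x, S.phi s i (T.symm x) = S.phi s j x) :
    ∃ π : Equiv.Perm E, (∀ e x, S.c e (T x) = S.c (π e) x) ∧
      ∀ e e', e' ≠ e → e' ≠ ρ σ e → s (π e) (π e') = s e e' := by
  choose π hπ using A5_claim S s hs01 T h1
  choose τ hτ using A5_claim S s hs01 T.symm h2
  have hinj : Function.Injective π := by
    intro e e' h
    apply A0a_inj S
    ext x
    obtain ⟨y, rfl⟩ := T.surjective x
    rw [hπ, hπ, h]
  have hsurj : Function.Surjective π := by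
    intro f
    refine ⟨τ f, ?_⟩
    apply A0a_inj S
    ext x
    rw [← hπ, ← hτ, LinearEquiv.symm_apply_apply]
  refine ⟨Equiv.ofBijective π ⟨hinj, hsurj⟩, hπ, ?_⟩
  intro e e' hne1 hne2
  change s (π e) (π e') = s e e'
  have hee : ¬ A5_R ρ σ e' e := by
    rintro (h | h)
    · exact hne1 h
    · exact hne2 h
  have hσ : ρ σ (π e) = π (ρ σ e) := by
    apply A0a_inj S
    ext x
    rw [S.neg, ← hπ, ← hπ, S.neg]
  have hpq : ¬ A5_R ρ σ (π e') (π e) := by
    rintro (h | h)
    · exact hne1 (hinj h)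
    · rw [hσ] at h
      exact hne2 (hinj h)
  have hqp : ¬ A5_R ρ σ (π e) (π e') := fun h => hpq (A5_R_symm S h)
  obtain ⟨⟨a, b⟩, hj⟩ := h1 (e, e')
  have hj' : ∀ x, S.phi s (a, b) x = (3 / 4 + s e e') * S.c (π e) x +
      (3 / 4 - s e e') * S.c (π e') x := fun x => by
    rw [← hj, A5_phi_non S s hee, hπ, hπ]
  have hp : S.phi s (a, b) (S.v (π e)) = 3 / 4 + s e e' := by
    rw [hj', S.bio, A5_zero S hqp]
    ring
  have hq : S.phi s (a, b) (S.v (π e')) = 3 / 4 - s e e' := by
    rw [hj', S.bio, A5_zero S hpq]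
    ring
  obtain ⟨t1, t2⟩ := hs01 e e'
  obtain ⟨u1, u2⟩ := hs01 a b
  have hab : ¬ A5_R ρ σ b a := by
    intro h
    rw [A5_phi_deg S s h] at hp
    rcases (A0a_basic S).2.2.2.2.2 a (π e) with h3 | h3
    · rw [hp, abs_of_pos (by linarith)] at h3
      linarith
    · rw [hp, abs_of_pos (by linarith)] at h3
      linarith
  have hp0 : S.phi s (a, b) (S.v (π e)) ≠ 0 := by
    rw [hp]
    linarith
  have hq0 : S.phi s (a, b) (S.v (π e')) ≠ 0 := by
    rw [hq]
    linarith
  rcases A5_supp S s _ _ hp0 with (h | h) | (h | h)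
  · -- `π e = a`
    have h' : π e = a := h
    have h3 : s a b = s e e' := by
      have h4 := A5_fst S s hab
      have h5 := hp
      rw [h', h4] at h5
      linarith
    rcases A5_supp S s _ _ hq0 with g | (g | g)
    · exfalso
      apply hpq
      rw [h']
      exact g
    · have g' : π e' = b := g
      rw [h', g', h3]
    · exfalso
      have g' : π e' = ρ σ b := g
      have h4 := A5_snd' S s hab
      have h5 := hq
      rw [g', h4] at h5
      linarith
  · exfalso
    have h' : π e = ρ σ a := h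
    have h4 := A5_fst' S s hab
    have h5 := hp
    rw [h', h4] at h5
    linarith
  · exfalso
    have h' : π e = b := h
    have h4 := A5_snd S s hab
    have h5 := hp
    rw [h', h4] at h5
    linarith
  · exfalso
    have h' : π e = ρ σ b := h
    have h4 := A5_snd' S s hab
    have h5 := hp
    rw [h', h4] at h5
    linarith

end A5

end Pool.Agent.H182R2.CB
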