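import Pool.Agent.H182R2.CB.NDefs

namespace Pool.Agent.H182R2.CB

open Finset Filter Topology

theorem AC0_ext (A Z₁ Z₂ : Set ℕ) (h₁ : Z₁ ⊆ A) (h₂ : Z₂ ⊆ A) (hi₁ : (A \ Z₁).Infinite)
    (hi₂ : (A \ Z₂).Infinite) (φ : ℕ → ℕ) (hφ : Set.BijOn φ Z₁ Z₂) :
    ∃ a : Equiv.Perm ℕ, (∀ i, i ∉ A → a i = i) ∧ ∀ i ∈ Z₁, a i = φ i := by
  classical
  have i1 : Infinite ↥(A \ Z₁) := hi₁.to_subtype
  have i2 : Infinite ↥(A \ Z₂) := hi₂.to_subtype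
  obtain ⟨d1⟩ := nonempty_denumerable ↥(A \ Z₁)
  obtain ⟨d2⟩ := nonempty_denumerable ↥(A \ Z₂)
  obtain ⟨e⟩ : Nonempty (↥(A \ Z₁) ≃ ↥(A \ Z₂)) := ⟨Denumerable.equiv₂ _ _⟩
  obtain ⟨g, hg⟩ : ∃ g : ℕ → ℕ, g = fun i => if i ∈ Z₁ then φ i else
    if h : i ∈ A \ Z₁ then ((e ⟨i, h⟩ : ↥(A \ Z₂)) : ℕ) else i := ⟨_, rfl⟩
  have g1 : ∀ i ∈ Z₁, g i = φ i := fun i hi => by
    rw [hg]
    exact if_pos hi
  have g2 : ∀ i, ∀ h : i ∈ A \ Z₁, g i = (e ⟨i, h⟩ : ↥(A \ Z₂)) := fun i h => by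
    rw [hg]
    simp only
    rw [if_neg h.2, dif_pos h]
  have g3 : ∀ i, i ∉ A → g i = i := fun i h => by
    rw [hg]
    simp only
    rw [if_neg fun h' => h (h₁ h'), dif_neg fun h' => h h'.1]
  have m1 : ∀ i ∈ Z₁, g i ∈ Z₂ := fun i hi => by
    rw [g1 i hi]
    exact hφ.mapsTo hi
  have m2 : ∀ i ∈ A \ Z₁, g i ∈ A \ Z₂ := fun i hi => by
    rw [g2 i hi]
    exact (e ⟨i, hi⟩).2
  have cs : ∀ i, i ∈ Z₁ ∨ i ∈ A \ Z₁ ∨ i ∉ A := fun i => by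
    by_cases ha : i ∈ A
    · by_cases hz : i ∈ Z₁
      · exact Or.inl hz
      · exact Or.inr (Or.inl ⟨ha, hz⟩)
    · exact Or.inr (Or.inr ha)
  have hinj : Function.Injective g := by
    intro i j hij
    rcases cs i with hi | hi | hi <;> rcases cs j with hj | hj | hj
    · rw [g1 i hi, g1 j hj] at hij
      exact hφ.injOn hi hj hij
    · exact absurd (hij ▸ m1 i hi) (m2 j hj).2
    · exact absurd (h₂ (m1 i hi)) (by rw [hij, g3 j hj]; exact hj)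
    · exact absurd (hij.symm ▸ m1 j hj) (m2 i hi).2
    · rw [g2 i hi, g2 j hj] at hij
      have := e.injective (Subtype.ext hij)
      exact congrArg Subtype.val this
    · exact absurd (m2 i hi).1 (by rw [hij, g3 j hj]; exact hj)
    · exact absurd (h₂ (m1 j hj)) (by rw [← hij, g3 i hi]; exact hi)
    · exact absurd (m2 j hj).1 (by rw [← hij, g3 i hi]; exact hi)
    · rwa [g3 i hi, g3 j hj] at hij
  have hsurj : Function.Surjective g := by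
    intro y
    by_cases ha : y ∈ A
    · by_cases hz : y ∈ Z₂
      · obtain ⟨i, hi, rfl⟩ := hφ.surjOn hz
        exact ⟨i, g1 i hi⟩
      · refine ⟨(e.symm ⟨y, ha, hz⟩ : ↥(A \ Z₁)), ?_⟩
        rw [g2 _ (e.symm ⟨y, ha, hz⟩).2]
        simp
    · exact ⟨y, g3 y ha⟩
  exact ⟨Equiv.ofBijective g ⟨hinj, hsurj⟩, g3, g1⟩

end Pool.Agent.H182R2.CB
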