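import Pool.Agent.H182R2.CB.NDefs

namespace Pool.Agent.H182R2.CB

open Finset Filter Topology

/-- the code of the first `n` values -/
def AC1_code (a : ℕ → Bool) (n : ℕ) : ℕ := 2 * Encodable.encode ((List.range n).map a)

theorem AC1_code_inj {a b : ℕ → Bool} {n m : ℕ} (h : AC1_code a n = AC1_code b m) :
    n = m ∧ ∀ i < n, a i = b i := by
  unfold AC1_code at h
  have h1 : (List.range n).map a = (List.range m).map b :=
    Encodable.encode_injective (by omega)
  have h2 : n = m := by
    have := congrArg List.length h1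
    simpa using this
  subst h2
  refine ⟨rfl, fun i hi => ?_⟩
  have h3 := List.map_inj_left.1 h1
  exact h3 i (List.mem_range.2 hi)

/-- An uncountable almost disjoint family (indexed by `ℕ → Bool`) with co-infinite unions. -/
theorem AC1_family : ∃ F : (ℕ → Bool) → Set ℕ, (∀ a, (F a).Infinite) ∧
    (∀ a b, a ≠ b → (F a ∩ F b).Finite) ∧ (∀ a b, (F a ∪ F b)ᶜ.Infinite) := by
  refine ⟨fun a => Set.range (AC1_code a), fun a => ?_, fun a b hab => ?_, fun a b => ?_⟩
  · exact Set.infinite_range_of_injective fun n m h => (AC1_code_inj h).1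
  · obtain ⟨i, hi⟩ := Function.ne_iff.1 hab
    refine (((range (i + 1)).image (AC1_code a)).finite_toSet).subset ?_
    rintro x ⟨⟨n, rfl⟩, ⟨m, hm⟩⟩
    obtain ⟨h1, h2⟩ := AC1_code_inj hm.symm
    rw [coe_image]
    refine ⟨n, ?_, rfl⟩
    rw [coe_range]
    have : n ≤ i := by
      by_contra hcon
      exact hi (h2 i (by omega))
    exact Set.mem_Iio.2 (by omega)
  · refine Set.infinite_of_injective_forall_mem (f := fun n : ℕ => 2 * n + 1)
      (fun n m h => by simpa using h) fun n => ?_
    rintro (⟨k, hk⟩ | ⟨k, hk⟩)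
    · unfold AC1_code at hk
      omega
    · unfold AC1_code at hk
      omega

end Pool.Agent.H182R2.CB
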