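import Pool.Agent.H182R2.CB.NDefs

namespace Pool.Agent.H182R2.CB

open Finset Filter Topology

theorem AC2_maps {R : Set ℕ} {γ : Equiv.Perm ℕ} (h : ∀ i, i ∉ R → γ i = i) {i : ℕ} (hi : i ∈ R) :
    γ i ∈ R := by
  by_contra hcon
  have h1 := h _ hcon
  have h2 := γ.injective h1
  rw [h2] at hcon
  exact hcon hi

theorem AC2_inv {R : Set ℕ} {γ : Equiv.Perm ℕ} (h : ∀ i, i ∉ R → γ i = i) (i : ℕ) (hi : i ∉ R) :
    γ⁻¹ i = i := by
  rw [Equiv.Perm.inv_eq_iff_eq]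
  exact (h i hi).symm

theorem AC2_full (L : SepLength) (r : ℝ) (_hr : 0 < r) :
    ∃ R : Set ℕ, R.Infinite ∧ Rᶜ.Infinite ∧ ∀ γ : Equiv.Perm ℕ, (∀ i, i ∉ R → γ i = i) →
      ∃ w, L.l w ≤ 2 * r ∧ ∀ i ∈ R, w i = γ i := by
  obtain ⟨d, hd⟩ := L.sep r _hr
  by_contra hcon
  push Not at hcon
  obtain ⟨Rn, hRn⟩ : ∃ Rn : ℕ → Set ℕ, ∀ n k, k ∈ Rn n ↔ (Nat.unpair k).1 = n :=
    ⟨fun n => {k | (Nat.unpair k).1 = n}, fun _ _ => Iff.rfl⟩
  have hinf : ∀ n, (Rn n).Infinite := fun n =>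
    Set.infinite_of_injective_forall_mem (f := fun k : ℕ => Nat.pair n k)
      (fun k m h => (Nat.pair_eq_pair.1 h).2) fun k => by rw [hRn, Nat.unpair_pair]
  have hcinf : ∀ n, (Rn n)ᶜ.Infinite := fun n =>
    Set.infinite_of_injective_forall_mem (f := fun k : ℕ => Nat.pair (n + 1) k)
      (fun k m h => (Nat.pair_eq_pair.1 h).2) fun k => by
        rw [Set.mem_compl_iff, hRn, Nat.unpair_pair]
        simp
  have hγ := fun n => hcon (Rn n) (hinf n) (hcinf n)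
  choose γ hγ1 hγ2 using hγ
  have hδ : ∀ n, ∃ δ : Equiv.Perm ℕ, (∀ i, i ∉ Rn n → δ i = i) ∧
      ∀ w, L.l ((d n)⁻¹ * w) ≤ r → ∃ i ∈ Rn n, w i ≠ δ i := by
    intro n
    by_contra hno
    push Not at hno
    obtain ⟨w0, hw0, e0⟩ := hno 1 (fun i _ => rfl)
    obtain ⟨w1, hw1, e1⟩ := hno (γ n) (hγ1 n)
    have hw : L.l (w0⁻¹ * w1) ≤ 2 * r := by
      have h1 : w0⁻¹ * w1 = ((d n)⁻¹ * w0)⁻¹ * ((d n)⁻¹ * w1) := by group
      rw [h1]
      have h2 := L.mul ((d n)⁻¹ * w0)⁻¹ ((d n)⁻¹ * w1)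
      rw [L.inv] at h2
      linarith
    obtain ⟨i, hi, hne⟩ := hγ2 n _ hw
    apply hne
    rw [Equiv.Perm.mul_apply, Equiv.Perm.inv_eq_iff_eq, e1 i hi]
    exact (e0 _ (AC2_maps (hγ1 n) hi)).symm
  choose δ hδ1 hδ2 using hδ
  have hn1 : ∀ k, (Nat.unpair (δ (Nat.unpair k).1 k)).1 = (Nat.unpair k).1 := fun k => by
    rw [← hRn]
    exact AC2_maps (hδ1 _) ((hRn _ _).2 rfl)
  have hn2 : ∀ k, (Nat.unpair ((δ (Nat.unpair k).1)⁻¹ k)).1 = (Nat.unpair k).1 := fun k => by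
    rw [← hRn]
    exact AC2_maps (AC2_inv (hδ1 _)) ((hRn _ _).2 rfl)
  let Δ : Equiv.Perm ℕ :=
    { toFun := fun k => δ (Nat.unpair k).1 k
      invFun := fun k => (δ (Nat.unpair k).1)⁻¹ k
      left_inv := fun k => by
        simp only
        rw [hn1]
        simp
      right_inv := fun k => by
        simp only
        rw [hn2]
        simp }
  obtain ⟨n, hn⟩ := hd Δ
  obtain ⟨i, hi, hne⟩ := hδ2 n Δ hn
  apply hne
  change δ (Nat.unpair i).1 i = δ n i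
  rw [(hRn _ _).1 hi]

end Pool.Agent.H182R2.CB
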