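import Pool.Agent.H182R2.CB.NDefs
import Pool.Agent.H182R2.CB.AC1_family
import Pool.Agent.H182R2.CB.AC2_full

set_option autoImplicit false

namespace Pool.Agent.H182R2.CB

open Equiv

/-- fiberwise power -/
def AC3_P (c : Perm ℕ) (a : ℕ → ℤ) : Perm (ℕ × ℕ) where
  toFun p := (p.1, (c ^ (a p.1)) p.2)
  invFun p := (p.1, (c ^ (a p.1))⁻¹ p.2)
  left_inv := by
    intro p
    simp
  right_inv := by
    intro p
    simp

def AC3_hat (π : Perm ℕ) : Perm (ℕ × ℕ) where
  toFun p := (π p.1, p.2)
  invFun p := (π⁻¹ p.1, p.2)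
  left_inv := by
    intro p
    simp
  right_inv := by
    intro p
    simp

lemma AC3_P_apply (c : Perm ℕ) (a : ℕ → ℤ) (p : ℕ × ℕ) :
    AC3_P c a p = (p.1, (c ^ (a p.1)) p.2) := rfl

lemma AC3_hat_apply (π : Perm ℕ) (p : ℕ × ℕ) : AC3_hat π p = (π p.1, p.2) := rfl

lemma AC3_P_mul (c : Perm ℕ) (a b : ℕ → ℤ) : AC3_P c a * AC3_P c b = AC3_P c (a + b) := by
  ext p
  · simp [AC3_P_apply]
  · simp [AC3_P_apply, zpow_add]

lemma AC3_P_inv (c : Perm ℕ) (a : ℕ → ℤ) : (AC3_P c a)⁻¹ = AC3_P c (-a) := by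
  rw [inv_eq_iff_mul_eq_one, AC3_P_mul]
  ext p
  · simp [AC3_P_apply]
  · simp [AC3_P_apply]

lemma AC3_conj (c π : Perm ℕ) (a : ℕ → ℤ) :
    AC3_hat π * AC3_P c a * (AC3_hat π)⁻¹ = AC3_P c (fun j => a (π⁻¹ j)) := by
  rw [mul_inv_eq_iff_eq_mul]
  ext p
  · simp [AC3_P_apply, AC3_hat_apply]
  · simp [AC3_P_apply, AC3_hat_apply]

lemma AC3_ai (g : Perm ℕ) (x : ℕ) : g (g⁻¹ x) = x := by simp

lemma AC3_ia (g : Perm ℕ) (x : ℕ) : g⁻¹ (g x) = x := by simp

/-- gluing bijections of fibers -/
lemma AC3_glue (f g : ℕ → ℤ)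
    (h : ∀ c, Nonempty ({x // f x = c} ≃ {x // g x = c})) : ∃ π : Perm ℕ, ∀ i, g (π i) = f i := by
  let e := fun c => Classical.choice (h c)
  let E : Perm ℕ := ((Equiv.sigmaFiberEquiv f).symm.trans
    (Equiv.sigmaCongrRight fun c => (e c))).trans (Equiv.sigmaFiberEquiv g)
  refine ⟨E, fun i => ?_⟩
  have : E i = (e (f i) ⟨i, rfl⟩ : ℕ) := rfl
  rw [this]
  exact (e (f i) ⟨i, rfl⟩).2

lemma AC3_fib (f g : ℕ → ℤ) (c : ℤ)
    (h : ({x | f x = c}.Infinite ∧ {x | g x = c}.Infinite) ∨
      ((∀ x, f x ≠ c) ∧ ∀ x, g x ≠ c)) : Nonempty ({x // f x = c} ≃ {x // g x = c}) := by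
  rcases h with ⟨h1, h2⟩ | ⟨h1, h2⟩
  · have := h1.to_subtype
    have := h2.to_subtype
    exact nonempty_equiv_of_countable (α := {x | f x = c}) (β := {x | g x = c})
  · have : IsEmpty {x // f x = c} := ⟨fun x => h1 x.1 x.2⟩
    have : IsEmpty {x // g x = c} := ⟨fun x => h2 x.1 x.2⟩
    exact ⟨Equiv.equivOfIsEmpty _ _⟩

lemma AC3_conj_bound (L : SepLength) (r : ℝ) (R : Set ℕ) (θ : ℕ × ℕ ≃ {x // x ∈ R})
    [DecidablePred (· ∈ R)]
    (hR : ∀ γ : Perm ℕ, (∀ i, i ∉ R → γ i = i) → ∃ w, L.l w ≤ 2 * r ∧ ∀ i ∈ R, w i = γ i)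
    (σ κ : Perm (ℕ × ℕ)) :
    L.l (Perm.extendDomain (σ * κ * σ⁻¹) θ) ≤ L.l (Perm.extendDomain κ θ) + 4 * r := by
  obtain ⟨w, hw, hwR⟩ := hR (Perm.extendDomain σ θ) (fun i hi =>
    Perm.extendDomain_apply_not_subtype σ θ hi)
  have hwθ : ∀ p, w (θ p) = θ (σ p) := by
    intro p
    rw [hwR _ (θ p).2, Perm.extendDomain_apply_image]
  have hwi : ∀ p, w⁻¹ (θ p) = θ (σ⁻¹ p) := by
    intro p
    rw [Perm.inv_eq_iff_eq, hwθ]
    simp
  have key : w * Perm.extendDomain κ θ * w⁻¹ = Perm.extendDomain (σ * κ * σ⁻¹) θ := by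
    ext x
    by_cases hx : x ∈ R
    · obtain ⟨p, hp⟩ : ∃ p, θ p = ⟨x, hx⟩ := θ.surjective _
      have hx' : x = θ p := by rw [hp]
      rw [hx', Perm.mul_apply, Perm.mul_apply, hwi, Perm.extendDomain_apply_image, hwθ,
        Perm.extendDomain_apply_image]
      simp
    · have h1 : w⁻¹ x ∉ R := by
        intro h
        apply hx
        obtain ⟨p, hp⟩ : ∃ p, θ p = ⟨w⁻¹ x, h⟩ := θ.surjective _
        have h2 : w⁻¹ x = θ p := by rw [hp]
        rw [Perm.inv_eq_iff_eq] at h2
        rw [h2, hwθ]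
        exact (θ (σ p)).2
      rw [Perm.mul_apply, Perm.mul_apply, Perm.extendDomain_apply_not_subtype _ _ h1,
        Perm.extendDomain_apply_not_subtype _ _ hx]
      simp
  rw [← key]
  have h1 := L.mul (w * Perm.extendDomain κ θ) w⁻¹
  have h2 := L.mul w (Perm.extendDomain κ θ)
  rw [L.inv] at h1
  linarith

theorem AC3_moiety (L : SepLength) (r : ℝ) (hr : 0 < r) :
    ∃ A : Set ℕ, A.Infinite ∧ Aᶜ.Infinite ∧ ∀ γ : Equiv.Perm ℕ, (∀ i, i ∉ A → γ i = i) →
      L.l γ ≤ 12 * r := by
  classical
  obtain ⟨R, hRi, hRc, hR⟩ := AC2_full L r hr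
  have := hRi.to_subtype
  obtain ⟨θ⟩ : Nonempty (ℕ × ℕ ≃ {x // x ∈ R}) :=
    nonempty_equiv_of_countable (α := ℕ × ℕ) (β := R)
  have hθinj : ∀ p q, ((θ p : {x // x ∈ R}) : ℕ) = θ q → p = q := by
    intro p q h
    exact θ.injective (Subtype.ext h)
  refine ⟨Set.range fun x : ℕ => ((θ (0, x) : {x // x ∈ R}) : ℕ), ?_, ?_, ?_⟩
  · apply Set.infinite_range_of_injective
    intro x y h
    have := hθinj _ _ h
    simpa using this
  · refine Set.Infinite.mono ?_ hRc
    intro x hx
    rintro ⟨y, rfl⟩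
    exact hx (θ (0, y)).2
  · intro γ hγ
    -- the permutation `c`
    have hγA : ∀ x : ℕ, ∃ y : ℕ, γ (θ (0, x)) = θ (0, y) := by
      intro x
      by_contra hcon
      push Not at hcon
      have h1 : γ (θ (0, x)) ∉ Set.range fun x : ℕ => ((θ (0, x) : {x // x ∈ R}) : ℕ) := by
        rintro ⟨y, hy⟩
        exact hcon y hy.symm
      have h2 := hγ _ h1
      have h3 := γ.injective h2
      exact h1 ⟨x, h3.symm⟩
    have hγA' : ∀ x : ℕ, ∃ y : ℕ, γ⁻¹ (θ (0, x)) = θ (0, y) := by
      intro x
      by_contra hcon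
      push Not at hcon
      have h1 : γ⁻¹ (θ (0, x)) ∉ Set.range fun x : ℕ => ((θ (0, x) : {x // x ∈ R}) : ℕ) := by
        rintro ⟨y, hy⟩
        exact hcon y hy.symm
      have h2 := hγ _ h1
      rw [AC3_ai] at h2
      exact h1 ⟨x, h2⟩
    choose c0 hc0 using hγA
    choose c1 hc1 using hγA'
    have hl : ∀ x, c1 (c0 x) = x := by
      intro x
      have h1 := hc1 (c0 x)
      rw [← hc0 x, AC3_ia] at h1
      have := hθinj _ _ h1
      have h2 := congrArg Prod.snd this
      exact h2.symm
    have hrr : ∀ x, c0 (c1 x) = x := by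
      intro x
      have h1 := hc0 (c1 x)
      rw [← hc1 x, AC3_ai] at h1
      have := hθinj _ _ h1
      have h2 := congrArg Prod.snd this
      exact h2.symm
    let c : Perm ℕ := ⟨c0, c1, hl, hrr⟩
    -- the length on `Perm (ℕ × ℕ)`
    have hQmul : ∀ σ τ : Perm (ℕ × ℕ), Perm.extendDomain (σ * τ) θ =
        Perm.extendDomain σ θ * Perm.extendDomain τ θ := fun σ τ =>
      (Perm.extendDomain_mul θ σ τ).symm
    have hQinv : ∀ σ : Perm (ℕ × ℕ), Perm.extendDomain (σ⁻¹) θ = (Perm.extendDomain σ θ)⁻¹ :=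
      fun σ => (Perm.extendDomain_inv σ θ).symm
    have hconj := AC3_conj_bound L r R θ hR
    have hlmul : ∀ σ τ : Perm (ℕ × ℕ), L.l (Perm.extendDomain (σ * τ) θ) ≤
        L.l (Perm.extendDomain σ θ) + L.l (Perm.extendDomain τ θ) := by
      intro σ τ
      rw [hQmul]
      exact L.mul _ _
    obtain ⟨F, hF1, hF2, hF3⟩ := AC1_family
    obtain ⟨d, hd⟩ := L.sep r hr
    let ind : Set ℕ → ℕ → ℤ := fun s j => if j ∈ s then 1 else 0
    have hch : ∀ a : ℕ → Bool, ∃ n, L.l ((d n)⁻¹ * Perm.extendDomain (AC3_P c (ind (F a))) θ) ≤ r :=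
      fun a => hd _
    choose n hn using hch
    obtain ⟨a, b, hab, hnab⟩ : ∃ a b : ℕ → Bool, a ≠ b ∧ n a = n b := by
      by_contra hcon
      push Not at hcon
      have hinj : Function.Injective n := by
        intro a b h
        by_contra hne
        exact hcon a b hne h
      refine Function.cantor_injective (fun s : Set ℕ => n (fun i => decide (i ∈ s))) ?_
      intro s t hst
      have h1 := hinj hst
      ext i
      have h2 := congrFun h1 i
      simpa using h2
    let e : ℕ → ℤ := ind (F b) - ind (F a)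
    have hκ : L.l (Perm.extendDomain (AC3_P c e) θ) ≤ 2 * r := by
      have h1 : Perm.extendDomain (AC3_P c e) θ =
          ((d (n a))⁻¹ * Perm.extendDomain (AC3_P c (ind (F a))) θ)⁻¹ *
            ((d (n b))⁻¹ * Perm.extendDomain (AC3_P c (ind (F b))) θ) := by
        rw [hnab, mul_inv_rev, inv_inv]
        have h2 : AC3_P c e = (AC3_P c (ind (F a)))⁻¹ * AC3_P c (ind (F b)) := by
          rw [AC3_P_inv, AC3_P_mul]
          congr 1
          simp only [e]
          ring
        rw [h2, hQmul, hQinv]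
        group
      rw [h1]
      have h3 := L.mul ((d (n a))⁻¹ * Perm.extendDomain (AC3_P c (ind (F a))) θ)⁻¹
        ((d (n b))⁻¹ * Perm.extendDomain (AC3_P c (ind (F b))) θ)
      rw [L.inv] at h3
      have h4 := hn a
      have h5 := hn b
      linarith
    -- values of `e`
    have hA1 : (F b \ F a).Infinite := by
      intro hfin
      apply hF1 b
      have : F b ⊆ (F b \ F a) ∪ (F a ∩ F b) := by
        intro x hx
        by_cases h : x ∈ F a
        · right; exact ⟨h, hx⟩
        · left; exact ⟨hx, h⟩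
      exact (hfin.union (hF2 a b hab)).subset this
    have hA2 : (F a \ F b).Infinite := by
      intro hfin
      apply hF1 a
      have : F a ⊆ (F a \ F b) ∪ (F a ∩ F b) := by
        intro x hx
        by_cases h : x ∈ F b
        · right; exact ⟨hx, h⟩
        · left; exact ⟨hx, h⟩
      exact (hfin.union (hF2 a b hab)).subset this
    obtain ⟨a₀, ha₀⟩ := hA1.nonempty
    have he1 : ∀ x, e x = 1 ↔ x ∈ F b \ F a := by
      intro x
      simp only [e, ind, Pi.sub_apply, Set.mem_sdiff]
      by_cases h1 : x ∈ F b <;> by_cases h2 : x ∈ F a <;> simp [h1, h2]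
    have he2 : ∀ x, e x = -1 ↔ x ∈ F a \ F b := by
      intro x
      simp only [e, ind, Pi.sub_apply, Set.mem_sdiff]
      by_cases h1 : x ∈ F b <;> by_cases h2 : x ∈ F a <;> simp [h1, h2]
    have he3 : ∀ x, x ∈ (F a ∪ F b)ᶜ → e x = 0 := by
      intro x hx
      have h1 : x ∉ F a := fun h => hx (Or.inl h)
      have h2 : x ∉ F b := fun h => hx (Or.inr h)
      simp [e, ind, h1, h2]
    have he4 : ∀ x, e x = 1 ∨ e x = -1 ∨ e x = 0 := by
      intro x
      simp only [e, ind, Pi.sub_apply]
      by_cases h1 : x ∈ F b <;> by_cases h2 : x ∈ F a <;> simp [h1, h2]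
    let g : ℕ → ℤ := fun j => (if j = a₀ then 1 else 0) - e j
    have hea : e a₀ = 1 := (he1 a₀).mpr ha₀
    have hga : g a₀ = 0 := by simp [g, hea]
    have hgn : ∀ x, x ≠ a₀ → g x = - e x := by
      intro x hx
      simp [g, hx]
    obtain ⟨π, hπ⟩ := AC3_glue e g (by
      intro v
      apply AC3_fib
      by_cases hv1 : v = 1
      · left
        subst hv1
        constructor
        · exact hA1.mono (fun x hx => (he1 x).mpr hx)
        · refine hA2.mono (fun x hx => ?_)
          have h1 := (he2 x).mpr hx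
          have h2 : x ≠ a₀ := by
            rintro rfl
            rw [hea] at h1
            norm_num at h1
          change g x = 1
          rw [hgn x h2, h1]
          norm_num
      by_cases hv2 : v = -1
      · left
        subst hv2
        constructor
        · exact hA2.mono (fun x hx => (he2 x).mpr hx)
        · refine (hA1.sdiff (Set.finite_singleton a₀)).mono (fun x hx => ?_)
          have h1 := (he1 x).mpr hx.1
          have h2 : x ≠ a₀ := hx.2
          change g x = -1
          rw [hgn x h2, h1]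
      by_cases hv3 : v = 0
      · left
        subst hv3
        constructor
        · exact (hF3 a b).mono (fun x hx => he3 x hx)
        · refine (hF3 a b).mono (fun x hx => ?_)
          have h1 := he3 x hx
          have h2 : x ≠ a₀ := by
            rintro rfl
            rw [hea] at h1
            norm_num at h1
          change g x = 0
          rw [hgn x h2, h1]
          norm_num
      · right
        constructor
        · intro x hx
          rcases he4 x with h | h | h
          · exact hv1 (by rw [← hx, h])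
          · exact hv2 (by rw [← hx, h])
          · exact hv3 (by rw [← hx, h])
        · intro x hx
          by_cases hxa : x = a₀
          · subst hxa
            exact hv3 (by rw [← hx, hga])
          · rw [hgn x hxa] at hx
            rcases he4 x with h | h | h
            · exact hv2 (by rw [← hx, h])
            · exact hv1 (by rw [← hx, h]; norm_num)
            · exact hv3 (by rw [← hx, h]; norm_num))
    have h6 : L.l (Perm.extendDomain (AC3_P c (fun j => e (π⁻¹ j))) θ) ≤ 2 * r + 4 * r := by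
      rw [← AC3_conj]
      have := hconj (AC3_hat π) (AC3_P c e)
      linarith
    have h8 : L.l (Perm.extendDomain (AC3_P c (ind {a₀})) θ) ≤ 8 * r := by
      have h1 : AC3_P c (ind {a₀}) = AC3_P c e * AC3_P c (fun j => e (π⁻¹ j)) := by
        rw [AC3_P_mul]
        congr 1
        ext j
        have h2 := hπ (π⁻¹ j)
        rw [AC3_ai] at h2
        simp only [Pi.add_apply, ← h2, g, ind, Set.mem_singleton_iff]
        ring
      rw [h1]
      have := hlmul (AC3_P c e) (AC3_P c (fun j => e (π⁻¹ j)))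
      linarith
    have h12 : L.l (Perm.extendDomain (AC3_P c (ind {0})) θ) ≤ 12 * r := by
      have h1 : AC3_P c (ind {0}) = AC3_hat (swap a₀ 0) * AC3_P c (ind {a₀}) *
          (AC3_hat (swap a₀ 0))⁻¹ := by
        rw [AC3_conj]
        congr 1
        ext j
        simp only [ind, Set.mem_singleton_iff, swap_inv]
        by_cases hj : j = 0
        · subst hj
          simp
        · rw [if_neg hj, if_neg]
          intro h
          apply hj
          have h3 := congrArg (swap a₀ 0) h
          simpa using h3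
      rw [h1]
      have := hconj (AC3_hat (swap a₀ 0)) (AC3_P c (ind {a₀}))
      linarith
    have hfin : Perm.extendDomain (AC3_P c (ind {0})) θ = γ := by
      ext x
      by_cases hx : x ∈ R
      · obtain ⟨p, hp⟩ : ∃ p, θ p = ⟨x, hx⟩ := θ.surjective _
        have hx' : x = θ p := by rw [hp]
        rw [hx', Perm.extendDomain_apply_image, AC3_P_apply]
        obtain ⟨i, y⟩ := p
        by_cases hi : i = 0
        · subst hi
          have : (c ^ (ind {0} 0)) y = c0 y := by
            simp [ind]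
            rfl
          simp only [this]
          exact (hc0 y).symm
        · have h1 : (c ^ (ind {0} i)) y = y := by
            simp [ind, hi]
          simp only [h1]
          refine (hγ _ ?_).symm
          rintro ⟨z, hz⟩
          have := hθinj _ _ hz
          simp only [Prod.mk.injEq] at this
          exact hi this.1.symm
      · rw [Perm.extendDomain_apply_not_subtype _ _ hx]
        refine (hγ _ ?_).symm
        rintro ⟨z, hz⟩
        exact hx (hz ▸ (θ (0, z)).2)
    rw [← hfin]
    exact h12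

end Pool.Agent.H182R2.CB
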