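import Pool.Agent.H182R2.CB.NDefs
import Pool.Agent.H182R2.CB.AC1_family
import Pool.Agent.H182R2.CB.AC0_ext

/-! Task AC4_move (helper862). -/

namespace Pool.Agent.H182R2.CB

/-- a permutation carrying one moiety to another -/
theorem AC4_perm (C D : Set ℕ) (hC : C.Infinite) (hC' : Cᶜ.Infinite) (hD : D.Infinite)
    (hD' : Dᶜ.Infinite) : ∃ g : Equiv.Perm ℕ, g '' C = D := by
  classical
  have e0 : ∀ A B : Set ℕ, A.Infinite → B.Infinite → Nonempty (A ≃ B) := by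
    intro A B hA hB
    have := hA.to_subtype
    have := hB.to_subtype
    exact Cardinal.eq.1 ((Cardinal.mk_eq_aleph0 A).trans (Cardinal.mk_eq_aleph0 B).symm)
  obtain ⟨e1⟩ := e0 C D hC hD
  obtain ⟨e2⟩ := e0 Cᶜ Dᶜ hC' hD'
  refine ⟨(Equiv.Set.sumCompl C).symm.trans ((Equiv.sumCongr e1 e2).trans
    (Equiv.Set.sumCompl D)), ?_⟩
  ext y
  constructor
  · rintro ⟨x, hx, rfl⟩
    have h1 : (Equiv.Set.sumCompl C).symm x = Sum.inl ⟨x, hx⟩ :=
      Equiv.Set.sumCompl_symm_apply_of_mem hx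
    rw [Equiv.trans_apply, h1]
    exact (e1 ⟨x, hx⟩).2
  · intro hy
    refine ⟨(e1.symm ⟨y, hy⟩ : C), (e1.symm ⟨y, hy⟩).2, ?_⟩
    have h1 : (Equiv.Set.sumCompl C).symm (e1.symm ⟨y, hy⟩ : C) =
        Sum.inl ⟨(e1.symm ⟨y, hy⟩ : C), (e1.symm ⟨y, hy⟩).2⟩ :=
      Equiv.Set.sumCompl_symm_apply_of_mem (e1.symm ⟨y, hy⟩).2
    rw [Equiv.trans_apply, h1, Subtype.coe_eta]
    show ((e1 (e1.symm ⟨y, hy⟩) : D) : ℕ) = y
    rw [Equiv.apply_symm_apply]

/-- a function from binary sequences to `ℕ` is not injective -/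
theorem AC4_ninj (f : (ℕ → Bool) → ℕ) : ∃ a b, a ≠ b ∧ f a = f b := by
  classical
  by_contra h
  push Not at h
  have hf : Function.Injective f := by
    intro a b hab
    by_contra hne
    exact h a b hne hab
  refine Function.cantor_injective (fun s : Set ℕ => f (fun n => decide (n ∈ s))) ?_
  intro s t hst
  have h1 := hf hst
  ext n
  have h2 := congrFun h1 n
  simpa using h2

theorem AC4_move (L : SepLength) (r : ℝ) (hr : 0 < r) (C : Set ℕ) (hC : C.Infinite)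
    (hC' : Cᶜ.Infinite) :
    ∃ h : Equiv.Perm ℕ, L.l h ≤ 2 * r ∧ (C ∩ h '' C).Finite ∧ (C ∪ h '' C)ᶜ.Infinite := by
  obtain ⟨F, hF1, hF2, hF3⟩ := AC1_family
  have hg : ∀ a, ∃ g : Equiv.Perm ℕ, g '' C = F a := by
    intro a
    refine AC4_perm C (F a) hC hC' (hF1 a) ?_
    have := hF3 a a
    rwa [Set.union_self] at this
  choose g hg using hg
  obtain ⟨d, hd⟩ := L.sep r hr
  choose ν hν using fun a => hd (g a)
  obtain ⟨a, b, hab, hn⟩ := AC4_ninj ν
  refine ⟨(g a)⁻¹ * g b, ?_, ?_, ?_⟩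
  · have h1 : (g a)⁻¹ * g b = ((d (ν a))⁻¹ * g a)⁻¹ * ((d (ν b))⁻¹ * g b) := by
      rw [hn]
      group
    rw [h1]
    refine (L.mul _ _).trans ?_
    rw [L.inv]
    linarith [hν a, hν b]
  · have h2 : C = ((g a)⁻¹ : Equiv.Perm ℕ) '' F a := by
      rw [← hg a, ← Set.image_comp, ← Equiv.Perm.coe_mul, inv_mul_cancel, Equiv.Perm.coe_one,
        Set.image_id]
    have h3 : ((g a)⁻¹ * g b : Equiv.Perm ℕ) '' C = ((g a)⁻¹ : Equiv.Perm ℕ) '' F b := by
      rw [Equiv.Perm.coe_mul, Set.image_comp, hg b]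
    rw [h3]
    nth_rewrite 1 [h2]
    rw [← Set.image_inter (Equiv.injective _)]
    exact (hF2 a b hab).image _
  · have h2 : C = ((g a)⁻¹ : Equiv.Perm ℕ) '' F a := by
      rw [← hg a, ← Set.image_comp, ← Equiv.Perm.coe_mul, inv_mul_cancel, Equiv.Perm.coe_one,
        Set.image_id]
    have h3 : ((g a)⁻¹ * g b : Equiv.Perm ℕ) '' C = ((g a)⁻¹ : Equiv.Perm ℕ) '' F b := by
      rw [Equiv.Perm.coe_mul, Set.image_comp, hg b]
    rw [h3]
    nth_rewrite 1 [h2]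
    rw [← Set.image_union, ← Set.image_compl_eq (Equiv.bijective _)]
    exact (hF3 a b).image (Equiv.injective _).injOn

end Pool.Agent.H182R2.CB
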