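import Pool.Agent.H182R2.CB.NDefs
import Pool.Agent.H182R2.CB.AC0_ext

namespace Pool.Agent.H182R2.CB

lemma AC5_gen_bij (P Q : Set ℕ) (hP : P.Infinite) (hQ : Q.Infinite) :
    ∃ φ : ℕ → ℕ, Set.BijOn φ P Q := by
  classical
  have := hP.to_subtype
  have := hQ.to_subtype
  obtain ⟨e⟩ : Nonempty (P ≃ Q) :=
    ⟨(Nat.Subtype.orderIsoOfNat P).symm.toEquiv.trans (Nat.Subtype.orderIsoOfNat Q).toEquiv⟩
  refine ⟨fun n => if h : n ∈ P then (e ⟨n, h⟩ : ℕ) else 0, ?_, ?_, ?_⟩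
  · intro n hn
    simp only [dif_pos hn]
    exact (e ⟨n, hn⟩).2
  · intro n hn m hm h
    simp only [dif_pos hn, dif_pos hm] at h
    have := e.injective (Subtype.ext h)
    exact congrArg Subtype.val this
  · intro q hq
    refine ⟨(e.symm ⟨q, hq⟩ : ℕ), (e.symm ⟨q, hq⟩).2, ?_⟩
    simp only [dif_pos (e.symm ⟨q, hq⟩).2]
    simp

lemma AC5_gen_split (P : Set ℕ) (hP : P.Infinite) :
    ∃ Z : Set ℕ, Z ⊆ P ∧ Z.Infinite ∧ (P \ Z).Infinite := by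
  obtain ⟨φ, hφ⟩ := AC5_gen_bij Set.univ P Set.infinite_univ hP
  have hinj : Function.Injective φ := fun a b h => hφ.injOn (Set.mem_univ a) (Set.mem_univ b) h
  refine ⟨Set.range fun n => φ (2 * n), ?_, ?_, ?_⟩
  · rintro _ ⟨n, rfl⟩
    exact hφ.mapsTo (Set.mem_univ _)
  · refine Set.infinite_range_of_injective fun a b h => ?_
    have := hinj h
    omega
  · have h1 : (Set.range fun n => φ (2 * n + 1)).Infinite := by
      refine Set.infinite_range_of_injective fun a b h => ?_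
      have := hinj h
      omega
    refine h1.mono ?_
    rintro _ ⟨n, rfl⟩
    refine ⟨hφ.mapsTo (Set.mem_univ _), ?_⟩
    rintro ⟨m, hm⟩
    have := hinj hm
    omega

lemma AC5_gen_step (A A' : Set ℕ) (h1 : (A ∩ A').Infinite) (h2 : (A \ A').Infinite)
    (h3 : (A' \ A).Infinite) (g : Equiv.Perm ℕ) (hg : ∀ i, i ∉ A ∪ A' → g i = i) :
    ∃ (Z : Set ℕ) (b₁ a₁ : Equiv.Perm ℕ), Z ⊆ A ∧ Z.Infinite ∧ (A \ Z).Infinite ∧
      (∀ i, i ∉ A' → b₁ i = i) ∧ (∀ i, i ∉ A → a₁ i = i) ∧ ∀ z ∈ Z, b₁ (a₁ z) = g z := by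
  have hpres : ∀ z, z ∈ A ∪ A' → g z ∈ A ∪ A' := by
    intro z hz
    by_contra hgz
    have := g.injective (hg _ hgz)
    rw [this] at hgz
    exact hgz hz
  by_cases hc : {z | z ∈ A ∩ A' ∧ g z ∈ A}.Infinite
  · obtain ⟨Z, hZ1, hZ2, hZ3⟩ := AC5_gen_split _ hc
    have hZA : Z ⊆ A := fun z hz => (hZ1 hz).1.1
    have hgZA : g '' Z ⊆ A := by
      rintro _ ⟨z, hz, rfl⟩
      exact (hZ1 hz).2
    have hAZ : (A \ Z).Infinite := by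
      refine h2.mono ?_
      rintro i ⟨hi, hi'⟩
      exact ⟨hi, fun hiZ => hi' (hZ1 hiZ).1.2⟩
    have hAgZ : (A \ (g '' Z)).Infinite := by
      refine (hZ3.image (g.injective.injOn)).mono ?_
      rintro _ ⟨z, ⟨hz, hz'⟩, rfl⟩
      refine ⟨hz.2, ?_⟩
      rintro ⟨w, hw, hwz⟩
      exact hz' (g.injective hwz ▸ hw)
    obtain ⟨a, ha1, ha2⟩ := AC0_ext A Z (g '' Z) hZA hgZA hAZ hAgZ g
      (g.injective.injOn.bijOn_image)
    exact ⟨Z, 1, a, hZA, hZ2, hAZ, fun i _ => rfl, ha1, fun z hz => ha2 z hz⟩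
  · have hc' : {z | z ∈ A ∩ A' ∧ g z ∈ A' \ A}.Infinite := by
      by_contra hfin
      rw [Set.not_infinite] at hc hfin
      refine h1 ((hc.union hfin).subset ?_)
      intro z hz
      by_cases hgz : g z ∈ A
      · exact Or.inl ⟨hz, hgz⟩
      · refine Or.inr ⟨hz, ?_, hgz⟩
        rcases hpres z (Or.inl hz.1) with h | h
        · exact absurd h hgz
        · exact h
    obtain ⟨Z, hZdef⟩ : ∃ Z, Z = {z | z ∈ A ∩ A' ∧ g z ∈ A' \ A} := ⟨_, rfl⟩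
    rw [← hZdef] at hc'
    have hZ : ∀ z ∈ Z, z ∈ A ∩ A' ∧ g z ∈ A' \ A := fun z hz => by
      rw [hZdef] at hz; exact hz
    have hZA : Z ⊆ A := fun z hz => (hZ z hz).1.1
    have hAZ : (A \ Z).Infinite := by
      refine h2.mono ?_
      rintro i ⟨hi, hi'⟩
      exact ⟨hi, fun hiZ => hi' (hZ i hiZ).1.2⟩
    have hgZ : g '' Z ⊆ A' := by
      rintro _ ⟨z, hz, rfl⟩
      exact (hZ z hz).2.1
    have hgZinf : (g '' Z).Infinite := hc'.image g.injective.injOn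
    have hA'gZ : (A' \ (g '' Z)).Infinite := by
      refine h1.mono ?_
      rintro i ⟨hi, hi'⟩
      refine ⟨hi', ?_⟩
      rintro ⟨z, hz, rfl⟩
      exact (hZ z hz).2.2 hi
    have hU1 : (A' \ (A ∩ A')).Infinite := by
      refine h3.mono ?_
      rintro i ⟨hi, hi'⟩
      exact ⟨hi, fun h => hi' h.1⟩
    have hU2 : (A \ (A ∩ A')).Infinite := by
      refine h2.mono ?_
      rintro i ⟨hi, hi'⟩
      exact ⟨hi, fun h => hi' h.2⟩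
    obtain ⟨φ, hφ⟩ := AC5_gen_bij (g '' Z) (A ∩ A') hgZinf h1
    obtain ⟨b, hb1, hb2⟩ := AC0_ext A' (g '' Z) (A ∩ A') hgZ Set.inter_subset_right hA'gZ hU1
      φ hφ
    have hbij : Set.BijOn (fun z => b (g z)) Z (A ∩ A') := by
      have e1 : Set.BijOn b (g '' Z) (A ∩ A') := hφ.congr fun i hi => (hb2 i hi).symm
      exact e1.comp g.injective.injOn.bijOn_image
    obtain ⟨a, ha1, ha2⟩ := AC0_ext A Z (A ∩ A') hZA Set.inter_subset_left hAZ hU2 _ hbij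
    refine ⟨Z, b⁻¹, a, hZA, hc', hAZ, ?_, ha1, ?_⟩
    · intro i hi
      rw [Equiv.Perm.inv_eq_iff_eq]
      exact (hb1 i hi).symm
    · intro z hz
      rw [ha2 z hz, Equiv.Perm.inv_eq_iff_eq]

theorem AC5_gen (A A' : Set ℕ) (h1 : (A ∩ A').Infinite) (h2 : (A \ A').Infinite)
    (h3 : (A' \ A).Infinite) (g : Equiv.Perm ℕ) (hg : ∀ i, i ∉ A ∪ A' → g i = i) :
    ∃ b₁ a₁ a₂ b₂ : Equiv.Perm ℕ, (∀ i, i ∉ A' → b₁ i = i) ∧ (∀ i, i ∉ A → a₁ i = i) ∧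
      (∀ i, i ∉ A → a₂ i = i) ∧ (∀ i, i ∉ A' → b₂ i = i) ∧ g = b₁ * a₁ * (a₂⁻¹ * b₂ * a₂) := by
  obtain ⟨Z, b₁, a₁, hZA, hZ, hAZ, hb, ha, hz⟩ := AC5_gen_step A A' h1 h2 h3 g hg
  obtain ⟨φ, hφ⟩ := AC5_gen_bij Z (A \ A') hZ h2
  have hd : (A \ (A \ A')).Infinite := by
    refine h1.mono ?_
    rintro i ⟨hi, hi'⟩
    exact ⟨hi, fun h => h.2 hi'⟩
  obtain ⟨a₂, ha₂, ha₂'⟩ := AC0_ext A Z (A \ A') hZA Set.sdiff_subset hAZ hd φ hφ
  have hg'Z : ∀ z ∈ Z, (b₁ * a₁)⁻¹ (g z) = z := by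
    intro z hzZ
    rw [← hz z hzZ, Equiv.Perm.inv_eq_iff_eq]
    rfl
  have hg'o : ∀ i, i ∉ A ∪ A' → (b₁ * a₁)⁻¹ (g i) = i := by
    intro i hi
    rw [hg i hi, Equiv.Perm.inv_eq_iff_eq, Equiv.Perm.mul_apply,
      ha i (fun h => hi (Or.inl h)), hb i (fun h => hi (Or.inr h))]
  refine ⟨b₁, a₁, a₂, a₂ * ((b₁ * a₁)⁻¹ * g) * a₂⁻¹, hb, ha, ha₂, ?_, ?_⟩
  · intro i hi
    by_cases hiA : i ∈ A
    · obtain ⟨z, hzZ, hzi⟩ := hφ.surjOn (show i ∈ A \ A' from ⟨hiA, hi⟩)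
      have h4 : a₂ z = i := by rw [ha₂' z hzZ, hzi]
      have h5 : a₂⁻¹ i = z := by rw [Equiv.Perm.inv_eq_iff_eq]; exact h4.symm
      rw [Equiv.Perm.mul_apply, Equiv.Perm.mul_apply, Equiv.Perm.mul_apply, h5, hg'Z z hzZ, h4]
    · have h5 : a₂⁻¹ i = i := by rw [Equiv.Perm.inv_eq_iff_eq]; exact (ha₂ i hiA).symm
      rw [Equiv.Perm.mul_apply, Equiv.Perm.mul_apply, Equiv.Perm.mul_apply, h5,
        hg'o i (fun h => h.elim hiA hi), ha₂ i hiA]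
  · group

end Pool.Agent.H182R2.CB
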