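import Pool.Agent.H182R2.CB.NDefs
import Pool.Agent.H182R2.CB.AC3_moiety
import Pool.Agent.H182R2.CB.AC4_move
import Pool.Agent.H182R2.CB.AC5_gen

namespace Pool.Agent.H182R2.CB

open Finset Filter Topology

theorem AC6_main (L : SepLength) (r : ℝ) (hr : 0 < r) :
    ∃ t : Finset ℕ, ∀ g : Equiv.Perm ℕ, (∀ i ∈ t, g i = i) → L.l g ≤ 68 * r := by
  obtain ⟨A, hA, hAc, hAl⟩ := AC3_moiety L r hr
  obtain ⟨h, hh, hfin, hinf⟩ := AC4_move L r hr Aᶜ hAc (by rw [compl_compl]; exact hA)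
  have himg : ∀ x, x ∈ h '' Aᶜ ↔ x ∉ h '' A := by
    intro x
    constructor
    · rintro ⟨a, ha, rfl⟩ ⟨b, hb, hab⟩
      exact ha (h.injective hab ▸ hb)
    · intro hx
      refine ⟨h.symm x, fun hc => hx ⟨h.symm x, hc, by simp⟩, by simp⟩
  have hl' : ∀ γ : Equiv.Perm ℕ, (∀ i, i ∉ h '' A → γ i = i) → L.l γ ≤ 16 * r := by
    intro γ hγ
    have h1 : L.l (h⁻¹ * γ * h) ≤ 12 * r := by
      refine hAl _ fun i hi => ?_
      have h2 : h i ∉ h '' A := by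
        rintro ⟨b, hb, hab⟩
        exact hi (h.injective hab ▸ hb)
      simp [Equiv.Perm.mul_apply, hγ _ h2]
    have h2 : γ = h * (h⁻¹ * γ * h) * h⁻¹ := by group
    rw [h2]
    have h3 := L.mul (h * (h⁻¹ * γ * h)) h⁻¹
    have h4 := L.mul h (h⁻¹ * γ * h)
    have h5 := L.inv h
    linarith
  have e1 : (A ∩ h '' A).Infinite := by
    convert hinf using 1
    ext x
    simp only [Set.mem_inter_iff, Set.mem_compl_iff, Set.mem_union, himg, not_or, not_not]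
  have hCinf : (h '' Aᶜ).Infinite := hAc.image h.injective.injOn
  have e2 : (A \ h '' A).Infinite := by
    have : A \ h '' A = h '' Aᶜ \ (Aᶜ ∩ h '' Aᶜ) := by
      ext x
      simp only [Set.mem_diff, Set.mem_inter_iff, Set.mem_compl_iff, himg]
      tauto
    rw [this]
    exact hCinf.diff hfin
  have e3 : (h '' A \ A).Infinite := by
    have : h '' A \ A = Aᶜ \ (Aᶜ ∩ h '' Aᶜ) := by
      ext x
      simp only [Set.mem_diff, Set.mem_inter_iff, Set.mem_compl_iff, himg]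
      tauto
    rw [this]
    exact hAc.diff hfin
  refine ⟨hfin.toFinset, fun g hg => ?_⟩
  obtain ⟨b₁, a₁, a₂, b₂, hb₁, ha₁, ha₂, hb₂, hgeq⟩ := AC5_gen A (h '' A) e1 e2 e3 g (by
    intro i hi
    refine hg i ?_
    rw [Set.Finite.mem_toFinset]
    rw [Set.mem_union, not_or] at hi
    exact ⟨hi.1, (himg i).2 hi.2⟩)
  have f1 := hl' b₁ hb₁
  have f2 := hAl a₁ ha₁
  have f3 := hAl a₂ ha₂
  have f4 := hl' b₂ hb₂
  have f5 := L.inv a₂
  have f6 := L.mul (b₁ * a₁) (a₂⁻¹ * b₂ * a₂)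
  have f7 := L.mul b₁ a₁
  have f8 := L.mul (a₂⁻¹ * b₂) a₂
  have f9 := L.mul a₂⁻¹ b₂
  rw [hgeq]
  linarith

end Pool.Agent.H182R2.CB
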