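import Pool.Agent.H182R2.CB.NDefs
import Pool.Agent.H182R2.CB.AC6_main

set_option autoImplicit false

namespace Pool.Agent.H182R2.CB

open Finset Filter Topology

section

variable {X : Type*} [NormedAddCommGroup X] [NormedSpace ℝ X]

/-- the length function -/
noncomputable def AC7_l (ρ : Equiv.Perm ℕ →* (X ≃ₗ[ℝ] X)) (x : X) (g : Equiv.Perm ℕ) : ℝ :=
  ⨆ h : Equiv.Perm ℕ, ‖ρ h (ρ g x - x)‖

theorem AC7_le (ρ : Equiv.Perm ℕ →* (X ≃ₗ[ℝ] X)) (K : ℝ) (hb : ∀ g x, ‖ρ g x‖ ≤ K * ‖x‖)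
    (x : X) (g h : Equiv.Perm ℕ) : ‖ρ h (ρ g x - x)‖ ≤ AC7_l ρ x g :=
  le_ciSup (f := fun h : Equiv.Perm ℕ => ‖ρ h (ρ g x - x)‖)
    ⟨K * ‖ρ g x - x‖, by rintro _ ⟨h, rfl⟩; exact hb h _⟩ h

theorem AC7_inv (ρ : Equiv.Perm ℕ →* (X ≃ₗ[ℝ] X)) (K : ℝ) (hb : ∀ g x, ‖ρ g x‖ ≤ K * ‖x‖)
    (x : X) (g : Equiv.Perm ℕ) : AC7_l ρ x g⁻¹ ≤ AC7_l ρ x g := by
  refine ciSup_le fun h => ?_
  have h1 : ρ h (ρ g⁻¹ x - x) = -(ρ (h * g⁻¹) (ρ g x - x)) := by
    have e1 : ρ (h * g⁻¹) (ρ g x) = ρ h x := by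
      rw [← LinearEquiv.mul_apply, ← map_mul, inv_mul_cancel_right]
    have e2 : ρ (h * g⁻¹) x = ρ h (ρ g⁻¹ x) := by
      rw [map_mul, LinearEquiv.mul_apply]
    rw [map_sub, map_sub, e1, e2]
    abel
  rw [h1, norm_neg]
  exact AC7_le ρ K hb x g _

end

theorem AC7_rep {X : Type*} [NormedAddCommGroup X] [NormedSpace ℝ X]
    [TopologicalSpace.SeparableSpace X] (ρ : Equiv.Perm ℕ →* (X ≃ₗ[ℝ] X)) (K : ℝ) (hK : 1 ≤ K)
    (hb : ∀ g x, ‖ρ g x‖ ≤ K * ‖x‖) (x : X) (ε : ℝ) (hε : 0 < ε) :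
    ∃ s : Finset ℕ, ∀ g : Equiv.Perm ℕ, (∀ i ∈ s, g i = i) → ‖ρ g x - x‖ ≤ ε := by
  have hK0 : 0 < K := by linarith
  have hone : ∀ y : X, ρ 1 y = y := fun y => by rw [map_one, LinearEquiv.coe_one, id]
  let L : SepLength :=
    { l := AC7_l ρ x
      one := by
        unfold AC7_l
        simp [hone]
      inv := by
        intro g
        refine le_antisymm (AC7_inv ρ K hb x g) ?_
        have := AC7_inv ρ K hb x g⁻¹
        rwa [inv_inv] at this
      mul := by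
        intro g h
        refine ciSup_le fun k => ?_
        have h1 : ρ k (ρ (g * h) x - x) = ρ (k * g) (ρ h x - x) + ρ k (ρ g x - x) := by
          rw [map_mul, map_mul, LinearEquiv.mul_apply, LinearEquiv.mul_apply, ← map_add]
          congr 1
          rw [map_sub]
          abel
        rw [h1, add_comm (AC7_l ρ x g)]
        exact (norm_add_le _ _).trans (add_le_add (AC7_le ρ K hb x h _) (AC7_le ρ K hb x g _))
      sep := by
        intro r hr
        have hs : TopologicalSpace.IsSeparable (Set.range fun g : Equiv.Perm ℕ => ρ g x) :=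
          TopologicalSpace.IsSeparable.of_separableSpace _
        obtain ⟨t, ht1, ht2, ht3⟩ := hs.exists_countable_dense_subset
        have htne : t.Nonempty := by
          by_contra h
          rw [Set.not_nonempty_iff_eq_empty] at h
          rw [h, closure_empty] at ht3
          exact ht3 ⟨1, rfl⟩
        obtain ⟨f, rfl⟩ := ht2.exists_eq_range htne
        have hd : ∀ n, ∃ d : Equiv.Perm ℕ, ρ d x = f n := fun n => ht1 ⟨n, rfl⟩
        choose d hd using hd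
        refine ⟨d, fun g => ?_⟩
        have hg : ρ g x ∈ closure (Set.range f) := ht3 ⟨g, rfl⟩
        rw [Metric.mem_closure_iff] at hg
        obtain ⟨b, ⟨n, rfl⟩, hn⟩ := hg (r / K) (by positivity)
        refine ⟨n, ciSup_le fun h => ?_⟩
        have h1 : ρ h (ρ ((d n)⁻¹ * g) x - x) = ρ (h * (d n)⁻¹) (ρ g x - ρ (d n) x) := by
          have e1 : ρ (h * (d n)⁻¹) (ρ (d n) x) = ρ h x := by
            rw [← LinearEquiv.mul_apply, ← map_mul, inv_mul_cancel_right]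
          have e2 : ρ (h * (d n)⁻¹) (ρ g x) = ρ h (ρ ((d n)⁻¹ * g) x) := by
            rw [← LinearEquiv.mul_apply, ← map_mul, ← LinearEquiv.mul_apply, ← map_mul, mul_assoc]
          rw [map_sub, map_sub, e1, e2]
        rw [h1]
        calc ‖ρ (h * (d n)⁻¹) (ρ g x - ρ (d n) x)‖ ≤ K * ‖ρ g x - ρ (d n) x‖ := hb _ _
          _ ≤ K * (r / K) := by
              refine mul_le_mul_of_nonneg_left ?_ hK0.le
              rw [hd n, ← dist_eq_norm]
              exact hn.le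
          _ = r := by field_simp }
  obtain ⟨t, ht⟩ := AC6_main L (ε / 68) (by positivity)
  refine ⟨t, fun g hg => ?_⟩
  have h1 := AC7_le ρ K hb x g 1
  rw [hone] at h1
  have h2 : AC7_l ρ x g ≤ 68 * (ε / 68) := ht g hg
  linarith

end Pool.Agent.H182R2.CB
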