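import Pool.Agent.H182R2.CB.Defs
import Pool.Agent.H182R2.CB.A0a
import Pool.Agent.H182R2.CB.A0b
import Pool.Agent.H182R2.CB.A1
import Pool.Agent.H182R2.CB.A2
import Pool.Agent.H182R2.CB.A3
import Pool.Agent.H182R2.CB.A4a
import Pool.Agent.H182R2.CB.A4b
import Pool.Agent.H182R2.CB.A5

namespace Pool.Agent.H182R2.CB

open Pool.Agent.H182R2.CB

variable {X : Type*} [NormedAddCommGroup X] [NormedSpace ℝ X] {G E : Type*} [Group G]
  {ρ : G →* Equiv.Perm E} {σ : G}

/-- The norming functionals are bounded by `(3/2) max |c|`. -/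
theorem phi_le (S : SignedSystem X ρ σ) (s : E → E → ℝ)
    (hs01 : ∀ e e', 0 < s e e' ∧ s e e' < 1 / 40) (i : E × E) (x : X) :
    |S.phi s i x| ≤ 3 / 2 * (S.K * ‖x‖) := by
  have hK : 0 ≤ S.K * ‖x‖ := mul_nonneg (le_trans zero_le_one S.hK) (norm_nonneg _)
  obtain ⟨h0, h1⟩ := hs01 i.1 i.2
  have ha := S.c_bound i.1 x
  have hb := S.c_bound i.2 x
  unfold SignedSystem.phi
  split_ifs with h
  · linarith
  · simp only [ContinuousLinearMap.add_apply, ContinuousLinearMap.smul_apply, smul_eq_mul]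
    calc |(3 / 4 + s i.1 i.2) * S.c i.1 x + (3 / 4 - s i.1 i.2) * S.c i.2 x|
        ≤ |(3 / 4 + s i.1 i.2) * S.c i.1 x| + |(3 / 4 - s i.1 i.2) * S.c i.2 x| := abs_add_le _ _
      _ = (3 / 4 + s i.1 i.2) * |S.c i.1 x| + (3 / 4 - s i.1 i.2) * |S.c i.2 x| := by
          rw [abs_mul, abs_mul, abs_of_pos (by linarith : (0:ℝ) < 3 / 4 + s i.1 i.2),
            abs_of_pos (by linarith : (0:ℝ) < 3 / 4 - s i.1 i.2)]
      _ ≤ (3 / 4 + s i.1 i.2) * (S.K * ‖x‖) + (3 / 4 - s i.1 i.2) * (S.K * ‖x‖) := by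
          gcongr
          linarith
      _ = 3 / 2 * (S.K * ‖x‖) := by ring

/-- The invariant norm, as a seminorm. -/
noncomputable def theN (p q r : Seminorm ℝ X) (δ : ℝ) (hδ : 0 ≤ δ) : Seminorm ℝ X :=
  Seminorm.of (fun x => max (δ * (p x + q x)) (r x))
    (by
      intro x y
      have h1 := map_add_le_add p x y
      have h2 := map_add_le_add q x y
      have h3 := map_add_le_add r x y
      apply max_le
      · calc δ * (p (x + y) + q (x + y)) ≤ δ * ((p x + p y) + (q x + q y)) := by gcongr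
          _ = δ * (p x + q x) + δ * (p y + q y) := by ring
          _ ≤ _ := add_le_add (le_max_left _ _) (le_max_left _ _)
      · exact h3.trans (add_le_add (le_max_right _ _) (le_max_right _ _)))
    (by
      intro a x
      simp only [map_smul_eq_mul, Real.norm_eq_abs]
      rw [mul_max_of_nonneg _ _ (abs_nonneg a)]
      congr 1
      ring)

@[simp] theorem theN_apply (p q r : Seminorm ℝ X) (δ : ℝ) (hδ : 0 ≤ δ) (x : X) :
    theN p q r δ hδ x = max (δ * (p x + q x)) (r x) := rfl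

theorem cont_of_bound (N : Seminorm ℝ X) (M : ℝ) (h : ∀ x, N x ≤ M * ‖x‖) : Continuous N := by
  have hM : ∀ x, N x ≤ max M 0 * ‖x‖ := fun x =>
    (h x).trans (mul_le_mul_of_nonneg_right (le_max_left _ _) (norm_nonneg _))
  have : LipschitzWith (Real.toNNReal (max M 0)) N := by
    apply LipschitzWith.of_dist_le_mul
    intro x y
    rw [Real.dist_eq, dist_eq_norm, Real.coe_toNNReal _ (le_max_right _ _)]
    rw [abs_le]
    constructor
    · have := map_sub_rev N x y
      have h1 : N y ≤ N (y - x) + N x := by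
        calc N y = N ((y - x) + x) := by simp
          _ ≤ _ := map_add_le_add _ _ _
      have h2 := hM (y - x)
      rw [norm_sub_rev] at h2
      linarith
    · have h1 : N x ≤ N (x - y) + N y := by
        calc N x = N ((x - y) + y) := by simp
          _ ≤ _ := map_add_le_add _ _ _
      have h2 := hM (x - y)
      linarith
  exact this.continuous

theorem A_strong [Infinite E] (S : SignedSystem X ρ σ) (s : E → E → ℝ)
    (hs01 : ∀ e e', 0 < s e e' ∧ s e e' < 1 / 40)
    (hsinv : ∀ g e e', s (ρ g e) (ρ g e') = s e e')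
    (hscl : ∀ π : Equiv.Perm E, (∀ e e', e' ≠ e → e' ≠ ρ σ e → s (π e) (π e') = s e e') →
      ∃ g : G, ∀ e, π e = ρ g e)
    (Q : Finset E) (hQ : ∀ g, ∀ e ∈ Q, ρ g e ∈ Q) (e₀ e₁ : E) (he₀ : e₀ ∈ Q) (he₁ : e₁ ∈ Q)
    (h01 : e₁ ≠ e₀) (h01' : e₁ ≠ ρ σ e₀) (hfaith : Function.Injective ρ) :
    ∃ N : Seminorm ℝ X, (∃ m M : ℝ, 0 < m ∧ ∀ x, m * ‖x‖ ≤ N x ∧ N x ≤ M * ‖x‖) ∧
      ∃ f : G ≃* isomGroup X N, ∀ g e x, S.c e ((f g).1 x) = S.c (ρ g⁻¹ e) x := by
  classical
  obtain ⟨hcinj, hσ1, hσ2, hσc, hcv, hcv01⟩ := A0a_basic S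
  obtain ⟨T, hTc, hTK⟩ := A1_T S
  obtain ⟨p, q, r, hp1, hp2, hpT, hq2, hqT, hr1, hr2, hrT⟩ :=
    A2_norms S s hs01 hsinv Q hQ T hTc hTK
  have hK0 : (0 : ℝ) < S.K := lt_of_lt_of_le zero_lt_one S.hK
  set D : ℝ := 2 * (2 * S.K ^ 2 + (Q.card + 1)) with hD
  have hD0 : 0 < D := by positivity
  set δ : ℝ := D⁻¹ with hδdef
  have hδ : 0 < δ := inv_pos.mpr hD0
  set N : Seminorm ℝ X := theN p q r δ hδ.le with hN
  have hNx : ∀ x, N x = max (δ * (p x + q x)) (r x) := fun x => rfl
  have hqn : ∀ x, 0 ≤ q x := fun x => apply_nonneg q x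
  -- bound for q
  have hqK : ∀ x, ∀ M : ℝ, 0 ≤ M → (∀ e, |S.c e x| ≤ M) → q x ≤ (Q.card + 1) * M := by
    intro x M hM hc
    apply le_of_sq_le_sq _ (by positivity)
    rw [hq2]
    calc ∑ e ∈ Q, (S.c e x) ^ 2 ≤ ∑ e ∈ Q, M ^ 2 := by
          apply Finset.sum_le_sum
          intro e _
          rw [← sq_abs]
          exact pow_le_pow_left₀ (abs_nonneg _) (hc e) 2
      _ = Q.card * M ^ 2 := by simp
      _ ≤ ((Q.card + 1) * M) ^ 2 := by
          have : (0 : ℝ) ≤ Q.card := Nat.cast_nonneg _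
          nlinarith [sq_nonneg M, mul_nonneg this (sq_nonneg M),
            mul_nonneg (mul_nonneg this this) (sq_nonneg M)]
  have hqB : ∀ x, q x ≤ (Q.card + 1) * (S.K * ‖x‖) := fun x =>
    hqK x _ (by positivity) (fun e => S.c_bound e x)
  have hrB : ∀ x, r x ≤ 3 / 2 * (S.K * ‖x‖) := fun x =>
    hr2 x _ (by positivity) (fun i => phi_le S s hs01 i x)
  -- constants
  set M : ℝ := δ * (S.K + (Q.card + 1) * S.K) + 3 / 2 * S.K with hM
  have hM0 : 0 ≤ M := by positivity
  have hNB : ∀ x, N x ≤ M * ‖x‖ := by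
    intro x
    rw [hNx]
    have h1 : δ * (p x + q x) ≤ δ * (S.K * ‖x‖ + (Q.card + 1) * (S.K * ‖x‖)) := by
      gcongr
      · exact hp2 x
      · exact hqB x
    have h2 := hrB x
    apply max_le
    · refine h1.trans ?_
      rw [hM]
      have : 0 ≤ 3 / 2 * S.K * ‖x‖ := by positivity
      nlinarith
    · refine h2.trans ?_
      rw [hM]
      have : 0 ≤ δ * (S.K + (Q.card + 1) * S.K) * ‖x‖ := by positivity
      nlinarith
  have hNb : ∀ x, δ * ‖x‖ ≤ N x := by
    intro x
    rw [hNx]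
    refine le_trans ?_ (le_max_left _ _)
    have := hp1 x
    have := hqn x
    gcongr
    linarith
  have hNcont : Continuous N := cont_of_bound N M hNB
  have hpcont : Continuous p := cont_of_bound p S.K hp2
  have hqcont : Continuous q := cont_of_bound q ((Q.card + 1) * S.K) (fun x => by
    have := hqB x; linarith)
  have hrcont : Continuous r := cont_of_bound r (3 / 2 * S.K) (fun x => by
    have := hrB x; linarith)
  -- open sets where N = φ i
  have hopen : ∀ i : E × E, ∃ U : Set X, IsOpen U ∧ U.Nonempty ∧ ∀ x ∈ U, N x = S.phi s i x := by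
    intro i
    obtain ⟨x, η, hη, hx1, hxn, hxc, hxj⟩ := A3_facet S s hs01 (fun e e' => hsinv σ e e') i
    -- choose a radius
    set L : ℝ := 3 / 2 * S.K with hL
    have hL0 : 0 < L := by positivity
    set η' : ℝ := min η (1 / 4) with hη'
    have hη'0 : 0 < η' := lt_min hη (by norm_num)
    have hη'1 : η' ≤ η := min_le_left _ _
    have hη'2 : η' ≤ 1 / 4 := min_le_right _ _
    have hpq : δ * (p x + q x) ≤ 1 / 2 := by
      have h1 : p x ≤ 2 * S.K ^ 2 := by
        calc p x ≤ S.K * ‖x‖ := hp2 x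
          _ ≤ S.K * (2 * S.K) := by gcongr
          _ = 2 * S.K ^ 2 := by ring
      have h2 : q x ≤ (Q.card + 1) * 1 := hqK x 1 zero_le_one hxc
      have h3 : p x + q x ≤ 2 * S.K ^ 2 + (Q.card + 1) := by linarith
      rw [hδdef, inv_mul_le_iff₀ hD0, hD]
      linarith
    refine ⟨{y | δ * (p y + q y) < 3 / 4 ∧ ‖y - x‖ < η' / (2 * L)}, ?_, ⟨x, ?_, ?_⟩, ?_⟩
    · apply IsOpen.inter
      · exact isOpen_lt (continuous_const.mul (hpcont.add hqcont)) continuous_const
      · exact isOpen_lt ((continuous_id.sub continuous_const).norm) continuous_const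
    · show δ * (p x + q x) < 3 / 4
      linarith
    · show ‖x - x‖ < η' / (2 * L)
      simp only [sub_self, norm_zero]
      positivity
    · rintro y ⟨hy1, hy2⟩
      have hd : ∀ j, |S.phi s j y - S.phi s j x| ≤ η' / 2 := by
        intro j
        rw [← map_sub]
        refine (phi_le S s hs01 j _).trans ?_
        have : 3 / 2 * (S.K * ‖y - x‖) = L * ‖y - x‖ := by rw [hL]; ring
        rw [this]
        calc L * ‖y - x‖ ≤ L * (η' / (2 * L)) := by gcongr
          _ = η' / 2 := by field_simp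
      have hyi : 1 - η' / 2 ≤ S.phi s i y := by
        have := (abs_le.mp (hd i)).1
        linarith
      have hri : r y ≤ S.phi s i y := by
        apply hr2 y _ (by linarith)
        intro j
        rcases hxj j with h | h | h
        · rw [h y, abs_of_nonneg (by linarith)]
        · rw [h y, abs_neg, abs_of_nonneg (by linarith)]
        · have h2 := hd j
          have : |S.phi s j y| ≤ |S.phi s j x| + |S.phi s j y - S.phi s j x| := by
            calc |S.phi s j y| = |S.phi s j x + (S.phi s j y - S.phi s j x)| := by ring_nf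
              _ ≤ _ := abs_add_le _ _
          linarith
      have hri' : r y = S.phi s i y := le_antisymm hri ((le_abs_self _).trans (hr1 i y))
      rw [hNx, hri']
      apply max_eq_right
      linarith
  -- classification
  have hclass : ∀ (ψ : X →L[ℝ] ℝ) (U : Set X), IsOpen U → U.Nonempty → (∀ x ∈ U, N x = ψ x) →
      ∃ j, ∀ x, ψ x = S.phi s j x := by
    intro ψ U hU hne hUN
    have key : ∃ i, (∀ x, ψ x = S.phi s i x) ∨ (∀ x, ψ x = - S.phi s i x) := by
      by_cases hcase : ∃ x ∈ U, r x < δ * (p x + q x)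
      · exfalso
        obtain ⟨x, hxU, hx⟩ := hcase
        have hV : IsOpen (U ∩ {y | r y < δ * (p y + q y)}) :=
          hU.inter (isOpen_lt hrcont (continuous_const.mul (hpcont.add hqcont)))
        refine A4a_smooth S Q hQ e₀ e₁ he₀ he₁ h01 h01' p q hq2 ψ.toLinearMap _ hV
          ⟨x, hxU, hx⟩ δ hδ ?_
        rintro y ⟨hyU, hy⟩
        have := hUN y hyU
        rw [hNx, max_eq_left (le_of_lt hy)] at this
        exact this
      · push Not at hcase
        apply A4b_facets S s hs01 r hr1 hr2 ψ U hU hne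
        intro y hy
        have := hUN y hy
        rw [hNx, max_eq_right (hcase y hy)] at this
        exact this
    obtain ⟨i, h | h⟩ := key
    · exact ⟨i, h⟩
    · refine ⟨(ρ σ i.1, ρ σ i.2), fun x => ?_⟩
      rw [A0b_phi S s (fun e e' => hsinv σ e e') i x, h x]
  -- isometries permute the φ's
  have hperm : ∀ A : X ≃ₗ[ℝ] X, (∀ x, N (A x) = N x) →
      ∀ i, ∃ j, ∀ x, S.phi s i (A x) = S.phi s j x := by
    intro A hA i
    -- A is continuous
    have hAb : ∀ x, ‖A x‖ ≤ δ⁻¹ * M * ‖x‖ := by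
      intro x
      have h1 := hNb (A x)
      rw [hA x] at h1
      have h2 := hNB x
      rw [mul_assoc, ← div_eq_inv_mul, le_div_iff₀ hδ]
      linarith
    have hAcont : Continuous A :=
      (A.toLinearMap.mkContinuous (δ⁻¹ * M) hAb).continuous
    obtain ⟨U, hU, ⟨y, hy⟩, hUN⟩ := hopen i
    obtain ⟨j, hj⟩ := hclass ((S.phi s i).comp (A.toLinearMap.mkContinuous (δ⁻¹ * M) hAb))
      (A ⁻¹' U) (hU.preimage hAcont) ⟨A.symm y, by simpa using hy⟩ (by
        intro x hx
        have := hUN (A x) hx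
        rw [hA x] at this
        exact this)
    exact ⟨j, fun x => hj x⟩
  -- T g is an isometry
  have hTN : ∀ g x, N (T g x) = N x := by
    intro g x
    rw [hNx, hNx, hpT, hqT, hrT]
  let f : G →* isomGroup X N :=
    { toFun := fun g => ⟨T g, hTN g⟩
      map_one' := by ext x; simp
      map_mul' := by intro g h; ext x; simp }
  have hfinj : Function.Injective f := by
    intro g h hgh
    have hgh' : T g = T h := congrArg Subtype.val hgh
    apply hfaith
    have h2 : ∀ e, ρ g⁻¹ e = ρ h⁻¹ e := by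
      intro e
      apply hcinj
      ext x
      rw [← hTc, ← hTc, hgh']
    have h3 : ρ g⁻¹ = ρ h⁻¹ := Equiv.ext h2
    rw [map_inv, map_inv] at h3
    exact inv_injective h3
  have hfsurj : Function.Surjective f := by
    rintro ⟨A, hA⟩
    have hA' : ∀ x, N (A.symm x) = N x := by
      intro x
      have := hA (A.symm x)
      rw [LinearEquiv.apply_symm_apply] at this
      exact this.symm
    obtain ⟨π, hπ1, hπ2⟩ := A5_perm S s hs01 A (hperm A hA) (hperm A.symm hA')
    obtain ⟨g, hg⟩ := hscl π hπ2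
    refine ⟨g⁻¹, ?_⟩
    apply Subtype.ext
    show T g⁻¹ = A
    apply LinearEquiv.ext
    intro x
    rw [← sub_eq_zero]
    apply S.total
    intro e
    rw [map_sub, hTc, hπ1, hg, inv_inv, sub_self]
  exact ⟨N, ⟨δ, M, hδ, fun x => ⟨hNb x, hNB x⟩⟩, MulEquiv.ofBijective f ⟨hfinj, hfsurj⟩,
    fun g e x => hTc g e x⟩

theorem A_main [Infinite E] (S : SignedSystem X ρ σ) (s : E → E → ℝ)
    (hs01 : ∀ e e', 0 < s e e' ∧ s e e' < 1 / 40)
    (hsinv : ∀ g e e', s (ρ g e) (ρ g e') = s e e')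
    (hscl : ∀ π : Equiv.Perm E, (∀ e e', e' ≠ e → e' ≠ ρ σ e → s (π e) (π e') = s e e') →
      ∃ g : G, ∀ e, π e = ρ g e)
    (Q : Finset E) (hQ : ∀ g, ∀ e ∈ Q, ρ g e ∈ Q) (e₀ e₁ : E) (he₀ : e₀ ∈ Q) (he₁ : e₁ ∈ Q)
    (h01 : e₁ ≠ e₀) (h01' : e₁ ≠ ρ σ e₀) (hfaith : Function.Injective ρ) :
    Displayable X G := by
  obtain ⟨N, h1, f, -⟩ := A_strong S s hs01 hsinv hscl Q hQ e₀ e₁ he₀ he₁ h01 h01' hfaith
  exact ⟨N, h1, ⟨f⟩⟩

end Pool.Agent.H182R2.CB
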