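import Pool.Agent.H182R2.CB.Defs

/-!
# There is no infinite chain of one-point end-extensions inside a regular family
-/

namespace Pool.Agent.H182R2.CB

open Finset Filter Topology

/-- B1. There is no infinite chain of one-point end-extensions inside a regular family. -/
theorem B1_wf {𝓕 : Set (Finset ℕ)} (h : IsRegularFamily 𝓕) :
    WellFounded (fun A' A : Finset ℕ => A' ∈ 𝓕 ∧ ∃ n, (∀ a ∈ A, a < n) ∧ A' = insert n A) := by
  classical
  rw [wellFounded_iff_isEmpty_descending_chain]
  refine ⟨fun ⟨A, hA⟩ => ?_⟩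
  have hsub : ∀ k, A k ⊆ A (k + 1) := by
    intro k
    obtain ⟨_, n, _, h2⟩ := hA k
    rw [h2]
    exact subset_insert _ _
  have hmono : Monotone A := monotone_nat_of_le_succ hsub
  have hcard : ∀ k, k ≤ (A k).card := by
    intro k
    induction k with
    | zero => exact Nat.zero_le _
    | succ k ih =>
      obtain ⟨_, n, h1, h2⟩ := hA k
      rw [h2, card_insert_of_notMem fun hn => lt_irrefl _ (h1 n hn)]
      omega
  have hclosed : IsClosed {χ : ℕ → Bool | ∃ F ∈ 𝓕, ∀ i, χ i = true ↔ i ∈ F} :=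
    h.compact.isClosed
  have hmem : ∀ k, (fun i => decide (i ∈ A (k + 1))) ∈
      {χ : ℕ → Bool | ∃ F ∈ 𝓕, ∀ i, χ i = true ↔ i ∈ F} := by
    intro k
    exact ⟨A (k + 1), (hA k).1, fun i => by simp⟩
  have hlim : Tendsto (fun k : ℕ => (fun i : ℕ => decide (i ∈ A (k + 1)))) atTop
      (𝓝 (fun i : ℕ => decide (∃ k, i ∈ A k))) := by
    rw [tendsto_pi_nhds]
    intro i
    by_cases hi : ∃ k, i ∈ A k
    · obtain ⟨k0, hk0⟩ := hi
      refine tendsto_const_nhds.congr' ?_
      filter_upwards [eventually_ge_atTop k0] with k hk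
      have h1 : i ∈ A (k + 1) := hmono (by omega : k0 ≤ k + 1) hk0
      have h2 : ∃ k, i ∈ A k := ⟨k0, hk0⟩
      simp [h1, h2]
    · refine tendsto_const_nhds.congr fun k => ?_
      have h1 : i ∉ A (k + 1) := fun h1 => hi ⟨_, h1⟩
      simp only [h1, hi]
  obtain ⟨F, _, hF⟩ := hclosed.mem_of_tendsto hlim (Eventually.of_forall hmem)
  have h3 : A (F.card + 1) ⊆ F := by
    intro i hi
    rw [← hF i]
    simp only [decide_eq_true_eq]
    exact ⟨_, hi⟩
  have h4 := card_le_card h3
  have h5 := hcard (F.card + 1)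
  omega

end Pool.Agent.H182R2.CB
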