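import Pool.Agent.H182R2.CB.Defs
import Pool.Agent.H182R2.CB.B1

set_option autoImplicit false

namespace Pool.Agent.H182R2.CB

open Pool.Agent.H182R2.CB

/-- the sets for which the tails control everything -/
def B2_Good (𝓕 : Set (Finset ℕ)) (A : Finset ℕ) (N₀ : ℕ) (C₀ : ℝ) : Prop :=
  ∀ x : ℕ → ℝ, (∀ i, 0 ≤ x i) → (∀ i < N₀, x i = 0) → (Function.support x).Finite →
    (∀ G : Finset ℕ, (∀ a ∈ A, ∀ g ∈ G, a < g) → A ∪ G ∈ 𝓕 → ∑ i ∈ G, x i ≤ 1) →
    ∀ F ∈ 𝓕, ∑ i ∈ F, x i ≤ C₀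

theorem B2_sum_single (G : Finset ℕ) (m : ℕ) (t : ℝ) :
    ∑ i ∈ G, (if i = m then t else 0) = if m ∈ G then t else 0 := by
  rw [Finset.sum_ite_eq' G m (fun _ => t)]

theorem B2_step {𝓕 : Set (Finset ℕ)} (h : IsRegularFamily 𝓕) (hs : ∀ n, {n} ∈ 𝓕)
    (A : Finset ℕ) (hA : A ∈ 𝓕) (N₀ : ℕ) (C₀ : ℝ) (hC₀ : 0 < C₀) (hgood : B2_Good 𝓕 A N₀ C₀)
    (n N : ℕ) (ε : ℝ) (hε : 0 < ε) (hn : ∀ a ∈ A, a < n)
    (hbad : insert n A ∈ 𝓕 → ∀ (N' : ℕ) (C' : ℝ), 0 < C' → ¬ B2_Good 𝓕 (insert n A) N' C') :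
    ∃ x : ℕ → ℝ, (∀ i, 0 ≤ x i) ∧ (∀ i < N, x i = 0) ∧ (Function.support x).Finite ∧
      (∀ G : Finset ℕ, (∀ a ∈ A, ∀ g ∈ G, a < g) → A ∪ G ∈ 𝓕 → ∑ i ∈ G, x i ≤ 1) ∧
      (∃ G : Finset ℕ, (∀ a ∈ A, ∀ g ∈ G, a < g) ∧ A ∪ G ∈ 𝓕 ∧ ∑ i ∈ G, x i = 1) ∧
      (∀ G : Finset ℕ, (∀ g ∈ G, n < g) → insert n A ∪ G ∈ 𝓕 → ∑ i ∈ G, x i ≤ ε) := by
  classical
  by_cases hin : insert n A ∈ 𝓕
  · -- case 1
    have hC' : 0 < C₀ / ε := by positivity
    have hb := hbad hin (max N N₀) (C₀ / ε) hC'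
    unfold B2_Good at hb
    push Not at hb
    obtain ⟨x, hx0, hxN, hxf, hxG, F, hF, hFx⟩ := hb
    -- the allowed sets
    set S : Finset ℕ := hxf.toFinset with hS
    set 𝒢 : Finset (Finset ℕ) :=
      S.powerset.filter (fun G => (∀ a ∈ A, ∀ g ∈ G, a < g) ∧ A ∪ G ∈ 𝓕) with h𝒢
    have hne : 𝒢.Nonempty := by
      refine ⟨∅, ?_⟩
      rw [h𝒢, Finset.mem_filter]
      refine ⟨Finset.empty_mem_powerset _, ?_, ?_⟩
      · intro a _ g hg
        exact absurd hg (Finset.notMem_empty _)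
      · rw [Finset.union_empty]
        exact hA
    obtain ⟨G₀, hG₀, hmax⟩ := Finset.exists_max_image 𝒢 (fun G => ∑ i ∈ G, x i) hne
    rw [h𝒢, Finset.mem_filter] at hG₀
    set M : ℝ := ∑ i ∈ G₀, x i with hM
    have hall : ∀ G : Finset ℕ, (∀ a ∈ A, ∀ g ∈ G, a < g) → A ∪ G ∈ 𝓕 → ∑ i ∈ G, x i ≤ M := by
      intro G h1 h2
      have h3 : ∑ i ∈ G, x i = ∑ i ∈ G ∩ S, x i := by
        symm
        apply Finset.sum_subset Finset.inter_subset_left
        intro i hi hi'
        by_contra hc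
        exact hi' (Finset.mem_inter.mpr ⟨hi, by rw [hS, Set.Finite.mem_toFinset]; exact hc⟩)
      rw [h3]
      apply hmax
      rw [h𝒢, Finset.mem_filter, Finset.mem_powerset]
      refine ⟨Finset.inter_subset_right, ?_, ?_⟩
      · intro a ha g hg
        exact h1 a ha g (Finset.mem_inter.mp hg).1
      · exact h.hereditary _ h2 _ (Finset.union_subset_union_right Finset.inter_subset_left)
    have hscale : ∀ M' : ℝ, 0 < M' → M ≤ M' → ∑ i ∈ F, x i ≤ C₀ * M' := by
      intro M' hM' hMM'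
      have h1 := hgood (fun i => x i / M') (fun i => div_nonneg (hx0 i) hM'.le)
        (fun i hi => by
          show x i / M' = 0
          rw [hxN i (lt_of_lt_of_le hi (le_max_right _ _)), zero_div])
        (hxf.subset (by
          intro i hi
          rw [Function.mem_support] at hi ⊢
          intro hc
          apply hi
          show x i / M' = 0
          rw [hc, zero_div]))
        (fun G h1 h2 => by
          rw [← Finset.sum_div, div_le_one hM']
          exact (hall G h1 h2).trans hMM')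
        F hF
      rw [← Finset.sum_div, div_le_iff₀ hM'] at h1
      exact h1
    have hMε : 1 / ε < M := by
      by_contra hc
      push Not at hc
      have := hscale (1 / ε) (by positivity) hc
      have h2 : C₀ * (1 / ε) = C₀ / ε := by ring
      linarith
    have hMpos : 0 < M := lt_trans (by positivity) hMε
    refine ⟨fun i => x i / M, fun i => div_nonneg (hx0 i) hMpos.le, ?_, ?_, ?_, ?_, ?_⟩
    · intro i hi
      show x i / M = 0
      rw [hxN i (lt_of_lt_of_le hi (le_max_left _ _)), zero_div]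
    · refine hxf.subset ?_
      intro i hi
      rw [Function.mem_support] at hi ⊢
      intro hc
      apply hi
      show x i / M = 0
      rw [hc, zero_div]
    · intro G h1 h2
      rw [← Finset.sum_div, div_le_one hMpos]
      exact hall G h1 h2
    · refine ⟨G₀, hG₀.2.1, hG₀.2.2, ?_⟩
      rw [← Finset.sum_div, div_self hMpos.ne']
    · intro G h1 h2
      rw [← Finset.sum_div, div_le_iff₀ hMpos]
      have h3 := hxG G (by
        intro a ha g hg
        rcases Finset.mem_insert.mp ha with rfl | ha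
        · exact h1 g hg
        · exact (hn a ha).trans (h1 g hg)) h2
      have h4 : 1 < ε * M := by
        rw [div_lt_iff₀ hε] at hMε
        linarith
      linarith
  · -- case 2
    have hex : ∃ m, N ≤ m ∧ (∀ a ∈ A, a < m) ∧ insert m A ∈ 𝓕 := by
      by_contra hc
      push Not at hc
      set m : ℕ := max (max N N₀) n with hm
      have hmN : N ≤ m := (le_max_left _ _).trans (le_max_left _ _)
      have hmN₀ : N₀ ≤ m := (le_max_right _ _).trans (le_max_left _ _)
      have hmA : ∀ a ∈ A, a < m := fun a ha => lt_of_lt_of_le (hn a ha) (le_max_right _ _)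
      have hmF := hc m hmN hmA
      have h1 := hgood (fun i => if i = m then C₀ + 1 else 0)
        (fun i => by
          show 0 ≤ (if i = m then C₀ + 1 else 0)
          split_ifs <;> linarith)
        (fun i hi => by
          show (if i = m then C₀ + 1 else 0) = 0
          rw [if_neg (by omega)])
        ((Set.finite_singleton m).subset (by
          intro i hi
          rw [Function.mem_support] at hi
          by_contra hc
          exact hi (if_neg hc)))
        (fun G h1 h2 => by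
          rw [B2_sum_single, if_neg]
          · exact zero_le_one
          · intro hmG
            apply hmF
            apply h.hereditary _ h2
            intro i hi
            rcases Finset.mem_insert.mp hi with rfl | hi
            · exact Finset.mem_union_right _ hmG
            · exact Finset.mem_union_left _ hi)
        {m} (hs m)
      rw [B2_sum_single, if_pos (Finset.mem_singleton_self m)] at h1
      linarith
    obtain ⟨m, hmN, hmA, hmF⟩ := hex
    refine ⟨fun i => if i = m then 1 else 0, ?_, ?_, ?_, ?_, ?_, ?_⟩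
    · intro i
      show 0 ≤ (if i = m then (1 : ℝ) else 0)
      split_ifs <;> norm_num
    · intro i hi
      show (if i = m then (1 : ℝ) else 0) = 0
      rw [if_neg (by omega)]
    · refine (Set.finite_singleton m).subset ?_
      intro i hi
      rw [Function.mem_support] at hi
      by_contra hc
      exact hi (if_neg hc)
    · intro G _ _
      rw [B2_sum_single]
      split_ifs <;> norm_num
    · refine ⟨{m}, ?_, ?_, ?_⟩
      · intro a ha g hg
        rw [Finset.mem_singleton.mp hg]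
        exact hmA a ha
      · rw [Finset.union_comm, ← Finset.insert_eq]
        exact hmF
      · rw [B2_sum_single, if_pos (Finset.mem_singleton_self m)]
    · intro G _ h2
      exact absurd (h.hereditary _ h2 _ Finset.subset_union_left) hin

/-- B2. The sums of `x` over the tails `G` of sets `A ∪ G ∈ 𝓕`. -/
theorem B2_minimal {𝓕 : Set (Finset ℕ)} (h : IsRegularFamily 𝓕) (hs : ∀ n, {n} ∈ 𝓕) :
    ∃ (A : Finset ℕ) (N₀ : ℕ) (C₀ : ℝ), A ∈ 𝓕 ∧ 0 < C₀ ∧
      (∀ x : ℕ → ℝ, (∀ i, 0 ≤ x i) → (∀ i < N₀, x i = 0) → (Function.support x).Finite →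
        (∀ G : Finset ℕ, (∀ a ∈ A, ∀ g ∈ G, a < g) → A ∪ G ∈ 𝓕 → ∑ i ∈ G, x i ≤ 1) →
        ∀ F ∈ 𝓕, ∑ i ∈ F, x i ≤ C₀) ∧
      (∀ (n N : ℕ) (ε : ℝ), 0 < ε → (∀ a ∈ A, a < n) →
        ∃ x : ℕ → ℝ, (∀ i, 0 ≤ x i) ∧ (∀ i < N, x i = 0) ∧ (Function.support x).Finite ∧
          (∀ G : Finset ℕ, (∀ a ∈ A, ∀ g ∈ G, a < g) → A ∪ G ∈ 𝓕 → ∑ i ∈ G, x i ≤ 1) ∧
          (∃ G : Finset ℕ, (∀ a ∈ A, ∀ g ∈ G, a < g) ∧ A ∪ G ∈ 𝓕 ∧ ∑ i ∈ G, x i = 1) ∧
          (∀ G : Finset ℕ, (∀ g ∈ G, n < g) → insert n A ∪ G ∈ 𝓕 → ∑ i ∈ G, x i ≤ ε)) := by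
  have hempty : (∅ : Finset ℕ) ∈ 𝓕 := h.hereditary _ (hs 0) _ (Finset.empty_subset _)
  obtain ⟨A, ⟨hA, N₀, C₀, hC₀, hgood⟩, hmin⟩ := (B1_wf h).has_min
    {A | A ∈ 𝓕 ∧ ∃ (N₀ : ℕ) (C₀ : ℝ), 0 < C₀ ∧ B2_Good 𝓕 A N₀ C₀} (by
      refine ⟨∅, hempty, 0, 1, one_pos, ?_⟩
      intro x _ _ _ hx F hF
      apply hx F
      · intro a ha
        exact absurd ha (Finset.notMem_empty _)
      · rw [Finset.empty_union]
        exact hF)
  refine ⟨A, N₀, C₀, hA, hC₀, hgood, ?_⟩
  intro n N ε hε hn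
  refine B2_step h hs A hA N₀ C₀ hC₀ hgood n N ε hε hn ?_
  intro hin N' C' hC' hg
  exact hmin (insert n A) ⟨hin, N', C', hC', hg⟩ ⟨hin, n, hn, rfl⟩

end Pool.Agent.H182R2.CB
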