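import Pool.Agent.H182R2.CB.Defs
import Pool.Agent.H182R2.CB.B2

/-! B3: blocks (task of helper182's project on MP_7f333f_an). -/

set_option autoImplicit false

namespace Pool.Agent.H182R2.CB

open Pool.Agent.H182R2.CB

/-- spreading one element -/
theorem B3_spread {𝓕 : Set (Finset ℕ)} (h : IsRegularFamily 𝓕) (A G : Finset ℕ) (m n : ℕ)
    (hm : ∀ a ∈ A, a < m) (hmn : m ≤ n) (hG : ∀ g ∈ G, n < g) (hF : insert m A ∪ G ∈ 𝓕) :
    insert n A ∪ G ∈ 𝓕 := by
  classical
  set φ : ℕ → ℕ := fun i => if i = m then n else i with hφ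
  have hmA : m ∉ A := fun hc => lt_irrefl _ (hm m hc)
  have hmG : m ∉ G := fun hc => absurd (hG m hc) (by omega)
  have hφm : φ m = n := by simp [hφ]
  have hφn : ∀ i, i ≠ m → φ i = i := fun i hi => by simp [hφ, hi]
  have h1 := h.spreading _ hF φ ?_ ?_
  · have e1 : (insert m A ∪ G).image φ = insert n A ∪ G := by
      rw [Finset.image_union, Finset.image_insert, hφm]
      have e2 : A.image φ = A := by
        conv_rhs => rw [← Finset.image_id (s := A)]
        apply Finset.image_congr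
        intro i hi
        exact hφn i (fun hc => hmA (hc ▸ hi))
      have e3 : G.image φ = G := by
        conv_rhs => rw [← Finset.image_id (s := G)]
        apply Finset.image_congr
        intro i hi
        exact hφn i (fun hc => hmG (hc ▸ hi))
      rw [e2, e3]
    rw [e1] at h1
    exact h1
  · intro i hi j hj hij
    rw [Finset.mem_coe, Finset.mem_union, Finset.mem_insert] at hi hj
    by_cases him : i = m
    · have hjm : j ≠ m := by omega
      rw [him, hφm, hφn j hjm]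
      rcases hj with (hj | hj) | hj
      · exact absurd hj hjm
      · have := hm j hj
        omega
      · exact hG j hj
    · rw [hφn i him]
      by_cases hjm : j = m
      · rw [hjm, hφm]
        rcases hi with (hi | hi) | hi
        · exact absurd hi him
        · have := hm i hi
          omega
        · have := hG i hi
          omega
      · rw [hφn j hjm]
        exact hij
  · intro i hi
    by_cases him : i = m
    · rw [him, hφm]; exact hmn
    · rw [hφn i him]

/-- one step of the recursion -/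
theorem B3_step {𝓕 : Set (Finset ℕ)} (h : IsRegularFamily 𝓕) (A : Finset ℕ)
    (h2 : ∀ (n N : ℕ) (ε : ℝ), 0 < ε → (∀ a ∈ A, a < n) →
        ∃ x : ℕ → ℝ, (∀ i, 0 ≤ x i) ∧ (∀ i < N, x i = 0) ∧ (Function.support x).Finite ∧
          (∀ G : Finset ℕ, (∀ a ∈ A, ∀ g ∈ G, a < g) → A ∪ G ∈ 𝓕 → ∑ i ∈ G, x i ≤ 1) ∧
          (∃ G : Finset ℕ, (∀ a ∈ A, ∀ g ∈ G, a < g) ∧ A ∪ G ∈ 𝓕 ∧ ∑ i ∈ G, x i = 1) ∧
          (∀ G : Finset ℕ, (∀ g ∈ G, n < g) → insert n A ∪ G ∈ 𝓕 → ∑ i ∈ G, x i ≤ ε))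
    (k n : ℕ) (hn : ∀ a ∈ A, a < n) :
    ∃ (x : ℕ →₀ ℝ) (G : Finset ℕ) (n' : ℕ), n ≤ n' ∧ (∀ i, 0 ≤ x i) ∧
      (∀ i ∈ x.support, n < i ∧ i ≤ n') ∧
      (∀ G : Finset ℕ, (∀ a ∈ A, ∀ g ∈ G, a < g) → A ∪ G ∈ 𝓕 → ∑ i ∈ G, x i ≤ 1) ∧
      (G ∈ 𝓕 ∧ G ⊆ x.support ∧ ∑ i ∈ G, x i = 1) ∧
      (∀ G : Finset ℕ, (∀ g ∈ G, n < g) → insert n A ∪ G ∈ 𝓕 →
        ∑ i ∈ G, x i ≤ (1 / 2 : ℝ) ^ (k + 1)) := by
  classical
  obtain ⟨x, hx0, hxN, hxf, hx1, ⟨G, hG1, hG2, hG3⟩, hx2⟩ :=
    h2 n (n + 1) ((1 / 2 : ℝ) ^ (k + 1)) (by positivity) hn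
  set z : ℕ →₀ ℝ := Finsupp.ofSupportFinite x hxf with hz
  have hzx : ∀ i, z i = x i := fun i => rfl
  refine ⟨z, G.filter (fun i => i ∈ z.support), max n (z.support.sup id), le_max_left _ _,
    hx0, ?_, hx1, ⟨?_, ?_, ?_⟩, hx2⟩
  · intro i hi
    constructor
    · by_contra hc
      rw [Finsupp.mem_support_iff] at hi
      exact hi (hxN i (by omega))
    · exact le_max_of_le_right (Finset.le_sup (f := id) hi)
  · refine h.hereditary _ hG2 _ ?_
    exact (Finset.filter_subset _ _).trans Finset.subset_union_right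
  · intro i hi
    exact (Finset.mem_filter.1 hi).2
  · rw [← hG3]
    apply Finset.sum_filter_of_ne
    intro i _ hi
    rw [Finsupp.mem_support_iff]
    exact hi

theorem B3_blocks {𝓕 : Set (Finset ℕ)} (h : IsRegularFamily 𝓕) (hs : ∀ n, {n} ∈ 𝓕) :
    ∃ (z : ℕ → ℕ →₀ ℝ) (G : ℕ → Finset ℕ) (C : ℝ), 1 ≤ C ∧ (∀ k i, 0 ≤ z k i) ∧
      (∀ k, G k ∈ 𝓕) ∧ (∀ k, G k ⊆ (z k).support) ∧ (∀ k, ∑ i ∈ G k, z k i = 1) ∧
      (∀ k l, k < l → ∀ i ∈ (z k).support, ∀ j ∈ (z l).support, i < j) ∧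
      (∀ F ∈ 𝓕, ∀ K : ℕ, ∑ i ∈ F, ∑ k ∈ Finset.range K, z k i ≤ C) := by
  classical
  obtain ⟨A, N₀, C₀, hA, hC₀, h1, h2⟩ := B2_minimal h hs
  have hstep := B3_step h A h2
  choose! x G n' hn' hx0 hxs hx1 hG hx2 using hstep
  set n0 : ℕ := max (A.sup id + 1) N₀ with hn0
  set nn : ℕ → ℕ := fun k => Nat.rec n0 (fun k n => n' k n) k with hnn
  have hnn0 : nn 0 = n0 := rfl
  have hnnS : ∀ k, nn (k + 1) = n' k (nn k) := fun k => rfl
  have hA0 : ∀ a ∈ A, a < n0 := by
    intro a ha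
    have : a ≤ A.sup id := Finset.le_sup (f := id) ha
    exact lt_of_lt_of_le (Nat.lt_succ_of_le this) (le_max_left _ _)
  have hAn : ∀ k, ∀ a ∈ A, a < nn k := by
    intro k
    induction k with
    | zero => exact hA0
    | succ k ih =>
      intro a ha
      rw [hnnS]
      exact (ih a ha).trans_le (hn' k (nn k) ih)
  have hmono : Monotone nn := by
    apply monotone_nat_of_le_succ
    intro k
    rw [hnnS]
    exact hn' k (nn k) (hAn k)
  set z : ℕ → ℕ →₀ ℝ := fun k => x k (nn k) with hz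
  have hz0 : ∀ k i, 0 ≤ z k i := fun k i => hx0 k (nn k) (hAn k) i
  have hzs : ∀ k, ∀ i ∈ (z k).support, nn k < i ∧ i ≤ nn (k + 1) :=
    fun k i hi => hxs k (nn k) (hAn k) i hi
  -- the bound 2
  have key : ∀ G : Finset ℕ, (∀ a ∈ A, ∀ g ∈ G, a < g) → A ∪ G ∈ 𝓕 → ∀ K : ℕ,
      ∑ k ∈ Finset.range K, ∑ i ∈ G, z k i ≤ 2 := by
    intro G hG1 hG2 K
    have c1 : ∀ k, ∑ i ∈ G, z k i ≤ 1 := fun k => hx1 k (nn k) (hAn k) G hG1 hG2
    have c2 : ∀ j k, j < k → ∑ i ∈ G, z j i ≠ 0 → ∑ i ∈ G, z k i ≤ (1 / 2 : ℝ) ^ (k + 1) := by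
      intro j k hjk hne
      obtain ⟨m, hmG, hm⟩ := Finset.exists_ne_zero_of_sum_ne_zero hne
      have hms : m ∈ (z j).support := Finsupp.mem_support_iff.2 hm
      have hmk : m ≤ nn k := (hzs j m hms).2.trans (hmono hjk)
      set G' : Finset ℕ := G.filter (fun i => i ∈ (z k).support) with hG'
      have hG'k : ∀ g ∈ G', nn k < g := fun g hg => (hzs k g (Finset.mem_filter.1 hg).2).1
      have e1 : ∑ i ∈ G, z k i = ∑ i ∈ G', z k i := by
        symm
        apply Finset.sum_filter_of_ne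
        intro i _ hi
        exact Finsupp.mem_support_iff.2 hi
      rw [e1]
      refine hx2 k (nn k) (hAn k) G' hG'k ?_
      refine B3_spread h A G' m (nn k) (fun a ha => hG1 a ha m hmG) hmk hG'k ?_
      refine h.hereditary _ hG2 _ ?_
      intro i hi
      rw [Finset.mem_union, Finset.mem_insert] at hi
      rw [Finset.mem_union]
      rcases hi with (hi | hi) | hi
      · right; rw [hi]; exact hmG
      · left; exact hi
      · right; exact (Finset.mem_filter.1 hi).1
    have c3 : ∀ K, (∀ k < K, ∑ i ∈ G, z k i = 0) ∨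
        ∑ k ∈ Finset.range K, ∑ i ∈ G, z k i ≤ 2 - (1 / 2 : ℝ) ^ K := by
      intro K
      induction K with
      | zero => left; intro k hk; omega
      | succ K ih =>
        by_cases hall : ∀ k < K, ∑ i ∈ G, z k i = 0
        · right
          rw [Finset.sum_range_succ, Finset.sum_eq_zero (fun k hk => hall k (Finset.mem_range.1 hk)),
            zero_add]
          have hp : (1 / 2 : ℝ) ^ (K + 1) ≤ 1 := pow_le_one₀ (by norm_num) (by norm_num)
          linarith [c1 K]
        · rcases ih with ih | ih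
          · exact absurd ih hall
          · right
            push Not at hall
            obtain ⟨j, hj, hjne⟩ := hall
            have := c2 j K hj hjne
            rw [Finset.sum_range_succ]
            have e : (1 / 2 : ℝ) ^ K = 2 * (1 / 2 : ℝ) ^ (K + 1) := by
              rw [pow_succ]; ring
            linarith
    rcases c3 K with c | c
    · rw [Finset.sum_eq_zero (fun k hk => c k (Finset.mem_range.1 hk))]
      norm_num
    · have : (0 : ℝ) ≤ (1 / 2 : ℝ) ^ K := by positivity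
      linarith
  refine ⟨z, fun k => G k (nn k), max 1 (2 * C₀), le_max_left _ _, hz0, fun k => (hG k (nn k) (hAn k)).1,
    fun k => (hG k (nn k) (hAn k)).2.1, fun k => (hG k (nn k) (hAn k)).2.2, ?_, ?_⟩
  · intro k l hkl i hi j hj
    have a1 := (hzs k i hi).2
    have a2 := (hzs l j hj).1
    have a3 : nn (k + 1) ≤ nn l := hmono hkl
    omega
  · intro F hF K
    refine le_max_of_le_right ?_
    have h3 := h1 (fun i => (1 / 2 : ℝ) * ∑ k ∈ Finset.range K, z k i) ?_ ?_ ?_ ?_ F hF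
    · rw [← Finset.mul_sum] at h3
      linarith
    · intro i
      exact mul_nonneg (by norm_num) (Finset.sum_nonneg fun k _ => hz0 k i)
    · intro i hi
      have : ∀ k ∈ Finset.range K, z k i = 0 := by
        intro k _
        by_contra hc
        have b1 := (hzs k i (Finsupp.mem_support_iff.2 hc)).1
        have b2 : nn 0 ≤ nn k := hmono (Nat.zero_le k)
        have b3 : N₀ ≤ n0 := le_max_right _ _
        rw [hnn0] at b2
        omega
      show (1 / 2 : ℝ) * ∑ k ∈ Finset.range K, z k i = 0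
      rw [Finset.sum_eq_zero this, mul_zero]
    · refine ((Finset.range K).biUnion fun k => (z k).support).finite_toSet.subset ?_
      intro i hi
      rw [Function.mem_support] at hi
      have : ∑ k ∈ Finset.range K, z k i ≠ 0 := fun hc => hi (by simp [hc])
      obtain ⟨k, hk, hki⟩ := Finset.exists_ne_zero_of_sum_ne_zero this
      rw [Finset.mem_coe, Finset.mem_biUnion]
      exact ⟨k, hk, Finsupp.mem_support_iff.2 hki⟩
    · intro G hG1 hG2
      rw [← Finset.mul_sum, Finset.sum_comm]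
      have := key G hG1 hG2 K
      linarith

end Pool.Agent.H182R2.CB
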