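import Pool.Agent.H182R2.CB.Defs

/-!
C0: the supremum in the norm of a combinatorial space is attained.
-/

namespace Pool.Agent.H182R2.CB

theorem C0_norm {𝓕 : Set (Finset ℕ)} (h : IsRegularFamily 𝓕) (hs : ∀ n, {n} ∈ 𝓕) {Y : Type*}
    [NormedAddCommGroup Y] [NormedSpace ℝ Y] {e : ℕ → Y} (hY : IsCombinatorialSpace 𝓕 Y e)
    (a : ℕ →₀ ℝ) :
    (∀ F ∈ 𝓕, ∑ k ∈ F, |a k| ≤ ‖Finsupp.linearCombination ℝ e a‖) ∧
      ∃ F ∈ 𝓕, F ⊆ a.support ∧ ‖Finsupp.linearCombination ℝ e a‖ = ∑ k ∈ F, |a k| := by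
  classical
  have hcut : ∀ F : Finset ℕ, ∑ k ∈ F, |a k| = ∑ k ∈ F.filter (fun k => k ∈ a.support), |a k| := by
    intro F
    refine (Finset.sum_filter_of_ne fun k _ hk => ?_).symm
    rw [Finsupp.mem_support_iff]
    intro h0
    exact hk (by rw [h0, abs_zero])
  have hempty : (∅ : Finset ℕ) ∈ 𝓕 := h.hereditary {0} (hs 0) ∅ (Finset.empty_subset _)
  haveI : Nonempty 𝓕 := ⟨⟨∅, hempty⟩⟩
  have hbdd : BddAbove (Set.range fun F : 𝓕 => ∑ k ∈ (F : Finset ℕ), |a k|) := by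
    refine ⟨∑ k ∈ a.support, |a k|, ?_⟩
    rintro _ ⟨F, rfl⟩
    show ∑ k ∈ (F : Finset ℕ), |a k| ≤ _
    rw [hcut]
    refine Finset.sum_le_sum_of_subset_of_nonneg ?_ fun _ _ _ => abs_nonneg _
    intro k hk
    exact (Finset.mem_filter.1 hk).2
  have h1 : ∀ F ∈ 𝓕, ∑ k ∈ F, |a k| ≤ ‖Finsupp.linearCombination ℝ e a‖ := by
    intro F hF
    rw [hY.norm_eq]
    exact le_ciSup hbdd ⟨F, hF⟩
  refine ⟨h1, ?_⟩
  obtain ⟨F0, hF0, hmax⟩ := Finset.exists_max_image (a.support.powerset.filter (fun F => F ∈ 𝓕))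
    (fun F => ∑ k ∈ F, |a k|) ⟨∅, by simp [hempty]⟩
  rw [Finset.mem_filter, Finset.mem_powerset] at hF0
  refine ⟨F0, hF0.2, hF0.1, le_antisymm ?_ (h1 F0 hF0.2)⟩
  rw [hY.norm_eq]
  refine ciSup_le fun F => ?_
  rw [hcut]
  refine hmax _ ?_
  rw [Finset.mem_filter, Finset.mem_powerset]
  refine ⟨fun k hk => (Finset.mem_filter.1 hk).2, ?_⟩
  exact h.hereditary _ F.2 _ (Finset.filter_subset _ _)

end Pool.Agent.H182R2.CB
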