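import Pool.Agent.H182R2.CB.Defs

namespace Pool.Agent.H182R2.CB

/-- C2. Bounded operators are determined by the basis and can be defined on it. -/
theorem C2_extend {Y : Type*} [NormedAddCommGroup Y] [NormedSpace ℝ Y] {e : ℕ → Y}
    (hd : Dense (Submodule.span ℝ (Set.range e) : Set Y)) {Z : Type*} [NormedAddCommGroup Z]
    [NormedSpace ℝ Z] [CompleteSpace Z] (b : ℕ → Z) (C : ℝ)
    (hb : ∀ a : ℕ →₀ ℝ, ‖Finsupp.linearCombination ℝ b a‖ ≤
      C * ‖Finsupp.linearCombination ℝ e a‖) :
    ∃ T : Y →L[ℝ] Z, ∀ k, T (e k) = b k := by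
  have hdense : DenseRange (Finsupp.linearCombination ℝ e) := by
    have h1 : Set.range (Finsupp.linearCombination ℝ e) =
        (Submodule.span ℝ (Set.range e) : Set Y) := by
      rw [← Finsupp.range_linearCombination]
      rfl
    unfold DenseRange
    rw [h1]
    exact hd
  refine ⟨(Finsupp.linearCombination ℝ b).extendOfNorm (Finsupp.linearCombination ℝ e),
    fun k => ?_⟩
  have h2 := LinearMap.extendOfNorm_eq (f := Finsupp.linearCombination ℝ b)
    (e := Finsupp.linearCombination ℝ e) hdense ⟨C, hb⟩ (Finsupp.single k 1)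
  rw [Finsupp.linearCombination_single, Finsupp.linearCombination_single, one_smul, one_smul]
    at h2
  exact h2

end Pool.Agent.H182R2.CB
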