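import Pool.Agent.H182R2.CB.Defs
import Pool.Agent.H182R2.CB.C0
import Pool.Agent.H182R2.CB.C2
namespace Pool.Agent.H182R2.CB

open Finset

theorem C1_approx {Y : Type*} [NormedAddCommGroup Y] [NormedSpace ℝ Y] {e : ℕ → Y}
    (hd : Dense (Submodule.span ℝ (Set.range e) : Set Y)) (x : Y) {ε : ℝ} (hε : 0 < ε) :
    ∃ a : ℕ →₀ ℝ, ‖x - Finsupp.linearCombination ℝ e a‖ < ε := by
  obtain ⟨y, hy, hxy⟩ := hd.exists_dist_lt x hε
  rw [SetLike.mem_coe, ← Finsupp.range_linearCombination] at hy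
  obtain ⟨a, rfl⟩ := hy
  exact ⟨a, by rwa [← dist_eq_norm]⟩

/-- C1. Coordinate functionals. -/
theorem C1_coord {𝓕 : Set (Finset ℕ)} (h : IsRegularFamily 𝓕) (hs : ∀ n, {n} ∈ 𝓕) {Y : Type*}
    [NormedAddCommGroup Y] [NormedSpace ℝ Y] {e : ℕ → Y} (hY : IsCombinatorialSpace 𝓕 Y e) :
    ∃ coord : ℕ → Y →L[ℝ] ℝ,
      (∀ k j, coord k (e j) = if k = j then 1 else 0) ∧
      (∀ x, ∀ F ∈ 𝓕, ∑ k ∈ F, |coord k x| ≤ ‖x‖) ∧
      (∀ x, ∀ ε : ℝ, 0 < ε → ∃ F ∈ 𝓕, ‖x‖ ≤ ∑ k ∈ F, |coord k x| + ε) ∧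
      (∀ x, ∀ ε : ℝ, 0 < ε → ∃ s : Finset ℕ, ∀ F ∈ 𝓕, Disjoint F s →
        ∑ k ∈ F, |coord k x| ≤ ε) := by
  have h0 := fun a => C0_norm h hs hY a
  have hex : ∀ k : ℕ, ∃ T : Y →L[ℝ] ℝ, ∀ j, T (e j) = if k = j then 1 else 0 := by
    intro k
    refine C2_extend hY.dense (fun j => if k = j then (1 : ℝ) else 0) 1 fun a => ?_
    have h1 : Finsupp.linearCombination ℝ (fun j => if k = j then (1 : ℝ) else 0) a = a k := by
      rw [Finsupp.linearCombination_apply, Finsupp.sum]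
      simp only [smul_eq_mul, mul_ite, mul_one, mul_zero]
      rw [Finset.sum_ite_eq]
      split_ifs with hk
      · rfl
      · exact (Finsupp.notMem_support_iff.1 hk).symm
    rw [h1, one_mul, Real.norm_eq_abs]
    have h2 := (h0 a).1 {k} (hs k)
    rwa [Finset.sum_singleton] at h2
  choose coord hcoord using hex
  have hL : ∀ (k : ℕ) (a : ℕ →₀ ℝ), coord k (Finsupp.linearCombination ℝ e a) = a k := by
    intro k a
    rw [Finsupp.linearCombination_apply, Finsupp.sum, map_sum]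
    simp only [map_smul, hcoord, smul_eq_mul, mul_ite, mul_one, mul_zero]
    rw [Finset.sum_ite_eq]
    split_ifs with hk
    · rfl
    · exact (Finsupp.notMem_support_iff.1 hk).symm
  have h2 : ∀ x, ∀ F ∈ 𝓕, ∑ k ∈ F, |coord k x| ≤ ‖x‖ := by
    intro x F hF
    have hcl : IsClosed {x : Y | ∑ k ∈ F, |coord k x| ≤ ‖x‖} :=
      isClosed_le (by fun_prop) continuous_norm
    have hsub : (Submodule.span ℝ (Set.range e) : Set Y) ⊆ {x : Y | ∑ k ∈ F, |coord k x| ≤ ‖x‖} := by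
      intro y hy
      rw [SetLike.mem_coe, ← Finsupp.range_linearCombination] at hy
      obtain ⟨a, rfl⟩ := hy
      change ∑ k ∈ F, |coord k (Finsupp.linearCombination ℝ e a)| ≤ _
      simp only [hL]
      exact (h0 a).1 F hF
    have := closure_minimal hsub hcl
    rw [hY.dense.closure_eq] at this
    exact this (Set.mem_univ x)
  refine ⟨coord, hcoord, h2, ?_, ?_⟩
  · intro x ε hε
    obtain ⟨a, ha⟩ := C1_approx hY.dense x (half_pos hε)
    obtain ⟨F, hF, -, hn⟩ := (h0 a).2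
    refine ⟨F, hF, ?_⟩
    have h3 : ‖x‖ ≤ ‖Finsupp.linearCombination ℝ e a‖ + ε / 2 := by
      have := norm_add_le (Finsupp.linearCombination ℝ e a) (x - Finsupp.linearCombination ℝ e a)
      rw [add_sub_cancel] at this
      linarith
    have h4 : ∑ k ∈ F, |a k| ≤ ∑ k ∈ F, |coord k x| +
        ∑ k ∈ F, |coord k (x - Finsupp.linearCombination ℝ e a)| := by
      rw [← Finset.sum_add_distrib]
      refine Finset.sum_le_sum fun k _ => ?_
      rw [map_sub, hL]
      have := abs_sub_abs_le_abs_sub (a k) (coord k x)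
      rw [abs_sub_comm] at this
      linarith
    have h5 := h2 (x - Finsupp.linearCombination ℝ e a) F hF
    linarith
  · intro x ε hε
    obtain ⟨a, ha⟩ := C1_approx hY.dense x hε
    refine ⟨a.support, fun F hF hd => ?_⟩
    have h3 : ∑ k ∈ F, |coord k x| = ∑ k ∈ F, |coord k (x - Finsupp.linearCombination ℝ e a)| := by
      refine Finset.sum_congr rfl fun k hk => ?_
      have hk0 : a k = 0 := Finsupp.notMem_support_iff.1 (Finset.disjoint_left.1 hd hk)
      rw [map_sub, hL, hk0, sub_zero]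
    rw [h3]
    exact (h2 _ F hF).trans ha.le

end Pool.Agent.H182R2.CB
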