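import Pool.Agent.H182R2.CB.Defs

namespace Pool.Agent.H182R2.CB

open Filter Topology

theorem C3_norm_le {𝓕 : Set (Finset ℕ)} (hs : ∀ n, {n} ∈ 𝓕) {Y : Type*}
    [NormedAddCommGroup Y] [NormedSpace ℝ Y] {e : ℕ → Y}
    (hY : IsCombinatorialSpace 𝓕 Y e) (a : ℕ →₀ ℝ) (b : ℝ)
    (hb : ∀ F ∈ 𝓕, ∑ k ∈ F, |a k| ≤ b) : ‖Finsupp.linearCombination ℝ e a‖ ≤ b := by
  rw [hY.norm_eq a]
  have : Nonempty 𝓕 := ⟨⟨{0}, hs 0⟩⟩
  exact ciSup_le (fun F => hb F F.2)

theorem C3_part {𝓕 : Set (Finset ℕ)} (hs : ∀ n, {n} ∈ 𝓕) {Y : Type*}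
    [NormedAddCommGroup Y] [NormedSpace ℝ Y] {e : ℕ → Y}
    (hY : IsCombinatorialSpace 𝓕 Y e)
    (z : ℕ → ℕ →₀ ℝ) (C : ℝ) (hz0 : ∀ k i, 0 ≤ z k i)
    (hzC : ∀ F ∈ 𝓕, ∀ K : ℕ, ∑ i ∈ F, ∑ k ∈ Finset.range K, z k i ≤ C)
    (f : ℕ → ℝ) (A : Finset ℕ) (m : ℝ) (hm : 0 ≤ m) (hA : ∀ k ∈ A, |f k| ≤ m) :
    ‖∑ k ∈ A, f k • Finsupp.linearCombination ℝ e (z k)‖ ≤ C * m := by
  have h1 : ∑ k ∈ A, f k • Finsupp.linearCombination ℝ e (z k) =
      Finsupp.linearCombination ℝ e (∑ k ∈ A, f k • z k) := by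
    rw [map_sum]
    exact Finset.sum_congr rfl (fun k _ => by rw [map_smul])
  rw [h1]
  refine C3_norm_le hs hY _ _ (fun F hF => ?_)
  obtain ⟨K, hK⟩ : ∃ K : ℕ, A ⊆ Finset.range K := by
    refine ⟨A.sup id + 1, fun k hk => ?_⟩
    rw [Finset.mem_range]
    exact Nat.lt_succ_of_le (Finset.le_sup (f := id) hk)
  calc ∑ i ∈ F, |(∑ k ∈ A, f k • z k) i| ≤ ∑ i ∈ F, m * ∑ k ∈ Finset.range K, z k i := by
        refine Finset.sum_le_sum (fun i _ => ?_)
        rw [Finsupp.finsetSum_apply]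
        calc |∑ k ∈ A, (f k • z k) i| ≤ ∑ k ∈ A, |(f k • z k) i| :=
              Finset.abs_sum_le_sum_abs _ _
          _ ≤ ∑ k ∈ A, m * z k i := by
              refine Finset.sum_le_sum (fun k hk => ?_)
              rw [Finsupp.smul_apply, smul_eq_mul, abs_mul, abs_of_nonneg (hz0 k i)]
              exact mul_le_mul_of_nonneg_right (hA k hk) (hz0 k i)
          _ = m * ∑ k ∈ A, z k i := by rw [Finset.mul_sum]
          _ ≤ m * ∑ k ∈ Finset.range K, z k i := by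
              refine mul_le_mul_of_nonneg_left ?_ hm
              exact Finset.sum_le_sum_of_subset_of_nonneg hK (fun k _ _ => hz0 k i)
    _ = m * ∑ i ∈ F, ∑ k ∈ Finset.range K, z k i := by rw [Finset.mul_sum]
    _ ≤ m * C := mul_le_mul_of_nonneg_left (hzC F hF K) hm
    _ = C * m := mul_comm _ _

theorem C3_coord {Y : Type*} [NormedAddCommGroup Y] [NormedSpace ℝ Y] {e : ℕ → Y}
    (coord : ℕ → Y →L[ℝ] ℝ)
    (hcoord : ∀ k j, coord k (e j) = if k = j then 1 else 0) (a : ℕ →₀ ℝ) (i : ℕ) :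
    coord i (Finsupp.linearCombination ℝ e a) = a i := by
  rw [Finsupp.linearCombination_apply, Finsupp.sum, map_sum]
  have h1 : ∀ j ∈ a.support, coord i (a j • e j) = if j = i then a j else 0 := by
    intro j _
    rw [map_smul, hcoord, smul_eq_mul]
    by_cases hij : j = i
    · subst hij; simp
    · rw [if_neg hij, if_neg (fun h => hij h.symm), mul_zero]
  rw [Finset.sum_congr rfl h1, Finset.sum_ite_eq']
  by_cases hi : i ∈ a.support
  · rw [if_pos hi]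
  · rw [if_neg hi]
    exact (Finsupp.notMem_support_iff.1 hi).symm

/-- C3. Null combinations of the blocks converge in `Y`. -/
theorem C3_lift {𝓕 : Set (Finset ℕ)} (h : IsRegularFamily 𝓕) (hs : ∀ n, {n} ∈ 𝓕) {Y : Type*}
    [NormedAddCommGroup Y] [NormedSpace ℝ Y] [CompleteSpace Y] {e : ℕ → Y}
    (hY : IsCombinatorialSpace 𝓕 Y e) (coord : ℕ → Y →L[ℝ] ℝ)
    (hcoord : ∀ k j, coord k (e j) = if k = j then 1 else 0)
    (z : ℕ → ℕ →₀ ℝ) (C : ℝ) (hC : 1 ≤ C) (hz0 : ∀ k i, 0 ≤ z k i)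
    (hzz : ∀ k l, k < l → ∀ i ∈ (z k).support, ∀ j ∈ (z l).support, i < j)
    (hzC : ∀ F ∈ 𝓕, ∀ K : ℕ, ∑ i ∈ F, ∑ k ∈ Finset.range K, z k i ≤ C)
    (f : ℕ → ℝ) (M : ℝ) (hf : ∀ ε : ℝ, 0 < ε → {k | ε ≤ |f k|}.Finite) (hM : ∀ k, |f k| ≤ M) :
    ∃ x : Y, (∀ k, ∀ i ∈ (z k).support, coord i x = f k * z k i) ∧
      (∀ i, (∀ k, i ∉ (z k).support) → coord i x = 0) ∧ ‖x‖ ≤ C * M := by
  have hM0 : 0 ≤ M := (abs_nonneg _).trans (hM 0)
  have hC0 : 0 < C := by linarith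
  have hsum : Summable (fun k => f k • Finsupp.linearCombination ℝ e (z k)) := by
    rw [summable_iff_vanishing_norm]
    intro ε hε
    refine ⟨(hf (ε / (2 * C)) (by positivity)).toFinset, fun t ht => ?_⟩
    have h1 : ∀ k ∈ t, |f k| ≤ ε / (2 * C) := by
      intro k hk
      by_contra hlt
      have h2 : k ∈ (hf (ε / (2 * C)) (by positivity)).toFinset := by
        rw [Set.Finite.mem_toFinset]
        exact (not_le.1 hlt).le
      exact (Finset.disjoint_left.1 ht hk) h2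
    have h3 := C3_part hs hY z C hz0 hzC f t (ε / (2 * C)) (by positivity) h1
    have h4 : C * (ε / (2 * C)) = ε / 2 := by field_simp
    rw [h4] at h3
    linarith
  have hci : ∀ i, coord i (∑' k, f k • Finsupp.linearCombination ℝ e (z k)) =
      ∑' k, f k * z k i := by
    intro i
    rw [ContinuousLinearMap.map_tsum _ hsum]
    refine tsum_congr (fun k => ?_)
    rw [map_smul, C3_coord coord hcoord, smul_eq_mul]
  refine ⟨∑' k, f k • Finsupp.linearCombination ℝ e (z k), ?_, ?_, ?_⟩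
  · intro k i hi
    rw [hci i]
    refine tsum_eq_single k (fun l hl => ?_)
    have h0 : z l i = 0 := by
      by_contra hne
      have hi' : i ∈ (z l).support := Finsupp.mem_support_iff.2 hne
      rcases lt_or_gt_of_ne hl with h1 | h1
      · exact lt_irrefl _ (hzz l k h1 i hi' i hi)
      · exact lt_irrefl _ (hzz k l h1 i hi i hi')
    rw [h0, mul_zero]
  · intro i hi
    rw [hci i]
    have h0 : ∀ k, f k * z k i = 0 := fun k => by
      rw [Finsupp.notMem_support_iff.1 (hi k), mul_zero]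
    simp [h0]
  · refine le_of_tendsto' (hsum.hasSum.norm) (fun t => ?_)
    exact C3_part hs hY z C hz0 hzC f t M hM0 (fun k _ => hM k)

end Pool.Agent.H182R2.CB
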