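import Pool.Agent.H182R2.CB.Defs
import Pool.Agent.H182R2.CB.B3
import Pool.Agent.H182R2.CB.C1
import Pool.Agent.H182R2.CB.C3

namespace Pool.Agent.H182R2.CB

open Finset

/-- C4, abstract form. -/
theorem C4_core {𝓕 : Set (Finset ℕ)} (hs : ∀ n, {n} ∈ 𝓕)
    {Y : Type*} [NormedAddCommGroup Y] [NormedSpace ℝ Y] (e : ℕ → Y)
    (coord : ℕ → Y →L[ℝ] ℝ) (hc1 : ∀ k j, coord k (e j) = if k = j then 1 else 0)
    (hc2 : ∀ x, ∀ F ∈ 𝓕, ∑ k ∈ F, |coord k x| ≤ ‖x‖)
    (hc3 : ∀ x, ∀ ε : ℝ, 0 < ε → ∃ F ∈ 𝓕, ‖x‖ ≤ ∑ k ∈ F, |coord k x| + ε)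
    (hc4 : ∀ x, ∀ ε : ℝ, 0 < ε → ∃ s : Finset ℕ, ∀ F ∈ 𝓕, Disjoint F s →
      ∑ k ∈ F, |coord k x| ≤ ε)
    (z : ℕ → ℕ →₀ ℝ) (G : ℕ → Finset ℕ) (C : ℝ) (hC : 1 ≤ C) (hz0 : ∀ k i, 0 ≤ z k i)
    (hG : ∀ k, G k ∈ 𝓕) (hGs : ∀ k, G k ⊆ (z k).support) (hG1 : ∀ k, ∑ i ∈ G k, z k i = 1)
    (hzz : ∀ k l, k < l → ∀ i ∈ (z k).support, ∀ j ∈ (z l).support, i < j)
    (hzC : ∀ F ∈ 𝓕, ∀ K : ℕ, ∑ i ∈ F, ∑ k ∈ Finset.range K, z k i ≤ C)
    (hlift : ∀ (f : ℕ → ℝ) (M : ℝ), (∀ ε : ℝ, 0 < ε → {k | ε ≤ |f k|}.Finite) →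
      (∀ k, |f k| ≤ M) → ∃ x : Y, (∀ k, ∀ i ∈ (z k).support, coord i x = f k * z k i) ∧
      (∀ i, (∀ k, i ∉ (z k).support) → coord i x = 0) ∧ ‖x‖ ≤ C * M) :
    ∃ (J : Type) (_ : Countable J), Nonempty (Splitting Y J) := by
  classical
  -- the number of the block
  obtain ⟨κ, hκ⟩ : ∃ κ : ℕ → ℕ, ∀ j l, z l j ≠ 0 → l = κ j := by
    have h1 : ∀ j k l, z k j ≠ 0 → z l j ≠ 0 → k = l := by
      intro j k l hk hl
      rcases Nat.lt_trichotomy k l with h | h | h
      · exact absurd (hzz k l h j (Finsupp.mem_support_iff.mpr hk) j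
          (Finsupp.mem_support_iff.mpr hl)) (lt_irrefl _)
      · exact h
      · exact absurd (hzz l k h j (Finsupp.mem_support_iff.mpr hl) j
          (Finsupp.mem_support_iff.mpr hk)) (lt_irrefl _)
    refine ⟨fun j => if h : ∃ k, z k j ≠ 0 then h.choose else 0, fun j l hl => ?_⟩
    have h : ∃ k, z k j ≠ 0 := ⟨l, hl⟩
    show l = if h : ∃ k, z k j ≠ 0 then h.choose else 0
    rw [dif_pos h]
    exact h1 j _ _ hl h.choose_spec
  have hκG : ∀ j l, j ∈ G l → l = κ j := fun j l h =>
    hκ j l (Finsupp.mem_support_iff.mp (hGs l h))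
  have hzle : ∀ k j, z k j ≤ C := by
    intro k j
    have h1 := hzC {j} (hs j) (k + 1)
    rw [sum_singleton] at h1
    refine le_trans ?_ h1
    exact single_le_sum (f := fun k => z k j) (fun k' _ => hz0 k' j)
      (mem_range.mpr (Nat.lt_succ_self k))
  have hzabs : ∀ k j, |z k j| ≤ C := fun k j => by rw [abs_of_nonneg (hz0 k j)]; exact hzle k j
  -- the distinguished points
  have hne : ∀ k, ∃ i, i ∈ G k := by
    intro k
    by_contra h
    push Not at h
    have h2 : G k = ∅ := eq_empty_of_forall_notMem h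
    have h3 := hG1 k
    rw [h2, sum_empty] at h3
    exact zero_ne_one h3
  choose ip hip using hne
  have hκip : ∀ k, κ (ip k) = k := fun k => (hκG _ _ (hip k)).symm
  -- functionals
  set cl : ℕ → Y →L[ℝ] ℝ := fun k => ∑ i ∈ G k, coord i with hcl
  have hcl' : ∀ k x, cl k x = ∑ i ∈ G k, coord i x := by
    intro k x
    rw [hcl]
    exact _root_.sum_apply _ _ _
  set cr : ℕ → Y →L[ℝ] ℝ := fun j => coord j - (z (κ j) j) • cl (κ j) with hcr
  have hcr' : ∀ j x, cr j x = coord j x - z (κ j) j * cl (κ j) x := by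
    intro j x
    rw [hcr]
    rfl
  have hclb : ∀ k x, |cl k x| ≤ ‖x‖ := by
    intro k x
    rw [hcl']
    exact (abs_sum_le_sum_abs _ _).trans (hc2 x _ (hG k))
  have hcob : ∀ j x, |coord j x| ≤ ‖x‖ := by
    intro j x
    have := hc2 x _ (hs j)
    rwa [sum_singleton] at this
  have hcrb : ∀ j x, |cr j x| ≤ (1 + C) * ‖x‖ := by
    intro j x
    rw [hcr']
    calc |coord j x - z (κ j) j * cl (κ j) x| ≤ |coord j x| + |z (κ j) j * cl (κ j) x| :=
          abs_sub _ _
      _ ≤ ‖x‖ + C * ‖x‖ := by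
          rw [abs_mul]
          exact add_le_add (hcob j x) (mul_le_mul (hzabs _ _) (hclb _ _) (abs_nonneg _)
            (by linarith))
      _ = (1 + C) * ‖x‖ := by ring
  have he1 : ∀ j, ‖e j‖ ≤ 1 := by
    intro j
    apply le_of_forall_pos_le_add
    intro ε hε
    obtain ⟨F, _, hF⟩ := hc3 (e j) ε hε
    refine hF.trans (add_le_add ?_ le_rfl)
    have h1 : ∀ k ∈ F, |coord k (e j)| = if k = j then 1 else 0 := by
      intro k _
      rw [hc1]
      split_ifs <;> simp
    rw [sum_congr rfl h1, sum_ite_eq']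
    split_ifs <;> norm_num
  -- the vectors of the c₀ part
  have hvl : ∀ k : ℕ, ∃ x : Y, (∀ i, coord i x = z k i) ∧ ‖x‖ ≤ C := by
    intro k
    obtain ⟨x, h1, h2, h3⟩ := hlift (fun l => if l = k then 1 else 0) 1 (by
      intro ε hε
      refine (Set.finite_singleton k).subset ?_
      intro l hl
      rw [Set.mem_singleton_iff]
      by_contra hlk
      have hl' : ε ≤ |(if l = k then (1 : ℝ) else 0)| := hl
      rw [if_neg hlk, abs_zero] at hl'
      linarith) (by
      intro l
      split_ifs <;> simp)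
    refine ⟨x, fun i => ?_, by linarith⟩
    by_cases h : ∃ l, i ∈ (z l).support
    · obtain ⟨l, hl⟩ := h
      rw [h1 l i hl]
      by_cases hlk : l = k
      · rw [if_pos hlk, one_mul, hlk]
      · rw [if_neg hlk, zero_mul]
        by_contra h0
        have a1 := hκ i k (fun h' => h0 h'.symm)
        have a2 := hκ i l (Finsupp.mem_support_iff.mp hl)
        exact hlk (a2.trans a1.symm)
    · push Not at h
      rw [h2 i h]
      have := h k
      rw [Finsupp.notMem_support_iff] at this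
      exact this.symm
  choose vl hvl1 hvl2 using hvl
  set vr : ℕ → Y := fun j => if j ∈ G (κ j) then e j - e (ip (κ j)) else e j with hvr
  have hvrc : ∀ j m, coord m (vr j) = (if m = j then 1 else 0) -
      (if j ∈ G (κ j) then (if m = ip (κ j) then 1 else 0) else 0) := by
    intro j m
    rw [hvr]
    simp only
    split_ifs with h1 h2 h3 h4 <;> simp_all
  have hclvl : ∀ l k, cl l (vl k) = if l = k then 1 else 0 := by
    intro l k
    rw [hcl', sum_congr rfl (fun i _ => hvl1 k i)]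
    split_ifs with h
    · rw [h]; exact hG1 k
    · apply sum_eq_zero
      intro i hi
      by_contra h0
      exact h ((hκG i l hi).trans (hκ i k h0).symm)
  have hclvr : ∀ l j, cl l (vr j) = 0 := by
    intro l j
    rw [hcl', sum_congr rfl (fun i _ => hvrc j i), sum_sub_distrib, sum_ite_eq']
    by_cases h : j ∈ G (κ j)
    · have e1 : ∀ i ∈ G l, (if j ∈ G (κ j) then (if i = ip (κ j) then (1 : ℝ) else 0) else 0) =
          if i = ip (κ j) then 1 else 0 := fun i _ => if_pos h
      rw [sum_congr rfl e1, sum_ite_eq']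
      by_cases hl : l = κ j
      · rw [hl, if_pos h, if_pos (hip _), sub_self]
      · rw [if_neg (fun h' => hl (hκG _ _ h')), if_neg (fun h' => hl (by
          have := hκG _ _ h'
          rw [this, hκip])), sub_self]
    · have e1 : ∀ i ∈ G l, (if j ∈ G (κ j) then (if i = ip (κ j) then (1 : ℝ) else 0) else 0) =
          0 := fun i _ => if_neg h
      rw [sum_congr rfl e1, sum_const_zero, if_neg (fun h' => h (by
        rw [← hκG _ _ h']; exact h')), sub_self]
  have hcrvl : ∀ j k, cr j (vl k) = 0 := by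
    intro j k
    rw [hcr', hvl1, hclvl]
    by_cases h : κ j = k
    · rw [if_pos h, h]; ring
    · rw [if_neg h, mul_zero, sub_zero]
      by_contra h0
      exact h (hκ j k h0).symm
  have hcrvr : ∀ i j, (∀ k, i ≠ ip k) → cr i (vr j) = if i = j then 1 else 0 := by
    intro i j hi
    rw [hcr', hclvr, mul_zero, sub_zero, hvrc]
    rw [if_neg (hi _)]
    simp
  have hclnull : ∀ x, ∀ ε : ℝ, 0 < ε → {k | ε ≤ |cl k x|}.Finite := by
    intro x ε hε
    obtain ⟨s, hs'⟩ := hc4 x (ε / 2) (by linarith)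
    refine (s.image κ).finite_toSet.subset ?_
    intro k hk
    rw [mem_coe, mem_image]
    by_contra hcon
    push Not at hcon
    have hd : Disjoint (G k) s := by
      rw [disjoint_left]
      intro i hi his
      exact hcon i his (hκG i k hi).symm
    have h1 := hs' _ (hG k) hd
    have h2 : |cl k x| ≤ ∑ i ∈ G k, |coord i x| := by
      rw [hcl']
      exact abs_sum_le_sum_abs _ _
    have h3 : ε ≤ |cl k x| := hk
    linarith
  have hconull : ∀ x, ∀ ε : ℝ, 0 < ε → {j | ε ≤ |coord j x|}.Finite := by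
    intro x ε hε
    obtain ⟨s, hs'⟩ := hc4 x (ε / 2) (by linarith)
    refine s.finite_toSet.subset ?_
    intro j hj
    by_contra hcon
    have h1 := hs' {j} (hs j) (by
      rw [disjoint_singleton_left]
      exact hcon)
    rw [sum_singleton] at h1
    have h3 : ε ≤ |coord j x| := hj
    linarith
  have hcrnull : ∀ x, ∀ ε : ℝ, 0 < ε → {j | ε ≤ |cr j x|}.Finite := by
    intro x ε hε
    have hf1 := hconull x (ε / 2) (by linarith)
    have hf2 := hclnull x (ε / (2 * C)) (by positivity)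
    refine (hf1.union (hf2.biUnion (fun k _ => (z k).support.finite_toSet))).subset ?_
    intro j hj
    have hj' : ε ≤ |cr j x| := hj
    by_cases h1 : ε / 2 ≤ |coord j x|
    · exact Or.inl h1
    · right
      have h2 : |cr j x| ≤ |coord j x| + |z (κ j) j| * |cl (κ j) x| := by
        rw [hcr', ← abs_mul]
        exact abs_sub _ _
      have h3 : ε / 2 ≤ |z (κ j) j| * |cl (κ j) x| := by linarith
      have h4 : z (κ j) j ≠ 0 := by
        intro h0
        rw [h0, abs_zero, zero_mul] at h3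
        linarith
      have h5 : ε / (2 * C) ≤ |cl (κ j) x| := by
        rw [div_le_iff₀ (by positivity)]
        have h6 : |z (κ j) j| * |cl (κ j) x| ≤ C * |cl (κ j) x| :=
          mul_le_mul_of_nonneg_right (hzabs _ _) (abs_nonneg _)
        linarith
      rw [Set.mem_iUnion₂]
      exact ⟨κ j, h5, Finsupp.mem_support_iff.mpr h4⟩
  refine ⟨{j : ℕ // ∀ k, j ≠ ip k}, inferInstance, ⟨{
    K := 2 * C + 2
    hK := by linarith
    c := Sum.elim cl (fun j => cr j.1)
    v := Sum.elim vl (fun j => vr j.1)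
    c_bound := ?_
    v_bound := ?_
    bio := ?_
    bio' := ?_
    total := ?_
    null := ?_
    lift := ?_ }⟩⟩
  · rintro (k | j) x
    · have := hclb k x
      have h0 := norm_nonneg x
      show |cl k x| ≤ _
      nlinarith
    · have := hcrb j.1 x
      have h0 := norm_nonneg x
      show |cr j.1 x| ≤ _
      nlinarith
  · rintro (k | j)
    · have := hvl2 k
      show ‖vl k‖ ≤ _
      linarith
    · show ‖vr j.1‖ ≤ _
      rw [hvr]
      simp only
      split_ifs
      · refine (norm_sub_le _ _).trans ?_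
        have a1 := he1 j.1
        have a2 := he1 (ip (κ j.1))
        linarith
      · have a1 := he1 j.1
        linarith
  · rintro (k | j)
    · show cl k (vl k) = 1
      rw [hclvl, if_pos rfl]
    · show cr j.1 (vr j.1) = 1
      rw [hcrvr _ _ j.2, if_pos rfl]
  · rintro (k | i) (l | j) hne
    · show cl k (vl l) = 0
      rw [hclvl, if_neg (fun h => hne (by rw [h]))]
    · exact hclvr k j.1
    · exact hcrvl i.1 l
    · show cr i.1 (vr j.1) = 0
      rw [hcrvr _ _ i.2, if_neg (fun h => hne (by rw [Subtype.ext h]))]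
  · intro x hx
    have h1 : ∀ k, cl k x = 0 := fun k => hx (Sum.inl k)
    have h2 : ∀ j, (∀ k, j ≠ ip k) → coord j x = 0 := by
      intro j hj
      have h3 : cr j x = 0 := hx (Sum.inr ⟨j, hj⟩)
      rw [hcr', h1, mul_zero, sub_zero] at h3
      exact h3
    have h3 : ∀ k, coord (ip k) x = 0 := by
      intro k
      have h4 := h1 k
      rw [hcl', ← add_sum_erase _ _ (hip k)] at h4
      have h5 : ∑ i ∈ (G k).erase (ip k), coord i x = 0 := by
        apply sum_eq_zero
        intro i hi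
        rw [mem_erase] at hi
        apply h2
        intro l hl
        apply hi.1
        have a1 := hκG i k hi.2
        rw [hl, hκip] at a1
        rw [hl, a1]
      rw [h5, add_zero] at h4
      exact h4
    have h4 : ∀ j, coord j x = 0 := by
      intro j
      by_cases h : ∃ k, j = ip k
      · obtain ⟨k, rfl⟩ := h
        exact h3 k
      · push Not at h
        exact h2 j h
    have h5 : ‖x‖ ≤ 0 := by
      apply le_of_forall_pos_le_add
      intro ε hε
      obtain ⟨F, _, hF⟩ := hc3 x ε hε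
      have h6 : ∑ k ∈ F, |coord k x| = 0 := sum_eq_zero fun k _ => by rw [h4, abs_zero]
      rw [h6] at hF
      exact hF
    exact norm_le_zero_iff.mp h5
  · intro x ε hε
    have hA := hclnull x ε hε
    have hB : {j : {j : ℕ // ∀ k, j ≠ ip k} | ε ≤ |cr j.1 x|}.Finite :=
      Set.Finite.preimage (s := {j | ε ≤ |cr j x|})
        (f := (Subtype.val : {j : ℕ // ∀ k, j ≠ ip k} → ℕ))
        Subtype.val_injective.injOn (hcrnull x ε hε)
    refine ((hA.image Sum.inl).union (hB.image Sum.inr)).subset ?_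
    rintro (k | j) h
    · exact Or.inl ⟨k, h, rfl⟩
    · exact Or.inr ⟨j, h, rfl⟩
  · intro f M hf hM
    obtain ⟨x, h1, h2, h3⟩ := hlift f M hf hM
    have hcl1 : ∀ k, cl k x = f k := by
      intro k
      rw [hcl', sum_congr rfl (fun i hi => h1 k i (hGs k hi)), ← mul_sum, hG1, mul_one]
    refine ⟨x, hcl1, ?_, ?_⟩
    · intro j
      show cr j.1 x = 0
      rw [hcr', hcl1]
      by_cases h : z (κ j.1) j.1 = 0
      · rw [h, zero_mul, sub_zero]
        apply h2
        intro k hk
        have h4 := Finsupp.mem_support_iff.mp hk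
        have h5 := hκ _ _ h4
        rw [h5] at h4
        exact h4 h
      · rw [h1 _ _ (Finsupp.mem_support_iff.mpr h)]
        ring
    · have hM0 : 0 ≤ M := (abs_nonneg _).trans (hM 0)
      nlinarith

/-- C4. The splitting. -/
theorem C4_splitting {𝓕 : Set (Finset ℕ)} (h : IsRegularFamily 𝓕) (hs : ∀ n, {n} ∈ 𝓕)
    {Y : Type*} [NormedAddCommGroup Y] [NormedSpace ℝ Y] [CompleteSpace Y] {e : ℕ → Y}
    (hY : IsCombinatorialSpace 𝓕 Y e) :
    ∃ (J : Type) (_ : Countable J), Nonempty (Splitting Y J) := by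
  obtain ⟨coord, hc1, hc2, hc3, hc4⟩ := C1_coord h hs hY
  obtain ⟨z, G, C, hC, hz0, hG, hGs, hG1, hzz, hzC⟩ := B3_blocks h hs
  exact C4_core hs e coord hc1 hc2 hc3 hc4 z G C hC hz0 hG hGs hG1 hzz hzC
    (fun f M hf hM => C3_lift h hs hY coord hc1 z C hC hz0 hzz hzC f M hf hM)

end Pool.Agent.H182R2.CB

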