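import Pool.Agent.H182R2.CB.Defs

/-!
D1: the orbits of pairs code the group.
-/

namespace Pool.Agent.H182R2.CB

/-- the orbit relation on pairs -/
def D1_setoid {G E : Type*} [Group G] (ρ : G →* Equiv.Perm E) : Setoid (E × E) where
  r x y := ∃ g : G, ρ g x.1 = y.1 ∧ ρ g x.2 = y.2
  iseqv :=
    { refl := fun x => ⟨1, by simp, by simp⟩
      symm := by
        rintro x y ⟨g, h1, h2⟩
        refine ⟨g⁻¹, ?_, ?_⟩
        · rw [map_inv, ← h1]; simp
        · rw [map_inv, ← h2]; simp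
      trans := by
        rintro x y z ⟨g, h1, h2⟩ ⟨g', h1', h2'⟩
        refine ⟨g' * g, ?_, ?_⟩
        · rw [map_mul, Equiv.Perm.mul_apply, h1, h1']
        · rw [map_mul, Equiv.Perm.mul_apply, h2, h2'] }

theorem D1_coding (G : Subgroup (Equiv.Perm ℕ)) (hG : IsClosedPerm G) {E : Type*} [Countable E]
    (ρ : G →* Equiv.Perm E) (σ : G) (b : Finset ℕ → E) (hbinj : Function.Injective b)
    (hbσ : ∀ s s', b s' ≠ ρ σ (b s))
    (hb : ∀ (g g' : G) (s : Finset ℕ), ρ g (b s) = ρ g' (b s) →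
      ∀ i ∈ s, (g : Equiv.Perm ℕ) i = (g' : Equiv.Perm ℕ) i)
    (hsupp : ∀ e, ∃ s : Finset ℕ, ∀ g : G, (∀ i ∈ s, (g : Equiv.Perm ℕ) i = i) → ρ g e = e) :
    ∃ s : E → E → ℝ, (∀ e e', 0 < s e e' ∧ s e e' < 1 / 40) ∧
      (∀ g e e', s (ρ g e) (ρ g e') = s e e') ∧
      (∀ π : Equiv.Perm E, (∀ e e', e' ≠ e → e' ≠ ρ σ e → s (π e) (π e') = s e e') →
        ∃ g : G, ∀ e, π e = ρ g e) := by
  classical
  obtain ⟨f, hf⟩ := exists_injective_nat (Quotient (D1_setoid ρ))
  refine ⟨fun e e' => 1 / (41 + (f (Quotient.mk (D1_setoid ρ) (e, e')) : ℝ)), ?_, ?_, ?_⟩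
  · intro e e'
    have h0 : (0 : ℝ) ≤ (f (Quotient.mk (D1_setoid ρ) (e, e')) : ℝ) := Nat.cast_nonneg _
    refine ⟨by positivity, ?_⟩
    exact one_div_lt_one_div_of_lt (by norm_num) (by linarith)
  · intro g e e'
    have : Quotient.mk (D1_setoid ρ) (ρ g e, ρ g e') = Quotient.mk (D1_setoid ρ) (e, e') := by
      refine (Quotient.sound (s := D1_setoid ρ) ?_).symm
      exact ⟨g, rfl, rfl⟩
    simp only [this]
  · intro π hπ
    have H : ∀ e e', e' ≠ e → e' ≠ ρ σ e → ∃ g : G, π e = ρ g e ∧ π e' = ρ g e' := by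
      intro e e' h1 h2
      have h3 := hπ e e' h1 h2
      simp only [one_div, inv_inj, add_right_inj, Nat.cast_inj] at h3
      have h4 := hf h3
      obtain ⟨g, h5, h6⟩ := (D1_setoid ρ).symm (Quotient.exact (s := D1_setoid ρ) h4)
      exact ⟨g, h5.symm, h6.symm⟩
    -- admissible supersets
    have hsup : ∀ (e : E) (s0 : Finset ℕ), ∃ s : Finset ℕ, s0 ⊆ s ∧ b s ≠ e ∧ b s ≠ ρ σ e := by
      intro e s0
      obtain ⟨N, hN⟩ : ∃ N, ∀ i ∈ s0, i < N :=
        ⟨s0.sup id + 1, fun i hi => Nat.lt_succ_of_le (Finset.le_sup (f := id) hi)⟩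
      have hinj : Function.Injective (fun k : ℕ => b (insert (N + k) s0)) := by
        intro k l hkl
        have h1 := hbinj hkl
        have h2 : N + k ∈ insert (N + l) s0 := by
          rw [← h1]; exact Finset.mem_insert_self _ _
        rw [Finset.mem_insert] at h2
        rcases h2 with h2 | h2
        · omega
        · exact absurd (hN _ h2) (by omega)
      obtain ⟨k, hk⟩ := ((Set.toFinite ({e, ρ σ e} : Set E)).preimage
        (f := fun k : ℕ => b (insert (N + k) s0)) hinj.injOn).exists_notMem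
      simp only [Set.mem_preimage, Set.mem_insert_iff, Set.mem_singleton_iff, not_or] at hk
      exact ⟨insert (N + k) s0, Finset.subset_insert _ _, hk.1, hk.2⟩
    -- elements of the group on finite sets
    have hgs : ∀ s : Finset ℕ, ∃ g : G, π (b s) = ρ g (b s) := by
      intro s
      obtain ⟨s', -, h1, h2⟩ := hsup (b s) ∅
      obtain ⟨g, h3, -⟩ := H (b s) (b s') h1 h2
      exact ⟨g, h3⟩
    choose gs hgs using hgs
    have hpair : ∀ (s s' : Finset ℕ) (i : ℕ), i ∈ s → i ∈ s' →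
        (gs s : Equiv.Perm ℕ) i = (gs s' : Equiv.Perm ℕ) i := by
      intro s s' i hi hi'
      by_cases h : s = s'
      · rw [h]
      · obtain ⟨g, h1, h2⟩ := H (b s) (b s') (fun h3 => h (hbinj h3).symm) (hbσ s s')
        have e1 := hb g (gs s) s (by rw [← h1, hgs]) i hi
        have e2 := hb g (gs s') s' (by rw [← h2, hgs]) i hi'
        rw [← e1, e2]
    set p : ℕ → ℕ := fun i => (gs {i} : Equiv.Perm ℕ) i with hp
    have hps : ∀ (s : Finset ℕ) (i : ℕ), i ∈ s → (gs s : Equiv.Perm ℕ) i = p i := fun s i hi =>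
      hpair s {i} i hi (Finset.mem_singleton_self i)
    have hpinj : Function.Injective p := by
      intro i j hij
      rw [← hps {i, j} i (by simp), ← hps {i, j} j (by simp)] at hij
      exact (gs {i, j} : Equiv.Perm ℕ).injective hij
    have hpsurj : Function.Surjective p := by
      intro i'
      obtain ⟨y, hy⟩ := π.surjective (b {i'})
      obtain ⟨s, -, h1, h2⟩ := hsup y ∅
      obtain ⟨h, h3, -⟩ := H y (b s) h1 h2
      obtain ⟨s'', h4, h5, h6⟩ := hsup y {((h⁻¹ : G) : Equiv.Perm ℕ) i'}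
      obtain ⟨g, h7, h8⟩ := H y (b s'') h5 h6
      refine ⟨((h⁻¹ : G) : Equiv.Perm ℕ) i', ?_⟩
      have hj : ((h⁻¹ : G) : Equiv.Perm ℕ) i' ∈ s'' := h4 (Finset.mem_singleton_self _)
      have e1 := hb g (gs s'') s'' (by rw [← h8, hgs]) _ hj
      rw [← hps s'' _ hj, ← e1]
      have e2 : y = ρ h⁻¹ (b {i'}) := by
        rw [map_inv, ← hy, h3]; simp
      have e3 : ρ (g * h⁻¹) (b {i'}) = ρ 1 (b {i'}) := by
        rw [map_mul, Equiv.Perm.mul_apply, ← e2, ← h7, hy, map_one, Equiv.Perm.one_apply]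
      have e4 := hb _ _ _ e3 i' (Finset.mem_singleton_self _)
      simpa using e4
    set P : Equiv.Perm ℕ := Equiv.ofBijective p ⟨hpinj, hpsurj⟩ with hP
    have hPa : ∀ i, P i = p i := fun i => rfl
    have hPG : P ∈ G := by
      refine hG P fun s => ⟨gs s, (gs s).2, fun i hi => ?_⟩
      rw [hPa, hps s i hi]
    refine ⟨⟨P, hPG⟩, fun e => ?_⟩
    obtain ⟨se, hse⟩ := hsupp e
    obtain ⟨s, h1, h2, h3⟩ := hsup e se
    obtain ⟨g, h4, h5⟩ := H e (b s) h2 h3
    have e1 : ∀ i ∈ s, (g : Equiv.Perm ℕ) i = P i := by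
      intro i hi
      rw [hPa, ← hps s i hi]
      exact hb g (gs s) s (by rw [← h5, hgs]) i hi
    have e2 : ρ ((⟨P, hPG⟩ : G)⁻¹ * g) e = e := by
      refine hse _ fun i hi => ?_
      have := e1 i (h1 hi)
      show (P⁻¹ * (g : Equiv.Perm ℕ)) i = i
      rw [Equiv.Perm.mul_apply, this]
      exact P.symm_apply_apply i
    rw [h4]
    rw [map_mul, Equiv.Perm.mul_apply, map_inv, Equiv.Perm.inv_eq_iff_eq] at e2
    exact e2

end Pool.Agent.H182R2.CB
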