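import Pool.Agent.H182R2.CB.Defs

/-!
# A suitable action of `G` on `ℕ × Θ`
-/

namespace Pool.Agent.H182R2.CB

open Finset

theorem D2_rho {G Θ : Type} [Group G] (θ : G →* Equiv.Perm Θ) (A : G →* Equiv.Perm ℕ) (σ : G)
    (hσ2 : σ * σ = 1) (hσc : ∀ g : G, g * σ = σ * g) (sgn : Θ → Bool) :
    ∃ ρ : G →* Equiv.Perm (ℕ × Θ), ∀ g k t,
      ρ g (k, t) = (A g (if sgn t = sgn (θ g t) then k else A σ k), θ g t) := by
  have h1 : ∀ k, A σ (A σ k) = k := by
    intro k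
    rw [← Equiv.Perm.mul_apply, ← map_mul, hσ2, map_one, Equiv.Perm.one_apply]
  have h2 : ∀ g k, A σ (A g k) = A g (A σ k) := by
    intro g k
    rw [← Equiv.Perm.mul_apply, ← Equiv.Perm.mul_apply, ← map_mul, ← map_mul, hσc]
  let bf : ℕ × Θ → ℕ × Θ := fun x => (if sgn x.2 = true then x.1 else A σ x.1, x.2)
  have hbf : Function.Involutive bf := by
    intro x
    by_cases hx : sgn x.2 = true
    · simp [bf, hx]
    · simp [bf, hx, h1]
  let β : Equiv.Perm (ℕ × Θ) := hbf.toPerm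
  let P : G →* Equiv.Perm (ℕ × Θ) :=
    { toFun := fun g => Equiv.prodCongr (A g) (θ g)
      map_one' := by
        ext x <;> simp
      map_mul' := by
        intro g h
        ext x <;> simp }
  refine ⟨{ toFun := fun g => β * P g * β⁻¹
            map_one' := by simp
            map_mul' := by
              intro g h
              simp [mul_assoc] }, ?_⟩
  intro g k t
  show bf ((A g (bf (k, t)).1, θ g (bf (k, t)).2)) = _
  by_cases ht : sgn t = true <;> by_cases hg : sgn (θ g t) = true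
  · simp [bf, ht, hg]
  · simp only [Bool.not_eq_true] at hg
    simp [bf, ht, hg, h2]
  · simp only [Bool.not_eq_true] at ht
    simp [bf, ht, hg]
  · simp only [Bool.not_eq_true] at ht hg
    simp [bf, ht, hg, h2, h1]

theorem D2_sgn {Θ : Type} [Finite Θ] (f : Θ → Θ) (hf : ∀ t, f (f t) = t) (hne : ∀ t, f t ≠ t) :
    ∃ sgn : Θ → Bool, ∀ t, sgn (f t) = !sgn t := by
  obtain ⟨n, ⟨c⟩⟩ := Finite.exists_equiv_fin Θ
  refine ⟨fun t => decide (c t < c (f t)), fun t => ?_⟩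
  show decide (c (f t) < c (f (f t))) = !decide (c t < c (f t))
  rw [hf]
  have h1 : c (f t) ≠ c t := fun h => hne t (c.injective h)
  rcases lt_or_gt_of_ne h1 with h | h
  · simp [h, not_lt.2 h.le]
  · simp [h, not_lt.2 h.le]

theorem D2_A (G : Subgroup (Equiv.Perm ℕ)) :
    ∃ (e : (List ℕ ⊕ Bool) ≃ ℕ) (A : G →* Equiv.Perm ℕ),
      (∀ (g : G) (l : List ℕ), A g (e (Sum.inl l)) = e (Sum.inl (l.map (g : Equiv.Perm ℕ)))) ∧
      ∀ (g : G) (b : Bool), A g (e (Sum.inr b)) = e (Sum.inr b) := by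
  obtain ⟨e⟩ : Nonempty ((List ℕ ⊕ Bool) ≃ ℕ) := nonempty_equiv_of_countable
  refine ⟨e, { toFun := fun g => (e.symm.trans (Equiv.sumCongr
                (Equiv.listEquivOfEquiv (g : Equiv.Perm ℕ)) (Equiv.refl Bool))).trans e
               map_one' := ?_
               map_mul' := ?_ }, ?_, ?_⟩
  · ext k
    obtain ⟨d, rfl⟩ := e.surjective k
    rcases d with l | b
    · simp [Equiv.listEquivOfEquiv]
    · simp
  · intro g h
    ext k
    obtain ⟨d, rfl⟩ := e.surjective k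
    rcases d with l | b
    · simp [Equiv.listEquivOfEquiv]
    · simp
  · intro g l
    simp [Equiv.listEquivOfEquiv]
  · intro g b
    simp

/-- D2. A suitable action of `G` on `ℕ × Θ`. -/
theorem D2_action (G K : Subgroup (Equiv.Perm ℕ)) (hKG : K ≤ G)
    (hKopen : ∃ s : Finset ℕ, ∀ g ∈ G, (∀ i ∈ s, g i = i) → g ∈ K)
    (hKfin : K.relIndex G ≠ 0) (σ : G) (hσ2 : σ * σ = 1) (hσc : ∀ g : G, g * σ = σ * g)
    (hσK : (σ : Equiv.Perm ℕ) ∉ K) :
    ∃ (Θ : Type) (_ : Fintype Θ) (_ : Nonempty Θ) (θ : G →* Equiv.Perm Θ)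
      (ρ : G →* Equiv.Perm (ℕ × Θ)) (b : Finset ℕ → ℕ × Θ) (k₀ k₁ : ℕ),
      (∀ t, θ σ t ≠ t) ∧ (∀ k t, ρ σ (k, t) = (k, θ σ t)) ∧
      Function.Injective b ∧ (∀ s s', b s' ≠ ρ σ (b s)) ∧
      (∀ (g g' : G) (s : Finset ℕ), ρ g (b s) = ρ g' (b s) →
        ∀ i ∈ s, (g : Equiv.Perm ℕ) i = (g' : Equiv.Perm ℕ) i) ∧
      (∀ p, ∃ s : Finset ℕ, ∀ g : G, (∀ i ∈ s, (g : Equiv.Perm ℕ) i = i) → ρ g p = p) ∧
      (∀ t, ∃ s : Finset ℕ, ∀ g : G, (∀ i ∈ s, (g : Equiv.Perm ℕ) i = i) → θ g t = t) ∧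
      k₀ ≠ k₁ ∧ (∀ g t, ρ g (k₀, t) = (k₀, θ g t)) ∧ (∀ g t, ρ g (k₁, t) = (k₁, θ g t)) := by
  classical
  have hidx : (K.subgroupOf G).index ≠ 0 := hKfin
  let fin : Fintype (G ⧸ K.subgroupOf G) := Subgroup.fintypeOfIndexNeZero hidx
  let θ : G →* Equiv.Perm (G ⧸ K.subgroupOf G) :=
    MulAction.toPermHom G (G ⧸ K.subgroupOf G)
  have hθ : ∀ (g a : G), θ g (QuotientGroup.mk a) = QuotientGroup.mk (g * a) :=
    fun g a => rfl
  have hθσ : ∀ t, θ σ t ≠ t := by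
    intro t
    induction t using QuotientGroup.induction_on with
    | H a =>
      intro h
      rw [hθ, eq_comm, QuotientGroup.eq, ← hσc a, ← mul_assoc, inv_mul_cancel, one_mul] at h
      exact hσK (Subgroup.mem_subgroupOf.1 h)
  have hθ2 : ∀ t, θ σ (θ σ t) = t := by
    intro t
    rw [← Equiv.Perm.mul_apply, ← map_mul, hσ2, map_one, Equiv.Perm.one_apply]
  have hθs : ∀ t, ∃ s : Finset ℕ, ∀ g : G, (∀ i ∈ s, (g : Equiv.Perm ℕ) i = i) → θ g t = t := by
    intro t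
    induction t using QuotientGroup.induction_on with
    | H a =>
      obtain ⟨s, hs⟩ := hKopen
      refine ⟨s.image (a : Equiv.Perm ℕ), fun g hg => ?_⟩
      rw [hθ, eq_comm, QuotientGroup.eq, Subgroup.mem_subgroupOf]
      refine hs _ (a⁻¹ * (g * a)).2 fun i hi => ?_
      have h1 := hg _ (mem_image_of_mem _ hi)
      show ((a : Equiv.Perm ℕ)⁻¹ * ((g : Equiv.Perm ℕ) * (a : Equiv.Perm ℕ))) i = i
      rw [Equiv.Perm.mul_apply, Equiv.Perm.mul_apply, h1]
      exact Equiv.symm_apply_apply _ _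
  obtain ⟨sgn, hsgn⟩ := D2_sgn (fun t => θ σ t) hθ2 hθσ
  obtain ⟨e, A, hAl, hAb⟩ := D2_A G
  obtain ⟨ρ, hρ⟩ := D2_rho θ A σ hσ2 hσc sgn
  have hA2 : ∀ k, A σ (A σ k) = k := by
    intro k
    rw [← Equiv.Perm.mul_apply, ← map_mul, hσ2, map_one, Equiv.Perm.one_apply]
  have hAc : ∀ g k, A g (A σ k) = A σ (A g k) := by
    intro g k
    rw [← Equiv.Perm.mul_apply, ← Equiv.Perm.mul_apply, ← map_mul, ← map_mul, hσc]
  let t0 : G ⧸ K.subgroupOf G := QuotientGroup.mk 1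
  refine ⟨G ⧸ K.subgroupOf G, fin, ⟨t0⟩, θ, ρ,
    fun s => (e (Sum.inl (s.sort (· ≤ ·))), t0), e (Sum.inr false), e (Sum.inr true),
    hθσ, ?_, ?_, ?_, ?_, ?_, hθs, ?_, ?_, ?_⟩
  · intro k t
    rw [hρ, if_neg (by rw [hsgn]; simp), hA2]
  · intro s s' h
    have h1 := (Prod.ext_iff.1 h).1
    have h2 := Sum.inl_injective (e.injective h1)
    rw [← Finset.sort_toFinset s (· ≤ ·), h2, Finset.sort_toFinset]
  · intro s s' h
    have h1 := (Prod.ext_iff.1 h).2
    rw [hρ] at h1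
    exact hθσ t0 h1.symm
  · intro g g' s h i hi
    rw [hρ, hρ] at h
    have h1 : θ g t0 = θ g' t0 := (Prod.ext_iff.1 h).2
    have h2 := (Prod.ext_iff.1 h).1
    simp only [h1] at h2
    have h3 : A g (e (Sum.inl (s.sort (· ≤ ·)))) = A g' (e (Sum.inl (s.sort (· ≤ ·)))) := by
      split_ifs at h2 with hc
      · exact h2
      · rw [hAc, hAc] at h2
        exact (A σ).injective h2
    rw [hAl, hAl] at h3
    have h4 := Sum.inl_injective (e.injective h3)
    rw [List.map_inj_left] at h4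
    exact h4 i ((Finset.mem_sort _).2 hi)
  · rintro ⟨k, t⟩
    obtain ⟨s, hs⟩ := hθs t
    obtain ⟨d, rfl⟩ := e.surjective k
    rcases d with l | b
    · refine ⟨l.toFinset ∪ s, fun g hg => ?_⟩
      have h1 : θ g t = t := hs g fun i hi => hg i (mem_union_right _ hi)
      rw [hρ, h1, if_pos rfl, hAl]
      have h2 : l.map (g : Equiv.Perm ℕ) = l := by
        conv_rhs => rw [← List.map_id l]
        rw [List.map_inj_left]
        intro i hi
        exact hg i (mem_union_left _ (List.mem_toFinset.2 hi))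
      rw [h2]
    · refine ⟨s, fun g hg => ?_⟩
      have h1 : θ g t = t := hs g hg
      rw [hρ, h1, if_pos rfl, hAb]
  · intro h
    exact Bool.false_ne_true (Sum.inr_injective (e.injective h))
  · intro g t
    rw [hρ]
    split_ifs
    · rw [hAb]
    · rw [hAb, hAb]
  · intro g t
    rw [hρ]
    split_ifs
    · rw [hAb]
    · rw [hAb, hAb]

end Pool.Agent.H182R2.CB
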