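import Pool.Agent.H182R2.CB.NDefs

namespace Pool.Agent.H182R2.CB

theorem E1_ext (t : Finset ℕ) (f : ℕ → ℕ) (hf : Set.InjOn f t) :
    ∃ g : Equiv.Perm ℕ, ∀ i ∈ t, g i = f i := by
  classical
  induction t using Finset.induction_on with
  | empty => exact ⟨1, fun i hi => absurd hi (Finset.notMem_empty i)⟩
  | insert a s ha ih =>
    obtain ⟨g, hg⟩ := ih (hf.mono (by
      intro x hx
      exact Finset.mem_coe.mpr (Finset.mem_insert_of_mem (Finset.mem_coe.mp hx))))
    refine ⟨Equiv.swap (g a) (f a) * g, fun i hi => ?_⟩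
    rw [Equiv.Perm.mul_apply]
    rcases Finset.mem_insert.mp hi with rfl | his
    · exact Equiv.swap_apply_left _ _
    · have hia : i ≠ a := fun h => ha (h ▸ his)
      rw [Equiv.swap_apply_of_ne_of_ne]
      · exact hg i his
      · exact fun h => hia (g.injective h)
      · rw [hg i his]
        intro h
        apply hia
        exact hf (Finset.mem_coe.mpr (Finset.mem_insert_of_mem his))
          (Finset.mem_coe.mpr (Finset.mem_insert_self a s)) h

end Pool.Agent.H182R2.CB
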