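import Pool.Agent.H182R2.CB.NDefs
import Pool.Agent.H182R2.CB.E1_ext

namespace Pool.Agent.H182R2.CB

open Finset Filter Topology

theorem E2_family (B s t : Finset ℕ) :
    ∃ h : ℕ → Equiv.Perm ℕ, (∀ j, ∀ i ∈ B, h j i = i) ∧
      (∀ i j, i ≠ j → ∀ a ∈ s \ B, ∀ b ∈ s \ B, h i a ≠ h j b) ∧
      (∀ j, ∀ a ∈ s \ B, h j a ∉ t) := by
  classical
  set L : ℕ := (B ∪ s ∪ t).sup id + 1 with hL
  have hlt : ∀ a ∈ B ∪ s ∪ t, a < L := by
    intro a ha
    have := Finset.le_sup (f := id) ha
    simp only [id] at this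
    omega
  have hB : ∀ a ∈ B, a < L := fun a ha => hlt a (by simp [ha])
  have hs : ∀ a ∈ s, a < L := fun a ha => hlt a (by simp [ha])
  have ht : ∀ a ∈ t, a < L := fun a ha => hlt a (by simp [ha])
  have key : ∀ j : ℕ, ∃ g : Equiv.Perm ℕ, ∀ i ∈ s ∪ B,
      g i = if i ∈ B then i else i + (j + 1) * L := by
    intro j
    apply E1_ext
    intro a ha b hb hab
    simp only at hab
    have hLj : L ≤ (j + 1) * L := Nat.le_mul_of_pos_left L (Nat.succ_pos j)
    by_cases h1 : a ∈ B <;> by_cases h2 : b ∈ B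
    · rwa [if_pos h1, if_pos h2] at hab
    · rw [if_pos h1, if_neg h2] at hab
      have := hB a h1
      omega
    · rw [if_neg h1, if_pos h2] at hab
      have := hB b h2
      omega
    · rw [if_neg h1, if_neg h2] at hab
      omega
  choose h hh using key
  have hv : ∀ j, ∀ a ∈ s \ B, h j a = a + (j + 1) * L := by
    intro j a ha
    rw [Finset.mem_sdiff] at ha
    rw [hh j a (Finset.mem_union_left _ ha.1), if_neg ha.2]
  refine ⟨h, fun j i hi => ?_, ?_, ?_⟩
  · rw [hh j i (Finset.mem_union_right _ hi), if_pos hi]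
  · intro i j hij a ha b hb hab
    rw [hv i a ha, hv j b hb] at hab
    have ha' := hs a (Finset.mem_sdiff.1 ha).1
    have hb' := hs b (Finset.mem_sdiff.1 hb).1
    have hL0 : 0 < L := by omega
    have e1 : (a + (i + 1) * L) / L = i + 1 := by
      rw [Nat.add_mul_div_right _ _ hL0, Nat.div_eq_of_lt ha', zero_add]
    have e2 : (b + (j + 1) * L) / L = j + 1 := by
      rw [Nat.add_mul_div_right _ _ hL0, Nat.div_eq_of_lt hb', zero_add]
    rw [hab, e2] at e1
    omega
  · intro j a ha hmem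
    rw [hv j a ha] at hmem
    have := ht _ hmem
    have hLj : L ≤ (j + 1) * L := Nat.le_mul_of_pos_left L (Nat.succ_pos j)
    omega

end Pool.Agent.H182R2.CB
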