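import Pool.Agent.H182R2.CB.NDefs

/-!
# MP_7f333f_an: the group of signed permutations is closed
-/

namespace Pool.Agent.H182R2.CB

theorem F1_closed_nu_nu (n : ℕ) : nuPerm (nuPerm n) = n := nuPerm.left_inv n

theorem F1_closed_mem {g : Equiv.Perm ℕ} :
    g ∈ signedPerm ↔ ∀ n, nuPerm (g n) = g (nuPerm n) := by
  unfold signedPerm
  rw [Subgroup.mem_centralizer_singleton_iff]
  constructor
  · intro h n
    have := congrArg (fun f : Equiv.Perm ℕ => f n) h
    simp only [Equiv.Perm.mul_apply] at this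
    first
      | exact this
      | exact this.symm
  · intro h
    ext n
    simp only [Equiv.Perm.mul_apply]
    first
      | exact h n
      | exact (h n).symm

theorem F1_closed : IsClosedPerm signedPerm ∧ nuPerm ∈ signedPerm ∧ nuPerm * nuPerm = 1 ∧
    nuPerm ≠ 1 ∧ (∀ g ∈ signedPerm, g * nuPerm = nuPerm * g) := by
  refine ⟨fun π hπ => ?_, ?_, ?_, ?_, fun g hg => ?_⟩
  · rw [F1_closed_mem]
    intro n
    obtain ⟨g, hg, h⟩ := hπ {n, nuPerm n}
    have h1 := h n (by simp)
    have h2 := h (nuPerm n) (by simp)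
    rw [← h1, ← h2]
    exact F1_closed_mem.1 hg n
  · rw [F1_closed_mem]
    exact fun n => rfl
  · ext n
    exact F1_closed_nu_nu n
  · intro h
    have h1 : nuPerm 0 = 0 := by rw [h]; rfl
    have h2 : nuPerm 0 = 1 := rfl
    omega
  · ext n
    simp only [Equiv.Perm.mul_apply]
    exact (F1_closed_mem.1 hg n).symm

end Pool.Agent.H182R2.CB
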