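import Pool.Agent.H182R2.CB.NDefs

/-!
# The permutations and the flips inside the group of signed permutations
-/

namespace Pool.Agent.H182R2.CB

theorem F2_nu (n : ℕ) : nuPerm n = if n % 2 = 0 then n + 1 else n - 1 := rfl

theorem F2_nu_div (n : ℕ) : nuPerm n / 2 = n / 2 := by
  rw [F2_nu]
  split_ifs <;> omega

theorem F2_nu_mod (n : ℕ) : nuPerm n % 2 = 1 - n % 2 := by
  rw [F2_nu]
  split_ifs <;> omega

theorem F2_nu_nu (n : ℕ) : nuPerm (nuPerm n) = n := by
  have h1 := F2_nu_div n
  have h2 := F2_nu_mod n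
  have h3 := F2_nu_div (nuPerm n)
  have h4 := F2_nu_mod (nuPerm n)
  omega

theorem F2_nu_ne (n : ℕ) : nuPerm n ≠ n := by
  have h2 := F2_nu_mod n
  intro h
  rw [h] at h2
  omega

theorem F2_ext {m n : ℕ} (h1 : m / 2 = n / 2) (h2 : m % 2 = n % 2) : m = n := by omega

/-- the permutation of the pairs -/
def F2_iotaFun (π : Equiv.Perm ℕ) : Equiv.Perm ℕ where
  toFun n := 2 * π (n / 2) + n % 2
  invFun n := 2 * π.symm (n / 2) + n % 2
  left_inv := by
    intro n
    have h1 : (2 * π (n / 2) + n % 2) / 2 = π (n / 2) := by omega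
    have h2 : (2 * π (n / 2) + n % 2) % 2 = n % 2 := by omega
    simp only [h1, h2, Equiv.symm_apply_apply]
    omega
  right_inv := by
    intro n
    have h1 : (2 * π.symm (n / 2) + n % 2) / 2 = π.symm (n / 2) := by omega
    have h2 : (2 * π.symm (n / 2) + n % 2) % 2 = n % 2 := by omega
    simp only [h1, h2, Equiv.apply_symm_apply]
    omega

theorem F2_iota_div (π : Equiv.Perm ℕ) (n : ℕ) : F2_iotaFun π n / 2 = π (n / 2) := by
  change (2 * π (n / 2) + n % 2) / 2 = π (n / 2)
  omega

theorem F2_iota_mod (π : Equiv.Perm ℕ) (n : ℕ) : F2_iotaFun π n % 2 = n % 2 := by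
  change (2 * π (n / 2) + n % 2) % 2 = n % 2
  omega

open Classical in
/-- the flip of the pairs in `A` -/
noncomputable def F2_tauFun (A : Set ℕ) : Equiv.Perm ℕ where
  toFun n := if n / 2 ∈ A then nuPerm n else n
  invFun n := if n / 2 ∈ A then nuPerm n else n
  left_inv := by
    intro n
    by_cases h : n / 2 ∈ A
    · simp only [h, if_true, F2_nu_div, F2_nu_nu]
    · simp only [h, if_false]
  right_inv := by
    intro n
    by_cases h : n / 2 ∈ A
    · simp only [h, if_true, F2_nu_div, F2_nu_nu]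
    · simp only [h, if_false]

theorem F2_tau_mem {A : Set ℕ} {n : ℕ} (h : n / 2 ∈ A) : F2_tauFun A n = nuPerm n := by
  classical
  change (if n / 2 ∈ A then nuPerm n else n) = nuPerm n
  rw [if_pos h]

theorem F2_tau_notMem {A : Set ℕ} {n : ℕ} (h : n / 2 ∉ A) : F2_tauFun A n = n := by
  classical
  change (if n / 2 ∈ A then nuPerm n else n) = n
  rw [if_neg h]

theorem F2_mem {g : Equiv.Perm ℕ} : g ∈ signedPerm ↔ ∀ n, g (nuPerm n) = nuPerm (g n) := by
  unfold signedPerm
  rw [Subgroup.mem_centralizer_singleton_iff]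
  constructor
  · intro h n
    have := congrArg (fun f : Equiv.Perm ℕ => f n) h
    simpa [Equiv.Perm.mul_apply] using this
  · intro h
    ext n
    simpa [Equiv.Perm.mul_apply] using h n

theorem F2_iota_signed (π : Equiv.Perm ℕ) : F2_iotaFun π ∈ signedPerm := by
  rw [F2_mem]
  intro n
  apply F2_ext
  · rw [F2_iota_div, F2_nu_div, F2_nu_div, F2_iota_div]
  · rw [F2_iota_mod, F2_nu_mod, F2_nu_mod, F2_iota_mod]

theorem F2_tau_signed (A : Set ℕ) : F2_tauFun A ∈ signedPerm := by
  rw [F2_mem]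
  intro n
  by_cases h : n / 2 ∈ A
  · rw [F2_tau_mem h, F2_tau_mem (by rw [F2_nu_div]; exact h)]
  · rw [F2_tau_notMem h, F2_tau_notMem (by rw [F2_nu_div]; exact h)]

/-- The permutations and the flips inside `signedPerm`. -/
theorem F2_struct : ∃ (ι : Equiv.Perm ℕ →* signedPerm) (τ : Set ℕ → signedPerm),
    (∀ π A, ι π * τ A * (ι π)⁻¹ = τ (π '' A)) ∧ (∀ A B, τ A * τ B = τ (symmDiff A B)) ∧
    ((τ Set.univ : signedPerm) : Equiv.Perm ℕ) = nuPerm ∧
    (∀ c : signedPerm, (∀ g, c * g = g * c) → c = 1 ∨ c = τ Set.univ) := by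
  classical
  let ι : Equiv.Perm ℕ →* signedPerm :=
    { toFun := fun π => ⟨F2_iotaFun π, F2_iota_signed π⟩
      map_one' := by
        apply Subtype.ext
        ext n
        change 2 * (n / 2) + n % 2 = n
        omega
      map_mul' := by
        intro π π'
        apply Subtype.ext
        ext n
        change F2_iotaFun (π * π') n = F2_iotaFun π (F2_iotaFun π' n)
        apply F2_ext
        · rw [F2_iota_div, F2_iota_div, F2_iota_div, Equiv.Perm.mul_apply]
        · rw [F2_iota_mod, F2_iota_mod, F2_iota_mod] }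
  let τ : Set ℕ → signedPerm := fun A => ⟨F2_tauFun A, F2_tau_signed A⟩
  have hι : ∀ π, ((ι π : signedPerm) : Equiv.Perm ℕ) = F2_iotaFun π := fun π => rfl
  have hτ : ∀ A, ((τ A : signedPerm) : Equiv.Perm ℕ) = F2_tauFun A := fun A => rfl
  refine ⟨ι, τ, ?_, ?_, ?_, ?_⟩
  · intro π A
    rw [mul_inv_eq_iff_eq_mul]
    apply Subtype.ext
    ext n
    change F2_iotaFun π (F2_tauFun A n) = F2_tauFun (π '' A) (F2_iotaFun π n)
    by_cases h : n / 2 ∈ A
    · have h' : F2_iotaFun π n / 2 ∈ π '' A := by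
        rw [F2_iota_div]
        exact ⟨_, h, rfl⟩
      rw [F2_tau_mem h, F2_tau_mem h', F2_mem.1 (F2_iota_signed π)]
    · have h' : F2_iotaFun π n / 2 ∉ π '' A := by
        rw [F2_iota_div]
        rintro ⟨m, hm, he⟩
        exact h (π.injective he ▸ hm)
      rw [F2_tau_notMem h, F2_tau_notMem h']
  · intro A B
    apply Subtype.ext
    ext n
    change F2_tauFun A (F2_tauFun B n) = F2_tauFun (symmDiff A B) n
    by_cases hB : n / 2 ∈ B
    · have e : nuPerm n / 2 = n / 2 := F2_nu_div n
      rw [F2_tau_mem hB]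
      by_cases hA : n / 2 ∈ A
      · rw [F2_tau_mem (e.symm ▸ hA), F2_nu_nu, F2_tau_notMem]
        rw [Set.mem_symmDiff]
        tauto
      · rw [F2_tau_notMem (e.symm ▸ hA), F2_tau_mem]
        rw [Set.mem_symmDiff]
        tauto
    · rw [F2_tau_notMem hB]
      by_cases hA : n / 2 ∈ A
      · rw [F2_tau_mem hA, F2_tau_mem]
        rw [Set.mem_symmDiff]
        tauto
      · rw [F2_tau_notMem hA, F2_tau_notMem]
        rw [Set.mem_symmDiff]
        tauto
  · rw [hτ]
    ext n
    rw [F2_tau_mem (Set.mem_univ _)]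
  · intro c hc
    -- the centre
    have hcs : ∀ n, (c : Equiv.Perm ℕ) (nuPerm n) = nuPerm ((c : Equiv.Perm ℕ) n) :=
      F2_mem.1 c.2
    have hcτ : ∀ A n, (c : Equiv.Perm ℕ) (F2_tauFun A n) = F2_tauFun A ((c : Equiv.Perm ℕ) n) := by
      intro A n
      have := congrArg (fun f : signedPerm => (f : Equiv.Perm ℕ) n) (hc (τ A))
      exact this
    have hcι : ∀ π n, (c : Equiv.Perm ℕ) (F2_iotaFun π n) =
        F2_iotaFun π ((c : Equiv.Perm ℕ) n) := by
      intro π n
      have := congrArg (fun f : signedPerm => (f : Equiv.Perm ℕ) n) (hc (ι π))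
      exact this
    -- every pair is preserved
    have hpair : ∀ n, (c : Equiv.Perm ℕ) n / 2 = n / 2 := by
      intro n
      by_contra hne
      have h1 := hcτ {n / 2} n
      rw [F2_tau_mem (Set.mem_singleton _), hcs,
        F2_tau_notMem (by simpa using hne)] at h1
      exact F2_nu_ne _ h1
    -- the parity
    have hpar : ∀ n, ((c : Equiv.Perm ℕ) n % 2 + n % 2) % 2 =
        ((c : Equiv.Perm ℕ) 0) % 2 := by
      intro n
      -- move the pair of `n` to the pair `0`
      have h1 := hcι (Equiv.swap 0 (n / 2)) (n % 2)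
      have h2 : F2_iotaFun (Equiv.swap 0 (n / 2)) (n % 2) = n := by
        change 2 * (Equiv.swap 0 (n / 2)) (n % 2 / 2) + n % 2 % 2 = n
        have h3 : n % 2 / 2 = 0 := by omega
        rw [h3, Equiv.swap_apply_left]
        omega
      rw [h2] at h1
      have h4 : (c : Equiv.Perm ℕ) n % 2 = (c : Equiv.Perm ℕ) (n % 2) % 2 := by
        rw [h1, F2_iota_mod]
      rcases Nat.mod_two_eq_zero_or_one n with h | h
      · rw [h4, h]
        omega
      · have h6 := F2_nu_mod ((c : Equiv.Perm ℕ) 0)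
        rw [h4, h]
        have h7 : (c : Equiv.Perm ℕ) 1 = nuPerm ((c : Equiv.Perm ℕ) 0) := by
          rw [← hcs]
          rfl
        rw [h7, h6]
        have h8 := Nat.mod_lt ((c : Equiv.Perm ℕ) 0) (by norm_num : 2 > 0)
        omega
    rcases Nat.mod_two_eq_zero_or_one ((c : Equiv.Perm ℕ) 0) with h | h
    · left
      apply Subtype.ext
      ext n
      change (c : Equiv.Perm ℕ) n = n
      have h1 := hpar n
      have h2 := hpair n
      rw [h] at h1
      omega
    · right
      apply Subtype.ext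
      ext n
      rw [hτ, F2_tau_mem (Set.mem_univ _)]
      apply F2_ext
      · rw [F2_nu_div, hpair]
      · rw [F2_nu_mod]
        have h1 := hpar n
        rw [h] at h1
        omega

end Pool.Agent.H182R2.CB
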