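import Pool.Agent.H182R2.CB.NDefs
import Pool.Agent.H182R2.CB.AC1_family

set_option autoImplicit false

namespace Pool.Agent.H182R2.CB

open Finset Filter Topology

/-- an involution which exchanges `U` and its complement -/
theorem F3_swap (U : Set ℕ) (h1 : U.Infinite) (h2 : Uᶜ.Infinite) :
    ∃ π : Equiv.Perm ℕ, π '' U = Uᶜ := by
  classical
  haveI := h1.to_subtype
  haveI := h2.to_subtype
  let e : U ≃ (Uᶜ : Set ℕ) := (Nat.Subtype.orderIsoOfNat U).toEquiv.symm.trans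
    (Nat.Subtype.orderIsoOfNat (Uᶜ : Set ℕ)).toEquiv
  let f : ℕ → ℕ := fun i => if h : i ∈ U then e ⟨i, h⟩ else e.symm ⟨i, h⟩
  have hf1 : ∀ i (h : i ∈ U), f i = e ⟨i, h⟩ := fun i h => dif_pos h
  have hf2 : ∀ i (h : i ∉ U), f i = e.symm ⟨i, h⟩ := fun i h => dif_neg h
  have hf : Function.Involutive f := by
    intro i
    by_cases h : i ∈ U
    · rw [hf1 i h, hf2 _ (e ⟨i, h⟩).2]
      have : e.symm ⟨(e ⟨i, h⟩ : ℕ), (e ⟨i, h⟩).2⟩ = ⟨i, h⟩ := e.symm_apply_apply ⟨i, h⟩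
      rw [this]
    · rw [hf2 i h, hf1 _ (e.symm ⟨i, h⟩).2]
      have : e ⟨(e.symm ⟨i, h⟩ : ℕ), (e.symm ⟨i, h⟩).2⟩ = ⟨i, h⟩ := e.apply_symm_apply ⟨i, h⟩
      rw [this]
  refine ⟨hf.toPerm f, ?_⟩
  ext z
  constructor
  · rintro ⟨i, hi, rfl⟩
    change f i ∈ Uᶜ
    rw [hf1 i hi]
    exact (e ⟨i, hi⟩).2
  · intro hz
    refine ⟨f z, ?_, hf z⟩
    rw [hf2 z hz]
    exact (e.symm ⟨z, hz⟩).2

theorem F3_flip {X : Type*} [NormedAddCommGroup X] [NormedSpace ℝ X]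
    [TopologicalSpace.SeparableSpace X] {Γ : Type*} [Group Γ] (ι : Equiv.Perm ℕ →* Γ)
    (τ : Set ℕ → Γ) (h1 : ∀ π A, ι π * τ A * (ι π)⁻¹ = τ (π '' A))
    (h2 : ∀ A B, τ A * τ B = τ (symmDiff A B)) (ρ : Γ →* (X ≃ₗ[ℝ] X)) (K : ℝ) (hK : 1 ≤ K)
    (hb : ∀ g x, ‖ρ g x‖ ≤ K * ‖x‖) (y : X) (hy : ∀ π, ρ (ι π) y = y)
    (hneg : ρ (τ Set.univ) y = -y) : y = 0 := by
  classical
  obtain ⟨F, hF1, hF2, hF3⟩ := AC1_family
  by_contra hy0
  have hy1 : 0 < ‖y‖ := norm_pos_iff.2 hy0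
  have hK0 : 0 < K := by linarith
  have hKK : 0 < K ^ 3 + K := by positivity
  obtain ⟨ε, hε⟩ : ∃ ε, ε = ‖y‖ / (K ^ 3 + K) := ⟨_, rfl⟩
  have hε0 : 0 < ε := by rw [hε]; positivity
  have hεK : (K ^ 3 + K) * ε = ‖y‖ := by rw [hε]; field_simp
  have hmul : ∀ g h x, ρ (g * h) x = ρ g (ρ h x) := fun g h x => by
    rw [map_mul, LinearEquiv.mul_apply]
  -- two close members
  obtain ⟨a, b, hab, hclose⟩ : ∃ a b, a ≠ b ∧ ‖ρ (τ (F b)) y - ρ (τ (F a)) y‖ ≤ ε := by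
    have hX : Nonempty X := ⟨0⟩
    have h3 : ∀ a, ∃ n, dist (ρ (τ (F a)) y) (TopologicalSpace.denseSeq X n) < ε / 2 := fun a =>
      (TopologicalSpace.denseRange_denseSeq X).exists_dist_lt _ (by positivity)
    choose n hn using h3
    have hninj : ¬ Function.Injective n := by
      intro hinj
      refine Function.cantor_injective (fun s : Set ℕ => n (fun i => decide (i ∈ s))) ?_
      intro s t hst
      have h4 := hinj hst
      ext i
      have h5 := congrFun h4 i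
      simpa using h5
    rw [Function.Injective] at hninj
    push Not at hninj
    obtain ⟨a, b, h5, h6⟩ := hninj
    refine ⟨a, b, h6, ?_⟩
    rw [← dist_eq_norm]
    have e1 := hn a
    have e2 := hn b
    rw [h5] at e1
    have e3 := dist_triangle_right (ρ (τ (F b)) y) (ρ (τ (F a)) y)
      (TopologicalSpace.denseSeq X (n b))
    linarith
  obtain ⟨U, hU⟩ : ∃ U, U = symmDiff (F a) (F b) := ⟨_, rfl⟩
  have hUinf : U.Infinite := by
    have h3 : (F a \ (F a ∩ F b)).Infinite := (hF1 a).diff (hF2 a b hab)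
    refine h3.mono ?_
    intro z hz
    rw [hU, Set.mem_symmDiff]
    exact Or.inl ⟨hz.1, fun h => hz.2 ⟨hz.1, h⟩⟩
  have hUinf' : Uᶜ.Infinite := by
    refine (hF3 a b).mono ?_
    intro z hz hz'
    rw [hU, Set.mem_symmDiff] at hz'
    rcases hz' with h | h
    · exact hz (Or.inl h.1)
    · exact hz (Or.inr h.1)
  have hone : τ ∅ = 1 := by
    have h3 := h2 ∅ ∅
    rw [symmDiff_self] at h3
    exact mul_eq_left.1 h3
  have hsq : ∀ A, τ A * τ A = 1 := fun A => by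
    rw [h2, symmDiff_self]
    exact hone
  have hid : ∀ A, ρ (τ A) (ρ (τ A) y) = y := fun A => by
    rw [← hmul, hsq, map_one, LinearEquiv.coe_one, id]
  have hUy : ‖ρ (τ U) y - y‖ ≤ K * ε := by
    have e1 : ρ (τ U) y - y = ρ (τ (F a)) (ρ (τ (F b)) y - ρ (τ (F a)) y) := by
      rw [map_sub, hid, hU, ← h2, hmul]
    rw [e1]
    exact (hb _ _).trans (mul_le_mul_of_nonneg_left hclose hK0.le)
  obtain ⟨π, hπ⟩ := F3_swap U hUinf hUinf'
  have hUcy : ‖ρ (τ Uᶜ) y - y‖ ≤ K * (K * ε) := by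
    have e1 : ρ (τ Uᶜ) y - y = ρ (ι π) (ρ (τ U) y - y) := by
      rw [map_sub, hy π, ← hπ, ← h1, hmul, hmul, ← map_inv, hy]
    rw [e1]
    exact (hb _ _).trans (mul_le_mul_of_nonneg_left hUy hK0.le)
  have huniv : ρ (τ U) (ρ (τ Uᶜ) y) = -y := by
    rw [← hmul, h2, symmDiff_compl_self, ← hneg]
    rfl
  have e2 : -y - y = ρ (τ U) (ρ (τ Uᶜ) y - y) + (ρ (τ U) y - y) := by
    rw [map_sub, huniv]
    abel
  have e3 : ‖-y - y‖ = 2 * ‖y‖ := by
    have : -y - y = (-2 : ℝ) • y := by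
      rw [neg_smul, two_smul]
      abel
    rw [this, norm_smul]
    norm_num
  have e4 : ‖-y - y‖ ≤ K * (K * (K * ε)) + K * ε := by
    rw [e2]
    refine (norm_add_le _ _).trans (add_le_add ?_ hUy)
    exact (hb _ _).trans (mul_le_mul_of_nonneg_left hUcy hK0.le)
  have e5 : K * (K * (K * ε)) + K * ε = (K ^ 3 + K) * ε := by ring
  rw [e3, e5, hεK] at e4
  linarith

end Pool.Agent.H182R2.CB
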