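import Pool.Agent.H182R2.CB.NDefs

namespace Pool.Agent.H182R2.CB

open Finset Filter Topology

section N

variable {X : Type*} [NormedAddCommGroup X] [NormedSpace ℝ X]

theorem N6_subseq_singleton (p : ℕ) : ({p} : Finset ℕ) ∈ schreier := by
  intro i _
  rw [Finset.card_singleton]
  omega

theorem N6_subseq (S : SCoord X) (w : ℕ → X) (M : ℝ) (hM : ∀ j, ‖w j‖ ≤ M) :
    ∃ φ : ℕ → ℕ, StrictMono φ ∧ ∀ p, ∃ l, Tendsto (fun k => S.co p (w (φ k))) atTop (𝓝 l) := by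
  have hcomp : IsCompact (Set.pi Set.univ (fun _ : ℕ => Set.Icc (-M) M)) :=
    isCompact_univ_pi fun _ => isCompact_Icc
  have hmem : ∀ j, (fun p => S.co p (w j)) ∈ Set.pi Set.univ (fun _ : ℕ => Set.Icc (-M) M) := by
    intro j p _
    have h1 := S.le (w j) {p} (N6_subseq_singleton p)
    rw [Finset.sum_singleton] at h1
    exact abs_le.1 (h1.trans (hM j))
  obtain ⟨a, -, φ, hφ, hlim⟩ := hcomp.tendsto_subseq hmem
  exact ⟨φ, hφ, fun p => ⟨a p, (tendsto_pi_nhds.1 hlim) p⟩⟩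

end N

end Pool.Agent.H182R2.CB
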