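import Pool.Agent.H182R2.CB.NDefs

namespace Pool.Agent.H182R2.CB

open Finset Filter Topology

section N

variable {X : Type*} [NormedAddCommGroup X] [NormedSpace ℝ X]

theorem N1_upper (S : SCoord X) (m : ℕ) (u : ℕ → X) (b : ℕ → ℕ) (M : ℝ) (η : ℕ → ℝ)
    (hM0 : 0 ≤ M) (hη : ∀ j, 0 ≤ η j) (hηsum : ∑ j ∈ range m, η j ≤ 1)
    (hM : ∀ j < m, ‖u j‖ ≤ M)
    (htail : ∀ j < m, ∀ F ∈ schreier, (∀ i ∈ F, b j < i) → ∑ k ∈ F, |S.co k (u j)| ≤ η j)
    (hflat : ∀ i j, i < j → j < m → ∀ k, |S.co k (u j)| * (b i + 1) ≤ η j) :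
    ‖∑ j ∈ range m, u j‖ ≤ M + 1 := by
  refine le_of_forall_pos_le_add fun ε hε => ?_
  obtain ⟨F, hF, hle⟩ := S.ge (∑ j ∈ range m, u j) ε hε
  refine hle.trans (add_le_add_left ?_ ε)
  -- triangle inequality
  have htri : ∑ k ∈ F, |S.co k (∑ j ∈ range m, u j)| ≤
      ∑ j ∈ range m, ∑ k ∈ F, |S.co k (u j)| := by
    rw [Finset.sum_comm]
    refine Finset.sum_le_sum fun k _ => ?_
    rw [map_sum]
    exact Finset.abs_sum_le_sum_abs _ _
  refine htri.trans ?_
  rcases F.eq_empty_or_nonempty with rfl | hne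
  · simp only [Finset.sum_empty, Finset.sum_const_zero]
    linarith
  have hpF : F.min' hne ∈ F := Finset.min'_mem F hne
  have hpmin : ∀ i ∈ F, F.min' hne ≤ i := fun i hi => Finset.min'_le F i hi
  generalize F.min' hne = p at hpF hpmin
  have hcard : F.card ≤ p + 1 := hF p hpF
  by_cases hall : ∀ j < m, b j < p
  · have h1 : ∑ j ∈ range m, ∑ k ∈ F, |S.co k (u j)| ≤ ∑ j ∈ range m, η j := by
      refine Finset.sum_le_sum fun j hj => ?_
      have hjm := Finset.mem_range.mp hj
      exact htail j hjm F hF fun i hi => lt_of_lt_of_le (hall j hjm) (hpmin i hi)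
    linarith
  · push Not at hall
    classical
    have hj0 := Nat.find_spec hall
    have hjmin := fun j (hj : j < Nat.find hall) => Nat.find_min hall hj
    generalize Nat.find hall = j0 at hj0 hjmin
    obtain ⟨hj0m, hpb⟩ := hj0
    have hterm : ∀ j ∈ range m, ∑ k ∈ F, |S.co k (u j)| ≤ η j + (if j = j0 then M else 0) := by
      intro j hj
      have hjm := Finset.mem_range.mp hj
      rcases lt_trichotomy j j0 with hlt | rfl | hgt
      · have hbp : b j < p := by
          have := hjmin j hlt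
          by_contra hc
          exact this ⟨hjm, not_lt.mp hc⟩
        rw [if_neg (Nat.ne_of_lt hlt), add_zero]
        exact htail j hjm F hF fun i hi => lt_of_lt_of_le hbp (hpmin i hi)
      · rw [if_pos rfl]
        have h1 := S.le (u j) F hF
        have h2 := hM j hjm
        have h3 := hη j
        linarith
      · rw [if_neg (Nat.ne_of_gt hgt), add_zero]
        have hbpos : (0 : ℝ) < (b j0 : ℝ) + 1 := by positivity
        have h1 : ∀ k ∈ F, |S.co k (u j)| ≤ η j / ((b j0 : ℝ) + 1) := by
          intro k _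
          rw [le_div_iff₀ hbpos]
          exact hflat j0 j hgt hjm k
        have h2 := Finset.sum_le_card_nsmul F _ _ h1
        refine h2.trans ?_
        rw [nsmul_eq_mul, mul_div_assoc', div_le_iff₀ hbpos]
        have h3 : (F.card : ℝ) ≤ (b j0 : ℝ) + 1 := by
          have : F.card ≤ b j0 + 1 := by omega
          exact_mod_cast this
        have := mul_le_mul_of_nonneg_right h3 (hη j)
        linarith
    have hsum := Finset.sum_le_sum hterm
    rw [Finset.sum_add_distrib, Finset.sum_ite_eq' (range m) j0 (fun _ => M),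
      if_pos (Finset.mem_range.mpr hj0m)] at hsum
    linarith

end N

end Pool.Agent.H182R2.CB
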