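import Pool.Agent.H182R2.CB.NDefs

/-! Task N2_lower (helper133): the lower estimate. -/

set_option autoImplicit false

open Finset Filter Topology

namespace Pool.Agent.H182R2.CB

variable {X : Type*} [NormedAddCommGroup X] [NormedSpace ℝ X]

theorem N2_lower (S : SCoord X) (m : ℕ) (v : ℕ → X) (p : ℕ → ℕ) (c : ℝ) (hc : 0 < c)
    (hinj : ∀ i j, i < m → j < m → p i = p j → i = j) (hp : ∀ j < m, m ≤ p j + 1)
    (hbig : ∀ j < m, c ≤ |S.co (p j) (v j)|)
    (hoff : ∀ i j, i < m → j < m → i ≠ j → |S.co (p j) (v i)| ≤ c / (2 * m)) (θ : ℕ → ℝ) :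
    c / 2 * ∑ j ∈ range m, |θ j| ≤ ‖∑ j ∈ range m, θ j • v j‖ := by
  classical
  have hio : Set.InjOn p (range m : Finset ℕ) := by
    intro i hi j hj h
    simp only [Finset.coe_range, Set.mem_Iio] at hi hj
    exact hinj i j hi hj h
  have hF : (range m).image p ∈ schreier := by
    intro i hi
    rw [Finset.mem_image] at hi
    obtain ⟨j, hj, rfl⟩ := hi
    rw [Finset.card_image_of_injOn hio, Finset.card_range]
    exact hp j (Finset.mem_range.mp hj)
  have h1 := S.le (∑ j ∈ range m, θ j • v j) _ hF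
  rw [Finset.sum_image hio] at h1
  refine le_trans ?_ h1
  obtain ⟨Θ, hΘ⟩ : ∃ Θ, Θ = ∑ j ∈ range m, |θ j| := ⟨_, rfl⟩
  have hΘ0 : 0 ≤ Θ := by
    rw [hΘ]
    exact Finset.sum_nonneg fun _ _ => abs_nonneg _
  have h2 : ∀ j ∈ range m, |θ j| * c - c / (2 * m) * Θ ≤
      |S.co (p j) (∑ i ∈ range m, θ i • v i)| := by
    intro j hj
    have hj' := Finset.mem_range.mp hj
    have e : S.co (p j) (∑ i ∈ range m, θ i • v i) = ∑ i ∈ range m, θ i * S.co (p j) (v i) := by
      rw [map_sum]
      refine Finset.sum_congr rfl fun i _ => ?_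
      rw [map_smul, smul_eq_mul]
    have e2 := Finset.add_sum_erase (range m) (fun i => θ i * S.co (p j) (v i)) hj
    have e3 : |θ j * S.co (p j) (v j)| ≤ |∑ i ∈ range m, θ i * S.co (p j) (v i)| +
        |∑ i ∈ (range m).erase j, θ i * S.co (p j) (v i)| := by
      have : θ j * S.co (p j) (v j) = (∑ i ∈ range m, θ i * S.co (p j) (v i)) -
          ∑ i ∈ (range m).erase j, θ i * S.co (p j) (v i) := by
        rw [← e2]
        ring
      rw [this]
      exact abs_sub _ _
    have e4 : |∑ i ∈ (range m).erase j, θ i * S.co (p j) (v i)| ≤ c / (2 * m) * Θ := by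
      refine (Finset.abs_sum_le_sum_abs _ _).trans ?_
      rw [hΘ, Finset.mul_sum]
      refine (Finset.sum_le_sum (g := fun i => c / (2 * m) * |θ i|) fun i hi => ?_).trans ?_
      · rw [Finset.mem_erase, Finset.mem_range] at hi
        rw [abs_mul, mul_comm]
        exact mul_le_mul_of_nonneg_right (hoff i j hi.2 hj' hi.1) (abs_nonneg _)
      · refine Finset.sum_le_sum_of_subset_of_nonneg (Finset.erase_subset _ _) fun i _ _ => ?_
        positivity
    have e5 : |θ j| * c ≤ |θ j * S.co (p j) (v j)| := by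
      rw [abs_mul]
      exact mul_le_mul_of_nonneg_left (hbig j hj') (abs_nonneg _)
    rw [e]
    linarith
  refine le_trans ?_ (Finset.sum_le_sum h2)
  rw [Finset.sum_sub_distrib, ← Finset.sum_mul, ← hΘ, Finset.sum_const, Finset.card_range,
    nsmul_eq_mul]
  have h3 : (m : ℝ) * (c / (2 * m) * Θ) ≤ c / 2 * Θ := by
    rcases Nat.eq_zero_or_pos m with h0 | h0
    · subst h0
      simp only [Nat.cast_zero, zero_mul]
      positivity
    · have hm : (m : ℝ) ≠ 0 := by positivity
      apply le_of_eq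
      field_simp
  linarith

end Pool.Agent.H182R2.CB
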