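import Pool.Agent.H182R2.CB.NDefs

/-! N4_flat: flat averages (helper473). -/

set_option autoImplicit false

namespace Pool.Agent.H182R2.CB

open Finset Filter Topology

section N

variable {X : Type*} [NormedAddCommGroup X] [NormedSpace ℝ X]

theorem N4_flat_single (p : ℕ) : ({p} : Finset ℕ) ∈ schreier := by
  intro i _
  rw [card_singleton]
  omega

theorem N4_flat_aux (S : SCoord X) (D : ℕ → X) (M : ℝ) (hM : ∀ j, ‖D j‖ ≤ M)
    (hnull : ∀ p, Tendsto (fun k => S.co p (D k)) atTop (𝓝 0)) (η : ℝ) (hη : 0 < η) (L : ℕ)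
    (N : ℕ) : ∃ A : Finset ℕ, A.card = N ∧ (∀ j ∈ A, L ≤ j) ∧
      ∀ p, ∑ j ∈ A, |S.co p (D j)| ≤ M + N * (η / 2) := by
  have hM0 : 0 ≤ M := (norm_nonneg _).trans (hM 0)
  induction N with
  | zero => exact ⟨∅, rfl, by simp, fun p => by simpa using hM0⟩
  | succ N ih =>
    obtain ⟨A, hA, hAL, hAs⟩ := ih
    have htail : ∀ j, ∃ n : ℕ, ∀ p, n ≤ p → |S.co p (D j)| ≤ η / 2 := by
      intro j
      obtain ⟨n, hn⟩ := S.tail (D j) (η / 2) (by linarith)
      refine ⟨n, fun p hp => ?_⟩
      have h1 := hn {p} (N4_flat_single p) (by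
        intro i hi
        rw [mem_singleton] at hi
        omega)
      rwa [sum_singleton] at h1
    choose n hn using htail
    set b : ℕ := A.sup n with hb
    have hev : ∀ᶠ k in atTop, ∀ p ∈ range b, |S.co p (D k)| ≤ η / 2 := by
      rw [Filter.eventually_all_finset]
      intro p _
      have h1 := (hnull p).abs
      rw [abs_zero] at h1
      exact h1.eventually_le_const (by linarith)
    obtain ⟨k, hk1, hk2⟩ := (hev.and (eventually_ge_atTop (L + A.sup id + 1))).exists
    have hkA : k ∉ A := by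
      intro h
      have h1 : k ≤ A.sup id := le_sup (f := id) h
      omega
    refine ⟨insert k A, by rw [card_insert_of_notMem hkA, hA], ?_, ?_⟩
    · intro j hj
      rcases mem_insert.1 hj with rfl | hj
      · omega
      · exact hAL j hj
    · intro p
      rw [sum_insert hkA]
      push_cast
      rcases lt_or_ge p b with hp | hp
      · have h1 := hk1 p (mem_range.2 hp)
        have h2 := hAs p
        linarith
      · have h1 : |S.co p (D k)| ≤ M := by
          have h2 := S.le (D k) {p} (N4_flat_single p)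
          rw [sum_singleton] at h2
          exact h2.trans (hM k)
        have h3 : ∑ j ∈ A, |S.co p (D j)| ≤ N * (η / 2) := by
          have h4 : ∀ j ∈ A, |S.co p (D j)| ≤ η / 2 := fun j hj =>
            hn j p ((le_sup (f := n) hj).trans hp)
          refine (sum_le_sum h4).trans (le_of_eq ?_)
          rw [sum_const, hA, nsmul_eq_mul]
        linarith

theorem N4_flat (S : SCoord X) (D : ℕ → X) (M : ℝ) (hM : ∀ j, ‖D j‖ ≤ M)
    (hnull : ∀ p, Tendsto (fun k => S.co p (D k)) atTop (𝓝 0)) (η : ℝ) (hη : 0 < η) (L : ℕ) :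
    ∃ A : Finset ℕ, A.Nonempty ∧ (∀ j ∈ A, L ≤ j) ∧
      ∀ p, |S.co p ((1 / A.card : ℝ) • ∑ j ∈ A, D j)| ≤ η := by
  obtain ⟨N, hN⟩ := exists_nat_ge (2 * M / η + 1)
  have hM0 : 0 ≤ M := (norm_nonneg _).trans (hM 0)
  have h0 : 0 ≤ 2 * M / η := by positivity
  have hN1 : (1 : ℝ) ≤ N := by linarith
  have hN0 : (0 : ℝ) < N := by linarith
  have hNn : 0 < N := by exact_mod_cast hN0
  obtain ⟨A, hA, hAL, hAs⟩ := N4_flat_aux S D M hM hnull η hη L N
  refine ⟨A, card_pos.1 (by rw [hA]; exact hNn), hAL, fun p => ?_⟩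
  rw [map_smul, smul_eq_mul, map_sum, abs_mul, hA, abs_of_pos (by positivity)]
  have h1 : |∑ j ∈ A, S.co p (D j)| ≤ M + N * (η / 2) :=
    (abs_sum_le_sum_abs _ _).trans (hAs p)
  have h2 : M ≤ N * (η / 2) := by
    have h3 : 2 * M / η ≤ N := by linarith
    rw [div_le_iff₀ hη] at h3
    linarith
  calc 1 / (N : ℝ) * |∑ j ∈ A, S.co p (D j)| ≤ 1 / (N : ℝ) * (N * η) := by
        apply mul_le_mul_of_nonneg_left _ (by positivity)
        linarith
    _ = η := by field_simp

end N

end Pool.Agent.H182R2.CB
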