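import Pool.Agent.H182R2.CB.NDefs
import Pool.Agent.H182R2.CB.N4_flat
import Pool.Agent.H182R2.CB.N1_upper

set_option autoImplicit false

open Finset Filter Topology

namespace Pool.Agent.H182R2.CB

variable {X : Type*} [NormedAddCommGroup X] [NormedSpace ℝ X]

/-- average over a finite set -/
noncomputable def N5_av (D : ℕ → X) (A : Finset ℕ) : X := (1 / A.card : ℝ) • ∑ j ∈ A, D j

lemma N5_av_norm (D : ℕ → X) (M : ℝ) (hM : ∀ j, ‖D j‖ ≤ M) (A : Finset ℕ) :
    ‖N5_av D A‖ ≤ M := by
  have hM0 : 0 ≤ M := (norm_nonneg (D 0)).trans (hM 0)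
  unfold N5_av
  rw [norm_smul, Real.norm_of_nonneg (by positivity)]
  rcases A.eq_empty_or_nonempty with rfl | hA
  · simpa using hM0
  have hc : (0 : ℝ) < A.card := by exact_mod_cast hA.card_pos
  have h1 : ‖∑ j ∈ A, D j‖ ≤ A.card * M := by
    refine (norm_sum_le _ _).trans ?_
    refine (Finset.sum_le_sum fun j _ => hM j).trans ?_
    simp
  calc (1 / A.card : ℝ) * ‖∑ j ∈ A, D j‖ ≤ (1 / A.card : ℝ) * (A.card * M) := by gcongr
    _ = M := by field_simp

lemma N5_geom (m : ℕ) : ∑ j ∈ range m, (1 / 2 : ℝ) ^ (j + 1) ≤ 1 := by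
  have h : ∑ j ∈ range m, (1 / 2 : ℝ) ^ (j + 1) = 1 - (1 / 2) ^ m := by
    induction m with
    | zero => simp
    | succ m ih => rw [Finset.sum_range_succ, ih, pow_succ]; ring
  rw [h]
  have : 0 < (1 / 2 : ℝ) ^ m := by positivity
  linarith

lemma N5_build (S : SCoord X) (D : ℕ → X) (M : ℝ) (hM : ∀ j, ‖D j‖ ≤ M)
    (hnull : ∀ p, Tendsto (fun k => S.co p (D k)) atTop (𝓝 0)) (L : ℕ) (m : ℕ) :
    ∃ (A : ℕ → Finset ℕ) (b : ℕ → ℕ), (∀ r < m, (A r).Nonempty) ∧ (∀ r < m, ∀ j ∈ A r, L ≤ j) ∧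
      (∀ r < m, ∀ F ∈ schreier, (∀ i ∈ F, b r < i) →
        ∑ k ∈ F, |S.co k (N5_av D (A r))| ≤ (1 / 2 : ℝ) ^ (r + 1)) ∧
      (∀ i r, i < r → r < m → ∀ k, |S.co k (N5_av D (A r))| * (b i + 1) ≤ (1 / 2 : ℝ) ^ (r + 1)) := by
  induction m with
  | zero =>
    exact ⟨fun _ => ∅, fun _ => 0, fun r hr => absurd hr (by omega), fun r hr => absurd hr (by omega),
      fun r hr => absurd hr (by omega), fun i r _ hr => absurd hr (by omega)⟩
  | succ m ih =>
    obtain ⟨A, b, h1, h2, h3, h4⟩ := ih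
    set B : ℕ := ∑ i ∈ range m, b i with hB
    have hη : (0 : ℝ) < (1 / 2 : ℝ) ^ (m + 1) / (B + 1) := by positivity
    obtain ⟨A', a1, a2, a3⟩ := N4_flat S D M hM hnull _ hη L
    obtain ⟨n, hn⟩ := S.tail (N5_av D A') ((1 / 2 : ℝ) ^ (m + 1)) (by positivity)
    refine ⟨Function.update A m A', Function.update b m n, ?_, ?_, ?_, ?_⟩
    · intro r hr
      rcases Nat.lt_succ_iff_lt_or_eq.1 hr with h | h
      · rw [Function.update_of_ne (by omega)]; exact h1 r h
      · subst h; rw [Function.update_self]; exact a1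
    · intro r hr
      rcases Nat.lt_succ_iff_lt_or_eq.1 hr with h | h
      · rw [Function.update_of_ne (by omega)]; exact h2 r h
      · subst h; rw [Function.update_self]; exact a2
    · intro r hr
      rcases Nat.lt_succ_iff_lt_or_eq.1 hr with h | h
      · rw [Function.update_of_ne (by omega), Function.update_of_ne (by omega)]; exact h3 r h
      · subst h; rw [Function.update_self, Function.update_self]
        intro F hF hi
        exact hn F hF fun i hiF => (hi i hiF).le
    · intro i r hir hr k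
      rcases Nat.lt_succ_iff_lt_or_eq.1 hr with h | h
      · rw [Function.update_of_ne (by omega), Function.update_of_ne (by omega)]
        exact h4 i r hir h k
      · subst h
        rw [Function.update_self, Function.update_of_ne (by omega)]
        have hb : b i ≤ B := by
          rw [hB]
          exact Finset.single_le_sum (f := fun i => b i) (fun _ _ => Nat.zero_le _) (mem_range.2 hir)
        have hb' : (b i : ℝ) ≤ B := by exact_mod_cast hb
        have h5 : |S.co k (N5_av D A')| ≤ (1 / 2 : ℝ) ^ (r + 1) / (B + 1) := a3 k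
        calc |S.co k (N5_av D A')| * (b i + 1) ≤ (1 / 2 : ℝ) ^ (r + 1) / (B + 1) * (B + 1) := by
              gcongr
          _ = (1 / 2 : ℝ) ^ (r + 1) := by
              have : (B : ℝ) + 1 ≠ 0 := by positivity
              field_simp

theorem N5_comb (S : SCoord X) (D : ℕ → X) (M : ℝ) (hM : ∀ j, ‖D j‖ ≤ M)
    (hnull : ∀ p, Tendsto (fun k => S.co p (D k)) atTop (𝓝 0)) (R L : ℕ) :
    ∃ θ : ℕ →₀ ℝ, (∀ j, 0 ≤ θ j) ∧ (∀ j < L, θ j = 0) ∧ (θ.sum fun _ r => r) = R ∧
      ‖θ.sum fun j r => r • D j‖ ≤ M + 1 := by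
  classical
  have hM0 : 0 ≤ M := (norm_nonneg (D 0)).trans (hM 0)
  obtain ⟨A, b, h1, h2, h3, h4⟩ := N5_build S D M hM hnull L R
  set θ : ℕ →₀ ℝ := ∑ r ∈ range R, ∑ j ∈ A r, Finsupp.single j (1 / (A r).card : ℝ) with hθ
  have happ : ∀ j, θ j = ∑ r ∈ range R, ∑ i ∈ A r, if i = j then (1 / (A r).card : ℝ) else 0 := by
    intro j
    rw [hθ, Finsupp.finset_sum_apply]
    refine Finset.sum_congr rfl fun r _ => ?_
    rw [Finsupp.finset_sum_apply]
    refine Finset.sum_congr rfl fun i _ => ?_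
    rw [Finsupp.single_apply]
  refine ⟨θ, ?_, ?_, ?_, ?_⟩
  · intro j
    rw [happ]
    refine Finset.sum_nonneg fun r _ => Finset.sum_nonneg fun i _ => ?_
    split_ifs
    · positivity
    · exact le_refl _
  · intro j hj
    rw [happ]
    refine Finset.sum_eq_zero fun r hr => Finset.sum_eq_zero fun i hi => ?_
    have := h2 r (mem_range.1 hr) i hi
    rw [if_neg (by omega)]
  · have e : (θ.sum fun _ r => r) = Finsupp.linearCombination ℝ (fun _ : ℕ => (1 : ℝ)) θ := by
      rw [Finsupp.linearCombination_apply]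
      simp
    rw [e, hθ, map_sum]
    simp only [map_sum, Finsupp.linearCombination_single, smul_eq_mul, mul_one]
    calc ∑ r ∈ range R, ∑ _j ∈ A r, (1 / (A r).card : ℝ) = ∑ r ∈ range R, (1 : ℝ) := by
          refine Finset.sum_congr rfl fun r hr => ?_
          have hc : (0 : ℝ) < (A r).card := by exact_mod_cast (h1 r (mem_range.1 hr)).card_pos
          rw [Finset.sum_const, nsmul_eq_mul]
          field_simp
      _ = R := by simp
  · have e : (θ.sum fun j r => r • D j) = ∑ r ∈ range R, N5_av D (A r) := by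
      have e1 : (θ.sum fun j r => r • D j) = Finsupp.linearCombination ℝ D θ := by
        rw [Finsupp.linearCombination_apply]
      rw [e1, hθ, map_sum]
      refine Finset.sum_congr rfl fun r _ => ?_
      rw [map_sum]
      simp only [Finsupp.linearCombination_single]
      unfold N5_av
      rw [Finset.smul_sum]
    rw [e]
    exact N1_upper S R (fun r => N5_av D (A r)) b M (fun r => (1 / 2 : ℝ) ^ (r + 1)) hM0
      (fun j => by positivity) (N5_geom R) (fun j _ => N5_av_norm D M hM (A j)) h3 h4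

end Pool.Agent.H182R2.CB
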