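import Pool.Agent.H182R2.CB.NDefs
import Pool.Agent.H182R2.CB.N5_comb
import Pool.Agent.H182R2.CB.N6_subseq

set_option autoImplicit false

namespace Pool.Agent.H182R2.CB

open Finset Filter Topology

theorem n7_sum {E : Type*} [AddCommGroup E] [Module ℝ E] (G : ℕ → E) (φ : ℕ → ℕ)
    (θ : ℕ → ℝ) (s : Finset ℕ) (m : ℕ) (hm : ∀ j ∈ s, φ (2 * j) < m ∧ φ (2 * j + 1) < m) :
    ∑ i ∈ range m, (∑ j ∈ s, ((if i = φ (2 * j) then θ j else 0) -
      (if i = φ (2 * j + 1) then θ j else 0))) • G i =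
      ∑ j ∈ s, θ j • (G (φ (2 * j)) - G (φ (2 * j + 1))) := by
  have h1 : ∀ i ∈ range m, (∑ j ∈ s, ((if i = φ (2 * j) then θ j else 0) -
      (if i = φ (2 * j + 1) then θ j else 0))) • G i =
      ∑ j ∈ s, ((if i = φ (2 * j) then θ j • G i else 0) -
      (if i = φ (2 * j + 1) then θ j • G i else 0)) := by
    intro i _
    rw [Finset.sum_smul]
    refine Finset.sum_congr rfl fun j _ => ?_
    rw [sub_smul]
    split_ifs <;> simp
  rw [Finset.sum_congr rfl h1, Finset.sum_comm]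
  refine Finset.sum_congr rfl fun j hj => ?_
  rw [Finset.sum_sub_distrib, smul_sub]
  obtain ⟨ha, hb⟩ := hm j hj
  rw [Finset.sum_ite_eq' (range m) (φ (2 * j)) (fun i => θ j • G i),
    Finset.sum_ite_eq' (range m) (φ (2 * j + 1)) (fun i => θ j • G i),
    if_pos (Finset.mem_range.2 ha), if_pos (Finset.mem_range.2 hb)]

theorem N7_no_l1 {X : Type*} [NormedAddCommGroup X] [NormedSpace ℝ X]
    (S : SCoord X) (d : ℕ → X) (M : ℝ) (hM : ∀ j, ‖d j‖ ≤ M) (c : ℝ) (hc : 0 < c) :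
    ¬ ∀ (θ : ℕ → ℝ) (m : ℕ), c * ∑ j ∈ range m, |θ j| ≤ ‖∑ j ∈ range m, θ j • d j‖ := by
  intro hyp
  obtain ⟨φ, hφ, hlim⟩ := N6_subseq S d M hM
  let D : ℕ → X := fun j => d (φ (2 * j)) - d (φ (2 * j + 1))
  have hD : ∀ j, ‖D j‖ ≤ 2 * M := fun j =>
    (norm_sub_le _ _).trans (by have := hM (φ (2 * j)); have := hM (φ (2 * j + 1)); linarith)
  have hnull : ∀ p, Tendsto (fun k => S.co p (D k)) atTop (𝓝 0) := by
    intro p
    obtain ⟨l, hl⟩ := hlim p
    have h1 : Tendsto (fun k : ℕ => 2 * k) atTop atTop :=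
      tendsto_atTop_mono (fun k => by simp only [id]; omega) tendsto_id
    have h2 : Tendsto (fun k : ℕ => 2 * k + 1) atTop atTop :=
      tendsto_atTop_mono (fun k => by simp only [id]; omega) tendsto_id
    have h3 := (hl.comp h1).sub (hl.comp h2)
    rw [sub_self] at h3
    refine h3.congr fun k => ?_
    simp only [D, Function.comp, map_sub]
  obtain ⟨R, hR⟩ := exists_nat_gt ((2 * M + 1) / (c * 2))
  have hR' : 2 * M + 1 < c * (2 * R) := by
    rw [div_lt_iff₀ (by positivity)] at hR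
    linarith
  obtain ⟨θ, hθ0, -, hθs, hθn⟩ := N5_comb S D (2 * M) hD hnull R 0
  classical
  let m : ℕ := θ.support.sup (fun j => φ (2 * j + 1)) + 1
  have hm : ∀ j ∈ θ.support, φ (2 * j) < m ∧ φ (2 * j + 1) < m := by
    intro j hj
    have h1 : φ (2 * j + 1) ≤ θ.support.sup (fun j => φ (2 * j + 1)) :=
      Finset.le_sup (f := fun j => φ (2 * j + 1)) hj
    have h2 : φ (2 * j) < φ (2 * j + 1) := hφ (Nat.lt_succ_self _)
    constructor <;> omega
  have h1 := hyp (fun i => ∑ j ∈ θ.support, ((if i = φ (2 * j) then θ j else 0) -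
      (if i = φ (2 * j + 1) then θ j else 0))) m
  rw [n7_sum d φ θ θ.support m hm] at h1
  have h2 : ‖∑ j ∈ θ.support, θ j • (d (φ (2 * j)) - d (φ (2 * j + 1)))‖ ≤ 2 * M + 1 := hθn
  let sg : ℕ → ℝ := fun i => if ∃ j, i = φ (2 * j) then 1 else -1
  have h3 := n7_sum sg φ θ θ.support m hm
  have h4 : ∑ j ∈ θ.support, θ j • (sg (φ (2 * j)) - sg (φ (2 * j + 1))) = 2 * R := by
    have h5 : ∀ j ∈ θ.support, θ j • (sg (φ (2 * j)) - sg (φ (2 * j + 1))) = 2 * θ j := by
      intro j _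
      have ha : sg (φ (2 * j)) = 1 := if_pos ⟨j, rfl⟩
      have hb : sg (φ (2 * j + 1)) = -1 := by
        refine if_neg ?_
        rintro ⟨k, hk⟩
        have := hφ.injective hk
        omega
      rw [ha, hb, smul_eq_mul]
      ring
    rw [Finset.sum_congr rfl h5, ← Finset.mul_sum]
    congr 1
  have h5 : (2 * R : ℝ) ≤ ∑ i ∈ range m, |∑ j ∈ θ.support, ((if i = φ (2 * j) then θ j else 0) -
      (if i = φ (2 * j + 1) then θ j else 0))| := by
    rw [← h4, ← h3]
    refine Finset.sum_le_sum fun i _ => ?_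
    rw [smul_eq_mul]
    have h6 : |sg i| = 1 := by
      simp only [sg]
      split_ifs <;> simp
    calc _ ≤ |(∑ j ∈ θ.support, ((if i = φ (2 * j) then θ j else 0) -
        (if i = φ (2 * j + 1) then θ j else 0))) * sg i| := le_abs_self _
      _ = _ := by rw [abs_mul, h6, mul_one]
  have h6 := mul_le_mul_of_nonneg_left h5 hc.le
  linarith

end Pool.Agent.H182R2.CB
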