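import Pool.Agent.H182R2.CB.NDefs
import Pool.Agent.H182R2.CB.E1_ext

namespace Pool.Agent.H182R2.CB

open Finset

private theorem key {B s : Finset ℕ} {m : ℕ} {h h' : ℕ → Equiv.Perm ℕ}
    (hB : ∀ j < m, ∀ i ∈ B, h j i = i) (hB' : ∀ j < m, ∀ i ∈ B, h' j i = i)
    (hd : ∀ i < m, ∀ j < m, i ≠ j → ∀ a ∈ s \ B, ∀ b ∈ s \ B, h i a ≠ h j b)
    {i j a b : ℕ} (hi : i < m) (hj : j < m) (ha : a ∈ s) (hb : b ∈ s) (e : h i a = h j b) :
    h' i a = h' j b := by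
  by_cases hij : i = j
  · subst hij
    rw [(h i).injective e]
  · by_cases haB : a ∈ B
    · have e1 : h j b = h j a := by rw [← e, hB i hi a haB, hB j hj a haB]
      have e2 : b = a := (h j).injective e1
      subst e2
      rw [hB' i hi b haB, hB' j hj b haB]
    · by_cases hbB : b ∈ B
      · have e1 : h i a = h i b := by rw [e, hB i hi b hbB, hB j hj b hbB]
        have e2 : a = b := (h i).injective e1
        subst e2
        rw [hB' i hi a hbB, hB' j hj a hbB]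
      · exact absurd e (hd i hi j hj hij a (mem_sdiff.2 ⟨ha, haB⟩) b (mem_sdiff.2 ⟨hb, hbB⟩))

theorem R1_sym {X : Type*} [NormedAddCommGroup X] [NormedSpace ℝ X]
    (R : BRep X) (x : X) (B s : Finset ℕ) (hBs : B ⊆ s) (ε : ℝ)
    (hs : ∀ g : Equiv.Perm ℕ, (∀ i ∈ s, g i = i) → ‖R.ρ g x - x‖ ≤ ε) (m : ℕ)
    (h h' : ℕ → Equiv.Perm ℕ) (hB : ∀ j < m, ∀ i ∈ B, h j i = i)
    (hB' : ∀ j < m, ∀ i ∈ B, h' j i = i)
    (hd : ∀ i < m, ∀ j < m, i ≠ j → ∀ a ∈ s \ B, ∀ b ∈ s \ B, h i a ≠ h j b)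
    (hd' : ∀ i < m, ∀ j < m, i ≠ j → ∀ a ∈ s \ B, ∀ b ∈ s \ B, h' i a ≠ h' j b) (θ : ℕ → ℝ) :
    ‖∑ j ∈ range m, θ j • R.ρ (h' j) x‖ ≤
      R.K * ‖∑ j ∈ range m, θ j • R.ρ (h j) x‖ + R.K * ε * ∑ j ∈ range m, |θ j| := by
  classical
  -- the partial injection
  obtain ⟨t, ht⟩ : ∃ t : Finset ℕ, ∀ y, y ∈ t ↔ ∃ j, j < m ∧ ∃ a ∈ s, h j a = y := by
    refine ⟨(range m).biUnion fun j => s.image (h j), fun y => ?_⟩
    simp only [mem_biUnion, mem_range, mem_image]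
  obtain ⟨f, hf⟩ : ∃ f : ℕ → ℕ, ∀ j, j < m → ∀ a ∈ s, f (h j a) = h' j a := by
    have hex : ∀ y, ∃ z, ∀ j, j < m → ∀ a ∈ s, h j a = y → h' j a = z := by
      intro y
      by_cases hy : ∃ j, j < m ∧ ∃ a ∈ s, h j a = y
      · obtain ⟨j, hj, a, ha, e⟩ := hy
        refine ⟨h' j a, fun i hi b hb e' => ?_⟩
        exact key hB hB' hd hi hj hb ha (e'.trans e.symm)
      · refine ⟨0, fun i hi b hb e' => absurd ⟨i, hi, b, hb, e'⟩ hy⟩
    choose f hf using hex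
    exact ⟨f, fun j hj a ha => (hf (h j a) j hj a ha rfl).symm⟩
  have hinj : Set.InjOn f t := by
    intro y1 hy1 y2 hy2 e
    obtain ⟨i, hi, a, ha, rfl⟩ := (ht y1).1 hy1
    obtain ⟨j, hj, b, hb, rfl⟩ := (ht y2).1 hy2
    rw [hf i hi a ha, hf j hj b hb] at e
    exact key hB' hB hd' hi hj ha hb e
  obtain ⟨g, hg⟩ := E1_ext t f hinj
  have hg' : ∀ j, j < m → ∀ a ∈ s, g (h j a) = h' j a := by
    intro j hj a ha
    rw [hg _ ((ht _).2 ⟨j, hj, a, ha, rfl⟩), hf j hj a ha]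
  have hK0 : 0 ≤ R.K := zero_le_one.trans R.hK
  have hterm : ∀ j ∈ range m, ‖R.ρ (h' j) x - R.ρ g (R.ρ (h j) x)‖ ≤ R.K * ε := by
    intro j hj
    rw [mem_range] at hj
    have e1 : R.ρ g (R.ρ (h j) x) = R.ρ (h' j) (R.ρ ((h' j)⁻¹ * (g * h j)) x) := by
      rw [← LinearEquiv.mul_apply, ← LinearEquiv.mul_apply, ← map_mul, ← map_mul,
        mul_inv_cancel_left]
    have e2 : ‖R.ρ ((h' j)⁻¹ * (g * h j)) x - x‖ ≤ ε := by
      apply hs
      intro a ha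
      rw [Equiv.Perm.mul_apply, Equiv.Perm.mul_apply, hg' j hj a ha]
      exact (h' j).symm_apply_apply a
    rw [e1, ← map_sub]
    refine (R.bound _ _).trans ?_
    rw [norm_sub_rev]
    exact mul_le_mul_of_nonneg_left e2 hK0
  have e3 : ∑ j ∈ range m, θ j • R.ρ (h' j) x =
      ∑ j ∈ range m, θ j • (R.ρ (h' j) x - R.ρ g (R.ρ (h j) x)) +
        R.ρ g (∑ j ∈ range m, θ j • R.ρ (h j) x) := by
    rw [map_sum, ← Finset.sum_add_distrib]
    refine Finset.sum_congr rfl fun j _ => ?_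
    rw [map_smul, ← smul_add, sub_add_cancel]
  rw [e3]
  refine (norm_add_le _ _).trans ?_
  have e4 : ‖∑ j ∈ range m, θ j • (R.ρ (h' j) x - R.ρ g (R.ρ (h j) x))‖ ≤
      R.K * ε * ∑ j ∈ range m, |θ j| := by
    rw [Finset.mul_sum]
    refine (norm_sum_le _ _).trans (Finset.sum_le_sum fun j hj => ?_)
    rw [norm_smul, Real.norm_eq_abs, mul_comm]
    exact mul_le_mul_of_nonneg_right (hterm j hj) (abs_nonneg _)
  have e5 := R.bound g (∑ j ∈ range m, θ j • R.ρ (h j) x)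
  linarith

end Pool.Agent.H182R2.CB
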