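import Pool.Agent.H182R2.CB.NDefs
import Pool.Agent.H182R2.CB.R2_claimA
import Pool.Agent.H182R2.CB.E2_family

/-!
# R3_pair: one flat difference
-/

namespace Pool.Agent.H182R2.CB

open Finset Filter Topology

variable {X : Type*} [NormedAddCommGroup X] [NormedSpace ℝ X]

theorem R3_pair (S : SCoord X) (R : BRep X) (x : X) (B s t : Finset ℕ) (hBs : B ⊆ s) (η : ℝ)
    (hη : 0 < η) :
    ∃ h h' : Equiv.Perm ℕ, (∀ i ∈ B, h i = i) ∧ (∀ i ∈ B, h' i = i) ∧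
      (∀ a ∈ s \ B, h a ∉ t) ∧ (∀ a ∈ s \ B, h' a ∉ t) ∧
      (∀ a ∈ s \ B, ∀ b ∈ s \ B, h a ≠ h' b) ∧
      ∀ p, |S.co p (R.ρ h x - R.ρ h' x)| ≤ η := by
  have hK : 0 < R.K := lt_of_lt_of_le one_pos R.hK
  have hε : 0 < η / (6 * R.K) := by positivity
  obtain ⟨s₁, hs₁⟩ := R.cont x (η / (6 * R.K)) hε
  have hBs' : B ⊆ s ∪ s₁ := fun i hi => mem_union_left _ (hBs hi)
  have hs' : ∀ g : Equiv.Perm ℕ, (∀ i ∈ s ∪ s₁, g i = i) → ‖R.ρ g x - x‖ ≤ η / (6 * R.K) :=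
    fun g hg => hs₁ g fun i hi => hg i (mem_union_right _ hi)
  have hsub : ∀ a ∈ s \ B, a ∈ (s ∪ s₁) \ B := by
    intro a ha
    rw [Finset.mem_sdiff] at ha ⊢
    exact ⟨mem_union_left _ ha.1, ha.2⟩
  obtain ⟨h, h1, h2, h3⟩ := E2_family B (s ∪ s₁) t
  obtain ⟨φ, hφ, hosc⟩ := R2_claimA S R x B (s ∪ s₁) hBs' (η / (6 * R.K)) hε hs' h h1 h2
  have hne : φ 0 ≠ φ 1 := (hφ Nat.zero_lt_one).ne
  refine ⟨h (φ 0), h (φ 1), h1 _, h1 _, fun a ha => h3 _ a (hsub a ha),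
    fun a ha => h3 _ a (hsub a ha), fun a ha b hb => h2 _ _ hne a (hsub a ha) b (hsub b hb), ?_⟩
  intro p
  have h4 := hosc 0 1 p
  have h5 : 6 * R.K * (η / (6 * R.K)) = η := by
    field_simp
  rw [h5] at h4
  exact h4

end Pool.Agent.H182R2.CB
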