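import Pool.Agent.H182R2.CB.NDefs
import Pool.Agent.H182R2.CB.R3_pair
import Pool.Agent.H182R2.CB.R1_sym
import Pool.Agent.H182R2.CB.N1_upper

namespace Pool.Agent.H182R2.CB

open Finset

private theorem sum_double {M : Type*} [AddCommGroup M] (F : ℕ → M) (N : ℕ) :
    ∑ i ∈ range (2 * N), F i = ∑ j ∈ range N, (F (2 * j) + F (2 * j + 1)) := by
  induction N with
  | zero => simp
  | succ n ih =>
    rw [show 2 * (n + 1) = 2 * n + 1 + 1 by ring, sum_range_succ, sum_range_succ, ih,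
      sum_range_succ, add_assoc]

theorem R4_claimB {X : Type*} [NormedAddCommGroup X] [NormedSpace ℝ X]
    (S : SCoord X) (R : BRep X) (x : X) (B s : Finset ℕ) (hBs : B ⊆ s) (ε : ℝ)
    (hε : 0 < ε) (hs : ∀ g : Equiv.Perm ℕ, (∀ i ∈ s, g i = i) → ‖R.ρ g x - x‖ ≤ ε) (N : ℕ)
    (k k' : ℕ → Equiv.Perm ℕ) (hB : ∀ j < N, ∀ i ∈ B, k j i = i)
    (hB' : ∀ j < N, ∀ i ∈ B, k' j i = i)
    (hd : ∀ i < N, ∀ j < N, i ≠ j → ∀ a ∈ s \ B, ∀ b ∈ s \ B, k i a ≠ k j b)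
    (hd' : ∀ i < N, ∀ j < N, i ≠ j → ∀ a ∈ s \ B, ∀ b ∈ s \ B, k' i a ≠ k' j b)
    (hdd : ∀ i < N, ∀ j < N, ∀ a ∈ s \ B, ∀ b ∈ s \ B, k i a ≠ k' j b) :
    ‖∑ j ∈ range N, (R.ρ (k j) x - R.ρ (k' j) x)‖ ≤
      R.K * (2 * R.K * ‖x‖ + 1) + 2 * N * R.K * ε := by
  classical
  have hK0 : 0 ≤ R.K := zero_le_one.trans R.hK
  rcases Nat.eq_zero_or_pos N with hN | hN
  · subst hN
    simp only [range_zero, sum_empty, norm_zero, Nat.cast_zero, mul_zero, zero_mul, add_zero]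
    positivity
  have hNR : (0 : ℝ) < N := by exact_mod_cast hN
  -- one step
  have hstep : ∀ (t : Finset ℕ) (β : ℕ), ∃ (h h' : Equiv.Perm ℕ) (b : ℕ),
      (∀ i ∈ B, h i = i) ∧ (∀ i ∈ B, h' i = i) ∧
      (∀ a ∈ s \ B, h a ∉ t) ∧ (∀ a ∈ s \ B, h' a ∉ t) ∧
      (∀ a ∈ s \ B, ∀ b ∈ s \ B, h a ≠ h' b) ∧
      (∀ p, |S.co p (R.ρ h x - R.ρ h' x)| * (β + 1) ≤ 1 / N) ∧
      ∀ F ∈ schreier, (∀ i ∈ F, b ≤ i) → ∑ p ∈ F, |S.co p (R.ρ h x - R.ρ h' x)| ≤ 1 / N := by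
    intro t β
    obtain ⟨h, h', h1, h2, h3, h4, h5, h6⟩ := R3_pair S R x B s t hBs ((1 / N) / (β + 1))
      (by positivity)
    obtain ⟨b, hb⟩ := S.tail (R.ρ h x - R.ρ h' x) (1 / N) (by positivity)
    refine ⟨h, h', b, h1, h2, h3, h4, h5, fun p => ?_, hb⟩
    have := h6 p
    rwa [le_div_iff₀ (by positivity)] at this
  choose H H' Bb hP using hstep
  obtain ⟨st, hst0, hst1⟩ : ∃ st : ℕ → Finset ℕ × ℕ, st 0 = (∅, 0) ∧ ∀ j, st (j + 1) =
      ((st j).1 ∪ s.image (H (st j).1 (st j).2) ∪ s.image (H' (st j).1 (st j).2),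
        max (st j).2 (Bb (st j).1 (st j).2)) :=
    ⟨fun j => Nat.rec (∅, 0) (fun _ p => (p.1 ∪ s.image (H p.1 p.2) ∪ s.image (H' p.1 p.2),
      max p.2 (Bb p.1 p.2))) j, rfl, fun _ => rfl⟩
  obtain ⟨h, hh⟩ : ∃ h : ℕ → Equiv.Perm ℕ, h = fun j => H (st j).1 (st j).2 := ⟨_, rfl⟩
  obtain ⟨h', hh'⟩ : ∃ h' : ℕ → Equiv.Perm ℕ, h' = fun j => H' (st j).1 (st j).2 := ⟨_, rfl⟩
  obtain ⟨b, hbb⟩ : ∃ b : ℕ → ℕ, b = fun j => Bb (st j).1 (st j).2 := ⟨_, rfl⟩
  have hst1' : ∀ j, (st (j + 1)).1 = (st j).1 ∪ s.image (h j) ∪ s.image (h' j) := by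
    intro j
    rw [hst1, hh, hh']
  have hst2' : ∀ j, (st (j + 1)).2 = max (st j).2 (b j) := by
    intro j
    rw [hst1, hbb]
  have hPj : ∀ j, (∀ i ∈ B, h j i = i) ∧ (∀ i ∈ B, h' j i = i) ∧
      (∀ a ∈ s \ B, h j a ∉ (st j).1) ∧ (∀ a ∈ s \ B, h' j a ∉ (st j).1) ∧
      (∀ a ∈ s \ B, ∀ b ∈ s \ B, h j a ≠ h' j b) ∧
      (∀ p, |S.co p (R.ρ (h j) x - R.ρ (h' j) x)| * ((st j).2 + 1) ≤ 1 / N) ∧
      ∀ F ∈ schreier, (∀ i ∈ F, b j ≤ i) →
        ∑ p ∈ F, |S.co p (R.ρ (h j) x - R.ρ (h' j) x)| ≤ 1 / N := by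
    intro j
    rw [hh, hh', hbb]
    exact hP (st j).1 (st j).2
  have hmono : ∀ i j, i ≤ j → (st i).1 ⊆ (st j).1 := by
    intro i j hij
    induction j, hij using Nat.le_induction with
    | base => exact Subset.rfl
    | succ n _ ih =>
      rw [hst1']
      exact ih.trans (subset_union_left.trans subset_union_left)
  have hmono2 : ∀ i j, i ≤ j → (st i).2 ≤ (st j).2 := by
    intro i j hij
    induction j, hij using Nat.le_induction with
    | base => exact le_rfl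
    | succ n _ ih =>
      rw [hst2']
      exact ih.trans (le_max_left _ _)
  have hin : ∀ i j, i < j → ∀ a ∈ s, h i a ∈ (st j).1 := by
    intro i j hij a ha
    apply hmono (i + 1) j hij
    rw [hst1']
    exact mem_union_left _ (mem_union_right _ (mem_image_of_mem _ ha))
  have hin' : ∀ i j, i < j → ∀ a ∈ s, h' i a ∈ (st j).1 := by
    intro i j hij a ha
    apply hmono (i + 1) j hij
    rw [hst1']
    exact mem_union_right _ (mem_image_of_mem _ ha)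
  have hble : ∀ i j, i < j → b i ≤ (st j).2 := by
    intro i j hij
    refine le_trans ?_ (hmono2 (i + 1) j hij)
    rw [hst2']
    exact le_max_right _ _
  have hu : ‖∑ j ∈ range N, (R.ρ (h j) x - R.ρ (h' j) x)‖ ≤ 2 * R.K * ‖x‖ + 1 := by
    refine N1_upper S N (fun j => R.ρ (h j) x - R.ρ (h' j) x) b (2 * R.K * ‖x‖)
      (fun _ => 1 / N) (by positivity) (fun _ => by positivity) ?_ ?_ ?_ ?_
    · rw [sum_const, card_range, nsmul_eq_mul]
      exact le_of_eq (by field_simp)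
    · intro j _
      refine (norm_sub_le _ _).trans ?_
      have e1 := R.bound (h j) x
      have e2 := R.bound (h' j) x
      linarith
    · intro j _ F hF hFb
      exact (hPj j).2.2.2.2.2.2 F hF fun i hi => (hFb i hi).le
    · intro i j hij _ p
      refine le_trans ?_ ((hPj j).2.2.2.2.2.1 p)
      refine mul_le_mul_of_nonneg_left ?_ (abs_nonneg _)
      have : (b i : ℝ) ≤ (st j).2 := by exact_mod_cast hble i j hij
      linarith
  -- separation of the auxiliary permutations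
  have hlt : ∀ i j, i < j → ∀ a ∈ s \ B, ∀ c ∈ s \ B, h i a ≠ h j c ∧ h' i a ≠ h' j c ∧
      h i a ≠ h' j c ∧ h' i a ≠ h j c := by
    intro i j hij a ha c hc
    have ha' := (mem_sdiff.1 ha).1
    refine ⟨fun e => ?_, fun e => ?_, fun e => ?_, fun e => ?_⟩
    · exact (hPj j).2.2.1 c hc (e ▸ hin i j hij a ha')
    · exact (hPj j).2.2.2.1 c hc (e ▸ hin' i j hij a ha')
    · exact (hPj j).2.2.2.1 c hc (e ▸ hin i j hij a ha')
    · exact (hPj j).2.2.1 c hc (e ▸ hin' i j hij a ha')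
  have hne1 : ∀ i j, i ≠ j → ∀ a ∈ s \ B, ∀ c ∈ s \ B, h i a ≠ h j c := by
    intro i j hij a ha c hc
    rcases lt_or_gt_of_ne hij with h1 | h1
    · exact (hlt i j h1 a ha c hc).1
    · exact (hlt j i h1 c hc a ha).1.symm
  have hne2 : ∀ i j, i ≠ j → ∀ a ∈ s \ B, ∀ c ∈ s \ B, h' i a ≠ h' j c := by
    intro i j hij a ha c hc
    rcases lt_or_gt_of_ne hij with h1 | h1
    · exact (hlt i j h1 a ha c hc).2.1
    · exact (hlt j i h1 c hc a ha).2.1.symm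
  have hne3 : ∀ i j, ∀ a ∈ s \ B, ∀ c ∈ s \ B, h i a ≠ h' j c := by
    intro i j a ha c hc
    rcases lt_trichotomy i j with h1 | h1 | h1
    · exact (hlt i j h1 a ha c hc).2.2.1
    · subst h1
      exact (hPj i).2.2.2.2.1 a ha c hc
    · exact (hlt j i h1 c hc a ha).2.2.2.symm
  -- symmetry
  obtain ⟨hh2, hhh⟩ : ∃ F : ℕ → Equiv.Perm ℕ, F = fun i => if i % 2 = 0 then h (i / 2) else
    h' (i / 2) := ⟨_, rfl⟩
  obtain ⟨kk2, hkk⟩ : ∃ F : ℕ → Equiv.Perm ℕ, F = fun i => if i % 2 = 0 then k (i / 2) else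
    k' (i / 2) := ⟨_, rfl⟩
  have hev : ∀ i, (2 * i) % 2 = 0 ∧ (2 * i) / 2 = i := fun i => ⟨by omega, by omega⟩
  have hod : ∀ i, (2 * i + 1) % 2 ≠ 0 ∧ (2 * i + 1) / 2 = i := fun i => ⟨by omega, by omega⟩
  have hcase : ∀ i, ∃ j, i = 2 * j ∨ i = 2 * j + 1 := fun i => ⟨i / 2, by omega⟩
  have e1 : ∀ i, hh2 (2 * i) = h i := by
    intro i
    rw [hhh]
    simp only [(hev i).1, (hev i).2, if_true]
  have e2 : ∀ i, hh2 (2 * i + 1) = h' i := by
    intro i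
    rw [hhh]
    simp only [(hod i).1, (hod i).2, if_false]
  have e3 : ∀ i, kk2 (2 * i) = k i := by
    intro i
    rw [hkk]
    simp only [(hev i).1, (hev i).2, if_true]
  have e4 : ∀ i, kk2 (2 * i + 1) = k' i := by
    intro i
    rw [hkk]
    simp only [(hod i).1, (hod i).2, if_false]
  have hmain := R1_sym R x B s hBs ε hs (2 * N) hh2 kk2 ?_ ?_ ?_ ?_
    (fun i => if i % 2 = 0 then 1 else -1)
  · rw [sum_double, sum_double, sum_double] at hmain
    have s1 : ∑ j ∈ range N, (((if (2 * j) % 2 = 0 then (1 : ℝ) else -1) • R.ρ (kk2 (2 * j)) x) +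
        (if (2 * j + 1) % 2 = 0 then (1 : ℝ) else -1) • R.ρ (kk2 (2 * j + 1)) x) =
        ∑ j ∈ range N, (R.ρ (k j) x - R.ρ (k' j) x) := by
      refine sum_congr rfl fun j _ => ?_
      rw [e3, e4, if_pos (hev j).1, if_neg (hod j).1, one_smul, neg_one_smul, sub_eq_add_neg]
    have s2 : ∑ j ∈ range N, (((if (2 * j) % 2 = 0 then (1 : ℝ) else -1) • R.ρ (hh2 (2 * j)) x) +
        (if (2 * j + 1) % 2 = 0 then (1 : ℝ) else -1) • R.ρ (hh2 (2 * j + 1)) x) =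
        ∑ j ∈ range N, (R.ρ (h j) x - R.ρ (h' j) x) := by
      refine sum_congr rfl fun j _ => ?_
      rw [e1, e2, if_pos (hev j).1, if_neg (hod j).1, one_smul, neg_one_smul, sub_eq_add_neg]
    have s3 : ∑ j ∈ range N, (|if (2 * j) % 2 = 0 then (1 : ℝ) else -1| +
        |if (2 * j + 1) % 2 = 0 then (1 : ℝ) else -1|) = 2 * N := by
      have : ∀ j ∈ range N, (|if (2 * j) % 2 = 0 then (1 : ℝ) else -1| +
        |if (2 * j + 1) % 2 = 0 then (1 : ℝ) else -1|) = 2 := by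
        intro j _
        rw [if_pos (hev j).1, if_neg (hod j).1, abs_neg, abs_one]
        norm_num
      rw [sum_congr rfl this, sum_const, card_range, nsmul_eq_mul, mul_comm]
    rw [s1, s2, s3] at hmain
    refine hmain.trans ?_
    have := mul_le_mul_of_nonneg_left hu hK0
    linarith
  · intro j _ i hi
    obtain ⟨l, rfl | rfl⟩ := hcase j
    · rw [e1]; exact (hPj l).1 i hi
    · rw [e2]; exact (hPj l).2.1 i hi
  · intro j hj i hi
    obtain ⟨l, rfl | rfl⟩ := hcase j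
    · rw [e3]; exact hB l (by omega) i hi
    · rw [e4]; exact hB' l (by omega) i hi
  · intro i _ j _ hij a ha c hc
    obtain ⟨l, rfl | rfl⟩ := hcase i <;> obtain ⟨l', rfl | rfl⟩ := hcase j
    · rw [e1, e1]; exact hne1 l l' (by omega) a ha c hc
    · rw [e1, e2]; exact hne3 l l' a ha c hc
    · rw [e2, e1]; exact (hne3 l' l c hc a ha).symm
    · rw [e2, e2]; exact hne2 l l' (by omega) a ha c hc
  · intro i hi j hj hij a ha c hc
    obtain ⟨l, rfl | rfl⟩ := hcase i <;> obtain ⟨l', rfl | rfl⟩ := hcase j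
    · rw [e3, e3]; exact hd l (by omega) l' (by omega) (by omega) a ha c hc
    · rw [e3, e4]; exact hdd l (by omega) l' (by omega) a ha c hc
    · rw [e4, e3]; exact (hdd l' (by omega) l (by omega) c hc a ha).symm
    · rw [e4, e4]; exact hd' l (by omega) l' (by omega) (by omega) a ha c hc

end Pool.Agent.H182R2.CB
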