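import Pool.Agent.H182R2.CB.NDefs
import Pool.Agent.H182R2.CB.R6_center
import Pool.Agent.H182R2.CB.N1_upper
import Pool.Agent.H182R2.CB.E1_ext

namespace Pool.Agent.H182R2.CB

open Finset Filter Topology Pool.Agent.H182R2.CB

variable {X : Type*} [NormedAddCommGroup X] [NormedSpace ℝ X]

/-- One flat translate. -/
theorem R10_flat [CompleteSpace X] (S : SCoord X) (R : BRep X)
    (hfix : ∀ y : X, (∀ g, R.ρ g y = y) → y = 0) (x : X) (η : ℝ) (hη : 0 < η)
    (s₀ t : Finset ℕ) :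
    ∃ h : Equiv.Perm ℕ, (∀ a ∈ s₀, h a ∉ t) ∧ ∀ p, |S.co p (R.ρ h x)| ≤ η := by
  obtain ⟨y, hy, -, hy2⟩ := R6_center S R x ∅
  have hy0 : y = 0 := hfix y (fun g => hy g (by simp))
  obtain ⟨h, -, h1, h2⟩ := hy2 η hη s₀ t
  refine ⟨h, fun a ha => h1 a (by simpa using ha), fun p => ?_⟩
  have := h2 p
  rwa [hy0, sub_zero] at this

/-- The recursion. -/
theorem R10_rec [CompleteSpace X] (S : SCoord X) (R : BRep X)
    (hfix : ∀ y : X, (∀ g, R.ρ g y = y) → y = 0) (z : ℕ → X) (B : ℕ → Finset ℕ) (n : ℕ) :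
    ∃ (k : ℕ → Equiv.Perm ℕ) (b : ℕ → ℕ), ∀ l < n,
      (∀ a ∈ B l, ∀ l' < l, k l a ∉ (B l').image (k l')) ∧
      (∀ F ∈ schreier, (∀ i ∈ F, b l < i) →
        ∑ p ∈ F, |S.co p (R.ρ (k l) (z l))| ≤ (1 / 2 : ℝ) ^ (l + 1)) ∧
      (∀ i < l, ∀ p, |S.co p (R.ρ (k l) (z l))| * (b i + 1) ≤ (1 / 2 : ℝ) ^ (l + 1)) := by
  induction n with
  | zero => exact ⟨fun _ => 1, fun _ => 0, fun l hl => absurd hl (Nat.not_lt_zero l)⟩
  | succ n ih =>
    obtain ⟨k, b, hkb⟩ := ih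
    set W : ℝ := ((range n).sup b : ℕ) + 1 with hW
    have hW0 : 0 < W := by positivity
    have hp : (0 : ℝ) < (1 / 2 : ℝ) ^ (n + 1) := by positivity
    obtain ⟨h, h1, h2⟩ := R10_flat S R hfix (z n) ((1 / 2 : ℝ) ^ (n + 1) / W)
      (div_pos hp hW0) (B n) ((range n).biUnion (fun l' => (B l').image (k l')))
    obtain ⟨c, hc⟩ := S.tail (R.ρ h (z n)) ((1 / 2 : ℝ) ^ (n + 1)) hp
    refine ⟨Function.update k n h, Function.update b n c, ?_⟩
    intro l hl
    rcases Nat.lt_succ_iff_lt_or_eq.mp hl with hl | rfl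
    · have hne : l ≠ n := hl.ne
      obtain ⟨q1, q2, q3⟩ := hkb l hl
      rw [Function.update_of_ne hne, Function.update_of_ne hne]
      refine ⟨?_, q2, ?_⟩
      · intro a ha l' hl'
        have hne' : l' ≠ n := (lt_trans hl' hl).ne
        rw [Function.update_of_ne hne']
        exact q1 a ha l' hl'
      · intro i hi p
        have hne' : i ≠ n := (lt_trans hi hl).ne
        rw [Function.update_of_ne hne']
        exact q3 i hi p
    · rw [Function.update_self, Function.update_self]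
      refine ⟨?_, ?_, ?_⟩
      · intro a ha l' hl'
        have hne' : l' ≠ l := hl'.ne
        rw [Function.update_of_ne hne']
        intro hmem
        exact h1 a ha (mem_biUnion.mpr ⟨l', mem_range.mpr hl', hmem⟩)
      · intro F hF hFi
        exact hc F hF (fun i hi => (hFi i hi).le)
      · intro i hi p
        have hne' : i ≠ l := hi.ne
        rw [Function.update_of_ne hne']
        have hb : b i ≤ (range l).sup b := le_sup (f := b) (mem_range.mpr hi)
        have hb' : ((b i : ℕ) : ℝ) + 1 ≤ W := by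
          rw [hW]
          have : ((b i : ℕ) : ℝ) ≤ (((range l).sup b : ℕ) : ℝ) := by exact_mod_cast hb
          linarith
        calc |S.co p (R.ρ h (z l))| * ((b i : ℝ) + 1)
            ≤ ((1 / 2 : ℝ) ^ (l + 1) / W) * W :=
              mul_le_mul (h2 p) hb' (by positivity) (by positivity)
          _ = (1 / 2 : ℝ) ^ (l + 1) := div_mul_cancel₀ _ hW0.ne'

theorem R10_geom (m : ℕ) : ∑ j ∈ range m, (1 / 2 : ℝ) ^ (j + 1) ≤ 1 := by
  have h : ∑ j ∈ range m, (1 / 2 : ℝ) ^ (j + 1) = 1 - (1 / 2 : ℝ) ^ m := by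
    induction m with
    | zero => simp
    | succ m ih =>
      rw [sum_range_succ, ih]
      ring
  rw [h]
  have : (0 : ℝ) ≤ (1 / 2 : ℝ) ^ m := by positivity
  linarith

theorem R10_upper [CompleteSpace X] (S : SCoord X) (R : BRep X)
    (hfix : ∀ y : X, (∀ g, R.ρ g y = y) → y = 0) (m : ℕ) (z : ℕ → X) (B : ℕ → Finset ℕ) (M : ℝ)
    (hM0 : 0 ≤ M) (hz : ∀ l < m, ‖z l‖ ≤ M)
    (hzB : ∀ l < m, ∀ g : Equiv.Perm ℕ, (∀ i ∈ B l, g i = i) → R.ρ g (z l) = z l)
    (hd : ∀ l < m, ∀ l' < m, l ≠ l' → Disjoint (B l) (B l')) :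
    ‖∑ l ∈ range m, z l‖ ≤ R.K * (R.K * M + 1) := by
  obtain ⟨k, b, hkb⟩ := R10_rec S R hfix z B m
  have hK0 : 0 ≤ R.K := le_trans zero_le_one R.hK
  have hup : ‖∑ l ∈ range m, R.ρ (k l) (z l)‖ ≤ R.K * M + 1 := by
    refine N1_upper S m (fun l => R.ρ (k l) (z l)) b (R.K * M) (fun j => (1 / 2 : ℝ) ^ (j + 1))
      (mul_nonneg hK0 hM0) (fun j => by positivity) (R10_geom m) ?_ ?_ ?_
    · intro j hj
      exact le_trans (R.bound _ _) (mul_le_mul_of_nonneg_left (hz j hj) hK0)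
    · intro j hj F hF hFi
      exact (hkb j hj).2.1 F hF hFi
    · intro i j hij hj p
      exact (hkb j hj).2.2 i hij p
  classical
  -- the common permutation
  set f : ℕ → ℕ := fun a => if h : ∃ l, l < m ∧ a ∈ B l then k h.choose a else a with hf
  have hfB : ∀ l < m, ∀ a ∈ B l, f a = k l a := by
    intro l hl a ha
    have hex : ∃ l, l < m ∧ a ∈ B l := ⟨l, hl, ha⟩
    have h1 : hex.choose = l := by
      by_contra hne
      exact (Finset.disjoint_left.mp (hd _ hex.choose_spec.1 l hl hne)) hex.choose_spec.2 ha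
    simp only [hf]
    rw [dif_pos hex, h1]
  have himg : ∀ l < m, ∀ l' < m, l' < l → ∀ a ∈ B l, ∀ a' ∈ B l', k l a ≠ k l' a' := by
    intro l hl l' _ hll a ha a' ha' he
    exact (hkb l hl).1 a ha l' hll (mem_image.mpr ⟨a', ha', he.symm⟩)
  have hinj : Set.InjOn f (((range m).biUnion B : Finset ℕ) : Set ℕ) := by
    intro a ha a' ha' he
    rw [mem_coe, mem_biUnion] at ha ha'
    obtain ⟨l, hl, hal⟩ := ha
    obtain ⟨l', hl', hal'⟩ := ha'
    rw [mem_range] at hl hl'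
    rw [hfB l hl a hal, hfB l' hl' a' hal'] at he
    rcases lt_trichotomy l l' with hlt | heq | hgt
    · exact absurd he.symm (himg l' hl' l hl hlt a' hal' a hal)
    · subst heq
      exact (k l).injective he
    · exact absurd he (himg l hl l' hl' hgt a hal a' hal')
  obtain ⟨h, hh⟩ := E1_ext _ f hinj
  have hρ : ∀ l < m, R.ρ h (z l) = R.ρ (k l) (z l) := by
    intro l hl
    have h1 : R.ρ ((k l)⁻¹ * h) (z l) = z l := by
      refine hzB l hl _ ?_
      intro i hi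
      rw [Equiv.Perm.mul_apply, hh i (mem_biUnion.mpr ⟨l, mem_range.mpr hl, hi⟩), hfB l hl i hi]
      exact (k l).symm_apply_apply i
    have h2 : h = k l * ((k l)⁻¹ * h) := by group
    calc R.ρ h (z l) = R.ρ (k l * ((k l)⁻¹ * h)) (z l) := by rw [← h2]
      _ = R.ρ (k l) (R.ρ ((k l)⁻¹ * h) (z l)) := by rw [map_mul]; rfl
      _ = R.ρ (k l) (z l) := by rw [h1]
  have hsum : R.ρ h (∑ l ∈ range m, z l) = ∑ l ∈ range m, R.ρ (k l) (z l) := by
    rw [map_sum]
    exact sum_congr rfl (fun l hl => hρ l (mem_range.mp hl))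
  have hinv : R.ρ h⁻¹ (R.ρ h (∑ l ∈ range m, z l)) = ∑ l ∈ range m, z l := by
    have : R.ρ (h⁻¹ * h) (∑ l ∈ range m, z l) = ∑ l ∈ range m, z l := by
      rw [inv_mul_cancel, map_one]; rfl
    rw [map_mul] at this
    exact this
  calc ‖∑ l ∈ range m, z l‖ = ‖R.ρ h⁻¹ (R.ρ h (∑ l ∈ range m, z l))‖ := by rw [hinv]
    _ ≤ R.K * ‖R.ρ h (∑ l ∈ range m, z l)‖ := R.bound _ _
    _ = R.K * ‖∑ l ∈ range m, R.ρ (k l) (z l)‖ := by rw [hsum]
    _ ≤ R.K * (R.K * M + 1) := mul_le_mul_of_nonneg_left hup hK0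

end Pool.Agent.H182R2.CB
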