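import Pool.Agent.H182R2.CB.NDefs
import Pool.Agent.H182R2.CB.N3_spread

set_option autoImplicit false

namespace Pool.Agent.H182R2.CB

open Finset Filter Topology

theorem R8_geom (m : ℕ) : ∑ l ∈ range m, (1 / 2 : ℝ) ^ (l + 1) ≤ 1 := by
  have h : ∑ l ∈ range m, (1 / 2 : ℝ) ^ (l + 1) = 1 - (1 / 2) ^ m := by
    induction m with
    | zero => simp
    | succ m ih =>
      rw [Finset.sum_range_succ, ih, pow_succ]
      ring
  rw [h]
  have : (0 : ℝ) ≤ (1 / 2) ^ m := by positivity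
  linarith

/-- the upper bound -/
theorem R8_upper {X : Type*} [NormedAddCommGroup X] [NormedSpace ℝ X] (S : SCoord X)
    (m : ℕ) (w : ℕ → X) (b : ℕ → ℕ) (C δ : ℝ) (hC : 0 ≤ C) (hδ : 0 ≤ δ) (hw : ∀ l, ‖w l‖ ≤ C)
    (htail : ∀ l, ∀ F ∈ schreier, (∀ i ∈ F, b l ≤ i) →
      ∑ k ∈ F, |S.co k (w l)| ≤ (1 / 2) ^ (l + 1))
    (hsmall : ∀ l l', l < l' → ∀ F : Finset ℕ, F.card ≤ b l + 1 →
      ∑ k ∈ F, |S.co k (w l')| ≤ δ) :
    ‖∑ l ∈ range m, w l‖ ≤ C + 1 + m * δ := by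
  refine le_of_forall_pos_le_add fun ε hε => ?_
  obtain ⟨F, hF, hle⟩ := S.ge (∑ l ∈ range m, w l) ε hε
  refine hle.trans (add_le_add ?_ le_rfl)
  have h1 : ∑ k ∈ F, |S.co k (∑ l ∈ range m, w l)| ≤
      ∑ l ∈ range m, ∑ k ∈ F, |S.co k (w l)| := by
    rw [Finset.sum_comm]
    refine Finset.sum_le_sum fun k _ => ?_
    rw [map_sum]
    exact Finset.abs_sum_le_sum_abs _ _
  refine h1.trans ?_
  rcases F.eq_empty_or_nonempty with rfl | hne
  · simp only [Finset.sum_empty, Finset.sum_const_zero]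
    positivity
  obtain ⟨p, hp⟩ : ∃ p, p = F.min' hne := ⟨_, rfl⟩
  have hpF : p ∈ F := hp ▸ F.min'_mem hne
  have hpmin : ∀ i ∈ F, p ≤ i := fun i hi => hp ▸ F.min'_le i hi
  have hFc : F.card ≤ p + 1 := hF p hpF
  obtain ⟨l₀, hl₀, hl₀'⟩ : ∃ l₀, (∀ l < l₀, b l ≤ p) ∧ (l₀ < m → p < b l₀) := by
    by_cases h : ∃ l, p < b l
    · refine ⟨Nat.find h, fun l hl => ?_, fun _ => Nat.find_spec h⟩
      exact not_lt.1 (Nat.find_min h hl)
    · push Not at h
      exact ⟨m, fun l _ => h l, fun h' => absurd h' (lt_irrefl _)⟩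
  have h2 : ∀ l ∈ range m, ∑ k ∈ F, |S.co k (w l)| ≤
      (1 / 2 : ℝ) ^ (l + 1) + (if l = l₀ then C else 0) + δ := by
    intro l hl
    have hlm := Finset.mem_range.1 hl
    have hpow : (0 : ℝ) ≤ (1 / 2) ^ (l + 1) := by positivity
    rcases lt_trichotomy l l₀ with h | h | h
    · rw [if_neg h.ne]
      have := htail l F hF (fun i hi => (hl₀ l h).trans (hpmin i hi))
      linarith
    · rw [if_pos h]
      have := (S.le (w l) F hF).trans (hw l)
      linarith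
    · rw [if_neg h.ne']
      have h3 := hl₀' (h.trans hlm)
      have := hsmall l₀ l h F (by omega)
      linarith
  refine (Finset.sum_le_sum h2).trans ?_
  rw [Finset.sum_add_distrib, Finset.sum_add_distrib, Finset.sum_const, Finset.card_range,
    nsmul_eq_mul]
  have h3 : ∑ l ∈ range m, (if l = l₀ then C else 0) ≤ C := by
    rw [Finset.sum_ite_eq']
    split_ifs
    · exact le_rfl
    · exact hC
  have h4 := R8_geom m
  linarith

theorem R8_capture {X : Type*} [NormedAddCommGroup X] [NormedSpace ℝ X]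
    (S : SCoord X) (R : BRep X) (g : Equiv.Perm ℕ) (D : ℕ → X) (M : ℝ)
    (hM : ∀ j, ‖D j‖ ≤ M) (hnull : ∀ p, Tendsto (fun k => S.co p (D k)) atTop (𝓝 0))
    (hbig : ∀ j, ∃ p, 1 / 2 ≤ |S.co p (D j)|) :
    ∃ N : ℕ, ∀ J, ∃ j ≥ J, ∃ G : Finset ℕ, G.card ≤ N ∧
      1 / (8 * R.K) ≤ ∑ k ∈ G, |S.co k (R.ρ g (D j))| := by
  by_contra hcon
  push Not at hcon
  choose J hJ using hcon
  have hK0 : 0 < R.K := by linarith [R.hK]
  have hM0 : 0 ≤ M := (norm_nonneg _).trans (hM 0)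
  have htl : ∀ i j, ∃ n : ℕ, ∀ F ∈ schreier, (∀ i ∈ F, n ≤ i) →
      ∑ k ∈ F, |S.co k (R.ρ g (D j))| ≤ (1 / 2 : ℝ) ^ (i + 1) := fun i j =>
    S.tail _ _ (by positivity)
  choose tl htl using htl
  obtain ⟨ψ, hψ0, hψs⟩ : ∃ ψ : ℕ → ℕ, ψ 0 = 0 ∧
      ∀ i, ψ (i + 1) = max (ψ i + 1) (J (tl i (ψ i) + 1)) :=
    ⟨fun i => Nat.rec 0 (fun i p => max (p + 1) (J (tl i p + 1))) i, rfl, fun i => rfl⟩
  have hψm : StrictMono ψ := strictMono_nat_of_lt_succ fun i => by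
    rw [hψs]
    exact lt_of_lt_of_le (Nat.lt_succ_self _) (le_max_left _ _)
  obtain ⟨m, hm⟩ := exists_nat_gt (8 * (R.K * (R.K * M + 1)))
  have hspread := N3_spread S (fun k => D (ψ k))
    (fun p => (hnull p).comp hψm.tendsto_atTop) (1 / 2) (by norm_num)
    (fun K => ⟨K, le_rfl, hbig _⟩) m 0
  obtain ⟨k, hk, -, hk2⟩ := hspread
  have hlow := hk2 (fun _ => 1)
  simp only [abs_one, Finset.sum_const, Finset.card_range, nsmul_eq_mul, mul_one, one_smul]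
    at hlow
  have hup := R8_upper S m (fun l => R.ρ g (D (ψ (k l)))) (fun l => tl (k l) (ψ (k l)))
    (R.K * M) (1 / (8 * R.K)) (by positivity) (by positivity)
    (fun l => (R.bound g _).trans (mul_le_mul_of_nonneg_left (hM _) hK0.le))
    (fun l F hF hi => by
      refine (htl _ _ F hF hi).trans ?_
      exact pow_le_pow_of_le_one (by norm_num) (by norm_num) (Nat.succ_le_succ (hk.le_apply)))
    (fun l l' hll F hF => by
      refine (hJ (tl (k l) (ψ (k l)) + 1) _ ?_ F hF).le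
      calc J (tl (k l) (ψ (k l)) + 1) ≤ ψ (k l + 1) := by
            rw [hψs]
            exact le_max_right _ _
        _ ≤ ψ (k l') := hψm.monotone (hk hll))
  have hinv : ‖∑ l ∈ range m, D (ψ (k l))‖ ≤
      R.K * ‖∑ l ∈ range m, R.ρ g (D (ψ (k l)))‖ := by
    have h1 : R.ρ g⁻¹ (∑ l ∈ range m, R.ρ g (D (ψ (k l)))) = ∑ l ∈ range m, D (ψ (k l)) := by
      rw [map_sum]
      refine Finset.sum_congr rfl fun l _ => ?_
      rw [← LinearEquiv.mul_apply, ← map_mul, inv_mul_cancel, map_one, LinearEquiv.coe_one, id]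
    rw [← h1]
    exact R.bound _ _
  have h5 : R.K * ‖∑ l ∈ range m, R.ρ g (D (ψ (k l)))‖ ≤
      R.K * (R.K * M + 1 + m * (1 / (8 * R.K))) := mul_le_mul_of_nonneg_left hup hK0.le
  have h6 : R.K * (R.K * M + 1 + m * (1 / (8 * R.K))) = R.K * (R.K * M + 1) + m / 8 := by
    field_simp
  have h7 : (1 / 2 / 2 : ℝ) * m ≤ R.K * (R.K * M + 1) + m / 8 := by
    rw [← h6]
    exact hlow.trans (hinv.trans h5)
  linarith

end Pool.Agent.H182R2.CB
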