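import Pool.Agent.H182R2.CB.NDefs
import Pool.Agent.H182R2.CB.R8_capture
import Pool.Agent.H182R2.CB.N8_weak

/-!
# Task R9_lower (helper840): lower bound for sums of translates
-/

set_option autoImplicit false

namespace Pool.Agent.H182R2.CB

open Finset Filter Topology Pool.Agent.H182R2.CB

variable {X : Type*} [NormedAddCommGroup X] [NormedSpace ℝ X]

theorem R9_lower_rec (S : SCoord X) (m : ℕ) (T : ℕ → ℕ → X) (N : ℕ → ℕ) (c : ℝ) (hc : 0 < c)
    (hnull : ∀ l p, Tendsto (fun j => S.co p (T l j)) atTop (𝓝 0))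
    (hcap : ∀ l J, ∃ j ≥ J, ∃ G : Finset ℕ, G.card ≤ N l ∧ c ≤ ∑ k ∈ G, |S.co k (T l j)|)
    (e : ℝ) (he : 0 < e) (P : ℕ) (hP : ∀ l < m, N l ≤ P) :
    ∀ l, l ≤ m → ∃ (j : ℕ → ℕ) (G : ℕ → Finset ℕ),
      (∀ i < l, (G i).card ≤ N i ∧ (∀ p ∈ G i, P ≤ p) ∧
        3 * c / 4 ≤ ∑ k ∈ G i, |S.co k (T i (j i))|) ∧
      (∀ i < l, ∀ i' < l, i ≠ i' → Disjoint (G i) (G i') ∧
        ∑ k ∈ G i', |S.co k (T i (j i))| ≤ e) := by
  intro l
  induction l with
  | zero => exact fun _ => ⟨fun _ => 0, fun _ => ∅, by simp, by simp⟩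
  | succ l ih =>
    intro hl
    obtain ⟨j, G, h1, h2⟩ := ih (by omega)
    -- tail indices
    have htail : ∀ i, ∃ n : ℕ, ∀ F ∈ schreier, (∀ p ∈ F, n ≤ p) →
        ∑ k ∈ F, |S.co k (T i (j i))| ≤ e := fun i => S.tail _ _ he
    choose n hn using htail
    obtain ⟨Q, hQP, hQG, hQn⟩ : ∃ Q : ℕ, P ≤ Q ∧ (∀ i < l, ∀ p ∈ G i, p < Q) ∧
        ∀ i < l, n i ≤ Q := by
      refine ⟨P + (∑ i ∈ range l, (∑ p ∈ G i, (p + 1))) + ∑ i ∈ range l, n i, by omega, ?_, ?_⟩
      · intro i hi p hp
        have a1 : p + 1 ≤ ∑ p ∈ G i, (p + 1) :=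
          Finset.single_le_sum (f := fun p => p + 1) (fun _ _ => Nat.zero_le _) hp
        have a2 : ∑ p ∈ G i, (p + 1) ≤ ∑ i ∈ range l, (∑ p ∈ G i, (p + 1)) :=
          Finset.single_le_sum (f := fun i => ∑ p ∈ G i, (p + 1)) (fun _ _ => Nat.zero_le _)
            (Finset.mem_range.mpr hi)
        omega
      · intro i hi
        have a2 : n i ≤ ∑ i ∈ range l, n i :=
          Finset.single_le_sum (f := n) (fun _ _ => Nat.zero_le _) (Finset.mem_range.mpr hi)
        omega
    have hlim : Tendsto (fun k => ∑ p ∈ range Q, |S.co p (T l k)|) atTop (𝓝 0) := by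
      have := tendsto_finset_sum (range Q) (fun p _ => (hnull l p).abs)
      simpa using this
    have hev := hlim.eventually (gt_mem_nhds (lt_min (by positivity : 0 < c / 4) he))
    obtain ⟨J, hJ⟩ := eventually_atTop.mp hev
    obtain ⟨j', hj', G', hG', hGc⟩ := hcap l J
    have hsm := hJ j' hj'
    have hsm1 : ∑ p ∈ range Q, |S.co p (T l j')| < c / 4 := hsm.trans_le (min_le_left _ _)
    have hsm2 : ∑ p ∈ range Q, |S.co p (T l j')| < e := hsm.trans_le (min_le_right _ _)
    have hcard : (G'.filter (fun p => Q ≤ p)).card ≤ N l := (card_filter_le _ _).trans hG'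
    have hmemQ : ∀ p ∈ G'.filter (fun p => Q ≤ p), Q ≤ p := fun p hp => (mem_filter.mp hp).2
    have hsch : G'.filter (fun p => Q ≤ p) ∈ schreier := by
      intro i hi
      have a1 := hmemQ i hi
      have a2 := hP l (by omega)
      omega
    refine ⟨fun i => if i = l then j' else j i,
      fun i => if i = l then G'.filter (fun p => Q ≤ p) else G i, ?_, ?_⟩
    · intro i hi
      rcases Nat.lt_succ_iff_lt_or_eq.mp hi with hi | hi
      · have : i ≠ l := hi.ne
        simp only [this, if_false]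
        exact h1 i hi
      · subst hi
        simp only [if_true]
        refine ⟨hcard, fun p hp => hQP.trans (hmemQ p hp), ?_⟩
        have a1 := Finset.sum_filter_add_sum_filter_not G' (fun p => Q ≤ p)
          (fun k => |S.co k (T i j')|)
        have a2 : ∑ k ∈ G'.filter (fun p => ¬ Q ≤ p), |S.co k (T i j')| ≤
            ∑ p ∈ range Q, |S.co p (T i j')| := by
          refine Finset.sum_le_sum_of_subset_of_nonneg ?_ fun _ _ _ => abs_nonneg _
          intro p hp
          rw [mem_range]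
          have := (mem_filter.mp hp).2
          omega
        linarith
    · intro i hi i' hi' hne
      rcases Nat.lt_succ_iff_lt_or_eq.mp hi with hi | hi <;>
        rcases Nat.lt_succ_iff_lt_or_eq.mp hi' with hi' | hi'
      · have b1 : i ≠ l := hi.ne
        have b2 : i' ≠ l := hi'.ne
        simp only [b1, b2, if_false]
        exact h2 i hi i' hi' hne
      · subst hi'
        have b1 : i ≠ i' := hi.ne
        simp only [b1, if_false, if_true]
        refine ⟨?_, ?_⟩
        · rw [Finset.disjoint_left]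
          intro p hp hp'
          have c1 := hQG i hi p hp
          have c2 := hmemQ p hp'
          omega
        · exact hn i _ hsch fun p hp => (hQn i hi).trans (hmemQ p hp)
      · subst hi
        have b1 : i' ≠ i := hi'.ne
        simp only [b1, if_false, if_true]
        refine ⟨?_, ?_⟩
        · rw [Finset.disjoint_left]
          intro p hp hp'
          have c1 := hQG i' hi' p hp'
          have c2 := hmemQ p hp
          omega
        · refine le_trans (Finset.sum_le_sum_of_subset_of_nonneg ?_ fun _ _ _ => abs_nonneg _)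
            hsm2.le
          intro p hp
          rw [mem_range]
          exact hQG i' hi' p hp
      · exact absurd (hi.trans hi'.symm) hne

theorem R9_lower (S : SCoord X) (R : BRep X) (D : ℕ → X) (M : ℝ) (hM : ∀ j, ‖D j‖ ≤ M)
    (hnull : ∀ p, Tendsto (fun k => S.co p (D k)) atTop (𝓝 0))
    (hbig : ∀ j, ∃ p, 1 / 2 ≤ |S.co p (D j)|) (m : ℕ) (g : ℕ → Equiv.Perm ℕ) :
    ∃ j : ℕ → ℕ, m * (1 / (16 * R.K)) ≤ ‖∑ l ∈ range m, R.ρ (g l) (D (j l))‖ := by
  have hK : 0 < R.K := lt_of_lt_of_le zero_lt_one R.hK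
  rcases Nat.eq_zero_or_pos m with hm | hm
  · subst hm
    exact ⟨fun _ => 0, by simp⟩
  have hmR : (0:ℝ) < m := Nat.cast_pos.mpr hm
  have hcap : ∀ l, ∃ N : ℕ, ∀ J, ∃ j ≥ J, ∃ G : Finset ℕ, G.card ≤ N ∧
      1 / (8 * R.K) ≤ ∑ k ∈ G, |S.co k (R.ρ (g l) (D j))| := fun l =>
    R8_capture S R (g l) D M hM hnull hbig
  choose N hN using hcap
  have hweak : ∀ l p, Tendsto (fun j => S.co p (R.ρ (g l) (D j))) atTop (𝓝 0) := by
    intro l p
    have h := N8_weak S D M hM hnull
      ((S.co p).comp ((R.ρ (g l)).toLinearMap.mkContinuous R.K (fun x => R.bound (g l) x)))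
    exact h
  have hc : (0:ℝ) < 1 / (8 * R.K) := by positivity
  obtain ⟨j, G, h1, h2⟩ := R9_lower_rec S m (fun l j => R.ρ (g l) (D j)) N (1 / (8 * R.K)) hc
    hweak hN (1 / (8 * R.K) / (8 * m)) (by positivity) (∑ l ∈ range m, N l)
    (fun l hl => Finset.single_le_sum (f := N) (fun _ _ => Nat.zero_le _)
      (Finset.mem_range.mpr hl)) m le_rfl
  refine ⟨j, ?_⟩
  have hdisj : Set.PairwiseDisjoint (↑(range m)) G := by
    intro i hi i' hi' hne
    exact (h2 i (mem_range.mp (mem_coe.mp hi)) i' (mem_range.mp (mem_coe.mp hi')) hne).1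
  have hF : (range m).biUnion G ∈ schreier := by
    intro p hp
    obtain ⟨i, hi, hpi⟩ := mem_biUnion.mp hp
    have a1 : ((range m).biUnion G).card ≤ ∑ l ∈ range m, (G l).card := card_biUnion_le
    have a2 : ∑ l ∈ range m, (G l).card ≤ ∑ l ∈ range m, N l :=
      Finset.sum_le_sum fun l hl => (h1 l (mem_range.mp hl)).1
    have a3 := (h1 i (mem_range.mp hi)).2.1 p hpi
    omega
  refine le_trans ?_ (S.le _ _ hF)
  rw [Finset.sum_biUnion hdisj]
  have hterm : ∀ i ∈ range m, 1 / (8 * R.K) / 2 ≤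
      ∑ k ∈ G i, |S.co k (∑ l ∈ range m, R.ρ (g l) (D (j l)))| := by
    intro i hi
    have him := mem_range.mp hi
    have hsplit : ∀ k ∈ G i, |S.co k (R.ρ (g i) (D (j i)))| -
        ∑ l ∈ (range m).erase i, |S.co k (R.ρ (g l) (D (j l)))| ≤
        |S.co k (∑ l ∈ range m, R.ρ (g l) (D (j l)))| := by
      intro k _
      rw [← Finset.add_sum_erase _ _ hi, map_add]
      have b1 : |S.co k (∑ l ∈ (range m).erase i, R.ρ (g l) (D (j l)))| ≤
          ∑ l ∈ (range m).erase i, |S.co k (R.ρ (g l) (D (j l)))| := by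
        rw [map_sum]
        exact Finset.abs_sum_le_sum_abs _ _
      have b2 := abs_sub_abs_le_abs_sub (S.co k (R.ρ (g i) (D (j i))))
        (-(S.co k (∑ l ∈ (range m).erase i, R.ρ (g l) (D (j l)))))
      rw [abs_neg, sub_neg_eq_add] at b2
      linarith
    have hsum := Finset.sum_le_sum hsplit
    rw [Finset.sum_sub_distrib, Finset.sum_comm] at hsum
    have hmain := (h1 i him).2.2
    have hoff : ∑ l ∈ (range m).erase i, ∑ k ∈ G i, |S.co k (R.ρ (g l) (D (j l)))| ≤
        1 / (8 * R.K) / 8 := by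
      calc ∑ l ∈ (range m).erase i, ∑ k ∈ G i, |S.co k (R.ρ (g l) (D (j l)))|
          ≤ ∑ l ∈ (range m).erase i, 1 / (8 * R.K) / (8 * m) := by
            refine Finset.sum_le_sum fun l hl => ?_
            have hl' := Finset.mem_erase.mp hl
            exact (h2 l (mem_range.mp hl'.2) i him hl'.1).2
        _ ≤ ∑ l ∈ range m, 1 / (8 * R.K) / (8 * m) :=
            Finset.sum_le_sum_of_subset_of_nonneg (Finset.erase_subset _ _)
              fun _ _ _ => by positivity
        _ = 1 / (8 * R.K) / 8 := by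
            rw [Finset.sum_const, card_range, nsmul_eq_mul]
            field_simp
    have hmain' : 3 * (1 / (8 * R.K)) / 4 ≤ ∑ k ∈ G i, |S.co k (R.ρ (g i) (D (j i)))| := hmain
    generalize 1 / (8 * R.K) = c at *
    linarith
  calc (m:ℝ) * (1 / (16 * R.K)) = ∑ i ∈ range m, 1 / (8 * R.K) / 2 := by
        rw [Finset.sum_const, card_range, nsmul_eq_mul]
        field_simp
        norm_num
    _ ≤ _ := Finset.sum_le_sum hterm

end Pool.Agent.H182R2.CB
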