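import Pool.Agent.H182R2.CB.NDefs

namespace Pool.Agent.H182R2.CB

open Finset Filter Topology

private theorem S1_eq : {χ : ℕ → Bool | ∃ F ∈ schreier, ∀ i, χ i = true ↔ i ∈ F} =
    ⋂ F ∈ {F : Finset ℕ | F ∉ schreier}, {χ : ℕ → Bool | ∃ i ∈ F, χ i = false} := by
  ext χ
  simp only [Set.mem_ofPred_eq, Set.mem_iInter]
  constructor
  · rintro ⟨F₀, hF₀, hχ⟩ F hF
    by_contra hcon
    push Not at hcon
    apply hF
    have hsub : F ⊆ F₀ := by
      intro i hi
      rw [← hχ i]
      have := hcon i hi
      simpa using this
    intro i hi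
    exact (Finset.card_le_card hsub).trans (hF₀ i (hsub hi))
  · intro h
    have hs : ∀ F : Finset ℕ, (∀ i ∈ F, χ i = true) → F ∈ schreier := by
      intro F hF
      by_contra hcon
      obtain ⟨i, hi, h0⟩ := h F hcon
      rw [hF i hi] at h0
      exact Bool.noConfusion h0
    have hfin : {i | χ i = true}.Finite := by
      by_contra hinf
      have hinf : {i | χ i = true}.Infinite := hinf
      obtain ⟨p, hp⟩ := hinf.nonempty
      obtain ⟨t, ht, htc⟩ := hinf.exists_subset_card_eq (p + 2)
      have h1 := hs (insert p t) (by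
        intro i hi
        rcases Finset.mem_insert.mp hi with rfl | hi
        · exact hp
        · exact ht hi) p (Finset.mem_insert_self p t)
      have h2 := Finset.card_le_card (Finset.subset_insert p t)
      omega
    refine ⟨hfin.toFinset, hs _ ?_, ?_⟩
    · intro i hi
      simpa using hi
    · intro i
      simp

theorem S1_regular : IsRegularFamily schreier ∧ ∀ n, ({n} : Finset ℕ) ∈ schreier := by
  refine ⟨⟨?_, ?_, ?_⟩, ?_⟩
  · intro F hF G hG i hi
    exact (Finset.card_le_card hG).trans (hF i (hG hi))
  · intro F hF φ _ hφ j hj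
    obtain ⟨i, hi, rfl⟩ := Finset.mem_image.mp hj
    have h1 : (F.image φ).card ≤ F.card := Finset.card_image_le
    have h2 := hF i hi
    have h3 := hφ i hi
    omega
  · rw [S1_eq]
    apply IsClosed.isCompact
    apply isClosed_biInter
    intro F _
    have : {χ : ℕ → Bool | ∃ i ∈ F, χ i = false} = ⋃ i ∈ F, {χ : ℕ → Bool | χ i = false} := by
      ext χ
      simp
    rw [this]
    apply isClosed_biUnion_finset
    intro i _
    exact isClosed_eq (continuous_apply i) continuous_const
  · intro n i hi
    have : i = n := by simpa using hi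
    simp

end Pool.Agent.H182R2.CB
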