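import Pool.Agent.H182R2.CB.NDefs
import Pool.Agent.H182R2.CB.S1
import Pool.Agent.H182R2.CB.C1

/-!
S2: coordinates on the Schreier space.
-/

namespace Pool.Agent.H182R2.CB

open Finset Filter Topology

theorem S2_coord {X : Type*} [NormedAddCommGroup X] [NormedSpace ℝ X] {e : ℕ → X}
    (hX : IsCombinatorialSpace schreier X e) : Nonempty (SCoord X) := by
  obtain ⟨h, hs⟩ := S1_regular
  obtain ⟨coord, h1, h2, h3, h4⟩ := C1_coord h hs hX
  refine ⟨⟨coord, e, h1, ?_, h2, h3, ?_⟩⟩
  · intro k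
    obtain ⟨F, -, hF, hn⟩ := (C0_norm h hs hX (Finsupp.single k 1)).2
    rw [Finsupp.linearCombination_single, one_smul] at hn
    rw [hn]
    have hF1 : F ⊆ {k} := hF.trans Finsupp.support_single_subset
    refine (Finset.sum_le_sum_of_subset_of_nonneg hF1 (fun _ _ _ => abs_nonneg _)).trans ?_
    rw [Finset.sum_singleton, Finsupp.single_eq_same, abs_one]
  · intro x ε hε
    obtain ⟨s, hs'⟩ := h4 x ε hε
    refine ⟨s.sup id + 1, fun F hF hi => hs' F hF ?_⟩
    rw [Finset.disjoint_left]
    intro i hiF his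
    have h5 := hi i hiF
    have h6 : i ≤ s.sup id := Finset.le_sup (f := id) his
    omega

end Pool.Agent.H182R2.CB
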