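import Pool.Agent.H182R2.CB.NDefs

namespace Pool.Agent.H182R2.CB

theorem S3_separable {𝓕 : Set (Finset ℕ)} {X : Type*} [NormedAddCommGroup X] [NormedSpace ℝ X]
    {e : ℕ → X} (hX : IsCombinatorialSpace 𝓕 X e) : TopologicalSpace.SeparableSpace X := by
  have h1 : TopologicalSpace.IsSeparable (Set.range e) := (Set.countable_range e).isSeparable
  have h2 : TopologicalSpace.IsSeparable (Submodule.span ℝ (Set.range e) : Set X) := h1.span
  have h3 : TopologicalSpace.IsSeparable (Set.univ : Set X) := by
    have h4 := h2.closure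
    rw [hX.dense.closure_eq] at h4
    exact h4
  exact TopologicalSpace.isSeparable_univ_iff.mp h3

end Pool.Agent.H182R2.CB
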