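import Pool.Agent.H182R2.CB.NDefs
import Pool.Agent.H182R2.CB.S2
import Pool.Agent.H182R2.CB.S3
import Pool.Agent.H182R2.CB.R11_fixed
import Pool.Agent.H182R2.CB.AC7_rep
import Pool.Agent.H182R2.CB.F1_closed
import Pool.Agent.H182R2.CB.F2_struct
import Pool.Agent.H182R2.CB.F3_flip

namespace Pool.Agent.H182R2.CB

open Pool.Agent.H182R2.CB

theorem nuPerm_mem : nuPerm ∈ signedPerm := F1_closed.2.1

/-- A group all of whose nontrivial central involutions are the image of the sign change under a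
homomorphism from the group of signed permutations is not displayable on the Schreier space. -/
theorem F4_gen {X : Type*} [NormedAddCommGroup X] [NormedSpace ℝ X] [CompleteSpace X]
    {e : ℕ → X} (hX : IsCombinatorialSpace schreier X e) {Γ : Type*} [Group Γ]
    (κ : signedPerm →* Γ)
    (hκ : ∀ c : Γ, (∀ g, c * g = g * c) → c * c = 1 → c ≠ 1 → c = κ ⟨nuPerm, nuPerm_mem⟩) :
    ¬ Displayable X Γ := by
  rintro ⟨N, ⟨m, M, hm, hN⟩, ⟨f⟩⟩
  obtain ⟨S⟩ := S2_coord hX
  have hsep : TopologicalSpace.SeparableSpace X := S3_separable hX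
  obtain ⟨ι, τ, h1, h2, h3, -⟩ := F2_struct
  -- minus the identity
  have hnegN : ∀ x, N ((LinearEquiv.neg ℝ : X ≃ₗ[ℝ] X) x) = N x := by
    intro x
    simp
  set c : Γ := f.symm ⟨LinearEquiv.neg ℝ, hnegN⟩ with hc
  have hfc : f c = ⟨LinearEquiv.neg ℝ, hnegN⟩ := by rw [hc, MulEquiv.apply_symm_apply]
  have hcc : ∀ g, c * g = g * c := by
    intro g
    apply f.injective
    rw [map_mul, map_mul, hfc]
    apply Subtype.ext
    apply LinearEquiv.ext
    intro x
    show -((f g : X ≃ₗ[ℝ] X) x) = (f g : X ≃ₗ[ℝ] X) (-x)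
    rw [map_neg]
  have hc2 : c * c = 1 := by
    apply f.injective
    rw [map_mul, hfc, map_one]
    apply Subtype.ext
    apply LinearEquiv.ext
    intro x
    show -(-x) = x
    rw [neg_neg]
  have hne0 : S.u 0 ≠ 0 := by
    intro h0
    have := S.co_u 0 0
    rw [h0, map_zero] at this
    simp at this
  have hc1 : c ≠ 1 := by
    intro h
    rw [h, map_one] at hfc
    have h5 : (1 : X ≃ₗ[ℝ] X) = LinearEquiv.neg ℝ := congrArg Subtype.val hfc
    have h6 : S.u 0 = -S.u 0 := by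
      have := congrArg (fun T : X ≃ₗ[ℝ] X => T (S.u 0)) h5
      simpa using this
    have h7 : (2 : ℝ) • S.u 0 = 0 := by
      rw [two_smul]
      nth_rewrite 1 [h6]
      simp
    rcases smul_eq_zero.mp h7 with h8 | h8
    · norm_num at h8
    · exact hne0 h8
  have hτ : τ Set.univ = ⟨nuPerm, nuPerm_mem⟩ := Subtype.ext h3
  have hcτ : c = κ (τ Set.univ) := by rw [hτ]; exact hκ c hcc hc2 hc1
  -- the representation
  set ρ : Γ →* (X ≃ₗ[ℝ] X) := (isomGroup X N).subtype.comp f.toMonoidHom with hρ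
  have hρN : ∀ g x, N (ρ g x) = N x := fun g x => (f g).2 x
  have hM0 : 0 < M := by
    have h5 := hN (S.u 0)
    have h6 : 0 < ‖S.u 0‖ := norm_pos_iff.mpr hne0
    by_contra hneg
    push Not at hneg
    have h7 : M * ‖S.u 0‖ ≤ 0 := mul_nonpos_of_nonpos_of_nonneg hneg h6.le
    have h8 : 0 < m * ‖S.u 0‖ := by positivity
    linarith [h5.1, h5.2]
  set K : ℝ := max 1 (M / m) with hK
  have hK1 : 1 ≤ K := le_max_left _ _
  have hb : ∀ g x, ‖ρ g x‖ ≤ K * ‖x‖ := by
    intro g x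
    have h5 := (hN (ρ g x)).1
    rw [hρN] at h5
    have h6 := (hN x).2
    have h7 : ‖ρ g x‖ ≤ M / m * ‖x‖ := by
      rw [div_mul_eq_mul_div, le_div_iff₀ hm]
      linarith
    exact h7.trans (mul_le_mul_of_nonneg_right (le_max_right _ _) (norm_nonneg _))
  let R : BRep X :=
    { ρ := ρ.comp (κ.comp ι)
      K := K
      hK := hK1
      bound := fun g x => hb (κ (ι g)) x
      cont := fun x ε hε =>
        AC7_rep (ρ.comp (κ.comp ι)) K hK1 (fun g x => hb (κ (ι g)) x) x ε hε }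
  obtain ⟨y, hy0, hy⟩ := R11_fixed S R
  apply hy0
  refine F3_flip (κ.comp ι) (fun A => κ (τ A)) ?_ ?_ ρ K hK1 hb y (fun π => hy π) ?_
  · intro π A
    show κ (ι π) * κ (τ A) * (κ (ι π))⁻¹ = κ (τ (π '' A))
    rw [← map_mul, ← map_inv, ← map_mul, h1]
  · intro A B
    show κ (τ A) * κ (τ B) = κ (τ (symmDiff A B))
    rw [← map_mul, h2]
  · show ρ (κ (τ Set.univ)) y = -y
    rw [← hcτ]
    show (f c : X ≃ₗ[ℝ] X) y = -y
    rw [hfc]
    rfl

theorem F4_main {X : Type*} [NormedAddCommGroup X] [NormedSpace ℝ X] [CompleteSpace X]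
    {e : ℕ → X} (hX : IsCombinatorialSpace schreier X e) : ¬ Displayable X signedPerm := by
  apply F4_gen hX (MonoidHom.id _)
  intro c hc _ hc1
  obtain ⟨ι, τ, -, -, h3, h4⟩ := F2_struct
  have hτ : τ Set.univ = ⟨nuPerm, nuPerm_mem⟩ := Subtype.ext h3
  have := (h4 c hc).resolve_left hc1
  rw [this, hτ]
  rfl

end Pool.Agent.H182R2.CB
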