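import Pool.Agent.H182R2.CB.Defs

/-! X1: the dilated family is regular (helper959). -/

namespace Pool.Agent.H182R2.CB

open Finset

private theorem X1_mem {n : ℕ} (hn : 1 ≤ n) (F : Finset ℕ) (i : ℕ) :
    n * i ∈ F.image (fun k => n * k) ↔ i ∈ F := by
  rw [Finset.mem_image]
  constructor
  · rintro ⟨k, hk, hki⟩
    have : k = i := Nat.eq_of_mul_eq_mul_left (by omega) hki
    rwa [← this]
  · intro hi
    exact ⟨i, hi, rfl⟩

private theorem X1_compact {𝓕 : Set (Finset ℕ)}
    (h : IsCompact {χ : ℕ → Bool | ∃ F ∈ 𝓕, ∀ i, χ i = true ↔ i ∈ F}) (n : ℕ) (hn : 1 ≤ n) :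
    IsCompact {χ : ℕ → Bool | ∃ F ∈ dil n 𝓕, ∀ i, χ i = true ↔ i ∈ F} := by
  let Φ : (ℕ → Bool) → (ℕ → Bool) := fun χ m => if n ∣ m then χ (m / n) else false
  have hΦ : Continuous Φ := by
    refine continuous_pi fun m => ?_
    by_cases hm : n ∣ m
    · have : (fun χ : ℕ → Bool => Φ χ m) = fun χ => χ (m / n) := by
        funext χ
        simp only [Φ, if_pos hm]
      rw [this]
      exact continuous_apply _
    · have : (fun χ : ℕ → Bool => Φ χ m) = fun _ => false := by
        funext χ
        simp only [Φ, if_neg hm]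
      rw [this]
      exact continuous_const
  have heq : {χ : ℕ → Bool | ∃ F ∈ dil n 𝓕, ∀ i, χ i = true ↔ i ∈ F} =
      Φ ⁻¹' {χ : ℕ → Bool | ∃ F ∈ 𝓕, ∀ i, χ i = true ↔ i ∈ F} := by
    ext χ
    constructor
    · rintro ⟨F, hF, hχ⟩
      refine ⟨F.image (fun k => n * k), hF, fun m => ?_⟩
      by_cases hm : n ∣ m
      · obtain ⟨i, rfl⟩ := hm
        have : Φ χ (n * i) = χ i := by
          simp only [Φ, if_pos (Dvd.intro i rfl), Nat.mul_div_cancel_left i (by omega : 0 < n)]
        rw [this, X1_mem hn, hχ]
      · have : Φ χ m = false := by simp only [Φ, if_neg hm]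
        rw [this, Finset.mem_image]
        constructor
        · intro h0
          exact absurd h0 (by decide)
        · rintro ⟨k, _, hk⟩
          exact absurd (Dvd.intro k hk) hm
    · rintro ⟨F', hF', hχ⟩
      have hdiv : ∀ m ∈ F', n ∣ m := by
        intro m hm
        by_contra hnd
        have h1 := (hχ m).2 hm
        simp only [Φ, if_neg hnd] at h1
        exact absurd h1 (by decide)
      have himg : (F'.image (fun m => m / n)).image (fun k => n * k) = F' := by
        rw [Finset.image_image]
        have : ∀ m ∈ F', ((fun k => n * k) ∘ fun m => m / n) m = m := by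
          intro m hm
          exact Nat.mul_div_cancel' (hdiv m hm)
        rw [Finset.image_congr this]
        exact Finset.image_id'
      refine ⟨F'.image (fun m => m / n), ?_, fun i => ?_⟩
      · show (F'.image (fun m => m / n)).image (fun k => n * k) ∈ 𝓕
        rw [himg]
        exact hF'
      · have h1 : Φ χ (n * i) = χ i := by
          simp only [Φ, if_pos (Dvd.intro i rfl), Nat.mul_div_cancel_left i (by omega : 0 < n)]
        rw [← h1, hχ, ← X1_mem hn (F'.image (fun m => m / n)) i, himg]
  rw [heq]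
  exact (h.isClosed.preimage hΦ).isCompact

/-- X1. -/
theorem X1_dil {𝓕 : Set (Finset ℕ)} (h : IsRegularFamily 𝓕) (hs : ∀ n, {n} ∈ 𝓕) (n : ℕ)
    (hn : 1 ≤ n) : IsRegularFamily (dil n 𝓕) ∧ ∀ k, {k} ∈ dil n 𝓕 := by
  refine ⟨⟨?_, ?_, X1_compact h.compact n hn⟩, ?_⟩
  · intro F hF G hG
    exact h.hereditary _ hF _ (Finset.image_subset_image hG)
  · intro F hF φ hφ hle
    have h1 : (F.image (fun k => n * k)).image (fun m => n * φ (m / n)) ∈ 𝓕 := by
      apply h.spreading _ hF
      · intro a ha b hb hab
        rw [Finset.mem_coe, Finset.mem_image] at ha hb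
        obtain ⟨i, hi, rfl⟩ := ha
        obtain ⟨j, hj, rfl⟩ := hb
        show n * φ (n * i / n) < n * φ (n * j / n)
        rw [Nat.mul_div_cancel_left i (by omega : 0 < n), Nat.mul_div_cancel_left j (by omega : 0 < n)]
        have hij : i < j := Nat.lt_of_mul_lt_mul_left hab
        exact Nat.mul_lt_mul_of_pos_left (hφ hi hj hij) (by omega)
      · intro m hm
        rw [Finset.mem_image] at hm
        obtain ⟨i, hi, rfl⟩ := hm
        show n * i ≤ n * φ (n * i / n)
        rw [Nat.mul_div_cancel_left i (by omega : 0 < n)]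
        exact Nat.mul_le_mul_left n (hle i hi)
    have h2 : (F.image (fun k => n * k)).image (fun m => n * φ (m / n)) =
        (F.image φ).image (fun k => n * k) := by
      rw [Finset.image_image, Finset.image_image]
      refine Finset.image_congr fun i _ => ?_
      show n * φ (n * i / n) = n * φ i
      rw [Nat.mul_div_cancel_left i (by omega : 0 < n)]
    rw [h2] at h1
    exact h1
  · intro k
    show ({k} : Finset ℕ).image (fun k => n * k) ∈ 𝓕
    rw [Finset.image_singleton]
    exact hs _

end Pool.Agent.H182R2.CB
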