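import Pool.Agent.H182R2.CB.Defs

set_option autoImplicit false

namespace Pool.Agent.H182R2.CB

theorem X2_sum_le (a : ℕ →₀ ℝ) (F : Finset ℕ) :
    ∑ k ∈ F, |a k| ≤ ∑ k ∈ a.support, |a k| := by
  classical
  calc ∑ k ∈ F, |a k| ≤ ∑ k ∈ F ∪ a.support, |a k| :=
        Finset.sum_le_sum_of_subset_of_nonneg Finset.subset_union_left
          (fun _ _ _ => abs_nonneg _)
    _ = ∑ k ∈ a.support, |a k| := by
        symm
        apply Finset.sum_subset Finset.subset_union_right
        intro k _ hk
        rw [Finsupp.notMem_support_iff.mp hk, abs_zero]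

theorem X2_bdd (𝓕 : Set (Finset ℕ)) (a : ℕ →₀ ℝ) :
    BddAbove (Set.range fun F : 𝓕 => ∑ k ∈ (F : Finset ℕ), |a k|) :=
  ⟨∑ k ∈ a.support, |a k|, by rintro _ ⟨F, rfl⟩; exact X2_sum_le a F⟩

theorem X2_inj {n : ℕ} (hn : 1 ≤ n) : Function.Injective (fun k : ℕ => n * k) := by
  intro a b h
  exact Nat.eq_of_mul_eq_mul_left (by omega) h

/-- X2. -/
theorem X2_sub {𝓕 : Set (Finset ℕ)} (h : IsRegularFamily 𝓕) (hs : ∀ n, {n} ∈ 𝓕) (n : ℕ)
    (hn : 1 ≤ n) {X : Type*} [NormedAddCommGroup X] [NormedSpace ℝ X] [CompleteSpace X]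
    {e : ℕ → X} (hX : IsCombinatorialSpace 𝓕 X e) :
    ∃ (Y : Submodule ℝ X) (e' : ℕ → Y), IsClosed (Y : Set X) ∧
      IsCombinatorialSpace (dil n 𝓕) Y e' := by
  classical
  set f : ℕ → X := fun k => e (n * k) with hf
  set S : Submodule ℝ X := Submodule.span ℝ (Set.range f) with hS
  have hmem : ∀ k, f k ∈ S.topologicalClosure := fun k =>
    S.le_topologicalClosure (Submodule.subset_span ⟨k, rfl⟩)
  have hinj := X2_inj hn
  have hempty : ∅ ∈ 𝓕 := h.hereditary _ (hs 0) _ (Finset.empty_subset _)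
  haveI : Nonempty 𝓕 := ⟨⟨∅, hempty⟩⟩
  haveI : Nonempty (dil n 𝓕) := ⟨⟨∅, by simpa [dil] using hempty⟩⟩
  refine ⟨S.topologicalClosure, fun k => ⟨f k, hmem k⟩, S.isClosed_topologicalClosure, ?_, ?_⟩
  · intro a
    set b : ℕ →₀ ℝ := a.mapDomain (fun k => n * k) with hb
    have hba : ∀ k, b (n * k) = a k := fun k => Finsupp.mapDomain_apply hinj a k
    have hb0 : ∀ m, m ∉ Set.range (fun k : ℕ => n * k) → b m = 0 := fun m hm =>
      Finsupp.mapDomain_notin_range a m hm
    have h1 : ((Finsupp.linearCombination ℝ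
        (fun k => (⟨f k, hmem k⟩ : S.topologicalClosure)) a : S.topologicalClosure) : X)
        = Finsupp.linearCombination ℝ e b := by
      have h2 := Finsupp.apply_linearCombination ℝ (S.topologicalClosure.subtype)
        (fun k => (⟨f k, hmem k⟩ : S.topologicalClosure)) a
      rw [hb, Finsupp.linearCombination_mapDomain]
      exact h2
    have h3 : ‖Finsupp.linearCombination ℝ
        (fun k => (⟨f k, hmem k⟩ : S.topologicalClosure)) a‖
        = ‖Finsupp.linearCombination ℝ e b‖ := by
      rw [← h1]; rfl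
    rw [h3, hX.norm_eq]
    apply le_antisymm
    · apply ciSup_le
      rintro ⟨F, hF⟩
      have hpre : F.preimage (fun k => n * k) hinj.injOn ∈ dil n 𝓕 := by
        apply h.hereditary F hF
        intro m hm
        rw [Finset.mem_image] at hm
        obtain ⟨k, hk, rfl⟩ := hm
        exact Finset.mem_preimage.mp hk
      have hsum : ∑ k ∈ F.preimage (fun k => n * k) hinj.injOn, |a k| = ∑ m ∈ F, |b m| := by
        have := Finset.sum_preimage (fun k : ℕ => n * k) F hinj.injOn (fun m => |b m|)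
          (fun m _ hm => by rw [hb0 m hm, abs_zero])
        rw [← this]
        exact Finset.sum_congr rfl fun k _ => by rw [hba]
      show ∑ m ∈ F, |b m| ≤ _
      rw [← hsum]
      exact le_ciSup (X2_bdd (dil n 𝓕) a)
        (⟨F.preimage (fun k => n * k) hinj.injOn, hpre⟩ : dil n 𝓕)
    · apply ciSup_le
      rintro ⟨F, hF⟩
      have hsum : ∑ m ∈ F.image (fun k => n * k), |b m| = ∑ k ∈ F, |a k| := by
        rw [Finset.sum_image (fun x _ y _ hxy => hinj hxy)]
        exact Finset.sum_congr rfl fun k _ => by rw [hba]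
      show ∑ k ∈ F, |a k| ≤ _
      rw [← hsum]
      exact le_ciSup (X2_bdd 𝓕 b) (⟨F.image (fun k => n * k), hF⟩ : 𝓕)
  · intro y
    rw [closure_subtype]
    have himg : ((↑) : S.topologicalClosure → X) ''
        (Submodule.span ℝ (Set.range fun k => (⟨f k, hmem k⟩ : S.topologicalClosure)) :
          Set S.topologicalClosure) = (S : Set X) := by
      have h1 := Submodule.map_span (S.topologicalClosure.subtype)
        (Set.range fun k => (⟨f k, hmem k⟩ : S.topologicalClosure))
      have h2 : (S.topologicalClosure.subtype) ''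
          (Set.range fun k => (⟨f k, hmem k⟩ : S.topologicalClosure)) = Set.range f := by
        rw [← Set.range_comp]
        rfl
      rw [h2] at h1
      have h3 := congrArg (fun T : Submodule ℝ X => (T : Set X)) h1
      rw [Submodule.map_coe] at h3
      exact h3
    rw [himg]
    exact y.2

end Pool.Agent.H182R2.CB
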