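import Pool.Agent.H182R2.CB.Defs
import Pool.Agent.H182R2.CB.C0
import Pool.Agent.H182R2.CB.C2
import Pool.Agent.H182R2.CB.X1

/-!
# X3: a combinatorial space is a power of the dilated one, as the odd functions
-/

namespace Pool.Agent.H182R2.CB

open Finset Pool.Agent.H182R2.CB

/-- Spreading for increasing enumerations. -/
theorem X3_spread {𝓕 : Set (Finset ℕ)} (h : IsRegularFamily 𝓕) {m : ℕ} (g f : Fin m → ℕ)
    (hg : StrictMono g) (hf : StrictMono f) (hle : ∀ j, g j ≤ f j)
    (hG : Finset.univ.image g ∈ 𝓕) : Finset.univ.image f ∈ 𝓕 := by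
  have h1 := h.spreading _ hG (Function.extend g f id) ?_ ?_
  · have : Finset.univ.image f = (Finset.univ.image g).image (Function.extend g f id) := by
      ext x
      simp only [Finset.mem_image, Finset.mem_univ, true_and, exists_exists_eq_and,
        hg.injective.extend_apply]
    rw [this]
    exact h1
  · intro x hx y hy hxy
    simp only [Finset.coe_image, Finset.coe_univ, Set.image_univ, Set.mem_range] at hx hy
    obtain ⟨a, rfl⟩ := hx
    obtain ⟨b, rfl⟩ := hy
    rw [hg.injective.extend_apply, hg.injective.extend_apply]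
    exact hf (hg.lt_iff_lt.1 hxy)
  · intro x hx
    simp only [Finset.mem_image, Finset.mem_univ, true_and] at hx
    obtain ⟨a, rfl⟩ := hx
    rw [hg.injective.extend_apply]
    exact hle a

theorem X3_phi_inj (n : ℕ) (hn : 1 ≤ n) (i : ℕ) : Function.Injective (fun k : ℕ => n * k + i) := by
  intro a b hab
  simp only [add_left_inj] at hab
  exact Nat.eq_of_mul_eq_mul_left hn hab

/-- The bound for `S i`. -/
theorem X3_S_bound {𝓕 : Set (Finset ℕ)} (h : IsRegularFamily 𝓕) (hs : ∀ n, {n} ∈ 𝓕) (n : ℕ)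
    (hn : 1 ≤ n) {X : Type*} [NormedAddCommGroup X] [NormedSpace ℝ X]
    {e : ℕ → X} (hX : IsCombinatorialSpace 𝓕 X e) {Y : Type*} [NormedAddCommGroup Y]
    [NormedSpace ℝ Y] {e' : ℕ → Y} (hY : IsCombinatorialSpace (dil n 𝓕) Y e')
    (i : ℕ) (hi : i < n) (a : ℕ →₀ ℝ) :
    ‖Finsupp.linearCombination ℝ (fun k => e (n * k + i)) a‖ ≤
      2 * ‖Finsupp.linearCombination ℝ e' a‖ := by
  classical
  obtain ⟨hd, hds⟩ := X1_dil h hs n hn
  have hφ := X3_phi_inj n hn i
  have e1 : Finsupp.linearCombination ℝ (fun k => e (n * k + i)) a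
      = Finsupp.linearCombination ℝ e (a.mapDomain (fun k => n * k + i)) := by
    rw [Finsupp.linearCombination_mapDomain]
    rfl
  rw [e1]
  obtain ⟨F, hF, hFs, hFn⟩ := (C0_norm h hs hX (a.mapDomain (fun k => n * k + i))).2
  have hY1 := (C0_norm hd hds hY a).1
  rw [hFn]
  rw [Finsupp.mapDomain_support_of_injective hφ] at hFs
  -- `F = image φ F'`
  obtain ⟨F', hF's, hF'⟩ := Finset.subset_image_iff.1 hFs
  have e2 : ∑ k ∈ F, |(a.mapDomain (fun k => n * k + i)) k| = ∑ k ∈ F', |a k| := by
    rw [← hF', Finset.sum_image (fun x _ y _ hxy => hφ hxy)]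
    refine Finset.sum_congr rfl fun k _ => ?_
    rw [Finsupp.mapDomain_apply hφ]
  rw [e2]
  rcases Nat.eq_zero_or_pos F'.card with h0 | hpos
  · rw [Finset.card_eq_zero.1 h0]
    simp
  · obtain ⟨m, hm⟩ : ∃ m, F'.card = m + 1 := ⟨F'.card - 1, by omega⟩
    set k : Fin (m + 1) ↪o ℕ := F'.orderEmbOfFin hm with hk
    have hk1 : Finset.univ.image (fun j => k j) = F' := by
      apply Finset.coe_injective
      rw [Finset.coe_image, Finset.coe_univ, Set.image_univ]
      exact Finset.range_orderEmbOfFin F' hm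
    have hkF : Finset.univ.image (fun j : Fin (m + 1) => n * k j + i) ∈ 𝓕 := by
      have : Finset.univ.image (fun j : Fin (m + 1) => n * k j + i) = F := by
        rw [← hF', ← hk1, Finset.image_image]
        rfl
      rw [this]
      exact hF
    have hcs : Finset.univ.image (fun j : Fin m => n * k j.castSucc + i) ∈ 𝓕 := by
      refine h.hereditary _ hkF _ ?_
      intro x hx
      simp only [Finset.mem_image, Finset.mem_univ, true_and] at hx ⊢
      obtain ⟨j, rfl⟩ := hx
      exact ⟨_, rfl⟩
    have hlt : ∀ a b : Fin (m + 1), a < b → n * k a + i < n * k b := by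
      intro a b hab
      have h1 : k a + 1 ≤ k b := k.strictMono hab
      have h2 : n * (k a + 1) ≤ n * k b := Nat.mul_le_mul_left n h1
      rw [Nat.mul_add, Nat.mul_one] at h2
      omega
    have hsucc : Finset.univ.image (fun j : Fin m => n * k j.succ) ∈ 𝓕 := by
      refine X3_spread h (fun j : Fin m => n * k j.castSucc + i) (fun j => n * k j.succ)
        ?_ ?_ ?_ hcs
      · intro a b hab
        have := hlt a.castSucc b.castSucc (Fin.castSucc_lt_castSucc_iff.2 hab)
        show n * k a.castSucc + i < n * k b.castSucc + i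
        omega
      · intro a b hab
        have := hlt a.succ b.succ (Fin.succ_lt_succ_iff.2 hab)
        show n * k a.succ < n * k b.succ
        omega
      · intro j
        exact (hlt j.castSucc j.succ (Fin.castSucc_lt_succ)).le
    have hmem : Finset.univ.image (fun j : Fin m => k j.succ) ∈ dil n 𝓕 := by
      show (Finset.univ.image (fun j : Fin m => k j.succ)).image (fun k => n * k) ∈ 𝓕
      rw [Finset.image_image]
      exact hsucc
    have hb1 := hY1 _ hmem
    rw [Finset.sum_image (fun x _ y _ hxy => Fin.succ_injective _ (k.injective hxy))] at hb1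
    have hb2 := hY1 _ (hds (k 0))
    rw [Finset.sum_singleton] at hb2
    have e3 : ∑ k ∈ F', |a k| = |a (k 0)| + ∑ j : Fin m, |a (k j.succ)| := by
      rw [← Fin.sum_univ_succ (fun j : Fin (m + 1) => |a (k j)|), ← hk1,
        Finset.sum_image (fun x _ y _ hxy => k.injective hxy)]
    rw [e3]
    linarith

/-- The bound for `R i`. -/
theorem X3_R_bound {𝓕 : Set (Finset ℕ)} (h : IsRegularFamily 𝓕) (hs : ∀ n, {n} ∈ 𝓕) (n : ℕ)
    (hn : 1 ≤ n) {X : Type*} [NormedAddCommGroup X] [NormedSpace ℝ X]
    {e : ℕ → X} (hX : IsCombinatorialSpace 𝓕 X e) {Y : Type*} [NormedAddCommGroup Y]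
    [NormedSpace ℝ Y] {e' : ℕ → Y} (hY : IsCombinatorialSpace (dil n 𝓕) Y e')
    (i : ℕ) (hi : i < n) (a : ℕ →₀ ℝ) :
    ‖Finsupp.linearCombination ℝ (fun m => if m % n = i then e' (m / n) else 0) a‖ ≤
      1 * ‖Finsupp.linearCombination ℝ e a‖ := by
  classical
  obtain ⟨hd, hds⟩ := X1_dil h hs n hn
  have hφ := X3_phi_inj n hn i
  have hmod : ∀ k, (n * k + i) % n = i := fun k => by
    rw [Nat.mul_add_mod, Nat.mod_eq_of_lt hi]
  have hdiv : ∀ k, (n * k + i) / n = k := fun k => by
    rw [Nat.mul_add_div hn, Nat.div_eq_of_lt hi, add_zero]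
  have e1 : Finsupp.linearCombination ℝ (fun m => if m % n = i then e' (m / n) else 0) a
      = Finsupp.linearCombination ℝ e' (a.comapDomain (fun k => n * k + i) hφ.injOn) := by
    rw [Finsupp.linearCombination_apply, Finsupp.sum,
      Finsupp.linearCombination_apply, Finsupp.sum]
    rw [Finsupp.comapDomain_support]
    rw [← Finset.sum_preimage (fun k => n * k + i) a.support hφ.injOn
      (fun m => a m • (if m % n = i then e' (m / n) else 0))]
    · refine Finset.sum_congr rfl fun k _ => ?_
      rw [Finsupp.comapDomain_apply, hmod, hdiv, if_pos rfl]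
    · intro m _ hm
      rw [if_neg, smul_zero]
      intro hmi
      apply hm
      refine ⟨m / n, ?_⟩
      show n * (m / n) + i = m
      rw [← hmi]
      exact Nat.div_add_mod m n
  rw [e1, one_mul]
  obtain ⟨F, hF, -, hFn⟩ :=
    (C0_norm hd hds hY (a.comapDomain (fun k => n * k + i) hφ.injOn)).2
  rw [hFn]
  have hF1 : F.image (fun k => n * k + i) ∈ 𝓕 := by
    have h1 := h.spreading _ (show F.image (fun k => n * k) ∈ 𝓕 from hF) (fun x => x + i)
      (fun x _ y _ hxy => by
        show x + i < y + i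
        omega) (fun x _ => by
        show x ≤ x + i
        omega)
    rw [Finset.image_image] at h1
    exact h1
  have h2 := (C0_norm h hs hX a).1 _ hF1
  rw [Finset.sum_image (fun x _ y _ hxy => hφ hxy)] at h2
  refine le_trans (le_of_eq ?_) h2
  refine Finset.sum_congr rfl fun k _ => ?_
  rw [Finsupp.comapDomain_apply]

/-- A transversal. -/
theorem X3_transversal (n : ℕ) {Θ : Type*} [Fintype Θ] (ν : Θ → Θ) (hν : ∀ t, ν t ≠ t)
    (hν2 : ∀ t, ν (ν t) = t) (hcard : Fintype.card Θ = 2 * n) :
    ∃ r : Fin n → Θ, Function.Injective r ∧ (∀ i j, r i ≠ ν (r j)) ∧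
      ∀ t, ∃ i, t = r i ∨ t = ν (r i) := by
  classical
  set c : Θ ≃ Fin (Fintype.card Θ) := Fintype.equivFin Θ with hc
  set P : Θ → Prop := fun t => c t < c (ν t) with hP
  have hPν : ∀ t, P (ν t) ↔ ¬ P t := by
    intro t
    simp only [hP, hν2]
    rw [not_lt]
    constructor
    · exact fun h => h.le
    · intro h
      exact lt_of_le_of_ne h (fun h' => hν t (c.injective h'))
  have e : {t // P t} ≃ {t // ¬ P t} :=
    { toFun := fun t => ⟨ν t.1, fun h => ((hPν _).1 h) t.2⟩
      invFun := fun t => ⟨ν t.1, (hPν _).2 t.2⟩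
      left_inv := fun t => Subtype.ext (hν2 _)
      right_inv := fun t => Subtype.ext (hν2 _) }
  have h1 : Fintype.card {t // P t} + Fintype.card {t // ¬ P t} = Fintype.card Θ := by
    rw [← Fintype.card_sum]
    exact Fintype.card_congr (Equiv.sumCompl P)
  have h1' : Fintype.card {t // P t} = Fintype.card {t // ¬ P t} := Fintype.card_congr e
  have h2 : Fintype.card {t // P t} = n := by omega
  have f : Fin n ≃ {t // P t} := (Fintype.equivFinOfCardEq h2).symm
  refine ⟨fun i => (f i).1, fun i j hij => f.injective (Subtype.ext hij), ?_, ?_⟩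
  · intro i j hij
    have h3 : P (ν (f j).1) := by
      have : P (f i).1 := (f i).2
      rw [show (f i).1 = ν (f j).1 from hij] at this
      exact this
    exact (hPν _).1 h3 (f j).2
  · intro t
    by_cases ht : P t
    · exact ⟨f.symm ⟨t, ht⟩, Or.inl (by simp)⟩
    · refine ⟨f.symm ⟨ν t, (hPν t).2 ht⟩, Or.inr ?_⟩
      simp [hν2]

/-- X3. -/
theorem X3_iso {𝓕 : Set (Finset ℕ)} (h : IsRegularFamily 𝓕) (hs : ∀ n, {n} ∈ 𝓕) (n : ℕ)
    (hn : 1 ≤ n) {X : Type*} [NormedAddCommGroup X] [NormedSpace ℝ X] [CompleteSpace X]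
    {e : ℕ → X} (hX : IsCombinatorialSpace 𝓕 X e) {Y : Type*} [NormedAddCommGroup Y]
    [NormedSpace ℝ Y] [CompleteSpace Y] {e' : ℕ → Y} (hY : IsCombinatorialSpace (dil n 𝓕) Y e')
    {Θ : Type*} [Fintype Θ] (ν : Θ → Θ) (hν : ∀ t, ν t ≠ t) (hν2 : ∀ t, ν (ν t) = t)
    (hcard : Fintype.card Θ = 2 * n) : Nonempty (X ≃L[ℝ] oddSpace Y ν) := by
  classical
  obtain ⟨r, hr1, hr2, hr3⟩ := X3_transversal n ν hν hν2 hcard
  have hS : ∀ i : Fin n, ∃ T : Y →L[ℝ] X, ∀ k, T (e' k) = e (n * k + i) := fun i =>
    C2_extend hY.dense (fun k => e (n * k + i)) 2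
      (fun a => X3_S_bound h hs n hn hX hY i i.2 a)
  choose S hS using hS
  have hR : ∀ i : Fin n, ∃ T : X →L[ℝ] Y, ∀ m, T (e m) = if m % n = i then e' (m / n) else 0 :=
    fun i => C2_extend hX.dense (fun m => if m % n = i then e' (m / n) else 0) 1
      (fun a => X3_R_bound h hs n hn hX hY i i.2 a)
  choose R hR using hR
  -- `∑ S_i R_i = id`
  have hSR : ∀ x, ∑ i, S i (R i x) = x := by
    have h1 : (∑ i, (S i).comp (R i)) = ContinuousLinearMap.id ℝ X := by
      refine ContinuousLinearMap.ext_on hX.dense ?_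
      rintro _ ⟨m, rfl⟩
      have hmn : m % n < n := Nat.mod_lt _ hn
      rw [_root_.sum_apply]
      rw [Finset.sum_eq_single (⟨m % n, hmn⟩ : Fin n)]
      · rw [ContinuousLinearMap.comp_apply, hR, if_pos rfl, hS]
        show e (n * (m / n) + m % n) = e m
        rw [Nat.div_add_mod]
      · intro i _ hi
        rw [ContinuousLinearMap.comp_apply, hR, if_neg, map_zero]
        intro h'
        exact hi (Fin.ext h'.symm)
      · intro h'
        exact absurd (Finset.mem_univ _) h'
    intro x
    have := congrArg (fun T : X →L[ℝ] X => T x) h1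
    simpa [_root_.sum_apply] using this
  have hRS : ∀ i j y, R i (S j y) = if i = j then y else 0 := by
    intro i j y
    have hmod : ∀ k, (n * k + j.1) % n = j.1 := fun k => by
      rw [Nat.mul_add_mod, Nat.mod_eq_of_lt j.2]
    have hdiv : ∀ k, (n * k + j.1) / n = k := fun k => by
      rw [Nat.mul_add_div hn, Nat.div_eq_of_lt j.2, add_zero]
    have h1 : (R i).comp (S j) = if i = j then ContinuousLinearMap.id ℝ Y else 0 := by
      refine ContinuousLinearMap.ext_on hY.dense ?_
      rintro _ ⟨k, rfl⟩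
      rw [ContinuousLinearMap.comp_apply, hS, hR, hmod, hdiv]
      by_cases hij : i = j
      · subst hij
        simp
      · rw [if_neg (fun h' => hij (Fin.ext h'.symm)), if_neg hij]
        simp
    have := congrArg (fun T : Y →L[ℝ] Y => T y) h1
    by_cases hij : i = j
    · simpa [hij] using this
    · simpa [hij] using this
  -- `A`
  set A₀ : X →L[ℝ] (Θ → Y) := ContinuousLinearMap.pi (fun t =>
    ∑ i, ((if t = r i then R i else 0) - (if t = ν (r i) then R i else 0))) with hA₀
  have hA₀r : ∀ x j, A₀ x (r j) = R j x := by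
    intro x j
    simp only [hA₀, ContinuousLinearMap.pi_apply, _root_.sum_apply]
    rw [Finset.sum_eq_single j]
    · rw [if_pos rfl, if_neg (hr2 j j), sub_zero]
    · intro i _ hi
      rw [if_neg (fun h' => hi (hr1 h').symm), if_neg (hr2 j i), sub_zero]
      rfl
    · intro h'
      exact absurd (Finset.mem_univ _) h'
  have hνi : ∀ s t, ν s = ν t ↔ s = t := by
    intro s t
    constructor
    · intro h'
      rw [← hν2 s, h', hν2]
    · rintro rfl
      rfl
  have hνs : ∀ s t, ν s = t ↔ s = ν t := by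
    intro s t
    constructor
    · rintro rfl
      rw [hν2]
    · rintro rfl
      rw [hν2]
  have hA₀odd : ∀ x, A₀ x ∈ oddSpace Y ν := by
    intro x t
    simp only [hA₀, ContinuousLinearMap.pi_apply, _root_.sum_apply]
    rw [← Finset.sum_neg_distrib]
    refine Finset.sum_congr rfl fun i _ => ?_
    simp only [hνs t (r i), hνi t (r i), _root_.sub_apply, neg_sub]
  set A : X →L[ℝ] oddSpace Y ν := A₀.codRestrict (oddSpace Y ν) hA₀odd with hA
  set B : oddSpace Y ν →L[ℝ] X :=
    ∑ i, (S i).comp ((ContinuousLinearMap.proj (r i) : (Θ → Y) →L[ℝ] Y).comp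
      (oddSpace Y ν).subtypeL) with hB
  have hBapp : ∀ f : oddSpace Y ν, B f = ∑ i, S i (f.1 (r i)) := by
    intro f
    simp only [hB, _root_.sum_apply]
    rfl
  refine ⟨ContinuousLinearEquiv.equivOfInverse A B ?_ ?_⟩
  · intro x
    rw [hBapp]
    have : ∀ i, (A x).1 (r i) = R i x := fun i => hA₀r x i
    simp only [this]
    exact hSR x
  · intro f
    apply Subtype.ext
    funext t
    have hval : ∀ j, (A (B f)).1 (r j) = f.1 (r j) := by
      intro j
      have h1 : (A (B f)).1 (r j) = R j (B f) := hA₀r _ j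
      rw [h1, hBapp, map_sum, Finset.sum_eq_single j]
      · rw [hRS, if_pos rfl]
      · intro i _ hi
        rw [hRS, if_neg (fun h' => hi h'.symm)]
      · intro h'
        exact absurd (Finset.mem_univ _) h'
    obtain ⟨j, hj | hj⟩ := hr3 t
    · rw [hj]
      exact hval j
    · rw [hj, (A (B f)).2 (r j), f.2 (r j), hval j]

end Pool.Agent.H182R2.CB
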