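import Pool.Agent.H182R2.CB.Defs

/-!
# Displayability is invariant under isomorphisms
-/

namespace Pool.Agent.H182R2.CB

/-- The conjugation of the isometry groups. -/
def X4_equiv {X Y : Type*} [AddCommGroup X] [Module ℝ X] [AddCommGroup Y] [Module ℝ Y]
    (Φ : X ≃ₗ[ℝ] Y) (N : Seminorm ℝ Y) :
    isomGroup Y N ≃* isomGroup X (N.comp (Φ : X →ₗ[ℝ] Y)) where
  toFun T := ⟨(Φ.trans T.1).trans Φ.symm, fun x => by
    show N (Φ (Φ.symm (T.1 (Φ x)))) = N (Φ x)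
    rw [LinearEquiv.apply_symm_apply]
    exact T.2 (Φ x)⟩
  invFun S := ⟨(Φ.symm.trans S.1).trans Φ, fun y => by
    have h : N (Φ (S.1 (Φ.symm y))) = N (Φ (Φ.symm y)) := S.2 (Φ.symm y)
    rw [LinearEquiv.apply_symm_apply] at h
    exact h⟩
  left_inv T := by
    apply Subtype.ext
    apply LinearEquiv.ext
    intro y
    show Φ (Φ.symm (T.1 (Φ (Φ.symm y)))) = T.1 y
    rw [LinearEquiv.apply_symm_apply, LinearEquiv.apply_symm_apply]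
  right_inv S := by
    apply Subtype.ext
    apply LinearEquiv.ext
    intro x
    show Φ.symm (Φ (S.1 (Φ.symm (Φ x)))) = S.1 x
    rw [LinearEquiv.symm_apply_apply, LinearEquiv.symm_apply_apply]
  map_mul' S T := by
    apply Subtype.ext
    apply LinearEquiv.ext
    intro x
    show Φ.symm (S.1 (T.1 (Φ x))) = Φ.symm (S.1 (Φ (Φ.symm (T.1 (Φ x)))))
    rw [LinearEquiv.apply_symm_apply]

/-- X4. -/
theorem X4_transfer {X Y : Type*} [NormedAddCommGroup X] [NormedSpace ℝ X]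
    [NormedAddCommGroup Y] [NormedSpace ℝ Y] (Φ : X ≃L[ℝ] Y) {G : Type*} [Group G]
    (h : Displayable Y G) : Displayable X G := by
  obtain ⟨N, ⟨m, M, hm, hN⟩, ⟨e⟩⟩ := h
  refine ⟨N.comp (Φ.toLinearEquiv : X →ₗ[ℝ] Y), ⟨m * (‖(Φ.symm : Y →L[ℝ] X)‖ + 1)⁻¹,
    |M| * ‖(Φ : X →L[ℝ] Y)‖, by positivity, fun x => ⟨?_, ?_⟩⟩, ⟨e.trans (X4_equiv _ N)⟩⟩
  · have h1 := (hN (Φ x)).1
    have h2 : ‖x‖ ≤ (‖(Φ.symm : Y →L[ℝ] X)‖ + 1) * ‖Φ x‖ := by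
      have h3 := (Φ.symm : Y →L[ℝ] X).le_opNorm (Φ x)
      have h4 : (Φ.symm : Y →L[ℝ] X) (Φ x) = x := Φ.symm_apply_apply x
      rw [h4] at h3
      nlinarith [norm_nonneg (Φ x)]
    have h5 : (‖(Φ.symm : Y →L[ℝ] X)‖ + 1)⁻¹ * ‖x‖ ≤ ‖Φ x‖ := by
      rw [inv_mul_le_iff₀ (by positivity)]
      exact h2
    calc m * (‖(Φ.symm : Y →L[ℝ] X)‖ + 1)⁻¹ * ‖x‖
        = m * ((‖(Φ.symm : Y →L[ℝ] X)‖ + 1)⁻¹ * ‖x‖) := by ring
      _ ≤ m * ‖Φ x‖ := mul_le_mul_of_nonneg_left h5 hm.le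
      _ ≤ N (Φ x) := h1
  · have h1 := (hN (Φ x)).2
    calc N (Φ x) ≤ M * ‖Φ x‖ := h1
      _ ≤ |M| * ‖Φ x‖ := mul_le_mul_of_nonneg_right (le_abs_self _) (norm_nonneg _)
      _ ≤ |M| * (‖(Φ : X →L[ℝ] Y)‖ * ‖x‖) :=
        mul_le_mul_of_nonneg_left ((Φ : X →L[ℝ] Y).le_opNorm x) (abs_nonneg _)
      _ = |M| * ‖(Φ : X →L[ℝ] Y)‖ * ‖x‖ := by ring

end Pool.Agent.H182R2.CB
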