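import Pool.Agent.H182R2.CB.Defs

/-!
# Z1: the signed system on the odd functions
-/

namespace Pool.Agent.H182R2.CB

section Z1

variable {Y : Type*} [NormedAddCommGroup Y] [NormedSpace ℝ Y] {J : Type*}
  {G : Type*} [Group G] {Θ : Type*} [Fintype Θ]

/-- the index in `ℕ ⊕ J` and the point of `Θ` -/
def Z1idx {J Θ : Type*} : (ℕ × Θ) ⊕ (J × Θ) → (ℕ ⊕ J) × Θ
  | Sum.inl (k, t) => (Sum.inl k, t)
  | Sum.inr (j, t) => (Sum.inr j, t)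

theorem Z1idx_inj {J Θ : Type*} : Function.Injective (Z1idx : (ℕ × Θ) ⊕ (J × Θ) → (ℕ ⊕ J) × Θ) := by
  rintro (⟨k, t⟩ | ⟨j, t⟩) (⟨k', t'⟩ | ⟨j', t'⟩) h
  · simp only [Z1idx, Prod.mk.injEq, Sum.inl.injEq] at h
    rw [h.1, h.2]
  · simp [Z1idx] at h
  · simp [Z1idx] at h
  · simp only [Z1idx, Prod.mk.injEq, Sum.inr.injEq] at h
    rw [h.1, h.2]

theorem Z1idx_surj {J Θ : Type*} (i : ℕ ⊕ J) (t : Θ) :
    ∃ e : (ℕ × Θ) ⊕ (J × Θ), Z1idx e = (i, t) := by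
  rcases i with k | j
  · exact ⟨Sum.inl (k, t), rfl⟩
  · exact ⟨Sum.inr (j, t), rfl⟩

/-- the coordinate functionals -/
noncomputable def Z1c (S : Splitting Y J) (ν : Θ → Θ) (e : (ℕ × Θ) ⊕ (J × Θ)) :
    oddSpace Y ν →L[ℝ] ℝ :=
  (S.c (Z1idx e).1).comp ((ContinuousLinearMap.proj (R := ℝ) (φ := fun _ : Θ => Y)
    (Z1idx e).2).comp (oddSpace Y ν).subtypeL)

theorem Z1c_apply (S : Splitting Y J) (ν : Θ → Θ) (e : (ℕ × Θ) ⊕ (J × Θ)) (x : oddSpace Y ν) :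
    Z1c S ν e x = S.c (Z1idx e).1 (x.1 (Z1idx e).2) := rfl

open Classical in
/-- the odd function with value `y` at `t` -/
noncomputable def Z1f (Y : Type*) [NormedAddCommGroup Y] [NormedSpace ℝ Y] {Θ : Type*}
    (ν : Θ → Θ) (y : Y) (t : Θ) : Θ → Y :=
  fun s => if s = t then y else if s = ν t then - y else 0

theorem Z1f_odd (ν : Θ → Θ) (h1 : ∀ t, ν t ≠ t) (h2 : ∀ t, ν (ν t) = t) (y : Y) (t : Θ) :
    Z1f Y ν y t ∈ oddSpace Y ν := by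
  intro s
  unfold Z1f
  by_cases hs : s = t
  · subst hs
    rw [if_neg (h1 s), if_pos rfl, if_pos rfl]
  · by_cases hs' : s = ν t
    · subst hs'
      rw [h2, if_pos rfl, if_neg (h1 t), if_pos rfl, neg_neg]
    · rw [if_neg hs, if_neg hs', if_neg, if_neg, neg_zero]
      · intro h
        apply hs
        rw [← h2 s, h, h2]
      · intro h
        apply hs'
        rw [← h, h2]

theorem Z1_sumAct_idx (σ : G) (θ : G →* Equiv.Perm Θ) (ρ : G →* Equiv.Perm (ℕ × Θ))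
    (hρσ : ∀ k t, ρ σ (k, t) = (k, θ σ t)) (e : (ℕ × Θ) ⊕ (J × Θ)) :
    Z1idx (sumAct ρ θ J σ e) = ((Z1idx e).1, θ σ (Z1idx e).2) := by
  rcases e with ⟨k, t⟩ | ⟨j, t⟩
  · show Z1idx (Sum.inl (ρ σ (k, t))) = _
    rw [hρσ]
    rfl
  · rfl

theorem Z1c_neg (S : Splitting Y J) (σ : G) (θ : G →* Equiv.Perm Θ)
    (ρ : G →* Equiv.Perm (ℕ × Θ)) (hρσ : ∀ k t, ρ σ (k, t) = (k, θ σ t))
    (e : (ℕ × Θ) ⊕ (J × Θ)) (x : oddSpace Y (θ σ)) :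
    Z1c S (θ σ) (sumAct ρ θ J σ e) x = - Z1c S (θ σ) e x := by
  rw [Z1c_apply, Z1c_apply, Z1_sumAct_idx σ θ ρ hρσ]
  simp only
  rw [x.2 (Z1idx e).2, map_neg]

theorem Z1c_bound (S : Splitting Y J) (ν : Θ → Θ) (e : (ℕ × Θ) ⊕ (J × Θ)) (x : oddSpace Y ν) :
    |Z1c S ν e x| ≤ S.K * ‖x‖ := by
  rw [Z1c_apply]
  refine (S.c_bound _ _).trans ?_
  have hK : 0 ≤ S.K := zero_le_one.trans S.hK
  exact mul_le_mul_of_nonneg_left (norm_le_pi_norm x.1 _) hK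

theorem Z1c_null (S : Splitting Y J) (ν : Θ → Θ) (x : oddSpace Y ν) (ε : ℝ) (hε : 0 < ε) :
    {e : (ℕ × Θ) ⊕ (J × Θ) | ε ≤ |Z1c S ν e x|}.Finite := by
  have h1 : (⋃ t : Θ, ({i | ε ≤ |S.c i (x.1 t)|} ×ˢ {t} : Set ((ℕ ⊕ J) × Θ))).Finite :=
    Set.finite_iUnion fun t => (S.null (x.1 t) ε hε).prod (Set.finite_singleton t)
  refine (h1.preimage Z1idx_inj.injOn).subset ?_
  intro e he
  rw [Set.mem_preimage, Set.mem_iUnion]
  exact ⟨(Z1idx e).2, Set.mem_prod.mpr ⟨he, rfl⟩⟩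

theorem Z1_op (S : Splitting Y J) (σ : G) (hσc : ∀ g : G, g * σ = σ * g)
    (θ : G →* Equiv.Perm Θ) (ρ : G →* Equiv.Perm (ℕ × Θ))
    (hρσ : ∀ k t, ρ σ (k, t) = (k, θ σ t)) (g : G) (x : oddSpace Y (θ σ)) :
    ∃ y : oddSpace Y (θ σ), (∀ e, Z1c S (θ σ) e y = Z1c S (θ σ) (sumAct ρ θ J g⁻¹ e) x) ∧
      ‖y‖ ≤ 3 * S.K ^ 2 * ‖x‖ := by
  have hK : 1 ≤ S.K := S.hK
  have hK0 : 0 ≤ S.K := zero_le_one.trans hK
  have hx0 : 0 ≤ ‖x‖ := norm_nonneg x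
  have hlift : ∀ t : Θ, ∃ y : Y,
      (∀ k, S.c (Sum.inl k) y = Z1c S (θ σ) (Sum.inl (ρ g⁻¹ (k, t))) x -
        S.c (Sum.inl k) (x.1 (θ g⁻¹ t))) ∧ (∀ j, S.c (Sum.inr j) y = 0) ∧
      ‖y‖ ≤ S.K * (2 * S.K * ‖x‖) := by
    intro t
    apply S.lift
    · intro ε hε
      have f1 : {k : ℕ | ε / 2 ≤ |Z1c S (θ σ) (Sum.inl (ρ g⁻¹ (k, t))) x|}.Finite := by
        refine (Z1c_null S (θ σ) x (ε / 2) (by positivity)).preimage
          (f := fun k : ℕ => (Sum.inl (ρ g⁻¹ (k, t)) : (ℕ × Θ) ⊕ (J × Θ))) ?_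
        intro a _ b _ hab
        have h1 := (ρ g⁻¹).injective (Sum.inl_injective hab)
        exact congrArg Prod.fst h1
      have f2 : {k : ℕ | ε / 2 ≤ |S.c (Sum.inl k) (x.1 (θ g⁻¹ t))|}.Finite :=
        (S.null (x.1 (θ g⁻¹ t)) (ε / 2) (by positivity)).preimage
          (f := fun k : ℕ => (Sum.inl k : ℕ ⊕ J)) Sum.inl_injective.injOn
      refine (f1.union f2).subset ?_
      intro k hk
      by_contra hcon
      rw [Set.mem_union, not_or] at hcon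
      obtain ⟨h1, h2⟩ := hcon
      have h1' : |Z1c S (θ σ) (Sum.inl (ρ g⁻¹ (k, t))) x| < ε / 2 := not_le.mp h1
      have h2' : |S.c (Sum.inl k) (x.1 (θ g⁻¹ t))| < ε / 2 := not_le.mp h2
      have h3 := abs_sub (Z1c S (θ σ) (Sum.inl (ρ g⁻¹ (k, t))) x)
        (S.c (Sum.inl k) (x.1 (θ g⁻¹ t)))
      have h4 : ε ≤ |Z1c S (θ σ) (Sum.inl (ρ g⁻¹ (k, t))) x -
        S.c (Sum.inl k) (x.1 (θ g⁻¹ t))| := hk
      linarith
    · intro k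
      have h1 := Z1c_bound S (θ σ) (Sum.inl (ρ g⁻¹ (k, t)) : (ℕ × Θ) ⊕ (J × Θ)) x
      have h2 := S.c_bound (Sum.inl k) (x.1 (θ g⁻¹ t))
      have h3 : ‖x.1 (θ g⁻¹ t)‖ ≤ ‖x‖ := norm_le_pi_norm x.1 _
      have h4 := abs_sub (Z1c S (θ σ) (Sum.inl (ρ g⁻¹ (k, t))) x)
        (S.c (Sum.inl k) (x.1 (θ g⁻¹ t)))
      have h5 := mul_le_mul_of_nonneg_left h3 hK0
      linarith
  choose y hy1 hy2 hy3 using hlift
  have hval1 : ∀ k t, S.c (Sum.inl k) (x.1 (θ g⁻¹ t) + y t) =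
      Z1c S (θ σ) (Sum.inl (ρ g⁻¹ (k, t))) x := by
    intro k t
    rw [map_add, hy1]
    ring
  have hval2 : ∀ j t, S.c (Sum.inr j) (x.1 (θ g⁻¹ t) + y t) = S.c (Sum.inr j) (x.1 (θ g⁻¹ t)) := by
    intro j t
    rw [map_add, hy2, add_zero]
  have hcomm : ∀ t, θ g⁻¹ (θ σ t) = θ σ (θ g⁻¹ t) := by
    intro t
    have := congrArg (fun z => θ z t) (hσc g⁻¹)
    simpa only [map_mul, Equiv.Perm.mul_apply] using this
  have hcomm2 : ∀ p, ρ g⁻¹ (ρ σ p) = ρ σ (ρ g⁻¹ p) := by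
    intro t
    have := congrArg (fun z => ρ z t) (hσc g⁻¹)
    simpa only [map_mul, Equiv.Perm.mul_apply] using this
  have hodd : (fun t => x.1 (θ g⁻¹ t) + y t) ∈ oddSpace Y (θ σ) := by
    intro t
    rw [← sub_eq_zero, sub_neg_eq_add]
    apply S.total
    rintro (k | j)
    · rw [map_add, hval1, hval1, ← hρσ k t, hcomm2]
      have h1 := Z1c_neg S σ θ ρ hρσ (Sum.inl (ρ g⁻¹ (k, t))) x
      have h2 : sumAct ρ θ J σ (Sum.inl (ρ g⁻¹ (k, t))) = Sum.inl (ρ σ (ρ g⁻¹ (k, t))) := rfl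
      rw [h2] at h1
      rw [h1]
      ring
    · rw [map_add, hval2, hval2, hcomm, x.2 (θ g⁻¹ t), map_neg]
      ring
  refine ⟨⟨fun t => x.1 (θ g⁻¹ t) + y t, hodd⟩, ?_, ?_⟩
  · rintro (⟨k, t⟩ | ⟨j, t⟩)
    · rw [Z1c_apply]
      exact hval1 k t
    · rw [Z1c_apply]
      exact hval2 j t
  · show ‖(fun t => x.1 (θ g⁻¹ t) + y t)‖ ≤ 3 * S.K ^ 2 * ‖x‖
    rw [pi_norm_le_iff_of_nonneg (by positivity)]
    intro t
    have h3 : ‖x.1 (θ g⁻¹ t)‖ ≤ ‖x‖ := norm_le_pi_norm x.1 _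
    have h4 := norm_add_le (x.1 (θ g⁻¹ t)) (y t)
    have h5 := hy3 t
    have h6 : ‖x‖ ≤ S.K ^ 2 * ‖x‖ := by
      have : (1 : ℝ) ≤ S.K ^ 2 := one_le_pow₀ hK
      nlinarith
    calc ‖x.1 (θ g⁻¹ t) + y t‖ ≤ ‖x‖ + S.K * (2 * S.K * ‖x‖) := by linarith
      _ = ‖x‖ + 2 * (S.K ^ 2 * ‖x‖) := by ring
      _ ≤ 3 * S.K ^ 2 * ‖x‖ := by linarith

/-- Z1, with the coordinates. -/
theorem Z1_system_strong {Y : Type*} [NormedAddCommGroup Y] [NormedSpace ℝ Y] {J : Type*}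
    (S : Splitting Y J) {G : Type*} [Group G] (σ : G) (hσ2 : σ * σ = 1)
    (hσc : ∀ g : G, g * σ = σ * g) {Θ : Type*} [Fintype Θ] (θ : G →* Equiv.Perm Θ)
    (hθ : ∀ t, θ σ t ≠ t) (ρ : G →* Equiv.Perm (ℕ × Θ))
    (hρσ : ∀ k t, ρ σ (k, t) = (k, θ σ t)) :
    ∃ S' : SignedSystem (oddSpace Y (θ σ)) (sumAct ρ θ J) σ, ∀ e, S'.c e = Z1c S (θ σ) e := by
  have hK : 1 ≤ S.K := S.hK
  have hK2 : S.K ≤ 3 * S.K ^ 2 := by nlinarith
  have hν2 : ∀ t, θ σ (θ σ t) = t := by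
    intro t
    have := congrArg (fun z => θ z t) hσ2
    simpa only [map_mul, map_one, Equiv.Perm.mul_apply, Equiv.Perm.one_apply] using this
  refine ⟨{
    K := 3 * S.K ^ 2
    hK := hK.trans hK2
    c := Z1c S (θ σ)
    v := fun e => ⟨Z1f Y (θ σ) (S.v (Z1idx e).1) (Z1idx e).2,
      Z1f_odd (θ σ) hθ hν2 (S.v (Z1idx e).1) (Z1idx e).2⟩
    c_bound := ?_
    v_bound := ?_
    neg := Z1c_neg S σ θ ρ hρσ
    bio := ?_
    bio' := ?_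
    total := ?_
    null := Z1c_null S (θ σ)
    op := Z1_op S σ hσc θ ρ hρσ }, fun e => rfl⟩
  · intro e x
    exact (Z1c_bound S (θ σ) e x).trans (mul_le_mul_of_nonneg_right hK2 (norm_nonneg x))
  · intro e
    show ‖Z1f Y (θ σ) (S.v (Z1idx e).1) (Z1idx e).2‖ ≤ 3 * S.K ^ 2
    rw [pi_norm_le_iff_of_nonneg (by positivity)]
    intro s
    have h1 := S.v_bound (Z1idx e).1
    unfold Z1f
    split_ifs
    · exact h1.trans hK2
    · rw [norm_neg]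
      exact h1.trans hK2
    · rw [norm_zero]
      positivity
  · intro e
    rw [Z1c_apply]
    simp only [Z1f, if_true]
    exact S.bio _
  · intro e e' h1 h2
    rw [Z1c_apply]
    simp only [Z1f]
    split_ifs with h3 h4
    · apply S.bio'
      intro h5
      exact h1 (Z1idx_inj (Prod.ext h5.symm h3.symm))
    · rw [map_neg, neg_eq_zero]
      apply S.bio'
      intro h5
      apply h2
      apply Z1idx_inj
      rw [Z1_sumAct_idx σ θ ρ hρσ]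
      refine Prod.ext h5.symm ?_
      rw [h4, hν2]
    · exact map_zero _
  · intro x hx
    apply Subtype.ext
    funext t
    apply S.total
    intro i
    obtain ⟨e, he⟩ := Z1idx_surj i t
    have h1 := hx e
    rw [Z1c_apply, he] at h1
    exact h1

/-- Z1. -/
theorem Z1_system {Y : Type*} [NormedAddCommGroup Y] [NormedSpace ℝ Y] {J : Type*}
    (S : Splitting Y J) {G : Type*} [Group G] (σ : G) (hσ2 : σ * σ = 1)
    (hσc : ∀ g : G, g * σ = σ * g) {Θ : Type*} [Fintype Θ] (θ : G →* Equiv.Perm Θ)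
    (hθ : ∀ t, θ σ t ≠ t) (ρ : G →* Equiv.Perm (ℕ × Θ))
    (hρσ : ∀ k t, ρ σ (k, t) = (k, θ σ t)) :
    Nonempty (SignedSystem (oddSpace Y (θ σ)) (sumAct ρ θ J) σ) := by
  obtain ⟨S', -⟩ := Z1_system_strong S σ hσ2 hσc θ hθ ρ hρσ
  exact ⟨S'⟩

end Z1

end Pool.Agent.H182R2.CB
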