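import Pool.Agent.H182R2.CB.Defs
import Pool.Agent.H182R2.CB.D2
import Pool.Agent.H182R2.CB.X1
import Pool.Agent.H182R2.CB.X2
import Pool.Agent.H182R2.CB.X3
import Pool.Agent.H182R2.CB.X4
import Pool.Agent.H182R2.CB.C4
import Pool.Agent.H182R2.CB.Z1
import Pool.Agent.H182R2.CB.D1
import Pool.Agent.H182R2.CB.AMain

namespace Pool.Agent.H182R2.CB

open Pool.Agent.H182R2.CB

theorem displayable_congr {X : Type*} [NormedAddCommGroup X] [NormedSpace ℝ X] {G H : Type*}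
    [Group G] [Group H] (f : G ≃* H) (h : Displayable X G) : Displayable X H := by
  obtain ⟨N, hN, ⟨φ⟩⟩ := h
  exact ⟨N, hN, ⟨f.symm.trans φ⟩⟩

theorem FIN_main {𝓕 : Set (Finset ℕ)} (h : IsRegularFamily 𝓕) (hs : ∀ n, {n} ∈ 𝓕) {X : Type*}
    [NormedAddCommGroup X] [NormedSpace ℝ X] [CompleteSpace X] {e : ℕ → X}
    (hX : IsCombinatorialSpace 𝓕 X e) (G K : Subgroup (Equiv.Perm ℕ)) (hG : IsClosedPerm G)
    (hKG : K ≤ G) (hKopen : ∃ s : Finset ℕ, ∀ g ∈ G, (∀ i ∈ s, g i = i) → g ∈ K)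
    (hKfin : K.relIndex G ≠ 0) (σ : G) (hσ2 : σ * σ = 1) (hσc : ∀ g : G, g * σ = σ * g)
    (hσK : (σ : Equiv.Perm ℕ) ∉ K) : Displayable X G := by
  classical
  obtain ⟨Θ, hΘ, hΘne, θ, ρ, b, k₀, k₁, hθ, hρσ, hbinj, hbσ, hb, hpsupp, htsupp, hk, hk₀, hk₁⟩ :=
    D2_action G K hKG hKopen hKfin σ hσ2 hσc hσK
  -- |Θ| is even and positive
  have hθ2 : ∀ t, θ σ (θ σ t) = t := by
    intro t
    rw [← Equiv.Perm.mul_apply, ← map_mul, hσ2, map_one]; rfl
  have hcard : ∃ n, 1 ≤ n ∧ Fintype.card Θ = 2 * n := by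
    have heven : Even (Fintype.card Θ) := by
      by_contra hodd
      have hodd' : Odd (Fintype.card Θ) := Nat.not_even_iff_odd.mp hodd
      have h2 : (θ σ) ^ (2 ^ 1) = 1 := by
        ext t
        simp [pow_two, hθ2 t]
      haveI : Fact (Nat.Prime 2) := ⟨Nat.prime_two⟩
      have h3 : ¬ 2 ∣ Fintype.card Θ := by
        intro hd
        exact hodd (even_iff_two_dvd.mpr hd)
      obtain ⟨t, ht⟩ := Equiv.Perm.exists_fixed_point_of_prime h3 h2
      exact hθ t ht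
    obtain ⟨n, hn⟩ := heven
    have hpos : 0 < Fintype.card Θ := Fintype.card_pos
    exact ⟨n, by omega, by omega⟩
  obtain ⟨n, hn1, hn⟩ := hcard
  obtain ⟨hdil, hdils⟩ := X1_dil h hs n hn1
  obtain ⟨Y, e', hYcl, hY⟩ := X2_sub h hs n hn1 hX
  haveI : CompleteSpace Y := hYcl.completeSpace_coe
  obtain ⟨Φ⟩ := X3_iso h hs n hn1 hX hY (θ σ) hθ hθ2 hn
  apply X4_transfer Φ
  obtain ⟨J, hJc, ⟨S⟩⟩ := C4_splitting hdil hdils hY
  obtain ⟨S'⟩ := Z1_system S σ hσ2 hσc θ hθ ρ hρσ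
  haveI : Countable J := hJc
  haveI : Nonempty Θ := hΘne
  set ρE := sumAct ρ θ J with hρE
  have hinl : ∀ g p, ρE g (Sum.inl p) = Sum.inl (ρ g p) := fun g p => rfl
  have hinr : ∀ g j t, ρE g (Sum.inr (j, t)) = Sum.inr (j, θ g t) := fun g j t => rfl
  obtain ⟨s, hs01, hsinv, hscl⟩ := D1_coding G hG ρE σ (fun F => Sum.inl (b F))
    (fun F F' hFF => hbinj (Sum.inl_injective hFF))
    (fun F F' => by rw [hinl]; exact fun hh => hbσ F F' (Sum.inl_injective hh))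
    (fun g g' F hF => hb g g' F (by
      rw [hinl, hinl] at hF
      exact Sum.inl_injective hF))
    (by
      rintro (p | ⟨j, t⟩)
      · obtain ⟨F, hF⟩ := hpsupp p
        exact ⟨F, fun g hg => by rw [hinl, hF g hg]⟩
      · obtain ⟨F, hF⟩ := htsupp t
        exact ⟨F, fun g hg => by rw [hinr, hF g hg]⟩)
  obtain ⟨t₀⟩ := hΘne
  have hfaith : Function.Injective ρE := by
    intro g g' hgg
    apply Subtype.ext
    apply Equiv.ext
    intro i
    refine hb g g' {i} ?_ i (Finset.mem_singleton_self i)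
    have := congrArg (fun f : Equiv.Perm _ => f (Sum.inl (b {i}))) hgg
    simp only [hinl] at this
    exact Sum.inl_injective this
  refine A_main S' s hs01 hsinv hscl
    ((Finset.univ.image fun t : Θ => (Sum.inl (k₀, t) : (ℕ × Θ) ⊕ (J × Θ))) ∪
      (Finset.univ.image fun t : Θ => (Sum.inl (k₁, t) : (ℕ × Θ) ⊕ (J × Θ))))
    ?_ (Sum.inl (k₀, t₀)) (Sum.inl (k₁, t₀)) (by simp) (by simp) ?_ ?_ hfaith
  · intro g x hx
    simp only [Finset.mem_union, Finset.mem_image, Finset.mem_univ, true_and] at hx ⊢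
    rcases hx with ⟨t, rfl⟩ | ⟨t, rfl⟩
    · left; exact ⟨θ g t, by rw [hinl, hk₀]⟩
    · right; exact ⟨θ g t, by rw [hinl, hk₁]⟩
  · intro hh
    have := Sum.inl_injective hh
    simp only [Prod.mk.injEq] at this
    exact hk this.1.symm
  · intro hh
    rw [hinl, hk₀] at hh
    have := Sum.inl_injective hh
    simp only [Prod.mk.injEq] at this
    exact hk this.1.symm

end Pool.Agent.H182R2.CB
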