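import Pool.Agent.H182R2.CB.Defs

/-!
# The Schreier space and bounded representations of `SYM(ℕ)`: definitions

MP_7f333f_an, negative part.
-/

namespace Pool.Agent.H182R2.CB

/-- The Schreier family on `ℕ = {0,1,2,…}` (i.e. `|F| ≤ min F` after shifting the indices by
one). -/
def schreier : Set (Finset ℕ) := {F | ∀ i ∈ F, F.card ≤ i + 1}

/-- Coordinates on the Schreier space. -/
structure SCoord (X : Type*) [NormedAddCommGroup X] [NormedSpace ℝ X] where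
  co : ℕ → X →L[ℝ] ℝ
  u : ℕ → X
  co_u : ∀ k j, co k (u j) = if k = j then 1 else 0
  norm_u : ∀ k, ‖u k‖ ≤ 1
  le : ∀ x, ∀ F ∈ schreier, ∑ k ∈ F, |co k x| ≤ ‖x‖
  ge : ∀ x, ∀ ε : ℝ, 0 < ε → ∃ F ∈ schreier, ‖x‖ ≤ ∑ k ∈ F, |co k x| + ε
  tail : ∀ x, ∀ ε : ℝ, 0 < ε → ∃ n : ℕ, ∀ F ∈ schreier, (∀ i ∈ F, n ≤ i) →
    ∑ k ∈ F, |co k x| ≤ ε

/-- A bounded, strongly continuous representation of the group of permutations of `ℕ`. -/
structure BRep (X : Type*) [NormedAddCommGroup X] [NormedSpace ℝ X] where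
  ρ : Equiv.Perm ℕ →* (X ≃ₗ[ℝ] X)
  K : ℝ
  hK : 1 ≤ K
  bound : ∀ g x, ‖ρ g x‖ ≤ K * ‖x‖
  cont : ∀ x, ∀ ε : ℝ, 0 < ε → ∃ s : Finset ℕ, ∀ g : Equiv.Perm ℕ, (∀ i ∈ s, g i = i) →
    ‖ρ g x - x‖ ≤ ε

/-- `A` is an average of `N` translates of `x` by permutations fixing `B` and moving `s \ B` to
pairwise disjoint places, where `s` supports `x` up to `ε`. -/
def IsAvg {X : Type*} [NormedAddCommGroup X] [NormedSpace ℝ X] (R : BRep X) (x : X)
    (B : Finset ℕ) (N : ℕ) (ε : ℝ) (A : X) : Prop :=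
  ∃ (s : Finset ℕ) (k : ℕ → Equiv.Perm ℕ), B ⊆ s ∧
    (∀ g : Equiv.Perm ℕ, (∀ i ∈ s, g i = i) → ‖R.ρ g x - x‖ ≤ ε) ∧
    (∀ j < N, ∀ i ∈ B, k j i = i) ∧
    (∀ i < N, ∀ j < N, i ≠ j → ∀ a ∈ s \ B, ∀ b ∈ s \ B, k i a ≠ k j b) ∧
    A = (1 / N : ℝ) • ∑ j ∈ Finset.range N, R.ρ (k j) x

/-- A separable length function on `SYM(ℕ)`. -/
structure SepLength where
  l : Equiv.Perm ℕ → ℝ
  one : l 1 = 0
  inv : ∀ g, l g⁻¹ = l g
  mul : ∀ g h, l (g * h) ≤ l g + l h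
  sep : ∀ r : ℝ, 0 < r → ∃ d : ℕ → Equiv.Perm ℕ, ∀ g, ∃ n, l ((d n)⁻¹ * g) ≤ r

/-- The involution `2i ↔ 2i+1` of `ℕ`. -/
def nuPerm : Equiv.Perm ℕ where
  toFun n := if n % 2 = 0 then n + 1 else n - 1
  invFun n := if n % 2 = 0 then n + 1 else n - 1
  left_inv := by
    intro n
    rcases Nat.mod_two_eq_zero_or_one n with h | h
    · have h1 : (n + 1) % 2 ≠ 0 := by omega
      simp only [h, if_true, h1, if_false]
      omega
    · have h1 : (n - 1) % 2 = 0 := by omega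
      have h2 : ¬ (n % 2 = 0) := by omega
      simp only [h1, h2, if_true, if_false]
      omega
  right_inv := by
    intro n
    rcases Nat.mod_two_eq_zero_or_one n with h | h
    · have h1 : (n + 1) % 2 ≠ 0 := by omega
      simp only [h, if_true, h1, if_false]
      omega
    · have h1 : (n - 1) % 2 = 0 := by omega
      have h2 : ¬ (n % 2 = 0) := by omega
      simp only [h1, h2, if_true, if_false]
      omega

/-- The group of signed permutations of `ℕ`: the centralizer of the fixed-point-free involution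
`2i ↔ 2i+1`. -/
def signedPerm : Subgroup (Equiv.Perm ℕ) := Subgroup.centralizer {nuPerm}

end Pool.Agent.H182R2.CB
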