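import Pool.Agent.H182R2.CB.NDefs

namespace Pool.Agent.H182R2.CB

open Finset Filter Topology

/-! ### S: the Schreier space -/

theorem S1_regular : IsRegularFamily schreier ∧ ∀ n, ({n} : Finset ℕ) ∈ schreier := by
  sorry

theorem S2_coord {X : Type*} [NormedAddCommGroup X] [NormedSpace ℝ X] {e : ℕ → X}
    (hX : IsCombinatorialSpace schreier X e) : Nonempty (SCoord X) := by
  sorry

theorem S3_separable {𝓕 : Set (Finset ℕ)} {X : Type*} [NormedAddCommGroup X] [NormedSpace ℝ X]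
    {e : ℕ → X} (hX : IsCombinatorialSpace 𝓕 X e) : TopologicalSpace.SeparableSpace X := by
  sorry

section N

variable {X : Type*} [NormedAddCommGroup X] [NormedSpace ℝ X]

/-! ### N: geometry of the Schreier space -/

theorem N1_upper (S : SCoord X) (m : ℕ) (u : ℕ → X) (b : ℕ → ℕ) (M : ℝ) (η : ℕ → ℝ)
    (hM0 : 0 ≤ M) (hη : ∀ j, 0 ≤ η j) (hηsum : ∑ j ∈ range m, η j ≤ 1)
    (hM : ∀ j < m, ‖u j‖ ≤ M)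
    (htail : ∀ j < m, ∀ F ∈ schreier, (∀ i ∈ F, b j < i) → ∑ k ∈ F, |S.co k (u j)| ≤ η j)
    (hflat : ∀ i j, i < j → j < m → ∀ k, |S.co k (u j)| * (b i + 1) ≤ η j) :
    ‖∑ j ∈ range m, u j‖ ≤ M + 1 := by
  sorry

theorem N2_lower (S : SCoord X) (m : ℕ) (v : ℕ → X) (p : ℕ → ℕ) (c : ℝ) (hc : 0 < c)
    (hinj : ∀ i j, i < m → j < m → p i = p j → i = j) (hp : ∀ j < m, m ≤ p j + 1)
    (hbig : ∀ j < m, c ≤ |S.co (p j) (v j)|)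
    (hoff : ∀ i j, i < m → j < m → i ≠ j → |S.co (p j) (v i)| ≤ c / (2 * m)) (θ : ℕ → ℝ) :
    c / 2 * ∑ j ∈ range m, |θ j| ≤ ‖∑ j ∈ range m, θ j • v j‖ := by
  sorry

theorem N3_spread (S : SCoord X) (v : ℕ → X)
    (hnull : ∀ p, Tendsto (fun k => S.co p (v k)) atTop (𝓝 0)) (c : ℝ) (hc : 0 < c)
    (hbig : ∀ K, ∃ k ≥ K, ∃ p, c ≤ |S.co p (v k)|) (m L : ℕ) :
    ∃ k : ℕ → ℕ, StrictMono k ∧ (∀ j, L ≤ k j) ∧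
      ∀ θ : ℕ → ℝ, c / 2 * ∑ j ∈ range m, |θ j| ≤ ‖∑ j ∈ range m, θ j • v (k j)‖ := by
  sorry

theorem N4_flat (S : SCoord X) (D : ℕ → X) (M : ℝ) (hM : ∀ j, ‖D j‖ ≤ M)
    (hnull : ∀ p, Tendsto (fun k => S.co p (D k)) atTop (𝓝 0)) (η : ℝ) (hη : 0 < η) (L : ℕ) :
    ∃ A : Finset ℕ, A.Nonempty ∧ (∀ j ∈ A, L ≤ j) ∧
      ∀ p, |S.co p ((1 / A.card : ℝ) • ∑ j ∈ A, D j)| ≤ η := by
  sorry

theorem N5_comb (S : SCoord X) (D : ℕ → X) (M : ℝ) (hM : ∀ j, ‖D j‖ ≤ M)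
    (hnull : ∀ p, Tendsto (fun k => S.co p (D k)) atTop (𝓝 0)) (R L : ℕ) :
    ∃ θ : ℕ →₀ ℝ, (∀ j, 0 ≤ θ j) ∧ (∀ j < L, θ j = 0) ∧ (θ.sum fun _ r => r) = R ∧
      ‖θ.sum fun j r => r • D j‖ ≤ M + 1 := by
  sorry

theorem N6_subseq (S : SCoord X) (w : ℕ → X) (M : ℝ) (hM : ∀ j, ‖w j‖ ≤ M) :
    ∃ φ : ℕ → ℕ, StrictMono φ ∧ ∀ p, ∃ l, Tendsto (fun k => S.co p (w (φ k))) atTop (𝓝 l) := by
  sorry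

theorem N7_no_l1 (S : SCoord X) (d : ℕ → X) (M : ℝ) (hM : ∀ j, ‖d j‖ ≤ M) (c : ℝ) (hc : 0 < c) :
    ¬ ∀ (θ : ℕ → ℝ) (m : ℕ), c * ∑ j ∈ range m, |θ j| ≤ ‖∑ j ∈ range m, θ j • d j‖ := by
  sorry

theorem N8_weak (S : SCoord X) (D : ℕ → X) (M : ℝ) (hM : ∀ j, ‖D j‖ ≤ M)
    (hnull : ∀ p, Tendsto (fun k => S.co p (D k)) atTop (𝓝 0)) (f : X →L[ℝ] ℝ) :
    Tendsto (fun k => f (D k)) atTop (𝓝 0) := by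
  sorry

/-! ### R: bounded representations of `SYM(ℕ)` on the Schreier space -/

theorem E1_ext (t : Finset ℕ) (f : ℕ → ℕ) (hf : Set.InjOn f t) :
    ∃ g : Equiv.Perm ℕ, ∀ i ∈ t, g i = f i := by
  sorry

theorem E2_family (B s t : Finset ℕ) :
    ∃ h : ℕ → Equiv.Perm ℕ, (∀ j, ∀ i ∈ B, h j i = i) ∧
      (∀ i j, i ≠ j → ∀ a ∈ s \ B, ∀ b ∈ s \ B, h i a ≠ h j b) ∧
      (∀ j, ∀ a ∈ s \ B, h j a ∉ t) := by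
  sorry

theorem R1_sym (R : BRep X) (x : X) (B s : Finset ℕ) (hBs : B ⊆ s) (ε : ℝ)
    (hs : ∀ g : Equiv.Perm ℕ, (∀ i ∈ s, g i = i) → ‖R.ρ g x - x‖ ≤ ε) (m : ℕ)
    (h h' : ℕ → Equiv.Perm ℕ) (hB : ∀ j < m, ∀ i ∈ B, h j i = i)
    (hB' : ∀ j < m, ∀ i ∈ B, h' j i = i)
    (hd : ∀ i < m, ∀ j < m, i ≠ j → ∀ a ∈ s \ B, ∀ b ∈ s \ B, h i a ≠ h j b)
    (hd' : ∀ i < m, ∀ j < m, i ≠ j → ∀ a ∈ s \ B, ∀ b ∈ s \ B, h' i a ≠ h' j b) (θ : ℕ → ℝ) :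
    ‖∑ j ∈ range m, θ j • R.ρ (h' j) x‖ ≤
      R.K * ‖∑ j ∈ range m, θ j • R.ρ (h j) x‖ + R.K * ε * ∑ j ∈ range m, |θ j| := by
  sorry

theorem R2_claimA (S : SCoord X) (R : BRep X) (x : X) (B s : Finset ℕ) (hBs : B ⊆ s) (ε : ℝ)
    (hε : 0 < ε) (hs : ∀ g : Equiv.Perm ℕ, (∀ i ∈ s, g i = i) → ‖R.ρ g x - x‖ ≤ ε)
    (h : ℕ → Equiv.Perm ℕ) (hB : ∀ j, ∀ i ∈ B, h j i = i)
    (hd : ∀ i j, i ≠ j → ∀ a ∈ s \ B, ∀ b ∈ s \ B, h i a ≠ h j b) :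
    ∃ φ : ℕ → ℕ, StrictMono φ ∧
      ∀ k l p, |S.co p (R.ρ (h (φ k)) x - R.ρ (h (φ l)) x)| ≤ 6 * R.K * ε := by
  sorry

theorem R3_pair (S : SCoord X) (R : BRep X) (x : X) (B s t : Finset ℕ) (hBs : B ⊆ s) (η : ℝ)
    (hη : 0 < η) :
    ∃ h h' : Equiv.Perm ℕ, (∀ i ∈ B, h i = i) ∧ (∀ i ∈ B, h' i = i) ∧
      (∀ a ∈ s \ B, h a ∉ t) ∧ (∀ a ∈ s \ B, h' a ∉ t) ∧
      (∀ a ∈ s \ B, ∀ b ∈ s \ B, h a ≠ h' b) ∧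
      ∀ p, |S.co p (R.ρ h x - R.ρ h' x)| ≤ η := by
  sorry

theorem R4_claimB (S : SCoord X) (R : BRep X) (x : X) (B s : Finset ℕ) (hBs : B ⊆ s) (ε : ℝ)
    (hε : 0 < ε) (hs : ∀ g : Equiv.Perm ℕ, (∀ i ∈ s, g i = i) → ‖R.ρ g x - x‖ ≤ ε) (N : ℕ)
    (k k' : ℕ → Equiv.Perm ℕ) (hB : ∀ j < N, ∀ i ∈ B, k j i = i)
    (hB' : ∀ j < N, ∀ i ∈ B, k' j i = i)
    (hd : ∀ i < N, ∀ j < N, i ≠ j → ∀ a ∈ s \ B, ∀ b ∈ s \ B, k i a ≠ k j b)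
    (hd' : ∀ i < N, ∀ j < N, i ≠ j → ∀ a ∈ s \ B, ∀ b ∈ s \ B, k' i a ≠ k' j b)
    (hdd : ∀ i < N, ∀ j < N, ∀ a ∈ s \ B, ∀ b ∈ s \ B, k i a ≠ k' j b) :
    ‖∑ j ∈ range N, (R.ρ (k j) x - R.ρ (k' j) x)‖ ≤
      R.K * (2 * R.K * ‖x‖ + 1) + 2 * N * R.K * ε := by
  sorry

theorem R5_avg (S : SCoord X) (R : BRep X) (x : X) (B : Finset ℕ) (N N' : ℕ) (hN : 0 < N)
    (hN' : 0 < N') (ε ε' : ℝ) (hε : 0 < ε) (hε' : 0 < ε') (A A' : X)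
    (hA : IsAvg R x B N ε A) (hA' : IsAvg R x B N' ε' A') :
    ‖A - A'‖ ≤ (R.K * (2 * R.K * ‖x‖ + 1) / N + 2 * R.K * ε) +
      (R.K * (2 * R.K * ‖x‖ + 1) / N' + 2 * R.K * ε') := by
  sorry

theorem R6_center [CompleteSpace X] (S : SCoord X) (R : BRep X) (x : X) (B : Finset ℕ) :
    ∃ y : X, (∀ g : Equiv.Perm ℕ, (∀ i ∈ B, g i = i) → R.ρ g y = y) ∧ ‖y‖ ≤ R.K * ‖x‖ ∧
      ∀ η : ℝ, 0 < η → ∀ s₀ t : Finset ℕ, ∃ h : Equiv.Perm ℕ, (∀ i ∈ B, h i = i) ∧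
        (∀ a ∈ s₀ \ B, h a ∉ t) ∧ ∀ p, |S.co p (R.ρ h x - y)| ≤ η := by
  sorry

theorem R7_key [CompleteSpace X] (S : SCoord X) (R : BRep X) (x : ℕ → X) (M : ℝ)
    (hM : ∀ n, ‖x n‖ ≤ M) (δ : ℝ) (hδ : 0 < δ) :
    ∃ (B : Finset ℕ) (n₀ : ℕ), ∀ n ≥ n₀, ∃ y : X,
      (∀ g : Equiv.Perm ℕ, (∀ i ∈ B, g i = i) → R.ρ g y = y) ∧ ‖y‖ ≤ R.K ^ 3 * M ∧
        ∀ p, |S.co p (x n - y)| ≤ δ := by
  sorry

theorem R8_capture (S : SCoord X) (R : BRep X) (g : Equiv.Perm ℕ) (D : ℕ → X) (M : ℝ)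
    (hM : ∀ j, ‖D j‖ ≤ M) (hnull : ∀ p, Tendsto (fun k => S.co p (D k)) atTop (𝓝 0))
    (hbig : ∀ j, ∃ p, 1 / 2 ≤ |S.co p (D j)|) :
    ∃ N : ℕ, ∀ J, ∃ j ≥ J, ∃ G : Finset ℕ, G.card ≤ N ∧
      1 / (8 * R.K) ≤ ∑ k ∈ G, |S.co k (R.ρ g (D j))| := by
  sorry

theorem R9_lower (S : SCoord X) (R : BRep X) (D : ℕ → X) (M : ℝ) (hM : ∀ j, ‖D j‖ ≤ M)
    (hnull : ∀ p, Tendsto (fun k => S.co p (D k)) atTop (𝓝 0))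
    (hbig : ∀ j, ∃ p, 1 / 2 ≤ |S.co p (D j)|) (m : ℕ) (g : ℕ → Equiv.Perm ℕ) :
    ∃ j : ℕ → ℕ, m * (1 / (16 * R.K)) ≤ ‖∑ l ∈ range m, R.ρ (g l) (D (j l))‖ := by
  sorry

theorem R10_upper [CompleteSpace X] (S : SCoord X) (R : BRep X)
    (hfix : ∀ y : X, (∀ g, R.ρ g y = y) → y = 0) (m : ℕ) (z : ℕ → X) (B : ℕ → Finset ℕ) (M : ℝ)
    (hM0 : 0 ≤ M) (hz : ∀ l < m, ‖z l‖ ≤ M)
    (hzB : ∀ l < m, ∀ g : Equiv.Perm ℕ, (∀ i ∈ B l, g i = i) → R.ρ g (z l) = z l)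
    (hd : ∀ l < m, ∀ l' < m, l ≠ l' → Disjoint (B l) (B l')) :
    ‖∑ l ∈ range m, z l‖ ≤ R.K * (R.K * M + 1) := by
  sorry

/-- Every bounded continuous representation of `SYM(ℕ)` on the Schreier space has a nonzero
fixed vector. -/
theorem R11_fixed [CompleteSpace X] (S : SCoord X) (R : BRep X) :
    ∃ y : X, y ≠ 0 ∧ ∀ g, R.ρ g y = y := by
  sorry

end N

/-! ### AC: automatic continuity -/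

theorem AC0_ext (A Z₁ Z₂ : Set ℕ) (h₁ : Z₁ ⊆ A) (h₂ : Z₂ ⊆ A) (hi₁ : (A \ Z₁).Infinite)
    (hi₂ : (A \ Z₂).Infinite) (φ : ℕ → ℕ) (hφ : Set.BijOn φ Z₁ Z₂) :
    ∃ a : Equiv.Perm ℕ, (∀ i, i ∉ A → a i = i) ∧ ∀ i ∈ Z₁, a i = φ i := by
  sorry

/-- An uncountable almost disjoint family (indexed by `ℕ → Bool`) with co-infinite unions. -/
theorem AC1_family : ∃ F : (ℕ → Bool) → Set ℕ, (∀ a, (F a).Infinite) ∧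
    (∀ a b, a ≠ b → (F a ∩ F b).Finite) ∧ (∀ a b, (F a ∪ F b)ᶜ.Infinite) := by
  sorry

theorem AC2_full (L : SepLength) (r : ℝ) (hr : 0 < r) :
    ∃ R : Set ℕ, R.Infinite ∧ Rᶜ.Infinite ∧ ∀ γ : Equiv.Perm ℕ, (∀ i, i ∉ R → γ i = i) →
      ∃ w, L.l w ≤ 2 * r ∧ ∀ i ∈ R, w i = γ i := by
  sorry

theorem AC3_moiety (L : SepLength) (r : ℝ) (hr : 0 < r) :
    ∃ A : Set ℕ, A.Infinite ∧ Aᶜ.Infinite ∧ ∀ γ : Equiv.Perm ℕ, (∀ i, i ∉ A → γ i = i) →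
      L.l γ ≤ 12 * r := by
  sorry

theorem AC4_move (L : SepLength) (r : ℝ) (hr : 0 < r) (C : Set ℕ) (hC : C.Infinite)
    (hC' : Cᶜ.Infinite) :
    ∃ h : Equiv.Perm ℕ, L.l h ≤ 2 * r ∧ (C ∩ h '' C).Finite ∧ (C ∪ h '' C)ᶜ.Infinite := by
  sorry

theorem AC5_gen (A A' : Set ℕ) (h1 : (A ∩ A').Infinite) (h2 : (A \ A').Infinite)
    (h3 : (A' \ A).Infinite) (g : Equiv.Perm ℕ) (hg : ∀ i, i ∉ A ∪ A' → g i = i) :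
    ∃ b₁ a₁ a₂ b₂ : Equiv.Perm ℕ, (∀ i, i ∉ A' → b₁ i = i) ∧ (∀ i, i ∉ A → a₁ i = i) ∧
      (∀ i, i ∉ A → a₂ i = i) ∧ (∀ i, i ∉ A' → b₂ i = i) ∧ g = b₁ * a₁ * (a₂⁻¹ * b₂ * a₂) := by
  sorry

theorem AC6_main (L : SepLength) (r : ℝ) (hr : 0 < r) :
    ∃ t : Finset ℕ, ∀ g : Equiv.Perm ℕ, (∀ i ∈ t, g i = i) → L.l g ≤ 68 * r := by
  sorry

theorem AC7_rep {X : Type*} [NormedAddCommGroup X] [NormedSpace ℝ X]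
    [TopologicalSpace.SeparableSpace X] (ρ : Equiv.Perm ℕ →* (X ≃ₗ[ℝ] X)) (K : ℝ) (hK : 1 ≤ K)
    (hb : ∀ g x, ‖ρ g x‖ ≤ K * ‖x‖) (x : X) (ε : ℝ) (hε : 0 < ε) :
    ∃ s : Finset ℕ, ∀ g : Equiv.Perm ℕ, (∀ i ∈ s, g i = i) → ‖ρ g x - x‖ ≤ ε := by
  sorry

/-! ### F: the group of signed permutations -/

theorem F1_closed : IsClosedPerm signedPerm ∧ nuPerm ∈ signedPerm ∧ nuPerm * nuPerm = 1 ∧
    nuPerm ≠ 1 ∧ (∀ g ∈ signedPerm, g * nuPerm = nuPerm * g) := by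
  sorry

/-- The permutations and the flips inside `signedPerm`. -/
theorem F2_struct : ∃ (ι : Equiv.Perm ℕ →* signedPerm) (τ : Set ℕ → signedPerm),
    (∀ π A, ι π * τ A * (ι π)⁻¹ = τ (π '' A)) ∧ (∀ A B, τ A * τ B = τ (symmDiff A B)) ∧
    ((τ Set.univ : signedPerm) : Equiv.Perm ℕ) = nuPerm ∧
    (∀ c : signedPerm, (∀ g, c * g = g * c) → c = 1 ∨ c = τ Set.univ) := by
  sorry

theorem F3_flip {X : Type*} [NormedAddCommGroup X] [NormedSpace ℝ X]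
    [TopologicalSpace.SeparableSpace X] {Γ : Type*} [Group Γ] (ι : Equiv.Perm ℕ →* Γ)
    (τ : Set ℕ → Γ) (h1 : ∀ π A, ι π * τ A * (ι π)⁻¹ = τ (π '' A))
    (h2 : ∀ A B, τ A * τ B = τ (symmDiff A B)) (ρ : Γ →* (X ≃ₗ[ℝ] X)) (K : ℝ) (hK : 1 ≤ K)
    (hb : ∀ g x, ‖ρ g x‖ ≤ K * ‖x‖) (y : X) (hy : ∀ π, ρ (ι π) y = y)
    (hneg : ρ (τ Set.univ) y = -y) : y = 0 := by
  sorry

/-- Final: the group of signed permutations is not displayable on the Schreier space. -/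
theorem F4_main {X : Type*} [NormedAddCommGroup X] [NormedSpace ℝ X] [CompleteSpace X]
    {e : ℕ → X} (hX : IsCombinatorialSpace schreier X e) : ¬ Displayable X signedPerm := by
  sorry

end Pool.Agent.H182R2.CB
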