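import Mathlib
import Pool.Agent.H182R2.CB.Defs

/-! # SP: the split case as a closed subgroup -/

set_option autoImplicit false

namespace Pool.Agent.H182R2.CB

/-- an identification of `Bool ⊕ ℕ` with `ℕ` -/
noncomputable def SP_ψ : Bool ⊕ ℕ ≃ ℕ :=
  (Equiv.sumCongr finTwoEquiv.symm (Equiv.refl ℕ)).trans (finSumNatEquiv 2)

/-- the embedding of `SYM(2) × SYM(ℕ)` in `SYM(ℕ)` -/
noncomputable def SP_j : Equiv.Perm Bool × Equiv.Perm ℕ →* Equiv.Perm ℕ where
  toFun x := (SP_ψ.symm.trans (Equiv.sumCongr x.1 x.2)).trans SP_ψ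
  map_one' := by
    ext n
    simp
  map_mul' x y := by
    ext n
    simp only [Equiv.trans_apply, Equiv.Perm.mul_apply, Prod.fst_mul, Prod.snd_mul,
      Equiv.symm_apply_apply]
    rcases SP_ψ.symm n with b | m
    · simp
    · simp

theorem SP_j_inl (x : Equiv.Perm Bool × Equiv.Perm ℕ) (b : Bool) :
    SP_j x (SP_ψ (Sum.inl b)) = SP_ψ (Sum.inl (x.1 b)) := by
  change SP_ψ (Equiv.sumCongr x.1 x.2 (SP_ψ.symm (SP_ψ (Sum.inl b)))) = _
  rw [Equiv.symm_apply_apply]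
  rfl

theorem SP_j_inr (x : Equiv.Perm Bool × Equiv.Perm ℕ) (n : ℕ) :
    SP_j x (SP_ψ (Sum.inr n)) = SP_ψ (Sum.inr (x.2 n)) := by
  change SP_ψ (Equiv.sumCongr x.1 x.2 (SP_ψ.symm (SP_ψ (Sum.inr n)))) = _
  rw [Equiv.symm_apply_apply]
  rfl

theorem SP_j_inj : Function.Injective SP_j := by
  intro x y h
  apply Prod.ext
  · ext b
    have h1 := congrArg (fun f : Equiv.Perm ℕ => f (SP_ψ (Sum.inl b))) h
    simp only [SP_j_inl] at h1
    have h2 := Sum.inl_injective (SP_ψ.injective h1)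
    rw [h2]
  · ext n
    have h1 := congrArg (fun f : Equiv.Perm ℕ => f (SP_ψ (Sum.inr n))) h
    simp only [SP_j_inr] at h1
    exact Sum.inr_injective (SP_ψ.injective h1)

/-- SP. The split case as a closed subgroup. -/
theorem SP_split (H : Subgroup (Equiv.Perm ℕ)) (hH : IsClosedPerm H) :
    ∃ (G K : Subgroup (Equiv.Perm ℕ)) (σ : G), IsClosedPerm G ∧ K ≤ G ∧
      (∃ s : Finset ℕ, ∀ g ∈ G, (∀ i ∈ s, g i = i) → g ∈ K) ∧ K.relIndex G ≠ 0 ∧
      σ * σ = 1 ∧ (∀ g : G, g * σ = σ * g) ∧ (σ : Equiv.Perm ℕ) ∉ K ∧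
      Nonempty (G ≃* ℤˣ × H) := by
  classical
  let P : Subgroup (Equiv.Perm Bool × Equiv.Perm ℕ) := (⊤ : Subgroup (Equiv.Perm Bool)).prod H
  let G : Subgroup (Equiv.Perm ℕ) := P.map SP_j
  let K : Subgroup (Equiv.Perm ℕ) := ((⊥ : Subgroup (Equiv.Perm Bool)).prod H).map SP_j
  have hKG : K ≤ G := Subgroup.map_mono (Subgroup.prod_mono bot_le le_rfl)
  have hmemG : ∀ π, π ∈ G ↔ ∃ a h, h ∈ H ∧ SP_j (a, h) = π := by
    intro π
    constructor
    · rintro ⟨⟨a, h⟩, hx, rfl⟩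
      exact ⟨a, h, hx.2, rfl⟩
    · rintro ⟨a, h, hh, rfl⟩
      exact ⟨(a, h), ⟨Subgroup.mem_top _, hh⟩, rfl⟩
  have hmemK : ∀ π, π ∈ K ↔ ∃ h, h ∈ H ∧ SP_j (1, h) = π := by
    intro π
    constructor
    · rintro ⟨⟨a, h⟩, hx, rfl⟩
      have : a = 1 := Subgroup.mem_bot.1 hx.1
      subst this
      exact ⟨h, hx.2, rfl⟩
    · rintro ⟨h, hh, rfl⟩
      exact ⟨(1, h), ⟨Subgroup.mem_bot.2 rfl, hh⟩, rfl⟩
  let τ : Equiv.Perm Bool := Equiv.swap false true
  have hτ1 : τ ≠ 1 := by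
    intro h
    have := congrArg (fun f : Equiv.Perm Bool => f false) h
    simp [τ] at this
  have hτ2 : τ * τ = 1 := Equiv.swap_mul_self _ _
  have hcomm : ∀ a : Equiv.Perm Bool, a * τ = τ * a := by
    intro a
    have : ∀ a : Equiv.Perm Bool, a * Equiv.swap false true = Equiv.swap false true * a := by
      decide
    exact this a
  let σ : G := ⟨SP_j (τ, 1), (hmemG _).2 ⟨τ, 1, H.one_mem, rfl⟩⟩
  refine ⟨G, K, σ, ?_, hKG, ?_, ?_, ?_, ?_, ?_, ?_⟩
  · -- closed
    intro π hπ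
    obtain ⟨g₀, hg₀, hg₀'⟩ := hπ {SP_ψ (Sum.inl false), SP_ψ (Sum.inl true)}
    obtain ⟨a, h₀, -, rfl⟩ := (hmemG _).1 hg₀
    have hinl : ∀ b, π (SP_ψ (Sum.inl b)) = SP_ψ (Sum.inl (a b)) := by
      intro b
      rw [← hg₀' (SP_ψ (Sum.inl b)) (by cases b <;> simp), SP_j_inl]
    have hinr : ∀ n, ∃ m, π (SP_ψ (Sum.inr n)) = SP_ψ (Sum.inr m) := by
      intro n
      obtain ⟨g, hg, hg'⟩ := hπ {SP_ψ (Sum.inr n)}
      obtain ⟨a', h', -, rfl⟩ := (hmemG _).1 hg
      exact ⟨h' n, by rw [← hg' _ (Finset.mem_singleton_self _), SP_j_inr]⟩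
    have hinr' : ∀ n, ∃ m, π.symm (SP_ψ (Sum.inr n)) = SP_ψ (Sum.inr m) := by
      intro n
      rcases hx : SP_ψ.symm (π.symm (SP_ψ (Sum.inr n))) with b | m
      · exfalso
        have h1 : π.symm (SP_ψ (Sum.inr n)) = SP_ψ (Sum.inl b) := by
          rw [← hx, Equiv.apply_symm_apply]
        have h2 : SP_ψ (Sum.inr n) = π (SP_ψ (Sum.inl b)) := by
          rw [← h1, Equiv.apply_symm_apply]
        rw [hinl] at h2
        have h3 := SP_ψ.injective h2
        simp at h3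
      · exact ⟨m, by rw [← hx, Equiv.apply_symm_apply]⟩
    choose f hf using hinr
    choose f' hf' using hinr'
    let h : Equiv.Perm ℕ :=
      { toFun := f
        invFun := f'
        left_inv := by
          intro n
          have h1 := hf' (f n)
          rw [← hf n, Equiv.symm_apply_apply] at h1
          exact (Sum.inr_injective (SP_ψ.injective h1)).symm
        right_inv := by
          intro n
          have h1 := hf (f' n)
          rw [← hf' n, Equiv.apply_symm_apply] at h1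
          exact (Sum.inr_injective (SP_ψ.injective h1)).symm }
    have hfh : ∀ n, h n = f n := fun _ => rfl
    rw [hmemG]
    refine ⟨a, h, ?_, ?_⟩
    · apply hH
      intro s
      obtain ⟨g, hg, hg'⟩ := hπ (s.image fun n => SP_ψ (Sum.inr n))
      obtain ⟨a', h', hh', rfl⟩ := (hmemG _).1 hg
      refine ⟨h', hh', ?_⟩
      intro i hi
      have h1 := hg' _ (Finset.mem_image_of_mem _ hi)
      rw [SP_j_inr, hf i] at h1
      rw [hfh]
      exact Sum.inr_injective (SP_ψ.injective h1)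
    · ext n
      obtain ⟨x, rfl⟩ := SP_ψ.surjective n
      rcases x with b | m
      · rw [SP_j_inl, hinl]
      · rw [SP_j_inr, hf, hfh]
  · refine ⟨{SP_ψ (Sum.inl false)}, ?_⟩
    intro g hg hfix
    obtain ⟨a, h, hh, rfl⟩ := (hmemG _).1 hg
    have h1 := hfix _ (Finset.mem_singleton_self _)
    rw [SP_j_inl] at h1
    have h2 : a false = false := Sum.inl_injective (SP_ψ.injective h1)
    have h3 : a = 1 := by
      have : ∀ a : Equiv.Perm Bool, a false = false → a = 1 := by decide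
      exact this a h2
    rw [hmemK]
    exact ⟨h, hh, by rw [h3]⟩
  · -- finite index
    have hfin : Finite (G ⧸ K.subgroupOf G) := by
      let q : Equiv.Perm Bool → G ⧸ K.subgroupOf G := fun a =>
        QuotientGroup.mk ⟨SP_j (a, 1), (hmemG _).2 ⟨a, 1, H.one_mem, rfl⟩⟩
      apply Finite.of_surjective q
      intro y
      obtain ⟨⟨g, hg⟩, rfl⟩ := QuotientGroup.mk_surjective y
      obtain ⟨a, h, hh, rfl⟩ := (hmemG _).1 hg
      refine ⟨a, ?_⟩
      rw [QuotientGroup.eq, Subgroup.mem_subgroupOf]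
      change (SP_j (a, 1))⁻¹ * SP_j (a, h) ∈ K
      rw [← map_inv, ← map_mul, hmemK]
      refine ⟨h, hh, ?_⟩
      simp
    exact Subgroup.index_ne_zero_of_finite
  · apply Subtype.ext
    change SP_j (τ, 1) * SP_j (τ, 1) = 1
    rw [← map_mul, Prod.mk_mul_mk, hτ2, mul_one]
    exact map_one _
  · rintro ⟨g, hg⟩
    obtain ⟨a, h, hh, rfl⟩ := (hmemG _).1 hg
    apply Subtype.ext
    change SP_j (a, h) * SP_j (τ, 1) = SP_j (τ, 1) * SP_j (a, h)
    rw [← map_mul, ← map_mul, Prod.mk_mul_mk, Prod.mk_mul_mk, hcomm, mul_one, one_mul]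
  · intro hmem
    obtain ⟨h, hh, h1⟩ := (hmemK _).1 hmem
    have h2 := SP_j_inj h1
    exact hτ1 (congrArg Prod.fst h2).symm
  · have hs : Function.Bijective (Equiv.Perm.sign : Equiv.Perm Bool →* ℤˣ) := by
      rw [Fintype.bijective_iff_surjective_and_card]
      exact ⟨Equiv.Perm.sign_surjective Bool, by decide⟩
    let e1 : G ≃* P := (P.equivMapOfInjective SP_j SP_j_inj).symm
    let e2 : P ≃* (⊤ : Subgroup (Equiv.Perm Bool)) × H := Subgroup.prodEquiv _ _
    let e3 : (⊤ : Subgroup (Equiv.Perm Bool)) ≃* ℤˣ :=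
      Subgroup.topEquiv.trans (MulEquiv.ofBijective _ hs)
    exact ⟨e1.trans (e2.trans (MulEquiv.prodCongr e3 (MulEquiv.refl H)))⟩

end Pool.Agent.H182R2.CB
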