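import Pool.Agent.H182R2.CB.Defs

namespace Pool.Agent.H182R2.CB

open Finset

/-! ### B: c₀ blocks in a regular family (pure combinatorics) -/

/-- B1. There is no infinite chain of one-point end-extensions inside a regular family. -/
theorem B1_wf {𝓕 : Set (Finset ℕ)} (h : IsRegularFamily 𝓕) :
    WellFounded (fun A' A : Finset ℕ => A' ∈ 𝓕 ∧ ∃ n, (∀ a ∈ A, a < n) ∧ A' = insert n A) := by
  sorry

/-- B2. The sums of `x` over the tails `G` of sets `A ∪ G ∈ 𝓕`. -/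
theorem B2_minimal {𝓕 : Set (Finset ℕ)} (h : IsRegularFamily 𝓕) (hs : ∀ n, {n} ∈ 𝓕) :
    ∃ (A : Finset ℕ) (N₀ : ℕ) (C₀ : ℝ), A ∈ 𝓕 ∧ 0 < C₀ ∧
      (∀ x : ℕ → ℝ, (∀ i, 0 ≤ x i) → (∀ i < N₀, x i = 0) → (Function.support x).Finite →
        (∀ G : Finset ℕ, (∀ a ∈ A, ∀ g ∈ G, a < g) → A ∪ G ∈ 𝓕 → ∑ i ∈ G, x i ≤ 1) →
        ∀ F ∈ 𝓕, ∑ i ∈ F, x i ≤ C₀) ∧
      (∀ (n N : ℕ) (ε : ℝ), 0 < ε → (∀ a ∈ A, a < n) →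
        ∃ x : ℕ → ℝ, (∀ i, 0 ≤ x i) ∧ (∀ i < N, x i = 0) ∧ (Function.support x).Finite ∧
          (∀ G : Finset ℕ, (∀ a ∈ A, ∀ g ∈ G, a < g) → A ∪ G ∈ 𝓕 → ∑ i ∈ G, x i ≤ 1) ∧
          (∃ G : Finset ℕ, (∀ a ∈ A, ∀ g ∈ G, a < g) ∧ A ∪ G ∈ 𝓕 ∧ ∑ i ∈ G, x i = 1) ∧
          (∀ G : Finset ℕ, (∀ g ∈ G, n < g) → insert n A ∪ G ∈ 𝓕 → ∑ i ∈ G, x i ≤ ε)) := by
  sorry

/-- B3. Blocks: `z k ≥ 0` finitely supported with successive supports, normed by `G k ∈ 𝓕`, and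
uniformly bounded sums (so they span `c₀`). -/
theorem B3_blocks {𝓕 : Set (Finset ℕ)} (h : IsRegularFamily 𝓕) (hs : ∀ n, {n} ∈ 𝓕) :
    ∃ (z : ℕ → ℕ →₀ ℝ) (G : ℕ → Finset ℕ) (C : ℝ), 1 ≤ C ∧ (∀ k i, 0 ≤ z k i) ∧
      (∀ k, G k ∈ 𝓕) ∧ (∀ k, G k ⊆ (z k).support) ∧ (∀ k, ∑ i ∈ G k, z k i = 1) ∧
      (∀ k l, k < l → ∀ i ∈ (z k).support, ∀ j ∈ (z l).support, i < j) ∧
      (∀ F ∈ 𝓕, ∀ K : ℕ, ∑ i ∈ F, ∑ k ∈ Finset.range K, z k i ≤ C) := by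
  sorry

/-! ### C: the splitting of a combinatorial space -/

/-- C0. The supremum in the norm is attained, on a subset of the support. -/
theorem C0_norm {𝓕 : Set (Finset ℕ)} (h : IsRegularFamily 𝓕) (hs : ∀ n, {n} ∈ 𝓕) {Y : Type*}
    [NormedAddCommGroup Y] [NormedSpace ℝ Y] {e : ℕ → Y} (hY : IsCombinatorialSpace 𝓕 Y e)
    (a : ℕ →₀ ℝ) :
    (∀ F ∈ 𝓕, ∑ k ∈ F, |a k| ≤ ‖Finsupp.linearCombination ℝ e a‖) ∧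
      ∃ F ∈ 𝓕, F ⊆ a.support ∧ ‖Finsupp.linearCombination ℝ e a‖ = ∑ k ∈ F, |a k| := by
  sorry

/-- C1. Coordinate functionals. -/
theorem C1_coord {𝓕 : Set (Finset ℕ)} (h : IsRegularFamily 𝓕) (hs : ∀ n, {n} ∈ 𝓕) {Y : Type*}
    [NormedAddCommGroup Y] [NormedSpace ℝ Y] {e : ℕ → Y} (hY : IsCombinatorialSpace 𝓕 Y e) :
    ∃ coord : ℕ → Y →L[ℝ] ℝ,
      (∀ k j, coord k (e j) = if k = j then 1 else 0) ∧
      (∀ x, ∀ F ∈ 𝓕, ∑ k ∈ F, |coord k x| ≤ ‖x‖) ∧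
      (∀ x, ∀ ε : ℝ, 0 < ε → ∃ F ∈ 𝓕, ‖x‖ ≤ ∑ k ∈ F, |coord k x| + ε) ∧
      (∀ x, ∀ ε : ℝ, 0 < ε → ∃ s : Finset ℕ, ∀ F ∈ 𝓕, Disjoint F s →
        ∑ k ∈ F, |coord k x| ≤ ε) := by
  sorry

/-- C2. Bounded operators are determined by the basis and can be defined on it. -/
theorem C2_extend {Y : Type*} [NormedAddCommGroup Y] [NormedSpace ℝ Y] {e : ℕ → Y}
    (hd : Dense (Submodule.span ℝ (Set.range e) : Set Y)) {Z : Type*} [NormedAddCommGroup Z]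
    [NormedSpace ℝ Z] [CompleteSpace Z] (b : ℕ → Z) (C : ℝ)
    (hb : ∀ a : ℕ →₀ ℝ, ‖Finsupp.linearCombination ℝ b a‖ ≤
      C * ‖Finsupp.linearCombination ℝ e a‖) :
    ∃ T : Y →L[ℝ] Z, ∀ k, T (e k) = b k := by
  sorry

/-- C3. Null combinations of the blocks converge in `Y`. -/
theorem C3_lift {𝓕 : Set (Finset ℕ)} (h : IsRegularFamily 𝓕) (hs : ∀ n, {n} ∈ 𝓕) {Y : Type*}
    [NormedAddCommGroup Y] [NormedSpace ℝ Y] [CompleteSpace Y] {e : ℕ → Y}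
    (hY : IsCombinatorialSpace 𝓕 Y e) (coord : ℕ → Y →L[ℝ] ℝ)
    (hcoord : ∀ k j, coord k (e j) = if k = j then 1 else 0)
    (z : ℕ → ℕ →₀ ℝ) (C : ℝ) (hC : 1 ≤ C) (hz0 : ∀ k i, 0 ≤ z k i)
    (hzz : ∀ k l, k < l → ∀ i ∈ (z k).support, ∀ j ∈ (z l).support, i < j)
    (hzC : ∀ F ∈ 𝓕, ∀ K : ℕ, ∑ i ∈ F, ∑ k ∈ Finset.range K, z k i ≤ C)
    (f : ℕ → ℝ) (M : ℝ) (hf : ∀ ε : ℝ, 0 < ε → {k | ε ≤ |f k|}.Finite) (hM : ∀ k, |f k| ≤ M) :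
    ∃ x : Y, (∀ k, ∀ i ∈ (z k).support, coord i x = f k * z k i) ∧
      (∀ i, (∀ k, i ∉ (z k).support) → coord i x = 0) ∧ ‖x‖ ≤ C * M := by
  sorry

/-- C4. The splitting. -/
theorem C4_splitting {𝓕 : Set (Finset ℕ)} (h : IsRegularFamily 𝓕) (hs : ∀ n, {n} ∈ 𝓕)
    {Y : Type*} [NormedAddCommGroup Y] [NormedSpace ℝ Y] [CompleteSpace Y] {e : ℕ → Y}
    (hY : IsCombinatorialSpace 𝓕 Y e) :
    ∃ (J : Type) (_ : Countable J), Nonempty (Splitting Y J) := by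
  sorry

/-! ### D: coding closed permutation groups -/

/-- D1. The orbits of pairs code the group. -/
theorem D1_coding (G : Subgroup (Equiv.Perm ℕ)) (hG : IsClosedPerm G) {E : Type*} [Countable E]
    (ρ : G →* Equiv.Perm E) (σ : G) (b : Finset ℕ → E) (hbinj : Function.Injective b)
    (hbσ : ∀ s s', b s' ≠ ρ σ (b s))
    (hb : ∀ (g g' : G) (s : Finset ℕ), ρ g (b s) = ρ g' (b s) →
      ∀ i ∈ s, (g : Equiv.Perm ℕ) i = (g' : Equiv.Perm ℕ) i)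
    (hsupp : ∀ e, ∃ s : Finset ℕ, ∀ g : G, (∀ i ∈ s, (g : Equiv.Perm ℕ) i = i) → ρ g e = e) :
    ∃ s : E → E → ℝ, (∀ e e', 0 < s e e' ∧ s e e' < 1 / 40) ∧
      (∀ g e e', s (ρ g e) (ρ g e') = s e e') ∧
      (∀ π : Equiv.Perm E, (∀ e e', e' ≠ e → e' ≠ ρ σ e → s (π e) (π e') = s e e') →
        ∃ g : G, ∀ e, π e = ρ g e) := by
  sorry

/-- D2. A suitable action of `G` on `ℕ × Θ`. -/
theorem D2_action (G K : Subgroup (Equiv.Perm ℕ)) (hKG : K ≤ G)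
    (hKopen : ∃ s : Finset ℕ, ∀ g ∈ G, (∀ i ∈ s, g i = i) → g ∈ K)
    (hKfin : K.relIndex G ≠ 0) (σ : G) (hσ2 : σ * σ = 1) (hσc : ∀ g : G, g * σ = σ * g)
    (hσK : (σ : Equiv.Perm ℕ) ∉ K) :
    ∃ (Θ : Type) (_ : Fintype Θ) (_ : Nonempty Θ) (θ : G →* Equiv.Perm Θ)
      (ρ : G →* Equiv.Perm (ℕ × Θ)) (b : Finset ℕ → ℕ × Θ) (k₀ k₁ : ℕ),
      (∀ t, θ σ t ≠ t) ∧ (∀ k t, ρ σ (k, t) = (k, θ σ t)) ∧
      Function.Injective b ∧ (∀ s s', b s' ≠ ρ σ (b s)) ∧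
      (∀ (g g' : G) (s : Finset ℕ), ρ g (b s) = ρ g' (b s) →
        ∀ i ∈ s, (g : Equiv.Perm ℕ) i = (g' : Equiv.Perm ℕ) i) ∧
      (∀ p, ∃ s : Finset ℕ, ∀ g : G, (∀ i ∈ s, (g : Equiv.Perm ℕ) i = i) → ρ g p = p) ∧
      (∀ t, ∃ s : Finset ℕ, ∀ g : G, (∀ i ∈ s, (g : Equiv.Perm ℕ) i = i) → θ g t = t) ∧
      k₀ ≠ k₁ ∧ (∀ g t, ρ g (k₀, t) = (k₀, θ g t)) ∧ (∀ g t, ρ g (k₁, t) = (k₁, θ g t)) := by
  sorry

/-! ### Z: the signed system on the odd functions -/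

/-- Z1. -/
theorem Z1_system {Y : Type*} [NormedAddCommGroup Y] [NormedSpace ℝ Y] {J : Type*}
    (S : Splitting Y J) {G : Type*} [Group G] (σ : G) (hσ2 : σ * σ = 1)
    (hσc : ∀ g : G, g * σ = σ * g) {Θ : Type*} [Fintype Θ] (θ : G →* Equiv.Perm Θ)
    (hθ : ∀ t, θ σ t ≠ t) (ρ : G →* Equiv.Perm (ℕ × Θ))
    (hρσ : ∀ k t, ρ σ (k, t) = (k, θ σ t)) :
    Nonempty (SignedSystem (oddSpace Y (θ σ)) (sumAct ρ θ J) σ) := by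
  sorry

/-! ### X: residue classes -/

/-- X1. -/
theorem X1_dil {𝓕 : Set (Finset ℕ)} (h : IsRegularFamily 𝓕) (hs : ∀ n, {n} ∈ 𝓕) (n : ℕ)
    (hn : 1 ≤ n) : IsRegularFamily (dil n 𝓕) ∧ ∀ k, {k} ∈ dil n 𝓕 := by
  sorry

/-- X2. -/
theorem X2_sub {𝓕 : Set (Finset ℕ)} (h : IsRegularFamily 𝓕) (hs : ∀ n, {n} ∈ 𝓕) (n : ℕ)
    (hn : 1 ≤ n) {X : Type*} [NormedAddCommGroup X] [NormedSpace ℝ X] [CompleteSpace X]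
    {e : ℕ → X} (hX : IsCombinatorialSpace 𝓕 X e) :
    ∃ (Y : Submodule ℝ X) (e' : ℕ → Y), IsClosed (Y : Set X) ∧
      IsCombinatorialSpace (dil n 𝓕) Y e' := by
  sorry

/-- X3. -/
theorem X3_iso {𝓕 : Set (Finset ℕ)} (h : IsRegularFamily 𝓕) (hs : ∀ n, {n} ∈ 𝓕) (n : ℕ)
    (hn : 1 ≤ n) {X : Type*} [NormedAddCommGroup X] [NormedSpace ℝ X] [CompleteSpace X]
    {e : ℕ → X} (hX : IsCombinatorialSpace 𝓕 X e) {Y : Type*} [NormedAddCommGroup Y]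
    [NormedSpace ℝ Y] [CompleteSpace Y] {e' : ℕ → Y} (hY : IsCombinatorialSpace (dil n 𝓕) Y e')
    {Θ : Type*} [Fintype Θ] (ν : Θ → Θ) (hν : ∀ t, ν t ≠ t) (hν2 : ∀ t, ν (ν t) = t)
    (hcard : Fintype.card Θ = 2 * n) : Nonempty (X ≃L[ℝ] oddSpace Y ν) := by
  sorry

/-- X4. -/
theorem X4_transfer {X Y : Type*} [NormedAddCommGroup X] [NormedSpace ℝ X]
    [NormedAddCommGroup Y] [NormedSpace ℝ Y] (Φ : X ≃L[ℝ] Y) {G : Type*} [Group G]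
    (h : Displayable Y G) : Displayable X G := by
  sorry

/-- SP. The split case as a closed subgroup. -/
theorem SP_split (H : Subgroup (Equiv.Perm ℕ)) (hH : IsClosedPerm H) :
    ∃ (G K : Subgroup (Equiv.Perm ℕ)) (σ : G), IsClosedPerm G ∧ K ≤ G ∧
      (∃ s : Finset ℕ, ∀ g ∈ G, (∀ i ∈ s, g i = i) → g ∈ K) ∧ K.relIndex G ≠ 0 ∧
      σ * σ = 1 ∧ (∀ g : G, g * σ = σ * g) ∧ (σ : Equiv.Perm ℕ) ∉ K ∧
      Nonempty (G ≃* ℤˣ × H) := by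
  sorry

/-! ### A: the renorming -/

section A

variable {X : Type*} [NormedAddCommGroup X] [NormedSpace ℝ X] {G E : Type*} [Group G]
  {ρ : G →* Equiv.Perm E} {σ : G}

/-- A0a. `c` is injective and `ρ σ` is a fixed-point-free involution commuting with everything. -/
theorem A0a_basic (S : SignedSystem X ρ σ) :
    (∀ e e', S.c e = S.c e' → e = e') ∧ (∀ e, ρ σ e ≠ e) ∧ (∀ e, ρ σ (ρ σ e) = e) ∧
      (∀ g e, ρ g (ρ σ e) = ρ σ (ρ g e)) ∧ (∀ e, S.c e (S.v (ρ σ e)) = -1) ∧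
      (∀ e e', |S.c e (S.v e')| = 0 ∨ |S.c e (S.v e')| = 1) := by
  sorry

/-- A0b. -/
theorem A0b_phi (S : SignedSystem X ρ σ) (s : E → E → ℝ)
    (hsσ : ∀ e e', s (ρ σ e) (ρ σ e') = s e e') (i : E × E) (x : X) :
    S.phi s (ρ σ i.1, ρ σ i.2) x = - S.phi s i x := by
  sorry

/-- A1. The operators `T g`. -/
theorem A1_T (S : SignedSystem X ρ σ) :
    ∃ T : G →* (X ≃ₗ[ℝ] X), (∀ g e x, S.c e (T g x) = S.c (ρ g⁻¹ e) x) ∧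
      ∀ g x, ‖T g x‖ ≤ S.K * ‖x‖ := by
  sorry

/-- A2. The three seminorms. -/
theorem A2_norms (S : SignedSystem X ρ σ) (s : E → E → ℝ)
    (hs01 : ∀ e e', 0 < s e e' ∧ s e e' < 1 / 40)
    (hsinv : ∀ g e e', s (ρ g e) (ρ g e') = s e e')
    (Q : Finset E) (hQ : ∀ g, ∀ e ∈ Q, ρ g e ∈ Q)
    (T : G →* (X ≃ₗ[ℝ] X)) (hT : ∀ g e x, S.c e (T g x) = S.c (ρ g⁻¹ e) x)
    (hTK : ∀ g x, ‖T g x‖ ≤ S.K * ‖x‖) :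
    ∃ p q r : Seminorm ℝ X, (∀ x, ‖x‖ ≤ p x) ∧ (∀ x, p x ≤ S.K * ‖x‖) ∧
      (∀ g x, p (T g x) = p x) ∧ (∀ x, q x ^ 2 = ∑ e ∈ Q, (S.c e x) ^ 2) ∧
      (∀ g x, q (T g x) = q x) ∧ (∀ i x, |S.phi s i x| ≤ r x) ∧
      (∀ (x : X) (M : ℝ), 0 ≤ M → (∀ i, |S.phi s i x| ≤ M) → r x ≤ M) ∧
      (∀ g x, r (T g x) = r x) := by
  sorry

/-- A3. Facets. -/
theorem A3_facet (S : SignedSystem X ρ σ) (s : E → E → ℝ)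
    (hs01 : ∀ e e', 0 < s e e' ∧ s e e' < 1 / 40)
    (hsσ : ∀ e e', s (ρ σ e) (ρ σ e') = s e e') (i : E × E) :
    ∃ (x : X) (η : ℝ), 0 < η ∧ S.phi s i x = 1 ∧ ‖x‖ ≤ 2 * S.K ∧ (∀ e, |S.c e x| ≤ 1) ∧
      ∀ j, (∀ y, S.phi s j y = S.phi s i y) ∨ (∀ y, S.phi s j y = - S.phi s i y) ∨
        |S.phi s j x| ≤ 1 - η := by
  sorry

/-- A4a. The smooth part is nowhere linear. -/
theorem A4a_smooth (S : SignedSystem X ρ σ) (Q : Finset E) (hQ : ∀ g, ∀ e ∈ Q, ρ g e ∈ Q)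
    (e₀ e₁ : E) (he₀ : e₀ ∈ Q) (he₁ : e₁ ∈ Q) (h01 : e₁ ≠ e₀) (h01' : e₁ ≠ ρ σ e₀)
    (p q : Seminorm ℝ X) (hq : ∀ x, q x ^ 2 = ∑ e ∈ Q, (S.c e x) ^ 2)
    (ψ : X →ₗ[ℝ] ℝ) (U : Set X) (hU : IsOpen U) (hne : U.Nonempty) (δ : ℝ) (hδ : 0 < δ) :
    ¬ ∀ x ∈ U, δ * (p x + q x) = ψ x := by
  sorry

/-- A4b. Where `r` is linear it is one of the `± φ_i`. -/
theorem A4b_facets [Nonempty E] (S : SignedSystem X ρ σ) (s : E → E → ℝ)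
    (hs01 : ∀ e e', 0 < s e e' ∧ s e e' < 1 / 40) (r : Seminorm ℝ X)
    (hr1 : ∀ i x, |S.phi s i x| ≤ r x)
    (hr2 : ∀ (x : X) (M : ℝ), 0 ≤ M → (∀ i, |S.phi s i x| ≤ M) → r x ≤ M)
    (ψ : X →L[ℝ] ℝ) (U : Set X) (hU : IsOpen U) (hne : U.Nonempty) (h : ∀ x ∈ U, r x = ψ x) :
    ∃ i, (∀ x, ψ x = S.phi s i x) ∨ (∀ x, ψ x = - S.phi s i x) := by
  sorry

/-- A5. A linear bijection permuting the norming functionals permutes the coordinates. -/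
theorem A5_perm [Infinite E] (S : SignedSystem X ρ σ) (s : E → E → ℝ)
    (hs01 : ∀ e e', 0 < s e e' ∧ s e e' < 1 / 40) (T : X ≃ₗ[ℝ] X)
    (h1 : ∀ i, ∃ j, ∀ x, S.phi s i (T x) = S.phi s j x)
    (h2 : ∀ i, ∃ j, ∀ x, S.phi s i (T.symm x) = S.phi s j x) :
    ∃ π : Equiv.Perm E, (∀ e x, S.c e (T x) = S.c (π e) x) ∧
      ∀ e e', e' ≠ e → e' ≠ ρ σ e → s (π e) (π e') = s e e' := by
  sorry

/-- A. The abstract theorem. -/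
theorem A_main [Infinite E] (S : SignedSystem X ρ σ) (s : E → E → ℝ)
    (hs01 : ∀ e e', 0 < s e e' ∧ s e e' < 1 / 40)
    (hsinv : ∀ g e e', s (ρ g e) (ρ g e') = s e e')
    (hscl : ∀ π : Equiv.Perm E, (∀ e e', e' ≠ e → e' ≠ ρ σ e → s (π e) (π e') = s e e') →
      ∃ g : G, ∀ e, π e = ρ g e)
    (Q : Finset E) (hQ : ∀ g, ∀ e ∈ Q, ρ g e ∈ Q) (e₀ e₁ : E) (he₀ : e₀ ∈ Q) (he₁ : e₁ ∈ Q)
    (h01 : e₁ ≠ e₀) (h01' : e₁ ≠ ρ σ e₀) (hfaith : Function.Injective ρ) :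
    Displayable X G := by
  sorry

end A

/-! ### Final theorem -/

/-- Final. -/
theorem FIN_main {𝓕 : Set (Finset ℕ)} (h : IsRegularFamily 𝓕) (hs : ∀ n, {n} ∈ 𝓕) {X : Type*}
    [NormedAddCommGroup X] [NormedSpace ℝ X] [CompleteSpace X] {e : ℕ → X}
    (hX : IsCombinatorialSpace 𝓕 X e) (G K : Subgroup (Equiv.Perm ℕ)) (hG : IsClosedPerm G)
    (hKG : K ≤ G) (hKopen : ∃ s : Finset ℕ, ∀ g ∈ G, (∀ i ∈ s, g i = i) → g ∈ K)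
    (hKfin : K.relIndex G ≠ 0) (σ : G) (hσ2 : σ * σ = 1) (hσc : ∀ g : G, g * σ = σ * g)
    (hσK : (σ : Equiv.Perm ℕ) ∉ K) : Displayable X G := by
  sorry

end Pool.Agent.H182R2.CB
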