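import Pool.Agent.H182R2.CB.Defs

/-!
# Topological displayability: definitions
-/

namespace Pool.Agent.H182R2.CB

/-- The topology of pointwise convergence on a group of permutations of `ℕ` (`ℕ` discrete). -/
def permTopology (G : Subgroup (Equiv.Perm ℕ)) : TopologicalSpace G :=
  TopologicalSpace.induced (fun g : G => fun i : ℕ => (g : Equiv.Perm ℕ) i) inferInstance

/-- The strong operator topology (pointwise norm convergence) on the isometry group. -/
def sotTopology (X : Type*) [NormedAddCommGroup X] [NormedSpace ℝ X] (N : Seminorm ℝ X) :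
    TopologicalSpace (isomGroup X N) :=
  TopologicalSpace.induced (fun T : isomGroup X N => fun x : X => (T : X ≃ₗ[ℝ] X) x) inferInstance

/-- `G` is topologically displayable on `X`: it is isomorphic, by an isomorphism that is a
homeomorphism for the pointwise topology and the strong operator topology, to the isometry group
of `X` under some equivalent norm. -/
def TopDisplayable (X : Type*) [NormedAddCommGroup X] [NormedSpace ℝ X]
    (G : Subgroup (Equiv.Perm ℕ)) : Prop :=
  ∃ N : Seminorm ℝ X, (∃ m M : ℝ, 0 < m ∧ ∀ x, m * ‖x‖ ≤ N x ∧ N x ≤ M * ‖x‖) ∧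
    ∃ f : G ≃* isomGroup X N, @IsHomeomorph _ _ (permTopology G) (sotTopology X N) f

/-- Criterion at the identity. -/
theorem topDisplayable_of_identity {X : Type*} [NormedAddCommGroup X] [NormedSpace ℝ X]
    (G : Subgroup (Equiv.Perm ℕ)) (N : Seminorm ℝ X)
    (hN : ∃ m M : ℝ, 0 < m ∧ ∀ x, m * ‖x‖ ≤ N x ∧ N x ≤ M * ‖x‖) (f : G ≃* isomGroup X N)
    (h1 : ∀ x : X, ∀ ε : ℝ, 0 < ε → ∃ s : Finset ℕ, ∀ g : G,
      (∀ i ∈ s, (g : Equiv.Perm ℕ) i = i) → ‖(f g).1 x - x‖ < ε)
    (h2 : ∀ i : ℕ, ∃ (x : X) (ε : ℝ), 0 < ε ∧ ∀ g : G,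
      ‖(f g).1 x - x‖ < ε → (g : Equiv.Perm ℕ) i = i) : TopDisplayable X G := by
  refine ⟨N, hN, f, ?_⟩
  obtain ⟨m, M, hm, hmM⟩ := hN
  have hbound : ∀ g : G, ∀ x, ‖(f g).1 x‖ ≤ M / m * ‖x‖ := by
    intro g x
    have h5 := (hmM ((f g).1 x)).1
    have h5' : N ((f g).1 x) = N x := (f g).2 x
    rw [h5'] at h5
    have h6 := (hmM x).2
    rw [div_mul_eq_mul_div, le_div_iff₀ hm]
    linarith
  letI : TopologicalSpace G := permTopology G
  letI : TopologicalSpace (isomGroup X N) := sotTopology X N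
  have hcont : Continuous f := by
    refine continuous_induced_rng.mpr ?_
    refine continuous_pi fun x => ?_
    rw [continuous_iff_continuousAt]
    intro g₀
    rw [ContinuousAt, Metric.tendsto_nhds]
    intro ε hε
    have hMm : 0 ≤ M / m ∨ M / m < 0 := le_or_gt 0 _
    set C : ℝ := max (M / m) 0 + 1 with hC
    have hCpos : 0 < C := by have := le_max_right (M / m) 0; linarith
    obtain ⟨s, hs⟩ := h1 x (ε / C) (by positivity)
    have hopen : IsOpen {g : G | ∀ i ∈ s, (g : Equiv.Perm ℕ) i = (g₀ : Equiv.Perm ℕ) i} := by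
      have : {g : G | ∀ i ∈ s, (g : Equiv.Perm ℕ) i = (g₀ : Equiv.Perm ℕ) i} =
          (fun g : G => fun i : ℕ => (g : Equiv.Perm ℕ) i) ⁻¹'
            {u : ℕ → ℕ | ∀ i ∈ s, u i = (g₀ : Equiv.Perm ℕ) i} := rfl
      rw [this]
      refine isOpen_induced ?_
      have h3 : {u : ℕ → ℕ | ∀ i ∈ s, u i = (g₀ : Equiv.Perm ℕ) i} =
          ⋂ i ∈ s, {u : ℕ → ℕ | u i = (g₀ : Equiv.Perm ℕ) i} := by
        ext u; simp
      rw [h3]
      refine isOpen_biInter_finset fun i _ => ?_
      exact (isOpen_discrete ({(g₀ : Equiv.Perm ℕ) i} : Set ℕ)).preimage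
        (continuous_apply (A := fun _ : ℕ => ℕ) i)
    filter_upwards [hopen.mem_nhds (fun i _ => rfl)] with g hg
    have hg' : ∀ i ∈ s, ((g₀⁻¹ * g : G) : Equiv.Perm ℕ) i = i := by
      intro i hi
      show (g₀ : Equiv.Perm ℕ)⁻¹ ((g : Equiv.Perm ℕ) i) = i
      rw [hg i hi]
      exact Equiv.symm_apply_apply _ _
    have h4 := hs _ hg'
    have h5 : (f g).1 x - (f g₀).1 x = (f g₀).1 ((f (g₀⁻¹ * g)).1 x - x) := by
      rw [map_sub]
      congr 1
      have : f g = f g₀ * f (g₀⁻¹ * g) := by rw [← map_mul]; simp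
      rw [this]; rfl
    rw [dist_eq_norm]
    change ‖(f g).1 x - (f g₀).1 x‖ < ε
    rw [h5]
    calc ‖(f g₀).1 ((f (g₀⁻¹ * g)).1 x - x)‖ ≤ M / m * ‖(f (g₀⁻¹ * g)).1 x - x‖ := hbound _ _
      _ ≤ C * ‖(f (g₀⁻¹ * g)).1 x - x‖ := by
          gcongr
          have := le_max_left (M / m) 0
          linarith
      _ < C * (ε / C) := by gcongr
      _ = ε := by field_simp
  have hcont' : Continuous f.symm := by
    refine continuous_induced_rng.mpr ?_
    refine continuous_pi fun i => ?_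
    rw [continuous_iff_continuousAt]
    intro T₀
    obtain ⟨x, ε, hε, hx⟩ := h2 i
    set C : ℝ := max (M / m) 0 + 1 with hC
    have hCpos : 0 < C := by have := le_max_right (M / m) 0; linarith
    have hopen : IsOpen {T : isomGroup X N | ‖T.1 x - T₀.1 x‖ < ε / C} := by
      have : {T : isomGroup X N | ‖T.1 x - T₀.1 x‖ < ε / C} =
          (fun T : isomGroup X N => fun y : X => (T : X ≃ₗ[ℝ] X) y) ⁻¹'
            {u : X → X | ‖u x - T₀.1 x‖ < ε / C} := rfl
      rw [this]
      refine isOpen_induced ?_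
      exact isOpen_lt ((continuous_apply x).sub continuous_const).norm continuous_const
    have hev : ∀ T ∈ {T : isomGroup X N | ‖T.1 x - T₀.1 x‖ < ε / C},
        ((f.symm T : G) : Equiv.Perm ℕ) i = ((f.symm T₀ : G) : Equiv.Perm ℕ) i := by
      intro T hT
      have h6 : (((f.symm T₀)⁻¹ * f.symm T : G) : Equiv.Perm ℕ) i = i ∨ True := Or.inr trivial
      -- work with g₀⁻¹ g at the point i
      have key : (((f.symm T₀)⁻¹ * f.symm T : G) : Equiv.Perm ℕ) i = i := by
        apply hx
        have h7 : f ((f.symm T₀)⁻¹ * f.symm T) = T₀⁻¹ * T := by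
          rw [map_mul, map_inv, MulEquiv.apply_symm_apply, MulEquiv.apply_symm_apply]
        rw [h7]
        have h8 : (T₀⁻¹ * T : isomGroup X N).1 x - x = (T₀⁻¹).1 (T.1 x - T₀.1 x) := by
          rw [map_sub]
          congr 1
          show x = (T₀⁻¹ * T₀ : isomGroup X N).1 x
          rw [inv_mul_cancel]; rfl
        rw [h8]
        have h9 := hbound (f.symm T₀⁻¹) (T.1 x - T₀.1 x)
        rw [MulEquiv.apply_symm_apply] at h9
        calc ‖(T₀⁻¹).1 (T.1 x - T₀.1 x)‖ ≤ M / m * ‖T.1 x - T₀.1 x‖ := h9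
          _ ≤ C * ‖T.1 x - T₀.1 x‖ := by
              gcongr
              have := le_max_left (M / m) 0
              linarith
          _ < C * (ε / C) := by
              have : ‖T.1 x - T₀.1 x‖ < ε / C := hT
              gcongr
          _ = ε := by field_simp
      have h10 : (f.symm T₀ : Equiv.Perm ℕ)⁻¹ ((f.symm T : Equiv.Perm ℕ) i) = i := key
      have h11 := congrArg (f.symm T₀ : Equiv.Perm ℕ) h10
      exact ((Equiv.apply_symm_apply (f.symm T₀ : Equiv.Perm ℕ) _).symm.trans h11)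
    apply tendsto_nhds_of_eventually_eq
    filter_upwards [hopen.mem_nhds (by simp; positivity)] with T hT
    exact hev T hT
  exact (Homeomorph.mk f.toEquiv hcont hcont').isHomeomorph

end Pool.Agent.H182R2.CB
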