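import Pool.Agent.H182R2.CB.TDefs
import Pool.Agent.H182R2.CB.Fin

/-!
# Topological displayability
-/

namespace Pool.Agent.H182R2.CB

/-- Continuity of the action on the odd functions. -/
theorem Z1_cont {Y : Type*} [NormedAddCommGroup Y] [NormedSpace ℝ Y] {J : Type*}
    (S : Splitting Y J) {G : Type*} [Group G] (σ : G) {Θ : Type*} [Fintype Θ]
    (θ : G →* Equiv.Perm Θ) (ρ : G →* Equiv.Perm (ℕ × Θ)) (k₀ : ℕ)
    (hk₀ : ∀ g t, ρ g (k₀, t) = (k₀, θ g t)) (x : oddSpace Y (θ σ)) (ε : ℝ) (hε : 0 < ε) :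
    ∃ A : Finset ((ℕ × Θ) ⊕ (J × Θ)), ∀ g : G, (∀ e ∈ A, sumAct ρ θ J g e = e) →
      ∀ y : oddSpace Y (θ σ),
        (∀ e, Z1c S (θ σ) e y = Z1c S (θ σ) (sumAct ρ θ J g⁻¹ e) x) → ‖y - x‖ ≤ ε := by
  classical
  have hK : 0 < S.K := lt_of_lt_of_le zero_lt_one S.hK
  set ε' : ℝ := ε / (2 * S.K) with hε'
  have hε'0 : 0 < ε' := by positivity
  have hfin := Z1c_null S (θ σ) x ε' hε'0
  refine ⟨hfin.toFinset ∪ (Finset.univ.image fun t : Θ => (Sum.inl (k₀, t))), ?_⟩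
  intro g hg y hy
  have hA : ∀ e, ε' ≤ |Z1c S (θ σ) e x| → sumAct ρ θ J g e = e := by
    intro e he
    apply hg
    rw [Finset.mem_union]
    left
    simpa using he
  have hθ : ∀ t, θ g t = t := by
    intro t
    have h1 := hg (Sum.inl (k₀, t)) (by simp)
    have h2 : sumAct ρ θ J g (Sum.inl (k₀, t)) = Sum.inl (ρ g (k₀, t)) := rfl
    rw [h2, hk₀] at h1
    have h3 := Sum.inl_injective h1
    exact (Prod.mk.inj h3).2
  have hθ' : ∀ t, θ g⁻¹ t = t := by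
    intro t
    rw [map_inv, Equiv.Perm.inv_eq_iff_eq]
    exact (hθ t).symm
  -- coordinates of the difference
  have hdiff : ∀ e, |Z1c S (θ σ) (sumAct ρ θ J g⁻¹ e) x - Z1c S (θ σ) e x| ≤ 2 * ε' := by
    intro e
    by_cases he : ε' ≤ |Z1c S (θ σ) e x|
    · have h1 : sumAct ρ θ J g⁻¹ e = e := by
        rw [map_inv, Equiv.Perm.inv_eq_iff_eq]
        exact (hA e he).symm
      rw [h1, sub_self, abs_zero]
      positivity
    · push Not at he
      have h2 : |Z1c S (θ σ) (sumAct ρ θ J g⁻¹ e) x| < ε' := by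
        by_contra h3
        push Not at h3
        have h4 := hA _ h3
        have h5 : sumAct ρ θ J g (sumAct ρ θ J g⁻¹ e) = e := by
          rw [← Equiv.Perm.mul_apply, ← map_mul, mul_inv_cancel, map_one]; rfl
        rw [h5] at h4
        rw [← h4] at h3
        linarith
      have h6 := abs_sub (Z1c S (θ σ) (sumAct ρ θ J g⁻¹ e) x) (Z1c S (θ σ) e x)
      linarith
  have hnorm : ∀ t, ‖(y - x).1 t‖ ≤ ε := by
    intro t
    obtain ⟨z, hz1, hz2, hz3⟩ := S.lift (fun k => S.c (Sum.inl k) ((y - x).1 t)) (2 * ε')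
      (fun η hη => (S.null ((y - x).1 t) η hη).preimage
        (f := fun k : ℕ => (Sum.inl k : ℕ ⊕ J)) Sum.inl_injective.injOn)
      (by
        intro k
        have h1 : S.c (Sum.inl k) ((y - x).1 t) =
            Z1c S (θ σ) (Sum.inl (k, t)) y - Z1c S (θ σ) (Sum.inl (k, t)) x := by
          show S.c (Sum.inl k) (y.1 t - x.1 t) = S.c (Sum.inl k) (y.1 t) - S.c (Sum.inl k) (x.1 t)
          rw [map_sub]
        rw [h1, hy]
        exact hdiff _)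
    have h2 : (y - x).1 t = z := by
      rw [← sub_eq_zero]
      apply S.total
      rintro (k | j)
      · rw [map_sub, hz1, sub_self]
      · rw [map_sub, hz2, sub_zero]
        have h3 : S.c (Sum.inr j) ((y - x).1 t) =
            Z1c S (θ σ) (Sum.inr (j, t)) y - Z1c S (θ σ) (Sum.inr (j, t)) x := by
          show S.c (Sum.inr j) (y.1 t - x.1 t) = S.c (Sum.inr j) (y.1 t) - S.c (Sum.inr j) (x.1 t)
          rw [map_sub]
        have h4 : sumAct ρ θ J g⁻¹ (Sum.inr (j, t)) = Sum.inr (j, θ g⁻¹ t) := rfl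
        rw [h3, hy, h4, hθ', sub_self]
    rw [h2]
    refine hz3.trans ?_
    rw [hε']
    have : S.K * (2 * (ε / (2 * S.K))) = ε := by field_simp
    rw [this]
  show ‖(y - x).1‖ ≤ ε
  rw [pi_norm_le_iff_of_nonneg hε.le]
  exact hnorm

theorem TFIN_main {𝓕 : Set (Finset ℕ)} (h : IsRegularFamily 𝓕) (hs : ∀ n, {n} ∈ 𝓕) {X : Type*}
    [NormedAddCommGroup X] [NormedSpace ℝ X] [CompleteSpace X] {e : ℕ → X}
    (hX : IsCombinatorialSpace 𝓕 X e) (G K : Subgroup (Equiv.Perm ℕ)) (hG : IsClosedPerm G)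
    (hKG : K ≤ G) (hKopen : ∃ s : Finset ℕ, ∀ g ∈ G, (∀ i ∈ s, g i = i) → g ∈ K)
    (hKfin : K.relIndex G ≠ 0) (σ : G) (hσ2 : σ * σ = 1) (hσc : ∀ g : G, g * σ = σ * g)
    (hσK : (σ : Equiv.Perm ℕ) ∉ K) : TopDisplayable X G := by
  classical
  obtain ⟨Θ, hΘ, hΘne, θ, ρ, b, k₀, k₁, hθ, hρσ, hbinj, hbσ, hb, hpsupp, htsupp, hk, hk₀, hk₁⟩ :=
    D2_action G K hKG hKopen hKfin σ hσ2 hσc hσK
  have hθ2 : ∀ t, θ σ (θ σ t) = t := by
    intro t
    rw [← Equiv.Perm.mul_apply, ← map_mul, hσ2, map_one]; rfl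
  have hcard : ∃ n, 1 ≤ n ∧ Fintype.card Θ = 2 * n := by
    have heven : Even (Fintype.card Θ) := by
      by_contra hodd
      have h2 : (θ σ) ^ (2 ^ 1) = 1 := by
        ext t
        simp [pow_two, hθ2 t]
      have : Fact (Nat.Prime 2) := ⟨Nat.prime_two⟩
      have h3 : ¬ 2 ∣ Fintype.card Θ := by
        intro hd
        exact hodd (even_iff_two_dvd.mpr hd)
      obtain ⟨t, ht⟩ := Equiv.Perm.exists_fixed_point_of_prime h3 h2
      exact hθ t ht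
    obtain ⟨n, hn⟩ := heven
    have hpos : 0 < Fintype.card Θ := Fintype.card_pos
    exact ⟨n, by omega, by omega⟩
  obtain ⟨n, hn1, hn⟩ := hcard
  obtain ⟨hdil, hdils⟩ := X1_dil h hs n hn1
  obtain ⟨Y, e', hYcl, hY⟩ := X2_sub h hs n hn1 hX
  have : CompleteSpace Y := hYcl.completeSpace_coe
  obtain ⟨Φ⟩ := X3_iso h hs n hn1 hX hY (θ σ) hθ hθ2 hn
  obtain ⟨J, hJc, ⟨S⟩⟩ := C4_splitting hdil hdils hY
  obtain ⟨S', hS'⟩ := Z1_system_strong S σ hσ2 hσc θ hθ ρ hρσ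
  have : Countable J := hJc
  have : Nonempty Θ := hΘne
  have hinl : ∀ g p, (sumAct ρ θ J) g (Sum.inl p) = Sum.inl (ρ g p) := fun g p => rfl
  have hinr : ∀ g j t, (sumAct ρ θ J) g (Sum.inr (j, t)) = Sum.inr (j, θ g t) := fun g j t => rfl
  have hsupp : ∀ e : (ℕ × Θ) ⊕ (J × Θ), ∃ s : Finset ℕ, ∀ g : G,
      (∀ i ∈ s, (g : Equiv.Perm ℕ) i = i) → (sumAct ρ θ J) g e = e := by
    rintro (p | ⟨j, t⟩)
    · obtain ⟨F, hF⟩ := hpsupp p
      exact ⟨F, fun g hg => by rw [hinl, hF g hg]⟩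
    · obtain ⟨F, hF⟩ := htsupp t
      exact ⟨F, fun g hg => by rw [hinr, hF g hg]⟩
  obtain ⟨s, hs01, hsinv, hscl⟩ := D1_coding G hG (sumAct ρ θ J) σ (fun F => Sum.inl (b F))
    (fun F F' hFF => hbinj (Sum.inl_injective hFF))
    (fun F F' => by rw [hinl]; exact fun hh => hbσ F F' (Sum.inl_injective hh))
    (fun g g' F hF => hb g g' F (by
      rw [hinl, hinl] at hF
      exact Sum.inl_injective hF)) hsupp
  obtain ⟨t₀⟩ := hΘne
  have hfaith : Function.Injective (sumAct ρ θ J) := by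
    intro g g' hgg
    apply Subtype.ext
    apply Equiv.ext
    intro i
    refine hb g g' {i} ?_ i (Finset.mem_singleton_self i)
    have := congrArg (fun f : Equiv.Perm _ => f (Sum.inl (b {i}))) hgg
    simp only [hinl] at this
    exact Sum.inl_injective this
  obtain ⟨N, hN, f, hf⟩ := A_strong S' s hs01 hsinv hscl
    ((Finset.univ.image fun t : Θ => (Sum.inl (k₀, t) : (ℕ × Θ) ⊕ (J × Θ))) ∪
      (Finset.univ.image fun t : Θ => (Sum.inl (k₁, t) : (ℕ × Θ) ⊕ (J × Θ))))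
    (by
      intro g x hx
      simp only [Finset.mem_union, Finset.mem_image, Finset.mem_univ, true_and] at hx ⊢
      rcases hx with ⟨t, rfl⟩ | ⟨t, rfl⟩
      · left; exact ⟨θ g t, by rw [hinl, hk₀]⟩
      · right; exact ⟨θ g t, by rw [hinl, hk₁]⟩)
    (Sum.inl (k₀, t₀)) (Sum.inl (k₁, t₀)) (by simp) (by simp)
    (by
      intro hh
      have := Sum.inl_injective hh
      simp only [Prod.mk.injEq] at this
      exact hk this.1.symm)
    (by
      intro hh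
      rw [hinl, hk₀] at hh
      have := Sum.inl_injective hh
      simp only [Prod.mk.injEq] at this
      exact hk this.1.symm) hfaith
  -- the norm on X
  have hΦn : ∀ x, ‖Φ x‖ ≤ ‖(Φ : X →L[ℝ] oddSpace Y (θ σ))‖ * ‖x‖ := fun x =>
    (Φ : X →L[ℝ] oddSpace Y (θ σ)).le_opNorm x
  have hΦs : ∀ y, ‖Φ.symm y‖ ≤ ‖(Φ.symm : oddSpace Y (θ σ) →L[ℝ] X)‖ * ‖y‖ := fun y =>
    (Φ.symm : oddSpace Y (θ σ) →L[ℝ] X).le_opNorm y
  have hX4 := X4_transfer Φ (G := G) ⟨N, hN, ⟨f⟩⟩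
  -- equivalence of the transferred norm
  have hNX : ∃ m M : ℝ, 0 < m ∧ ∀ x, m * ‖x‖ ≤ (N.comp (Φ.toLinearEquiv : X →ₗ[ℝ] _)) x ∧
      (N.comp (Φ.toLinearEquiv : X →ₗ[ℝ] _)) x ≤ M * ‖x‖ := by
    obtain ⟨m, M, hm, hmM⟩ := hN
    refine ⟨m * (‖(Φ.symm : oddSpace Y (θ σ) →L[ℝ] X)‖ + 1)⁻¹,
      |M| * ‖(Φ : X →L[ℝ] oddSpace Y (θ σ))‖, by positivity, fun x => ⟨?_, ?_⟩⟩
    · have h1 := (hmM (Φ x)).1
      have h2 : ‖x‖ ≤ (‖(Φ.symm : oddSpace Y (θ σ) →L[ℝ] X)‖ + 1) * ‖Φ x‖ := by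
        have h3 := hΦs (Φ x)
        rw [Φ.symm_apply_apply] at h3
        nlinarith [norm_nonneg (Φ x)]
      have h5 : (‖(Φ.symm : oddSpace Y (θ σ) →L[ℝ] X)‖ + 1)⁻¹ * ‖x‖ ≤ ‖Φ x‖ := by
        rw [inv_mul_le_iff₀ (by positivity)]
        exact h2
      calc m * (‖(Φ.symm : oddSpace Y (θ σ) →L[ℝ] X)‖ + 1)⁻¹ * ‖x‖
          = m * ((‖(Φ.symm : oddSpace Y (θ σ) →L[ℝ] X)‖ + 1)⁻¹ * ‖x‖) := by ring
        _ ≤ m * ‖Φ x‖ := mul_le_mul_of_nonneg_left h5 hm.le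
        _ ≤ N (Φ x) := h1
    · have h1 := (hmM (Φ x)).2
      calc N (Φ x) ≤ M * ‖Φ x‖ := h1
        _ ≤ |M| * ‖Φ x‖ := mul_le_mul_of_nonneg_right (le_abs_self _) (norm_nonneg _)
        _ ≤ |M| * (‖(Φ : X →L[ℝ] oddSpace Y (θ σ))‖ * ‖x‖) :=
          mul_le_mul_of_nonneg_left (hΦn x) (abs_nonneg _)
        _ = |M| * ‖(Φ : X →L[ℝ] oddSpace Y (θ σ))‖ * ‖x‖ := by ring
  refine topDisplayable_of_identity G (N.comp (Φ.toLinearEquiv : X →ₗ[ℝ] _)) hNX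
    (f.trans (X4_equiv Φ.toLinearEquiv N)) ?_ ?_
  · -- continuity
    intro x ε hε
    set C : ℝ := ‖(Φ.symm : oddSpace Y (θ σ) →L[ℝ] X)‖ + 1 with hC
    have hC0 : 0 < C := by positivity
    obtain ⟨A, hA⟩ := Z1_cont S σ θ ρ k₀ hk₀ (Φ x) (ε / (2 * C)) (by positivity)
    choose F hF using hsupp
    refine ⟨A.biUnion F, fun g hg => ?_⟩
    have h1 := hA g (fun e he => hF e g (fun i hi => hg i (Finset.mem_biUnion.mpr ⟨e, he, hi⟩)))
      ((f g).1 (Φ x)) (fun e => by rw [← hS', hf, hS'])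
    have h2 : ((f.trans (X4_equiv Φ.toLinearEquiv N)) g).1 x - x =
        Φ.symm ((f g).1 (Φ x) - Φ x) := by
      rw [map_sub, Φ.symm_apply_apply]
      rfl
    rw [h2]
    calc ‖Φ.symm ((f g).1 (Φ x) - Φ x)‖
        ≤ ‖(Φ.symm : oddSpace Y (θ σ) →L[ℝ] X)‖ * ‖(f g).1 (Φ x) - Φ x‖ := hΦs _
      _ ≤ C * (ε / (2 * C)) := by
          gcongr
          rw [hC]; linarith
      _ = ε / 2 := by field_simp
      _ < ε := by linarith
  · intro i
    set v : oddSpace Y (θ σ) := S'.v (Sum.inl (b {i})) with hv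
    set C : ℝ := ‖(Φ : X →L[ℝ] oddSpace Y (θ σ))‖ + 1 with hC
    have hC0 : 0 < C := by positivity
    have hK0 : 0 < S'.K := lt_of_lt_of_le zero_lt_one S'.hK
    refine ⟨Φ.symm v, 1 / (2 * S'.K * C), by positivity, fun g hg => ?_⟩
    have h2 : Φ (((f.trans (X4_equiv Φ.toLinearEquiv N)) g).1 (Φ.symm v) - Φ.symm v) =
        (f g).1 v - v := by
      have h3 : ((f.trans (X4_equiv Φ.toLinearEquiv N)) g).1 (Φ.symm v) =
          Φ.symm ((f g).1 (Φ (Φ.symm v))) := rfl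
      rw [h3, Φ.apply_symm_apply, map_sub, Φ.apply_symm_apply, Φ.apply_symm_apply]
    have h4 : ‖(f g).1 v - v‖ ≤ 1 / (2 * S'.K) := by
      rw [← h2]
      calc ‖Φ (((f.trans (X4_equiv Φ.toLinearEquiv N)) g).1 (Φ.symm v) - Φ.symm v)‖
          ≤ ‖(Φ : X →L[ℝ] oddSpace Y (θ σ))‖ *
            ‖((f.trans (X4_equiv Φ.toLinearEquiv N)) g).1 (Φ.symm v) - Φ.symm v‖ := hΦn _
        _ ≤ C * (1 / (2 * S'.K * C)) := by
            gcongr
            rw [hC]; linarith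
        _ = 1 / (2 * S'.K) := by field_simp
    have h5 := S'.c_bound (Sum.inl (b {i})) ((f g).1 v - v)
    rw [map_sub, hf, hv, S'.bio] at h5
    have h6 : S'.K * ‖(f g).1 (S'.v (Sum.inl (b {i}))) - S'.v (Sum.inl (b {i}))‖ ≤ 1 / 2 := by
      calc S'.K * ‖(f g).1 (S'.v (Sum.inl (b {i}))) - S'.v (Sum.inl (b {i}))‖
          ≤ S'.K * (1 / (2 * S'.K)) := by gcongr
        _ = 1 / 2 := by field_simp
    have h7 : |S'.c ((sumAct ρ θ J) g⁻¹ (Sum.inl (b {i}))) (S'.v (Sum.inl (b {i}))) - 1| ≤ 1 / 2 :=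
      h5.trans h6
    obtain ⟨-, -, -, -, hcv, -⟩ := A0a_basic S'
    have h8 : (sumAct ρ θ J) g⁻¹ (Sum.inl (b {i})) = Sum.inl (b {i}) := by
      by_contra hne
      by_cases h9 : Sum.inl (b {i}) = (sumAct ρ θ J) σ ((sumAct ρ θ J) g⁻¹ (Sum.inl (b {i})))
      · have h10 := hcv ((sumAct ρ θ J) g⁻¹ (Sum.inl (b {i})))
        rw [← h9] at h10
        rw [h10] at h7
        norm_num at h7
      · have h10 := S'.bio' ((sumAct ρ θ J) g⁻¹ (Sum.inl (b {i}))) (Sum.inl (b {i}))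
          (fun h => hne h.symm) h9
        rw [h10] at h7
        norm_num at h7
    have h11 : ρ g⁻¹ (b {i}) = ρ 1 (b {i}) := by
      rw [map_one, Equiv.Perm.one_apply]
      exact Sum.inl_injective h8
    have h12 := hb g⁻¹ 1 {i} h11 i (Finset.mem_singleton_self i)
    have h13 : (g : Equiv.Perm ℕ)⁻¹ i = i := h12
    have h14 := congrArg (g : Equiv.Perm ℕ) h13
    have h15 : (g : Equiv.Perm ℕ) ((g : Equiv.Perm ℕ)⁻¹ i) = i := Equiv.apply_symm_apply _ _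
    rw [h15] at h14
    exact h14.symm

end Pool.Agent.H182R2.CB
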